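import Pool.Agent.H36.FA.Def

/-!
# [H36 FA ANN] Lattice points in the annular box

`n = [K : ℚ]` (even), `t = X ^ (1/n)`. `sbc` (H1/LS4/Sbc.lean, `C₁`, `A`) counts `α ≡ r (𝔞)` with `w α ≤ t w`, with relative error `θ`, if
`C₁ dd^A N𝔞 ≤ θ^n PN t`; here `dd K` is a constant.
* `ann_cnt`: the annular box is `∑_{s ⊆ places} (-1)^#s #{BxF t_s}`, `t_s w = t` for `w ∈ s` and `2 t` otherwise (inclusion - exclusion:
  `∏_w (1_{w α ≤ 2 t} - 1_{w α ≤ t})`); `∑_s (-1)^#s ∏_w (t_s w)^2 = (4 t^2 - t^2)^(n/2) = 3^(n/2) X`, so `κ = kpn n 3^(n/2) / √dd`. For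
  `C₁ dd^A N𝔞 ≤ X` take `θ = (C₁ dd^A N𝔞 / PN t_s)^(1/n) ≤ 1` (`PN t_s ≥ t^n = X`); the error is `C₁ θ PN t_s / (N𝔞 √dd) ≤ C X^(1 - 1/n)` (`N𝔞 ≥ 1`,
  `PN t_s ≤ 2^n X`). For `N𝔞 ≤ X < C₁ dd^A N𝔞` both terms are bounded by a constant (enlarge the box by a constant factor, `θ = 1`).
-/

set_option autoImplicit false

open scoped NumberField Classical
open IsDedekindDomain NumberField

noncomputable section

namespace Pool.Agent.H36.FA

open H63.MA H38.BB H38.BG H77.PC3 H51.SN H57.SL H36.QA H1.LS4 H38.ML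

/-- the number of points in the box with radii `t` -/
private def ann_N {K : Type} [Field K] [NumberField K] (𝔞 : Ideal (𝓞 K)) (r : 𝓞 K)
    (t : InfinitePlace K → ℝ) : ℝ := (({α : 𝓞 K | α - r ∈ 𝔞 ∧ BxF t α}.ncard : ℕ) : ℝ)

private theorem ann_mono {K : Type} [Field K] [NumberField K] (𝔞 : Ideal (𝓞 K)) (r : 𝓞 K)
    (t t' : InfinitePlace K → ℝ) (h : ∀ w, t w ≤ t' w) : ann_N 𝔞 r t ≤ ann_N 𝔞 r t' := by
  unfold ann_N
  have h1 : {α : 𝓞 K | α - r ∈ 𝔞 ∧ BxF t α}.ncard ≤ {α : 𝓞 K | α - r ∈ 𝔞 ∧ BxF t' α}.ncard := by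
    refine Set.ncard_le_ncard ?_ ((finite_bxF t').subset fun _ h => h.2)
    rintro α ⟨h1, h2⟩
    exact ⟨h1, fun w => (h2 w).trans (h w)⟩
  exact_mod_cast h1

private theorem ann_N_nonneg {K : Type} [Field K] [NumberField K] (𝔞 : Ideal (𝓞 K)) (r : 𝓞 K)
    (t : InfinitePlace K → ℝ) : 0 ≤ ann_N 𝔞 r t := by
  unfold ann_N
  exact Nat.cast_nonneg _

private theorem ann_scale {K : Type} [Field K] [NumberField K] (hK : TC K (Module.finrank ℚ K))
    (c : ℝ) (t : InfinitePlace K → ℝ) : PN K (fun w => c * t w) = c ^ (Module.finrank ℚ K) * PN K t := by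
  unfold PN
  rw [Finset.prod_congr rfl (fun w _ => mul_pow c (t w) 2), Finset.prod_mul_distrib, Finset.prod_const,
    Finset.card_univ, ← pow_mul, H57.TLS.box_card _ K hK]

private theorem ann_one (K : Type) [Field K] [NumberField K] (hK : TC K (Module.finrank ℚ K)) :
    ∃ C : ℝ, 1 ≤ C ∧ ∀ 𝔞 : Ideal (𝓞 K), 𝔞 ≠ ⊥ → ∀ (r : 𝓞 K) (X : ℝ), 1 ≤ X →
      (Ideal.absNorm 𝔞 : ℝ) ≤ X → ∀ t : InfinitePlace K → ℝ, (∀ w, 0 < t w) → X ≤ PN K t →
      PN K t ≤ 2 ^ (Module.finrank ℚ K) * X →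
        |ann_N 𝔞 r t - H57.TLS.kpn (Module.finrank ℚ K) * PN K t / (Ideal.absNorm 𝔞 * Real.sqrt (dd K))| ≤
          C * X ^ (1 - 1 / (Module.finrank ℚ K : ℝ)) := by
  obtain ⟨n, hn⟩ : ∃ n, n = Module.finrank ℚ K := ⟨_, rfl⟩
  have hscale := ann_scale hK
  rw [← hn] at hK hscale ⊢
  have hn0 : 0 < n := by
    rw [hn]
    exact Module.finrank_pos
  obtain ⟨C₁, hC₁, A, hbox⟩ := sbc n hn0
  have hkp := H57.TLS.kpn_pos n
  have hdd := one_le_dd K
  obtain ⟨M, hM⟩ : ∃ M : ℝ, M = C₁ * dd K ^ A := ⟨_, rfl⟩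
  have hM1 : 1 ≤ M := by
    rw [hM]
    exact one_le_mul_of_one_le_of_one_le hC₁ (one_le_pow₀ hdd)
  have hM0 : 0 < M := by linarith
  have hs1 : 1 ≤ Real.sqrt (dd K) := by
    rw [Real.one_le_sqrt]
    exact hdd
  have hs0 : 0 < Real.sqrt (dd K) := by linarith
  obtain ⟨C₃, hC₃⟩ : ∃ C₃ : ℝ, C₃ = (H57.TLS.kpn n + C₁) * M ^ n * 2 ^ n + H57.TLS.kpn n * 2 ^ n := ⟨_, rfl⟩
  have hC₃0 : 0 ≤ C₃ := by
    rw [hC₃]
    have : 0 ≤ C₁ := by linarith
    positivity
  have hC₂0 : 1 ≤ C₁ * M * 2 ^ n :=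
    one_le_mul_of_one_le_of_one_le (one_le_mul_of_one_le_of_one_le hC₁ hM1) (one_le_pow₀ (by norm_num))
  refine ⟨C₁ * M * 2 ^ n + C₃ * M, by nlinarith [mul_nonneg hC₃0 hM0.le], ?_⟩
  intro 𝔞 h𝔞 r X hX hNX t ht hPl hPu
  have hX0 : 0 < X := by linarith
  have hN1 : (1 : ℝ) ≤ (Ideal.absNorm 𝔞 : ℝ) := by
    have h1 : Ideal.absNorm 𝔞 ≠ 0 := by
      rw [Ne, Ideal.absNorm_eq_zero_iff]
      exact h𝔞
    exact_mod_cast Nat.one_le_iff_ne_zero.2 h1
  obtain ⟨N, hN⟩ : ∃ N : ℝ, N = (Ideal.absNorm 𝔞 : ℝ) := ⟨_, rfl⟩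
  rw [← hN] at hN1 hNX ⊢
  have hN0 : 0 < N := by linarith
  obtain ⟨P, hP⟩ : ∃ P : ℝ, P = PN K t := ⟨_, rfl⟩
  have hP0 : 0 < P := by
    rw [hP]
    linarith
  have hXe1 : 1 ≤ X ^ (1 - 1 / (n : ℝ)) := by
    refine Real.one_le_rpow hX ?_
    rw [sub_nonneg, div_le_one (by exact_mod_cast hn0)]
    exact_mod_cast hn0
  have key : |ann_N 𝔞 r t * (N * Real.sqrt (dd K)) - H57.TLS.kpn n * P| ≤
      (C₁ * M * 2 ^ n + C₃ * M) * (N * X ^ (1 - 1 / (n : ℝ))) := by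
    rcases le_total (M * N) X with hc | hc
    · -- small modulus
      obtain ⟨θ, hθ⟩ : ∃ θ : ℝ, θ = (M * N / X) ^ (1 / (n : ℝ)) := ⟨_, rfl⟩
      have hq0 : 0 < M * N / X := by positivity
      have hq1 : M * N / X ≤ 1 := by
        rw [div_le_one hX0]
        exact hc
      have hθ0 : 0 < θ := by
        rw [hθ]
        exact Real.rpow_pos_of_pos hq0 _
      have hθ1 : θ ≤ 1 := by
        rw [hθ]
        exact Real.rpow_le_one hq0.le hq1 (by positivity)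
      have hθn : θ ^ n = M * N / X := by
        rw [hθ, ← Real.rpow_natCast, ← Real.rpow_mul hq0.le, one_div_mul_cancel (by exact_mod_cast hn0.ne'),
          Real.rpow_one]
      have h1 := hbox K hK 𝔞 h𝔞 t ht θ hθ0 hθ1 (by
        rw [← hM, ← hN, hθn]
        have h2 : M * N / X * X ≤ M * N / X * PN K t := mul_le_mul_of_nonneg_left hPl hq0.le
        rw [div_mul_cancel₀ _ hX0.ne'] at h2
        exact h2) r
      rw [← hN, ← hP] at h1
      refine (show |ann_N 𝔞 r t * (N * Real.sqrt (dd K)) - H57.TLS.kpn n * P| ≤ C₁ * (θ * P) from h1).trans ?_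
      have h3 : θ * X ≤ M * N * X ^ (1 - 1 / (n : ℝ)) := by
        have h4 : θ * X = (M * N) ^ (1 / (n : ℝ)) * X ^ (1 - 1 / (n : ℝ)) := by
          rw [hθ, Real.div_rpow (by positivity) hX0.le, Real.rpow_sub hX0, Real.rpow_one]
          field_simp
        rw [h4]
        refine mul_le_mul_of_nonneg_right ?_ (by positivity)
        have h5 : (M * N) ^ (1 / (n : ℝ)) ≤ (M * N) ^ (1 : ℝ) := by
          refine Real.rpow_le_rpow_of_exponent_le (one_le_mul_of_one_le_of_one_le hM1 hN1) ?_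
          rw [div_le_one (by exact_mod_cast hn0)]
          exact_mod_cast hn0
        rw [Real.rpow_one] at h5
        exact h5
      have h6 : C₁ * (θ * P) ≤ C₁ * (θ * (2 ^ n * X)) := by
        refine mul_le_mul_of_nonneg_left (mul_le_mul_of_nonneg_left ?_ hθ0.le) (by linarith)
        rw [hP]
        exact hPu
      have h7 : C₁ * (θ * (2 ^ n * X)) = C₁ * 2 ^ n * (θ * X) := by ring
      have h8 : C₁ * 2 ^ n * (θ * X) ≤ C₁ * 2 ^ n * (M * N * X ^ (1 - 1 / (n : ℝ))) :=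
        mul_le_mul_of_nonneg_left h3 (by
          have : 0 ≤ C₁ := by linarith
          positivity)
      have h9 : 0 ≤ C₃ * M * (N * X ^ (1 - 1 / (n : ℝ))) := by positivity
      have h10 : C₁ * 2 ^ n * (M * N * X ^ (1 - 1 / (n : ℝ))) =
          C₁ * M * 2 ^ n * (N * X ^ (1 - 1 / (n : ℝ))) := by ring
      rw [add_mul]
      linarith
    · -- large modulus
      have h1 := hbox K hK 𝔞 h𝔞 (fun w => M * t w) (fun w => mul_pos hM0 (ht w)) 1 one_pos le_rfl (by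
        rw [← hM, ← hN, one_pow, one_mul, hscale]
        have h2 : M * X ≤ M ^ n * PN K t := by
          refine mul_le_mul ?_ hPl hX0.le (by positivity)
          exact le_self_pow₀ hM1 hn0.ne'
        have h3 : M * N ≤ M * X := mul_le_mul_of_nonneg_left hNX hM0.le
        exact h3.trans h2) r
      rw [← hN, one_mul, hscale, ← hP] at h1
      have h2 : |ann_N 𝔞 r (fun w => M * t w) * (N * Real.sqrt (dd K)) - H57.TLS.kpn n * (M ^ n * P)| ≤
        C₁ * (M ^ n * P) := h1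
      have h3 := (abs_le.1 h2).2
      have h4 : ann_N 𝔞 r t ≤ ann_N 𝔞 r (fun w => M * t w) :=
        ann_mono 𝔞 r _ _ fun w => le_mul_of_one_le_left (ht w).le hM1
      have h5 : ann_N 𝔞 r t * (N * Real.sqrt (dd K)) ≤ (H57.TLS.kpn n + C₁) * (M ^ n * P) := by
        have h6 := mul_le_mul_of_nonneg_right h4 (show 0 ≤ N * Real.sqrt (dd K) by positivity)
        rw [add_mul]
        linarith
      have h6 : 0 ≤ ann_N 𝔞 r t * (N * Real.sqrt (dd K)) :=
        mul_nonneg (ann_N_nonneg 𝔞 r t) (by positivity)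
      have h7 : P ≤ 2 ^ n * X := by
        rw [hP]
        exact hPu
      have h8 : (H57.TLS.kpn n + C₁) * (M ^ n * P) ≤ (H57.TLS.kpn n + C₁) * (M ^ n * (2 ^ n * X)) := by
        refine mul_le_mul_of_nonneg_left (mul_le_mul_of_nonneg_left h7 (by positivity)) ?_
        linarith
      have h9 : H57.TLS.kpn n * P ≤ H57.TLS.kpn n * (2 ^ n * X) := mul_le_mul_of_nonneg_left h7 hkp.le
      have h10 : (H57.TLS.kpn n + C₁) * (M ^ n * (2 ^ n * X)) + H57.TLS.kpn n * (2 ^ n * X) = C₃ * X := by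
        rw [hC₃]
        ring
      have h11 : |ann_N 𝔞 r t * (N * Real.sqrt (dd K)) - H57.TLS.kpn n * P| ≤ C₃ * X := by
        rw [abs_le]
        have h12 : 0 ≤ H57.TLS.kpn n * P := by positivity
        constructor <;> linarith
      refine h11.trans ?_
      have h13 : C₃ * X ≤ C₃ * (M * N) := mul_le_mul_of_nonneg_left hc hC₃0
      have h14 : C₃ * (M * N) ≤ C₃ * (M * N) * X ^ (1 - 1 / (n : ℝ)) :=
        le_mul_of_one_le_right (by positivity) hXe1
      have h15 : 0 ≤ C₁ * M * 2 ^ n * (N * X ^ (1 - 1 / (n : ℝ))) := by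
        have : 0 ≤ C₁ := by linarith
        positivity
      rw [add_mul]
      have h16 : C₃ * (M * N) * X ^ (1 - 1 / (n : ℝ)) = C₃ * M * (N * X ^ (1 - 1 / (n : ℝ))) := by ring
      linarith
  have hD : 0 < N * Real.sqrt (dd K) := by positivity
  have e1 : ann_N 𝔞 r t - H57.TLS.kpn n * PN K t / (N * Real.sqrt (dd K)) =
      (ann_N 𝔞 r t * (N * Real.sqrt (dd K)) - H57.TLS.kpn n * P) / (N * Real.sqrt (dd K)) := by
    rw [hP]
    field_simp
  rw [e1, abs_div, abs_of_pos hD, div_le_iff₀ hD]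
  refine key.trans ?_
  have hcn : 0 ≤ (C₁ * M * 2 ^ n + C₃ * M) * X ^ (1 - 1 / (n : ℝ)) := by positivity
  have h20 : (C₁ * M * 2 ^ n + C₃ * M) * (N * X ^ (1 - 1 / (n : ℝ))) =
      ((C₁ * M * 2 ^ n + C₃ * M) * X ^ (1 - 1 / (n : ℝ))) * N := by ring
  rw [h20]
  refine mul_le_mul_of_nonneg_left ?_ hcn
  exact le_mul_of_one_le_right hN0.le hs1

/-- the radii -/
private def ann_t {K : Type} [Field K] [NumberField K] (t : ℝ) (s : Finset (InfinitePlace K))
    (w : InfinitePlace K) : ℝ := if w ∈ s then t else 2 * t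

/-- inclusion and exclusion -/
private theorem ann_ie {K : Type} [Field K] [NumberField K] (𝔞 : Ideal (𝓞 K)) (r : 𝓞 K) (X : ℝ)
    (hX : 1 ≤ X) :
    (((Ax K X).filter fun α => α - r ∈ 𝔞).card : ℝ) =
      ∑ s ∈ (Finset.univ : Finset (InfinitePlace K)).powerset,
        (-1) ^ s.card * ann_N 𝔞 r (ann_t (X ^ (1 / (Module.finrank ℚ K : ℝ))) s) := by
  obtain ⟨t, ht⟩ : ∃ t : ℝ, t = X ^ (1 / (Module.finrank ℚ K : ℝ)) := ⟨_, rfl⟩
  have ht0 : 0 < t := by
    rw [ht]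
    exact Real.rpow_pos_of_pos (by linarith) _
  have hfin : {α : 𝓞 K | α - r ∈ 𝔞 ∧ BxF (fun _ => 2 * t) α}.Finite :=
    (finite_bxF (fun _ => 2 * t)).subset fun _ h => h.2
  obtain ⟨B, hB⟩ : ∃ B : Finset (𝓞 K), ∀ α, α ∈ B ↔ α - r ∈ 𝔞 ∧ BxF (fun _ => 2 * t) α :=
    ⟨hfin.toFinset, fun α => by rw [Set.Finite.mem_toFinset]; rfl⟩
  have h1 : ((Ax K X).filter fun α => α - r ∈ 𝔞) = B.filter fun α : 𝓞 K => ∀ w : InfinitePlace K, ¬ w (α : K) ≤ t := by
    ext α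
    rw [Finset.mem_filter, Finset.mem_filter, mem_Ax, hB, ← ht]
    constructor
    · rintro ⟨ha, hb⟩
      exact ⟨⟨hb, fun w => (ha w).2⟩, fun w => not_le.2 (ha w).1⟩
    · rintro ⟨⟨ha, hb⟩, hc⟩
      exact ⟨fun w => ⟨not_le.1 (hc w), hb w⟩, ha⟩
  have h2 : ∀ s : Finset (InfinitePlace K), ann_N 𝔞 r (ann_t t s) =
      ∑ α ∈ B, ∏ w ∈ s, (if w (α : K) ≤ t then (1 : ℝ) else 0) := by
    intro s
    have h3 : {α : 𝓞 K | α - r ∈ 𝔞 ∧ BxF (ann_t t s) α} = ↑(B.filter fun α : 𝓞 K => ∀ w ∈ s, w (α : K) ≤ t) := by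
      ext α
      rw [Finset.mem_coe, Finset.mem_filter, hB, Set.mem_ofPred_eq]
      constructor
      · rintro ⟨ha, hb⟩
        refine ⟨⟨ha, fun w => ?_⟩, fun w hw => ?_⟩
        · have h4 := hb w
          unfold ann_t at h4
          split_ifs at h4
          · linarith
          · exact h4
        · have h4 := hb w
          unfold ann_t at h4
          rw [if_pos hw] at h4
          exact h4
      · rintro ⟨⟨ha, hb⟩, hc⟩
        refine ⟨ha, fun w => ?_⟩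
        unfold ann_t
        split_ifs with hw
        · exact hc w hw
        · exact hb w
    unfold ann_N
    rw [h3, Set.ncard_coe_finset, Finset.card_filter, Nat.cast_sum]
    refine Finset.sum_congr rfl fun α _ => ?_
    rw [Finset.prod_ite_zero, Finset.prod_const_one]
    split_ifs <;> simp
  rw [h1, Finset.card_filter, Nat.cast_sum, ← ht]
  have h10 : ∑ s ∈ (Finset.univ : Finset (InfinitePlace K)).powerset, (-1) ^ s.card * ann_N 𝔞 r (ann_t t s) =
      ∑ α ∈ B, ∑ s ∈ (Finset.univ : Finset (InfinitePlace K)).powerset,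
        (-1) ^ s.card * ∏ w ∈ s, (if w (α : K) ≤ t then (1 : ℝ) else 0) := by
    rw [Finset.sum_comm]
    refine Finset.sum_congr rfl fun s _ => ?_
    rw [h2 s, Finset.mul_sum]
  rw [h10]
  refine Finset.sum_congr rfl fun α _ => ?_
  have h5 := Finset.prod_add (fun w : InfinitePlace K => -(if w (α : K) ≤ t then (1 : ℝ) else 0))
    (fun _ => 1) Finset.univ
  have h6 : ∑ s ∈ (Finset.univ : Finset (InfinitePlace K)).powerset,
      (-1) ^ s.card * ∏ w ∈ s, (if w (α : K) ≤ t then (1 : ℝ) else 0) =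
      ∏ w : InfinitePlace K, (-(if w (α : K) ≤ t then (1 : ℝ) else 0) + 1) := by
    rw [h5]
    refine Finset.sum_congr rfl fun s _ => ?_
    rw [Finset.prod_neg, Finset.prod_const_one, mul_one]
  rw [h6]
  have h7 : ∀ w : InfinitePlace K, (-(if w (α : K) ≤ t then (1 : ℝ) else 0) + 1) =
      if ¬ w (α : K) ≤ t then 1 else 0 := by
    intro w
    split_ifs <;> norm_num
  rw [Finset.prod_congr rfl fun w _ => h7 w, Finset.prod_ite_zero, Finset.prod_const_one]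
  by_cases h8 : ∀ w : InfinitePlace K, ¬ w (α : K) ≤ t
  · rw [if_pos h8, if_pos (fun w _ => h8 w), Nat.cast_one]
  · rw [if_neg h8, if_neg (fun h9 => h8 fun w => h9 w (Finset.mem_univ w)), Nat.cast_zero]

private theorem ann_sum {K : Type} [Field K] [NumberField K] (t : ℝ) :
    ∑ s ∈ (Finset.univ : Finset (InfinitePlace K)).powerset, (-1) ^ s.card * PN K (ann_t t s) =
      (3 * t ^ 2) ^ Fintype.card (InfinitePlace K) := by
  have h1 := Finset.prod_add (fun _ : InfinitePlace K => -t ^ 2) (fun _ => (2 * t) ^ 2) Finset.univ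
  have h2 : ∏ w : InfinitePlace K, (-t ^ 2 + (2 * t) ^ 2) = (3 * t ^ 2) ^ Fintype.card (InfinitePlace K) := by
    rw [Finset.prod_const, Finset.card_univ]
    congr 1
    ring
  rw [← h2, h1]
  refine Finset.sum_congr rfl fun s _ => ?_
  unfold PN
  have h3 : ∏ w : InfinitePlace K, ann_t t s w ^ 2 =
      (∏ w ∈ s, t ^ 2) * ∏ w ∈ Finset.univ \ s, (2 * t) ^ 2 := by
    rw [← Finset.prod_sdiff (Finset.subset_univ s), mul_comm]
    congr 1
    · refine Finset.prod_congr rfl fun w hw => ?_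
      unfold ann_t
      rw [if_pos hw]
    · refine Finset.prod_congr rfl fun w hw => ?_
      unfold ann_t
      rw [if_neg (Finset.mem_sdiff.1 hw).2]
  rw [h3, ← mul_assoc, ← Finset.prod_neg]

theorem ann_cnt (K : Type) [Field K] [NumberField K] (hK : NumberField.IsTotallyComplex K) :
    ∃ κ C : ℝ, 0 < κ ∧ 1 ≤ C ∧ ∀ 𝔞 : Ideal (𝓞 K), 𝔞 ≠ ⊥ → ∀ (r : 𝓞 K) (X : ℝ), 1 ≤ X →
      (Ideal.absNorm 𝔞 : ℝ) ≤ X →
        |(((Ax K X).filter fun α => α - r ∈ 𝔞).card : ℝ) - κ * X / Ideal.absNorm 𝔞| ≤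
          C * X ^ (1 - 1 / (Module.finrank ℚ K : ℝ)) := by
  have hTC : TC K (Module.finrank ℚ K) := ⟨hK, rfl⟩
  obtain ⟨C, hC, hone⟩ := ann_one K hTC
  have hcard := H57.TLS.box_card _ K hTC
  obtain ⟨n, hn⟩ : ∃ n, n = Module.finrank ℚ K := ⟨_, rfl⟩
  obtain ⟨m, hm⟩ : ∃ m, m = Fintype.card (InfinitePlace K) := ⟨_, rfl⟩
  have hn0 : 0 < n := by
    rw [hn]
    exact Module.finrank_pos
  rw [← hn, ← hm] at hcard
  have hkp := H57.TLS.kpn_pos n
  have hdd := one_le_dd K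
  have hs0 : 0 < Real.sqrt (dd K) := by
    refine Real.sqrt_pos.2 ?_
    linarith
  refine ⟨H57.TLS.kpn n * 3 ^ m / Real.sqrt (dd K), 2 ^ m * C, by positivity,
    one_le_mul_of_one_le_of_one_le (one_le_pow₀ (by norm_num)) hC, ?_⟩
  intro 𝔞 h𝔞 r X hX hNX
  have hX0 : 0 < X := by linarith
  have hN0 : (0 : ℝ) < (Ideal.absNorm 𝔞 : ℝ) := by
    have h1 : Ideal.absNorm 𝔞 ≠ 0 := by
      rw [Ne, Ideal.absNorm_eq_zero_iff]
      exact h𝔞
    exact_mod_cast Nat.pos_of_ne_zero h1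
  obtain ⟨t, ht⟩ : ∃ t : ℝ, t = X ^ (1 / (Module.finrank ℚ K : ℝ)) := ⟨_, rfl⟩
  have ht0 : 0 < t := by
    rw [ht]
    exact Real.rpow_pos_of_pos hX0 _
  have htn : t ^ n = X := by
    rw [ht, ← hn, ← Real.rpow_natCast, ← Real.rpow_mul hX0.le, one_div_mul_cancel (by exact_mod_cast hn0.ne'),
      Real.rpow_one]
  have htm : (t ^ 2) ^ m = X := by
    rw [← pow_mul, hcard, htn]
  rw [ann_ie 𝔞 r X hX, ← ht]
  have hmain : H57.TLS.kpn n * 3 ^ m / Real.sqrt (dd K) * X / (Ideal.absNorm 𝔞 : ℝ) =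
      ∑ s ∈ (Finset.univ : Finset (InfinitePlace K)).powerset,
        (-1) ^ s.card * (H57.TLS.kpn n * PN K (ann_t t s) / (Ideal.absNorm 𝔞 * Real.sqrt (dd K))) := by
    have h1 : ∀ s : Finset (InfinitePlace K),
        (-1) ^ s.card * (H57.TLS.kpn n * PN K (ann_t t s) / (Ideal.absNorm 𝔞 * Real.sqrt (dd K))) =
        (H57.TLS.kpn n / (Ideal.absNorm 𝔞 * Real.sqrt (dd K))) * ((-1) ^ s.card * PN K (ann_t t s)) := by
      intro s
      ring
    rw [Finset.sum_congr rfl fun s _ => h1 s, ← Finset.mul_sum, ann_sum, ← hm, mul_pow, htm]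
    field_simp
  rw [hmain, ← Finset.sum_sub_distrib]
  refine (Finset.abs_sum_le_sum_abs _ _).trans ?_
  have h2 : ∀ s ∈ (Finset.univ : Finset (InfinitePlace K)).powerset,
      |(-1) ^ s.card * ann_N 𝔞 r (ann_t t s) -
        (-1) ^ s.card * (H57.TLS.kpn n * PN K (ann_t t s) / (Ideal.absNorm 𝔞 * Real.sqrt (dd K)))| ≤
        C * X ^ (1 - 1 / (Module.finrank ℚ K : ℝ)) := by
    intro s _
    rw [← mul_sub, abs_mul, abs_pow, abs_neg, abs_one, one_pow, one_mul, hn]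
    have hlo : ∀ w, t ≤ ann_t t s w := by
      intro w
      unfold ann_t
      split_ifs <;> linarith
    have hup : ∀ w, ann_t t s w ≤ 2 * t := by
      intro w
      unfold ann_t
      split_ifs <;> linarith
    refine hone 𝔞 h𝔞 r X hX hNX (ann_t t s) (fun w => lt_of_lt_of_le ht0 (hlo w)) ?_ ?_
    · have h3 : ∏ w : InfinitePlace K, t ^ 2 ≤ PN K (ann_t t s) := by
        unfold PN
        exact Finset.prod_le_prod (fun w _ => by positivity)
          (fun w _ => pow_le_pow_left₀ ht0.le (hlo w) 2)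
      rw [Finset.prod_const, Finset.card_univ, ← hm, htm] at h3
      exact h3
    · have h3 : PN K (ann_t t s) ≤ ∏ w : InfinitePlace K, (2 * t) ^ 2 := by
        unfold PN
        exact Finset.prod_le_prod (fun w _ => by positivity)
          (fun w _ => pow_le_pow_left₀ (ht0.le.trans (hlo w)) (hup w) 2)
      rw [Finset.prod_const, Finset.card_univ, ← hm, ← pow_mul, hcard, mul_pow, htn, hn] at h3
      exact h3
  refine (Finset.sum_le_sum h2).trans ?_
  rw [Finset.sum_const, Finset.card_powerset, Finset.card_univ, ← hm, nsmul_eq_mul, Nat.cast_pow, ← mul_assoc]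
  norm_num

end Pool.Agent.H36.FA
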