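import Pool.Agent.H36.FA.Def

/-!
# [H36 FA ANU] The norm of the elements of the box, and the upper bound for lattice points

`n = [K : ℚ]` (even), `t = X ^ (1/n)`. `sbc` (H1/LS4/Sbc.lean, `C₁`, `A`) counts `α ≡ r (𝔞)` with `w α ≤ t w`, with relative error `θ`, if
`C₁ dd^A N𝔞 ≤ θ^n PN t`; here `dd K` is a constant.
* `ann_norm`: `N(α) = ∏_w (w α)^2` (`prod_sq_eq_norm`-type lemma in H36/QA, see H1/LS4/Rad.lean), `n / 2` places (`box_card`).
* `ann_up`: if `N𝔞 > 2^n X` there is no such `α` (`α ≠ 0`, `N𝔞 ≤ N(α) ≤ 2^n X`, `ann_norm`); otherwise enlarge the box `2 t` by a constant factor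
  `c` with `(2 c t)^n ≥ C₁ dd^A N𝔞` and take `θ = 1`.
-/

set_option autoImplicit false

open scoped NumberField Classical
open IsDedekindDomain NumberField

noncomputable section

namespace Pool.Agent.H36.FA

open H63.MA H38.BB H38.BG H77.PC3 H51.SN H57.SL H36.QA H1.LS4 H38.ML

private theorem anu_pow (K : Type) [Field K] [NumberField K] (X : ℝ) (hX : 0 < X) :
    0 < X ^ (1 / (Module.finrank ℚ K : ℝ)) ∧
      (X ^ (1 / (Module.finrank ℚ K : ℝ))) ^ Module.finrank ℚ K = X := by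
  have hn : Module.finrank ℚ K ≠ 0 := Module.finrank_pos.ne'
  refine ⟨Real.rpow_pos_of_pos hX _, ?_⟩
  rw [one_div]
  exact Real.rpow_inv_natCast_pow hX.le hn

private theorem anu_prod (n : ℕ) (K : Type) [Field K] [NumberField K] (hF : TC K n) (t : ℝ) :
    ∏ _w : InfinitePlace K, t ^ 2 = t ^ n := by
  rw [Finset.prod_const, Finset.card_univ, ← pow_mul, H57.TLS.box_card n K hF]

theorem ann_norm (K : Type) [Field K] [NumberField K] (hK : NumberField.IsTotallyComplex K) (X : ℝ)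
    (hX : 0 < X) (α : 𝓞 K) (hα : α ∈ Ax K X) :
    X < (Ideal.absNorm (Ideal.span {α}) : ℝ) ∧
      (Ideal.absNorm (Ideal.span {α}) : ℝ) ≤ 2 ^ Module.finrank ℚ K * X := by
  have hF : TC K (Module.finrank ℚ K) := ⟨hK, rfl⟩
  obtain ⟨t, ht⟩ : ∃ t, t = X ^ (1 / (Module.finrank ℚ K : ℝ)) := ⟨_, rfl⟩
  have h0 := anu_pow K X hX
  rw [← ht] at h0
  obtain ⟨ht0, htn⟩ := h0
  have hα' := (mem_Ax K).1 hα
  rw [← ht] at hα'
  rw [← prod_sq_eq_norm (Module.finrank ℚ K) K hF α]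
  constructor
  · have h1 : ∏ _w : InfinitePlace K, t ^ 2 < ∏ w : InfinitePlace K, w (α : K) ^ 2 := by
      refine Finset.prod_lt_prod_of_nonempty (fun w _ => by positivity) (fun w _ => ?_) Finset.univ_nonempty
      exact pow_lt_pow_left₀ (hα' w).1 ht0.le two_ne_zero
    rwa [anu_prod _ K hF, htn] at h1
  · have h1 : ∏ w : InfinitePlace K, w (α : K) ^ 2 ≤ ∏ _w : InfinitePlace K, (2 * t) ^ 2 := by
      refine Finset.prod_le_prod (fun w _ => sq_nonneg _) fun w _ => ?_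
      exact pow_le_pow_left₀ (ht0.trans (hα' w).1).le (hα' w).2 2
    rwa [anu_prod _ K hF, mul_pow, htn] at h1

theorem ann_up (K : Type) [Field K] [NumberField K] (hK : NumberField.IsTotallyComplex K) :
    ∃ C : ℝ, 1 ≤ C ∧ ∀ 𝔞 : Ideal (𝓞 K), 𝔞 ≠ ⊥ → ∀ X : ℝ, 1 ≤ X →
      (((Ax K X).filter fun α => α ∈ 𝔞).card : ℝ) ≤ C * X / Ideal.absNorm 𝔞 := by
  obtain ⟨n, hn⟩ : ∃ n, n = Module.finrank ℚ K := ⟨_, rfl⟩
  have hF : TC K n := ⟨hK, hn.symm⟩
  have hn0 : 0 < n := by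
    rw [hn]
    exact Module.finrank_pos
  obtain ⟨C₁, hC₁, A, hs⟩ := sbc n hn0
  have hkp := H57.TLS.kpn_pos n
  have hD : 1 ≤ dd K := one_le_dd K
  obtain ⟨c, hc⟩ : ∃ c : ℝ, c = C₁ * dd K ^ A := ⟨_, rfl⟩
  have hc1 : 1 ≤ c := by
    rw [hc]
    exact one_le_mul_of_one_le_of_one_le hC₁ (one_le_pow₀ hD)
  have hcn : c ≤ c ^ n := le_self_pow₀ hc1 hn0.ne'
  have hC2 : 1 ≤ (H57.TLS.kpn n + C₁) * (2 ^ n * c ^ n) := by
    refine one_le_mul_of_one_le_of_one_le (by linarith) ?_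
    exact one_le_mul_of_one_le_of_one_le (one_le_pow₀ (by norm_num)) (one_le_pow₀ hc1)
  refine ⟨(H57.TLS.kpn n + C₁) * (2 ^ n * c ^ n), hC2, ?_⟩
  intro 𝔞 h𝔞 X hX
  have hX0 : 0 < X := by linarith
  have hN0 : 0 < (Ideal.absNorm 𝔞 : ℝ) := by
    rw [Nat.cast_pos, Nat.pos_iff_ne_zero, Ne, Ideal.absNorm_eq_zero_iff]
    exact h𝔞
  obtain ⟨t, ht⟩ : ∃ t, t = X ^ (1 / (Module.finrank ℚ K : ℝ)) := ⟨_, rfl⟩
  have h0 := anu_pow K X hX0
  rw [← ht, ← hn] at h0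
  obtain ⟨ht0, htn⟩ := h0
  by_cases hbig : 2 ^ n * X < (Ideal.absNorm 𝔞 : ℝ)
  · have hemp : (Ax K X).filter (fun α => α ∈ 𝔞) = ∅ := by
      refine Finset.filter_eq_empty_iff.2 fun {α} hα hα𝔞 => ?_
      obtain ⟨h1, h2⟩ := ann_norm K hK X hX0 α hα
      rw [← hn] at h2
      have h3 : Ideal.absNorm 𝔞 ∣ Ideal.absNorm (Ideal.span {α}) :=
        Ideal.absNorm_dvd_absNorm_of_le ((Ideal.span_singleton_le_iff_mem 𝔞).2 hα𝔞)
      have h4 : 0 < Ideal.absNorm (Ideal.span {α}) := by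
        have : (0 : ℝ) < (Ideal.absNorm (Ideal.span {α}) : ℝ) := hX0.trans h1
        exact_mod_cast this
      have h5 : (Ideal.absNorm 𝔞 : ℝ) ≤ (Ideal.absNorm (Ideal.span {α}) : ℝ) := by
        exact_mod_cast Nat.le_of_dvd h4 h3
      linarith
    rw [hemp, Finset.card_empty, Nat.cast_zero]
    have : 0 < (H57.TLS.kpn n + C₁) * (2 ^ n * c ^ n) := by linarith
    positivity
  · have hsm : (Ideal.absNorm 𝔞 : ℝ) ≤ 2 ^ n * X := not_lt.1 hbig
    have hPN : PN K (fun _ => 2 * c * t) = 2 ^ n * c ^ n * X := by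
      unfold PN
      rw [anu_prod n K hF, mul_pow, mul_pow, htn]
    have h1 := hs K hF 𝔞 h𝔞 (fun _ => 2 * c * t) (fun _ => by positivity) 1 one_pos le_rfl (by
      rw [hPN, one_pow, one_mul, ← hc]
      calc c * (Ideal.absNorm 𝔞 : ℝ) ≤ c ^ n * (2 ^ n * X) :=
            mul_le_mul hcn hsm hN0.le (by positivity)
        _ = 2 ^ n * c ^ n * X := by ring) 0
    rw [hPN, one_mul] at h1
    have h2 := (abs_le.1 h1).2
    have hset : ((Ax K X).filter fun α => α ∈ 𝔞).card ≤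
        ({α : 𝓞 K | α - 0 ∈ 𝔞 ∧ BxF (fun _ => 2 * c * t) α}.ncard) := by
      rw [← Set.ncard_coe_finset]
      refine Set.ncard_le_ncard ?_ ((finite_bxF fun _ => 2 * c * t).subset fun _ h => h.2)
      intro α hα
      rw [Finset.coe_filter] at hα
      obtain ⟨h3, h4⟩ := hα
      refine ⟨by rwa [sub_zero], fun w => ?_⟩
      have h5 := ((mem_Ax K).1 h3 w).2
      rw [← ht] at h5
      refine h5.trans ?_
      have h6 : t ≤ c * t := le_mul_of_one_le_left ht0.le hc1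
      linarith
    obtain ⟨B, hB⟩ : ∃ B : ℝ, B = (({α : 𝓞 K | α - 0 ∈ 𝔞 ∧ BxF (fun _ => 2 * c * t) α}.ncard : ℕ) : ℝ) :=
      ⟨_, rfl⟩
    rw [← hB] at h2
    have hB0 : 0 ≤ B := by
      rw [hB]
      exact Nat.cast_nonneg _
    have hBc : (((Ax K X).filter fun α => α ∈ 𝔞).card : ℝ) ≤ B := by
      rw [hB]
      exact_mod_cast hset
    refine hBc.trans ?_
    rw [le_div_iff₀ hN0]
    have h7 : 1 ≤ Real.sqrt (dd K) := by
      rw [Real.one_le_sqrt]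
      exact hD
    have h8 : B * (Ideal.absNorm 𝔞 : ℝ) ≤ B * ((Ideal.absNorm 𝔞 : ℝ) * Real.sqrt (dd K)) :=
      mul_le_mul_of_nonneg_left (le_mul_of_one_le_right hN0.le h7) hB0
    have h9 : (H57.TLS.kpn n + C₁) * (2 ^ n * c ^ n) * X =
        H57.TLS.kpn n * (2 ^ n * c ^ n * X) + C₁ * (2 ^ n * c ^ n * X) := by ring
    rw [h9]
    linarith

end Pool.Agent.H36.FA
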