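import Pool.Agent.H36.FA.Pes

/-!
# [H36 FA BDM] Tuples of units, bad tuples: periodicity, density of the tuples of units

`per_bad`, `per_un`, `un_not_bad`: from the definitions (ideals). `mn_un`: `#{r : L → 𝓞 K ⧸ v : all r o ≠ 0} = (N - 1)^k`, `N = nm v = #(𝓞 K ⧸ v)` (`nm v` is
`Ideal.absNorm v.asIdeal`).
-/

set_option autoImplicit false

open scoped NumberField Classical
open IsDedekindDomain NumberField

noncomputable section

namespace Pool.Agent.H36.FA

open H63.MA H38.BB H38.BG H77.PC3 H51.SN H57.SL H36.QA H1.LS4 H38.ML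

variable {K : Type} [Field K] [NumberField K] {L : Type} [Fintype L]

private theorem mem_iff {I : Ideal (𝓞 K)} {x y : 𝓞 K} (h : x - y ∈ I) : x ∈ I ↔ y ∈ I := by
  constructor
  · intro hx
    have h1 := I.sub_mem hx h
    rwa [sub_sub_cancel] at h1
  · intro hy
    have h1 := I.add_mem h hy
    rwa [sub_add_cancel] at h1

private theorem sq_le (v : Pl K) : v.asIdeal ^ 2 ≤ v.asIdeal := by
  rw [pow_two]
  exact Ideal.mul_le_right

theorem per_bad (v : Pl K) : Per (L := L) (v.asIdeal ^ 2) (fun α => if Bad α v then 1 else 0) := by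
  intro α α' h
  have h1 : ∀ o, (α o ∈ v.asIdeal ^ 2 ↔ α' o ∈ v.asIdeal ^ 2) := fun o => mem_iff (h o)
  have h2 : ∀ o, (α o ∈ v.asIdeal ↔ α' o ∈ v.asIdeal) := fun o => mem_iff (sq_le v (h o))
  have h3 : Bad α v ↔ Bad α' v := by
    unfold Bad
    simp only [h1, h2]
  show (if Bad α v then (1 : ℝ) else 0) = if Bad α' v then (1 : ℝ) else 0
  by_cases h4 : Bad α v
  · rw [if_pos h4, if_pos (h3.1 h4)]
  · rw [if_neg h4, if_neg fun h5 => h4 (h3.2 h5)]

theorem per_un (v : Pl K) : Per (L := L) v.asIdeal (fun α => if Un α v then 1 else 0) := by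
  intro α α' h
  have h2 : ∀ o, (α o ∈ v.asIdeal ↔ α' o ∈ v.asIdeal) := fun o => mem_iff (h o)
  have h3 : Un α v ↔ Un α' v := by
    unfold Un
    simp only [h2]
  show (if Un α v then (1 : ℝ) else 0) = if Un α' v then (1 : ℝ) else 0
  by_cases h4 : Un α v
  · rw [if_pos h4, if_pos (h3.1 h4)]
  · rw [if_neg h4, if_neg fun h5 => h4 (h3.2 h5)]

theorem un_not_bad {v : Pl K} {α : L → 𝓞 K} (h : Un α v) : ¬ Bad α v := by
  rintro (⟨o, ho⟩ | ⟨o, o', -, ho, -⟩)
  · exact h o (sq_le v ho)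
  · exact h o ho

theorem mn_un (v : Pl K) : Mn (L := L) v.asIdeal (fun α => if Un α v then 1 else 0) =
    (1 - 1 / (nm v : ℝ)) ^ Fintype.card L := by
  haveI : Finite (𝓞 K ⧸ v.asIdeal) := Ideal.finiteQuotientOfFreeOfNeBot _ v.ne_bot
  letI : Fintype (𝓞 K ⧸ v.asIdeal) := Fintype.ofFinite _
  have hN : Ideal.absNorm v.asIdeal = Fintype.card (𝓞 K ⧸ v.asIdeal) := by
    rw [← Nat.card_eq_fintype_card]
    rfl
  have h1 : ∀ r : L → 𝓞 K ⧸ v.asIdeal, (Un (fun o => Quotient.out (r o)) v ↔ r ∈ Fintype.piFinset fun _ : L =>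
      (Finset.univ : Finset (𝓞 K ⧸ v.asIdeal)).erase 0) := by
    intro r
    rw [Fintype.mem_piFinset]
    refine forall_congr' fun o => ?_
    rw [Finset.mem_erase, not_iff_comm]
    constructor
    · intro h2
      have h3 : r o = 0 := by
        by_contra h4
        exact h2 ⟨h4, Finset.mem_univ _⟩
      have h5 : (Ideal.Quotient.mk v.asIdeal (Quotient.out (r o))) = r o := Quotient.out_eq _
      show Quotient.out (r o) ∈ v.asIdeal
      exact Ideal.Quotient.eq_zero_iff_mem.1 (h5.trans h3)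
    · intro h2 h3
      apply h3.1
      have h5 : (Ideal.Quotient.mk v.asIdeal (Quotient.out (r o))) = r o := Quotient.out_eq _
      rw [← h5]
      exact Ideal.Quotient.eq_zero_iff_mem.2 h2
  unfold Mn
  rw [finsum_eq_sum_of_fintype]
  have h2 : ∑ r : L → 𝓞 K ⧸ v.asIdeal, (if Un (fun o => Quotient.out (r o)) v then (1 : ℝ) else 0) =
      ((Fintype.card (𝓞 K ⧸ v.asIdeal) - 1 : ℕ) : ℝ) ^ Fintype.card L := by
    simp only [h1]
    rw [Finset.sum_ite_mem, Finset.univ_inter, Finset.sum_const, nsmul_eq_mul, mul_one, Fintype.card_piFinset]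
    simp only [Finset.card_erase_of_mem (Finset.mem_univ _), Finset.card_univ, Finset.prod_const]
    push_cast
    rfl
  rw [h2, ← div_pow]
  have h3 : 1 ≤ Fintype.card (𝓞 K ⧸ v.asIdeal) := Fintype.card_pos
  have h4 : (nm v : ℝ) = (Fintype.card (𝓞 K ⧸ v.asIdeal) : ℝ) := by
    rw [← hN]
    rfl
  have h5 : ((Fintype.card (𝓞 K ⧸ v.asIdeal) : ℕ) : ℝ) ≠ 0 := by
    have : 0 < Fintype.card (𝓞 K ⧸ v.asIdeal) := h3
    positivity
  rw [h4, hN, Nat.cast_sub h3, Nat.cast_one, sub_div, div_self h5]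

end Pool.Agent.H36.FA
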