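import Pool.Agent.H36.FA.Bdm

/-!
# [H36 FA BEB] The density of the bad tuples at a prime

Modulo `v²` (`N = nm v`, `(𝓞 K : v²) = N²`, `(v : v²) = N`): a given component is in `v²` with density `1/N²`; two given components are in `v` with
density `1/N²`; the sum over the `k` components and the `k (k-1)` ordered pairs is `≤ k²/N²`. The tuples of units at `v` are not bad and
have density `(1 - 1/N)^k` (`mn_un`, `mn_sub`): `one_sub_be` from `mn_mono`, `mn_add`, `mn_const`. Use `mn_rep`, `mn_mono`, products of sums over `L` (`Fintype.piFinset`,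
`Finset.prod_univ_sum`).
-/

set_option autoImplicit false

open scoped NumberField Classical
open IsDedekindDomain NumberField

noncomputable section

namespace Pool.Agent.H36.FA

open H63.MA H38.BB H38.BG H77.PC3 H51.SN H57.SL H36.QA H1.LS4 H38.ML

variable {K : Type} [Field K] [NumberField K] {L : Type} [Fintype L]

private theorem finq {𝔠 : Ideal (𝓞 K)} (hc : 𝔠 ≠ ⊥) : Finite (𝓞 K ⧸ 𝔠) := Ideal.finiteQuotientOfFreeOfNeBot 𝔠 hc

private theorem mn_mem {𝔠 : Ideal (𝓞 K)} (hc : 𝔠 ≠ ⊥) (O : Finset L) :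
    Mn (L := L) 𝔠 (fun α => if ∀ o ∈ O, α o ∈ 𝔠 then 1 else 0) = (1 / (Ideal.absNorm 𝔠 : ℝ)) ^ O.card := by
  have hfin : Finite (𝓞 K ⧸ 𝔠) := finq hc
  have hft : Fintype (𝓞 K ⧸ 𝔠) := Fintype.ofFinite _
  have hN : (Ideal.absNorm 𝔠 : ℝ) = (Fintype.card (𝓞 K ⧸ 𝔠) : ℝ) := by
    rw [Ideal.absNorm_apply, Submodule.cardQuot_apply, Nat.card_eq_fintype_card]
  have hN0 : (Fintype.card (𝓞 K ⧸ 𝔠) : ℝ) ≠ 0 := by
    have : 0 < Fintype.card (𝓞 K ⧸ 𝔠) := Fintype.card_pos
    positivity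
  unfold Mn
  rw [finsum_eq_sum_of_fintype, hN]
  have h1 : ∀ r : L → 𝓞 K ⧸ 𝔠, (if ∀ o ∈ O, Quotient.out (r o) ∈ 𝔠 then (1 : ℝ) else 0) =
      ∏ o, (if o ∈ O then (if r o = 0 then (1 : ℝ) else 0) else 1) := by
    intro r
    have h2 : ∀ o, Quotient.out (r o) ∈ 𝔠 ↔ r o = 0 := by
      intro o
      rw [← Ideal.Quotient.eq_zero_iff_mem]
      have h3 : Ideal.Quotient.mk 𝔠 (Quotient.out (r o)) = r o := Quotient.out_eq (r o)
      rw [h3]
    by_cases h : ∀ o ∈ O, Quotient.out (r o) ∈ 𝔠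
    · rw [if_pos h]
      symm
      apply Finset.prod_eq_one
      intro o _
      by_cases ho : o ∈ O
      · rw [if_pos ho, if_pos ((h2 o).1 (h o ho))]
      · rw [if_neg ho]
    · rw [if_neg h]
      push Not at h
      obtain ⟨o, ho, h3⟩ := h
      symm
      apply Finset.prod_eq_zero (Finset.mem_univ o)
      rw [if_pos ho, if_neg fun h4 => h3 ((h2 o).2 h4)]
  rw [Finset.sum_congr rfl fun r _ => h1 r]
  have h2 : ∑ r : L → 𝓞 K ⧸ 𝔠, ∏ o, (if o ∈ O then (if r o = 0 then (1 : ℝ) else 0) else 1) =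
      ∏ o : L, ∑ x : 𝓞 K ⧸ 𝔠, (if o ∈ O then (if x = 0 then (1 : ℝ) else 0) else 1) := by
    rw [Finset.prod_univ_sum, Fintype.piFinset_univ]
  have h3 : ∀ o : L, ∑ x : 𝓞 K ⧸ 𝔠, (if o ∈ O then (if x = 0 then (1 : ℝ) else 0) else 1) =
      (if o ∈ O then 1 / (Fintype.card (𝓞 K ⧸ 𝔠) : ℝ) else 1) * (Fintype.card (𝓞 K ⧸ 𝔠) : ℝ) := by
    intro o
    by_cases ho : o ∈ O
    · simp only [if_pos ho]
      rw [Finset.sum_ite_eq' Finset.univ (0 : 𝓞 K ⧸ 𝔠) (fun _ => (1 : ℝ)), if_pos (Finset.mem_univ _),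
        one_div, inv_mul_cancel₀ hN0]
    · simp only [if_neg ho]
      simp
  rw [h2, Finset.prod_congr rfl fun o _ => h3 o, Finset.prod_mul_distrib, Finset.prod_const, Finset.card_univ,
    mul_div_assoc, div_self (pow_ne_zero _ hN0), mul_one, Finset.prod_ite_mem, Finset.univ_inter, Finset.prod_const]

private theorem mn_sum {𝔠 : Ideal (𝓞 K)} (hc : 𝔠 ≠ ⊥) {J : Type} (s : Finset J) (f : J → (L → 𝓞 K) → ℝ) :
    Mn 𝔠 (fun α => ∑ j ∈ s, f j α) = ∑ j ∈ s, Mn 𝔠 (f j) := by
  induction s using Finset.induction_on with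
  | empty =>
    simp only [Finset.sum_empty]
    exact mn_const hc 0
  | insert a s ha ih =>
    simp only [Finset.sum_insert ha]
    rw [← ih]
    exact mn_add hc (f a) (fun α => ∑ j ∈ s, f j α)

private theorem v_ne (v : Pl K) : v.asIdeal ^ 2 ≠ ⊥ := pow_ne_zero 2 v.ne_bot

theorem be_nonneg (v : Pl K) : 0 ≤ be L v := by
  unfold be
  apply mn_nonneg
  intro α
  split_ifs
  · exact zero_le_one
  · exact le_rfl

theorem be_le (v : Pl K) : be L v ≤ (Fintype.card L : ℝ) ^ 2 / (nm v : ℝ) ^ 2 := by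
  -- the pieces
  set f : L × L → (L → 𝓞 K) → ℝ := fun y α =>
    if y.1 = y.2 then (if ∀ o ∈ ({y.1} : Finset L), α o ∈ v.asIdeal ^ 2 then 1 else 0)
    else (if ∀ o ∈ ({y.1, y.2} : Finset L), α o ∈ v.asIdeal then 1 else 0) with hf
  have hf0 : ∀ y α, 0 ≤ f y α := by
    intro y α
    simp only [hf]
    split_ifs <;> norm_num
  have h1 : be L v ≤ Mn (v.asIdeal ^ 2) (fun α => ∑ y : L × L, f y α) := by
    unfold be
    apply mn_mono (v_ne v)
    intro α
    by_cases hb : Bad α v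
    · rw [if_pos hb]
      have h2 : ∃ y, 1 ≤ f y α := by
        rcases hb with ⟨o, ho⟩ | ⟨o, o', hne, ho, ho'⟩
        · refine ⟨(o, o), ?_⟩
          simp only [hf, if_true]
          rw [if_pos]
          intro o1 h3
          rw [Finset.mem_singleton.1 h3]
          exact ho
        · refine ⟨(o, o'), ?_⟩
          simp only [hf, if_neg hne]
          rw [if_pos]
          intro o1 h3
          rcases Finset.mem_insert.1 h3 with rfl | h3
          · exact ho
          · rw [Finset.mem_singleton.1 h3]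
            exact ho'
      obtain ⟨y, hy⟩ := h2
      exact hy.trans (Finset.single_le_sum (f := fun y => f y α) (fun y _ => hf0 y α) (Finset.mem_univ y))
    · rw [if_neg hb]
      exact Finset.sum_nonneg fun y _ => hf0 y α
  rw [mn_sum (v_ne v)] at h1
  have hnm : (nm v : ℝ) = (Ideal.absNorm v.asIdeal : ℝ) := rfl
  have h2 : ∀ y : L × L, Mn (v.asIdeal ^ 2) (f y) = 1 / (nm v : ℝ) ^ 2 := by
    intro y
    by_cases hy : y.1 = y.2
    · have h3 : f y = fun α => if ∀ o ∈ ({y.1} : Finset L), α o ∈ v.asIdeal ^ 2 then 1 else 0 := by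
        ext α
        simp only [hf, if_pos hy]
      rw [h3, mn_mem (v_ne v), Finset.card_singleton, pow_one, hnm, map_pow, Nat.cast_pow]
    · have h3 : f y = fun α => if ∀ o ∈ ({y.1, y.2} : Finset L), α o ∈ v.asIdeal then 1 else 0 := by
        ext α
        simp only [hf, if_neg hy]
      have h4 : Per (L := L) v.asIdeal (fun α => if ∀ o ∈ ({y.1, y.2} : Finset L), α o ∈ v.asIdeal then 1 else 0) := by
        intro α α' h5
        have h6 : (∀ o ∈ ({y.1, y.2} : Finset L), α o ∈ v.asIdeal) ↔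
            ∀ o ∈ ({y.1, y.2} : Finset L), α' o ∈ v.asIdeal := by
          constructor
          · intro h7 o ho
            have h8 := v.asIdeal.sub_mem (h7 o ho) (h5 o)
            rwa [sub_sub_cancel] at h8
          · intro h7 o ho
            have h8 := v.asIdeal.add_mem (h5 o) (h7 o ho)
            rwa [sub_add_cancel] at h8
        by_cases h7 : ∀ o ∈ ({y.1, y.2} : Finset L), α o ∈ v.asIdeal
        · simp only [if_pos h7, if_pos (h6.1 h7)]
        · simp only [if_neg h7, if_neg (fun h8 => h7 (h6.2 h8))]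
      rw [h3, mn_sub (v_ne v) (Ideal.pow_le_self two_ne_zero) h4, mn_mem v.ne_bot, Finset.card_pair hy, hnm,
        one_div, one_div, inv_pow]
  rw [Finset.sum_congr rfl fun y _ => h2 y, Finset.sum_const, Finset.card_univ, Fintype.card_prod, nsmul_eq_mul] at h1
  refine h1.trans (le_of_eq ?_)
  push_cast
  ring

theorem one_sub_be (v : Pl K) : (1 - 1 / (nm v : ℝ)) ^ Fintype.card L ≤ 1 - be L v := by
  rw [← mn_un v, ← mn_sub (v_ne v) (Ideal.pow_le_self two_ne_zero) (per_un v)]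
  rw [le_sub_iff_add_le]
  unfold be
  rw [← mn_add (v_ne v)]
  refine (mn_mono (v_ne v) (g := fun _ => 1) fun α => ?_).trans (le_of_eq (mn_const (v_ne v) 1))
  by_cases h : Un α v
  · rw [if_pos h, if_neg (un_not_bad h)]
    norm_num
  · rw [if_neg h, zero_add]
    split_ifs
    · exact le_rfl
    · exact zero_le_one

end Pool.Agent.H36.FA
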