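import Pool.Agent.H36.FA.Fxa
import Pool.Agent.H57.SL.Diu
import Pool.Agent.H57.SL.Inr
import Pool.Agent.H51.SN.Plc
import Pool.Agent.H1.LS4.Bad

/-!
# [H36 FA CTR] Primes of degree one of the fixed field and fixed points of Frobenius

`F` = the fixed field of `φ₀⁻¹(H)` (`H51.SN.exists_act` for `Gal(QBar/K) → A / H`), a number field, `π w` = the place of `K` under `w`. `S` = the places over `S₀` and over the ramified places
(`H1.LS4.bad`; finitely many places over each, `ctr_fin`). For `v` outside a finite set the primes `w` of `F` over `v` with `nm w = nm v` are in bijection with `fx F (fr Q v)` (`inr_iff`, `dic_bij`).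
The embeddings of `F` are the restrictions of elements `γ`, determined by the class of `φ₀ γ` (`emb_tr`), and the embedding is fixed by `σ` only if this class is fixed by `φ₀ σ`: `(fx F σ).ncard ≤ fxp H (φ₀ σ)` (`ctr_card`).
A place `w` of prime norm has `nm w = nm (π w)` (`nm w = nm (π w) ^ f`, `nm_over`).
-/

set_option autoImplicit false

open scoped NumberField Classical
open IsDedekindDomain NumberField

noncomputable section

namespace Pool.Agent.H36.FA

open H63.MA H38.BB H38.BG H77.PC3 H51.SN H57.SL H36.QA H1.LS4 H38.ML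

private theorem ctr_fin {k F : Type} [Field k] [NumberField k] [Field F] [NumberField F] [Algebra k F] (l : Pl k) :
    {P : Pl F | Over P l}.Finite := by
  have hm : l.asIdeal.IsMaximal := l.isMaximal
  have hfs : Finite (l.asIdeal.primesOver (𝓞 F)) := IsDedekindDomain.primesOver_finite l.asIdeal (𝓞 F)
  have hinj : Function.Injective (fun P : Pl F => P.asIdeal) := fun _ _ h => HeightOneSpectrum.ext h
  refine Set.Finite.of_finite_image (f := fun P : Pl F => P.asIdeal) ?_ hinj.injOn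
  refine (Set.toFinite (l.asIdeal.primesOver (𝓞 F))).subset ?_
  rintro _ ⟨P, hP, rfl⟩
  exact ⟨P.isPrime, ⟨hP.symm⟩⟩

private theorem ctr_below {k F : Type} [Field k] [NumberField k] [Field F] [NumberField F] [Algebra k F] (w : Pl F) :
    ∃ v : Pl k, Over w v := by
  have h1 : (w.asIdeal.comap (algebraMap (𝓞 k) (𝓞 F))).IsPrime := by
    have := w.isPrime
    exact Ideal.IsPrime.comap _
  exact ⟨⟨w.asIdeal.comap (algebraMap (𝓞 k) (𝓞 F)), h1, Ideal.IsIntegral.comap_ne_bot (𝓞 k) w.ne_bot⟩, rfl⟩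

variable {K : IntermediateField ℚ QBar} [NumberField K] {A : Type} [CommGroup A] [Finite A]

private theorem ctr_card (φ₀ : Gal(QBar/K) →* A) (hs : Function.Surjective φ₀) (H : Subgroup A)
    {F : IntermediateField K QBar} [NumberField F] {act : A ⧸ H →* (F ≃+* F)}
    (hA : Acts F ((QuotientGroup.mk' H).comp φ₀) act) (σ : Gal(QBar/K)) :
    (fx F σ).ncard ≤ H51.K1.fxp H (φ₀ σ) := by
  obtain ⟨θ, hθ⟩ : ∃ θ : Gal(QBar/K) →* A ⧸ H, θ = (QuotientGroup.mk' H).comp φ₀ := ⟨_, rfl⟩
  rw [← hθ] at hA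
  have hsθ : Function.Surjective θ := by
    rw [hθ]
    exact (QuotientGroup.mk'_surjective H).comp hs
  choose γ hγ using hsθ
  have hfix : ∀ τ : Gal(QBar/K), θ τ = 1 ↔ ∀ y : F, τ (y : QBar) = y := by
    intro τ
    rw [← MonoidHom.mem_ker, ← hA.fix, IntermediateField.mem_fixingSubgroup_iff]
    exact ⟨fun h y => h y y.2, fun h y hy => h ⟨y, hy⟩⟩
  have hsub : fx F σ ⊆ (fun x : A ⧸ H => ac (γ x) F.val) '' {x : A ⧸ H | φ₀ σ • x = x} := by
    intro ι hι
    obtain ⟨τ, hτ⟩ := emb_tr F F.val ι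
    refine ⟨θ τ, ?_, ?_⟩
    · have h1 : θ (τ⁻¹ * σ * τ) = 1 := by
        rw [hfix]
        intro y
        have h2 : ac σ ι y = ι y := by rw [show ac σ ι = ι from hι]
        rw [hτ] at h2
        have h3 : σ (τ (y : QBar)) = τ (y : QBar) := h2
        show τ⁻¹ (σ (τ (y : QBar))) = y
        rw [h3]
        exact τ.symm_apply_apply _
      have h4 : φ₀ σ • θ τ = θ (σ * τ) := by
        rw [hθ]
        show φ₀ σ • ((φ₀ τ : A) : A ⧸ H) = ((φ₀ (σ * τ) : A) : A ⧸ H)
        rw [map_mul]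
        rfl
      show φ₀ σ • θ τ = θ τ
      rw [h4]
      rw [mul_assoc, map_mul, map_inv, inv_mul_eq_one] at h1
      exact h1.symm
    · show ac (γ (θ τ)) F.val = ι
      rw [hτ]
      have h1 : θ (τ⁻¹ * γ (θ τ)) = 1 := by
        rw [map_mul, map_inv, hγ, inv_mul_cancel]
      rw [hfix] at h1
      ext y
      have h2 : τ⁻¹ (γ (θ τ) (y : QBar)) = y := h1 y
      show γ (θ τ) (y : QBar) = τ (y : QBar)
      conv_rhs => rw [← h2]
      exact (τ.apply_symm_apply _).symm
  have hfin : {x : A ⧸ H | φ₀ σ • x = x}.Finite := Set.toFinite _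
  exact (Set.ncard_le_ncard hsub (hfin.image _)).trans (Set.ncard_image_le hfin)

theorem che_tr (φ₀ : Gal(QBar/K) →* A) (h₀ : FT φ₀) (hs : Function.Surjective φ₀) (Q : DP K QBar)
    (H : Subgroup A) (S₀ : Finset (Pl K)) : ∃ (F : Type) (_ : Field F) (_ : NumberField F)
      (S : Set (Pl F)) (π : Pl F → Pl K), S.Finite ∧
      (∀ w, w ∉ S → (nm w).Prime → π w ∉ S₀ ∧ nm (π w) = nm w) ∧
      ∀ (v : Pl K) (T : Finset (Pl F)), (∀ w ∈ T, w ∉ S ∧ (nm w).Prime ∧ π w = v) →
        T.card ≤ H51.K1.fxp H (φ₀ (fr Q v)) := by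
  have hθ : FT ((QuotientGroup.mk' H).comp φ₀) := by
    obtain ⟨E, hE, h1⟩ := h₀
    refine ⟨E, hE, fun σ hσ => ?_⟩
    rw [MonoidHom.mem_ker]
    show (QuotientGroup.mk' H) (φ₀ σ) = 1
    rw [h1 hσ, map_one]
  obtain ⟨F, act, hA⟩ := exists_act ((QuotientGroup.mk' H).comp φ₀) hθ ((QuotientGroup.mk'_surjective H).comp hs)
  have hfd : FiniteDimensional K F := hA.fin
  have hfQ : FiniteDimensional ℚ F := Module.Finite.trans (R := ℚ) K F
  have hcz : CharZero F := charZero_of_injective_algebraMap (algebraMap K F).injective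
  have hnF : NumberField F := ⟨⟩
  obtain ⟨B, -, hB⟩ := bad K F
  choose π hπ using fun w : Pl F => ctr_below (k := K) w
  refine ⟨F, inferInstance, hnF, {w | π w ∈ S₀ ∪ B}, π, ?_, ?_, ?_⟩
  · have h1 : {w | π w ∈ S₀ ∪ B} ⊆ ⋃ v ∈ S₀ ∪ B, {w : Pl F | Over w v} := by
      intro w hw
      exact Set.mem_iUnion₂.2 ⟨π w, hw, hπ w⟩
    refine ((S₀ ∪ B).finite_toSet.biUnion fun v _ => ctr_fin v).subset ?_
    intro w hw
    exact Set.mem_iUnion₂.2 ⟨π w, hw, hπ w⟩
  · intro w hw hp
    have hw' : π w ∉ S₀ ∪ B := hw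
    refine ⟨fun h => hw' (Finset.mem_union_left _ h), ?_⟩
    obtain ⟨f, hf, h1⟩ := nm_over (hπ w)
    rw [h1] at hp
    have h2 : f = 1 := hp.eq_one_of_pow
    rw [h1, h2, pow_one]
  · intro v T hT
    rcases T.eq_empty_or_nonempty with rfl | ⟨w0, hw0⟩
    · rw [Finset.card_empty]
      exact Nat.zero_le _
    obtain ⟨hw0S, -, hw0v⟩ := hT w0 hw0
    have hv : v ∉ S₀ ∪ B := by
      rw [← hw0v]
      exact hw0S
    have hIT : IT QBar F v := (inr_iff F v).2 (hB v fun h => hv (Finset.mem_union_right _ h))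
    have hbij := dic_bij F Q v hIT
    have hsub : (T : Set (Pl F)) ⊆ {w : Pl F | Over w v ∧ nm w = nm v} := by
      intro w hw
      obtain ⟨-, hp, hwv⟩ := hT w hw
      have ho : Over w v := hwv ▸ hπ w
      refine ⟨ho, ?_⟩
      obtain ⟨f, hf, h1⟩ := nm_over ho
      rw [h1] at hp
      have h2 : f = 1 := hp.eq_one_of_pow
      rw [h1, h2, pow_one]
    have hfin : {w : Pl F | Over w v ∧ nm w = nm v}.Finite := (ctr_fin v).subset fun w hw => hw.1
    have h1 : T.card ≤ (fx F (fr Q v)).ncard := by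
      rw [← hbij.injOn.ncard_image, hbij.image_eq, ← Set.ncard_coe_finset]
      exact Set.ncard_le_ncard hsub hfin
    exact h1.trans (ctr_card φ₀ hs H hA _)

end Pool.Agent.H36.FA
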