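import Pool.Agent.H36.FA.Def

/-!
# [H36 FA FXA] Averages of the number of fixed points (finite commutative groups, elementary)

* `fxp_eq`: `A` commutative: `a • (x H) = x H` iff `a ∈ H`; so `fxp H a = [A : H]` for `a ∈ H` and `0` otherwise.
* `fxp_avg`: `t ↦ ∏_o o^(t o)` is a homomorphism from `∏_o ZMod (orderOf o)` onto `T = closure L`; so each `s ∈ T` is hit
  `(∏ orderOf o) / #T` times; `∑_{s ∈ T} [A : H] 1[a s ∈ H] = [A : H] #(T ⊓ H) 1[a ∈ H ⊔ T]`, and `[A : H] #(T ⊓ H) = #T [A : H ⊔ T]`.
-/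

set_option autoImplicit false

open scoped NumberField Classical
open IsDedekindDomain NumberField

noncomputable section

namespace Pool.Agent.H36.FA

open H63.MA H38.BB H38.BG H77.PC3 H51.SN H57.SL H36.QA H1.LS4 H38.ML

variable {A : Type} [CommGroup A] [Finite A]

theorem fxp_eq (H : Subgroup A) (a : A) : H51.K1.fxp H a = if a ∈ H then H.index else 0 := by
  have key : ∀ x : A ⧸ H, a • x = x ↔ a ∈ H := by
    intro x
    obtain ⟨y, rfl⟩ := QuotientGroup.mk_surjective x
    have h1 : a • (QuotientGroup.mk y : A ⧸ H) = QuotientGroup.mk (a * y) := rfl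
    rw [h1, QuotientGroup.eq]
    have h2 : (a * y)⁻¹ * y = a⁻¹ := by
      rw [mul_inv_rev, mul_comm y⁻¹ a⁻¹, inv_mul_cancel_right]
    rw [h2]
    exact H.inv_mem_iff
  unfold H51.K1.fxp
  by_cases ha : a ∈ H
  · rw [if_pos ha]
    unfold Subgroup.index
    exact Nat.card_congr (Equiv.subtypeUnivEquiv fun x => (key x).2 ha)
  · rw [if_neg ha]
    have : IsEmpty {x : A ⧸ H // a • x = x} := ⟨fun x => ha ((key x.1).1 x.2)⟩
    exact Nat.card_of_isEmpty

theorem fxp_le (H : Subgroup A) (a : A) : H51.K1.fxp H a ≤ Nat.card A := by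
  rw [fxp_eq]
  split_ifs
  · exact Nat.le_of_dvd Nat.card_pos H.index_dvd_card
  · exact Nat.zero_le _

private theorem fxa_pow (o : A) (s t : ZMod (orderOf o)) : o ^ (s + t).val = o ^ s.val * o ^ t.val := by
  have : NeZero (orderOf o) := ⟨(orderOf_pos o).ne'⟩
  rw [ZMod.val_add, pow_mod_orderOf, pow_add]

private def fxa_hom (L : Set A) : Multiplicative ((o : L) → ZMod (orderOf (o : A))) →* A where
  toFun t := ∏ o : L, (o : A) ^ (t.toAdd o).val
  map_one' := by
    refine Finset.prod_eq_one fun o _ => ?_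
    show (o : A) ^ (0 : ZMod (orderOf (o : A))).val = 1
    rw [ZMod.val_zero, pow_zero]
  map_mul' s t := by
    rw [← Finset.prod_mul_distrib]
    refine Finset.prod_congr rfl fun o _ => ?_
    exact fxa_pow (o : A) _ _

private theorem fxa_range (L : Set A) : (fxa_hom L).range = Subgroup.closure L := by
  apply le_antisymm
  · rintro _ ⟨t, rfl⟩
    exact (Subgroup.closure L).prod_mem fun o _ => (Subgroup.closure L).pow_mem (Subgroup.subset_closure o.2) _
  · rw [Subgroup.closure_le]
    intro o ho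
    have : NeZero (orderOf o) := ⟨(orderOf_pos o).ne'⟩
    refine ⟨Multiplicative.ofAdd (Pi.single ⟨o, ho⟩ 1), ?_⟩
    show ∏ p : L, (p : A) ^ ((Pi.single (⟨o, ho⟩ : L) 1 : (p : L) → ZMod (orderOf (p : A))) p).val = o
    rw [Finset.prod_eq_single (⟨o, ho⟩ : L)]
    · rw [Pi.single_eq_same]
      show o ^ (1 : ZMod (orderOf o)).val = o
      rw [ZMod.val_one_eq_one_mod, pow_mod_orderOf, pow_one]
    · intro p _ hp
      rw [Pi.single_eq_of_ne hp, ZMod.val_zero, pow_zero]
    · intro h
      exact absurd (Finset.mem_univ _) h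

theorem fxp_avg (L : Set A) (hL : ∀ o ∈ L, (orderOf o).Prime) (H : Subgroup A) (a : A) :
    ∑ᶠ t : (o : L) → ZMod (orderOf (o : A)),
      (H51.K1.fxp H (a * ∏ o : L, (o : A) ^ (t o).val) : ℝ) =
      (∏ o : L, (orderOf (o : A) : ℝ)) * (H51.K1.fxp (H ⊔ Subgroup.closure L) a : ℝ) := by
  have hne : ∀ o : L, NeZero (orderOf (o : A)) := fun o => ⟨(hL o o.2).ne_zero⟩
  have : Finite ((o : L) → ZMod (orderOf (o : A))) := inferInstance
  have hfi : Fintype ((o : L) → ZMod (orderOf (o : A))) := Fintype.ofFinite _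
  rw [finsum_eq_sum_of_fintype]
  set F := fxa_hom L with hF
  have hFa : ∀ t : (o : L) → ZMod (orderOf (o : A)), ∏ o : L, (o : A) ^ (t o).val = F (Multiplicative.ofAdd t) :=
    fun t => rfl
  have hcard : Nat.card (Multiplicative ((o : L) → ZMod (orderOf (o : A)))) = ∏ o : L, orderOf (o : A) := by
    have h1 : Nat.card (Multiplicative ((o : L) → ZMod (orderOf (o : A)))) =
        Nat.card ((o : L) → ZMod (orderOf (o : A))) := rfl
    rw [h1, Nat.card_pi]
    exact Finset.prod_congr rfl fun o _ => Nat.card_zmod _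
  have hidx : H.index * Nat.card (H.comap F) = (∏ o : L, orderOf (o : A)) * (H ⊔ Subgroup.closure L).index := by
    have h1 : (H.comap F).index = H.relIndex (Subgroup.closure L) := by
      rw [Subgroup.index_comap, hF, fxa_range]
    have h2 : H.relIndex (Subgroup.closure L) * (H ⊔ Subgroup.closure L).index = H.index := by
      have h3 := Subgroup.relIndex_mul_index (H := H) (K := H ⊔ Subgroup.closure L) le_sup_left
      rw [← h3]
      congr 1
      rw [sup_comm, Subgroup.relIndex_sup_right]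
    have h4 := (H.comap F).card_mul_index
    rw [hcard] at h4
    rw [← h2, ← h1, ← h4]
    ring
  have hsum : ∑ t : (o : L) → ZMod (orderOf (o : A)), (H51.K1.fxp H (a * ∏ o : L, (o : A) ^ (t o).val) : ℝ) =
      (H.index : ℝ) * ((Finset.univ.filter fun t : (o : L) → ZMod (orderOf (o : A)) =>
        a * F (Multiplicative.ofAdd t) ∈ H).card : ℝ) := by
    rw [Finset.card_filter, Nat.cast_sum, Finset.mul_sum]
    refine Finset.sum_congr rfl fun t _ => ?_
    rw [fxp_eq, hFa]
    split_ifs
    · rw [Nat.cast_one, mul_one]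
    · rw [Nat.cast_zero, mul_zero]
  rw [hsum, fxp_eq]
  by_cases ha : a ∈ H ⊔ Subgroup.closure L
  · rw [if_pos ha]
    obtain ⟨h0, hh0, s0, hs0, hprod⟩ := Subgroup.mem_sup.1 ha
    rw [← fxa_range] at hs0
    obtain ⟨t0, ht0⟩ := hs0
    have ht0' : F t0 = s0 := ht0
    have hc : (Finset.univ.filter fun t : (o : L) → ZMod (orderOf (o : A)) =>
        a * F (Multiplicative.ofAdd t) ∈ H).card = Nat.card (H.comap F) := by
      rw [← Fintype.card_subtype, ← Nat.card_eq_fintype_card]
      refine Nat.card_congr (Equiv.subtypeEquiv ((Multiplicative.ofAdd (α := (o : L) → ZMod (orderOf (o : A)))).trans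
        (Equiv.mulRight t0)) ?_)
      intro t
      show a * F (Multiplicative.ofAdd t) ∈ H ↔ F (Multiplicative.ofAdd t * t0) ∈ H
      rw [map_mul, ht0', ← hprod]
      have h3 : h0 * s0 * F (Multiplicative.ofAdd t) = h0 * (F (Multiplicative.ofAdd t) * s0) := by
        rw [mul_assoc, mul_comm s0]
      rw [h3]
      exact H.mul_mem_cancel_left hh0
    rw [hc]
    exact_mod_cast hidx
  · rw [if_neg ha]
    have hc : (Finset.univ.filter fun t : (o : L) → ZMod (orderOf (o : A)) =>
        a * F (Multiplicative.ofAdd t) ∈ H) = ∅ := by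
      rw [Finset.filter_eq_empty_iff]
      intro t _ ht
      apply ha
      have h1 : F (Multiplicative.ofAdd t) ∈ Subgroup.closure L := by
        rw [← fxa_range]
        exact ⟨_, rfl⟩
      have h2 : a = (a * F (Multiplicative.ofAdd t)) * (F (Multiplicative.ofAdd t))⁻¹ := by
        rw [mul_inv_cancel_right]
      rw [h2]
      exact Subgroup.mul_mem_sup ht ((Subgroup.closure L).inv_mem h1)
    rw [hc, Finset.card_empty, Nat.cast_zero, mul_zero, mul_zero]

end Pool.Agent.H36.FA
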