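import Pool.Agent.H36.FA.Kqs
import Pool.Agent.H36.FA.Fxa
import Pool.Agent.H36.FA.Bdm

/-!
# [H36 FA KQU] The mean of the number of fixed points at a tame place

`per_ff`: `kqf` for every component (`l = orderOf o` divides `card A`, which divides `m`; `m ∉ v` implies `l ∉ v`; `ζ ^ (m / l)` is primitive of order
`l`: `IsPrimitiveRoot.pow`); `Un` is periodic. `mn_ff`: `Mn v (ff) = N^(-k) ∑_{r : L → 𝓞 K ⧸ v, all r o ≠ 0} fxp H (φ₀(fr) ∏ o^(kq (r o)))`; group by
`t o = kq (r o)`: `∏_o (N - 1)/orderOf o` tuples for each `t` (`kqs`), then `fxp_avg`.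
-/

set_option autoImplicit false

open scoped NumberField Classical
open IsDedekindDomain NumberField

noncomputable section

namespace Pool.Agent.H36.FA

open H63.MA H38.BB H38.BG H77.PC3 H51.SN H57.SL H36.QA H1.LS4 H38.ML

variable {K : IntermediateField ℚ QBar} [NumberField K] {A : Type} [CommGroup A] [Finite A]

private theorem kqu_ne {m : ℕ} {v : Pl K} (hv : ((m : ℕ) : 𝓞 K) ∉ v.asIdeal) : m ≠ 0 := by
  rintro rfl
  apply hv
  rw [Nat.cast_zero]
  exact v.asIdeal.zero_mem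

private theorem kqu_prim {m l : ℕ} {ζ : K} (hζ : IsPrimitiveRoot ζ m) (hm : m ≠ 0) (hl : l ∣ m) :
    IsPrimitiveRoot (ζ ^ (m / l)) l :=
  hζ.pow (Nat.pos_of_ne_zero hm) (Nat.div_mul_cancel hl).symm

private theorem kqu_nin {m l : ℕ} {v : Pl K} (hv : ((m : ℕ) : 𝓞 K) ∉ v.asIdeal) (hl : l ∣ m) :
    ((l : ℕ) : 𝓞 K) ∉ v.asIdeal := by
  intro h
  apply hv
  obtain ⟨c, rfl⟩ := hl
  rw [Nat.cast_mul]
  exact v.asIdeal.mul_mem_right _ h

theorem per_ff {m : ℕ} {ζ : K} (hζ : IsPrimitiveRoot ζ m) (hA : Nat.card A ∣ m) (L : Set A)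
    (hL : ∀ o ∈ L, (orderOf o).Prime) (φ₀ : Gal(QBar/K) →* A) (Q : DP K QBar) (H : Subgroup A)
    (v : Pl K) (hv : ((m : ℕ) : 𝓞 K) ∉ v.asIdeal) : Per v.asIdeal (ff m ζ L φ₀ Q H v) := by
  intro α α' h
  have hm := kqu_ne hv
  have hun : Un α v ↔ Un α' v := by
    have h1 := per_un (L := L) v α α' h
    have h2 : (if Un α v then (1 : ℝ) else 0) = if Un α' v then (1 : ℝ) else 0 := h1
    by_cases h3 : Un α v
    · by_cases h4 : Un α' v
      · exact ⟨fun _ => h4, fun _ => h3⟩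
      · rw [if_pos h3, if_neg h4] at h2
        exact absurd h2 one_ne_zero
    · by_cases h4 : Un α' v
      · rw [if_neg h3, if_pos h4] at h2
        exact absurd h2.symm one_ne_zero
      · exact ⟨fun h => absurd h h3, fun h => absurd h h4⟩
  unfold ff
  by_cases h3 : Un α v
  · rw [if_pos h3, if_pos (hun.1 h3)]
    have h4 : phf m ζ L φ₀ α (fr Q v) = phf m ζ L φ₀ α' (fr Q v) := by
      unfold phf
      congr 1
      refine Finset.prod_congr rfl fun o _ => ?_
      have h5 : ks m ζ (o : A) (α o) (fr Q v) = ks m ζ (o : A) (α' o) (fr Q v) := by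
        unfold ks
        have hd : orderOf (o : A) ∣ m := (orderOf_dvd_natCard (o : A)).trans hA
        exact kqf (hL o o.2) (kqu_prim hζ hm hd) Q v (kqu_nin hv hd) (α o) (α' o) (h3 o) (h o)
      rw [h5]
    rw [h4]
  · rw [if_neg h3, if_neg fun h4 => h3 (hun.2 h4)]

theorem ff_bd {m : ℕ} {ζ : K} (L : Set A) (φ₀ : Gal(QBar/K) →* A) (Q : DP K QBar) (H : Subgroup A)
    (v : Pl K) (α : L → 𝓞 K) :
    0 ≤ ff m ζ L φ₀ Q H v α ∧ ff m ζ L φ₀ Q H v α ≤ Nat.card A ∧
      (¬ Un α v → ff m ζ L φ₀ Q H v α = 0) := by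
  unfold ff
  refine ⟨?_, ?_, fun h => if_neg h⟩
  · split_ifs
    · exact Nat.cast_nonneg _
    · exact le_refl 0
  · split_ifs
    · exact_mod_cast fxp_le H _
    · exact Nat.cast_nonneg _

private theorem fib_sum {L R : Type} [Fintype L] [Fintype R] {T : L → Type} [∀ o, Fintype (T o)]
    (P : R → Prop) (Φ : ∀ o, R → T o) (g : (∀ o, T o) → ℝ) (c : L → ℝ) (F : (L → R) → ℝ)
    (hF1 : ∀ r : L → R, (∀ o, P (r o)) → F r = g fun o => Φ o (r o))
    (hF0 : ∀ r : L → R, ¬ (∀ o, P (r o)) → F r = 0)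
    (hc : ∀ o (t : T o), (({x | P x ∧ Φ o x = t} : Set R).ncard : ℝ) = c o) :
    ∑ᶠ r : L → R, F r = (∏ o, c o) * ∑ᶠ t : (∀ o, T o), g t := by
  rw [finsum_eq_sum_of_fintype, finsum_eq_sum_of_fintype]
  have h1 : ∀ r : L → R, F r =
      ∑ t : (∀ o, T o), if ∀ o, P (r o) ∧ Φ o (r o) = t o then g t else 0 := by
    intro r
    by_cases h : ∀ o, P (r o)
    · rw [hF1 r h, Finset.sum_eq_single (fun o => Φ o (r o))]
      · rw [if_pos fun o => ⟨h o, rfl⟩]
      · intro t _ ht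
        rw [if_neg]
        intro h2
        exact ht (funext fun o => ((h2 o).2).symm)
      · intro h2
        exact absurd (Finset.mem_univ _) h2
    · rw [hF0 r h]
      symm
      refine Finset.sum_eq_zero fun t _ => ?_
      rw [if_neg]
      intro h2
      exact h fun o => (h2 o).1
  have hc' : ∀ o (t : T o), ((Finset.univ.filter fun x => P x ∧ Φ o x = t).card : ℝ) = c o := by
    intro o t
    rw [← hc o t, ← Set.ncard_coe_finset]
    congr 2
    ext x
    simp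
  rw [Finset.sum_congr rfl fun r _ => h1 r, Finset.sum_comm, Finset.mul_sum]
  refine Finset.sum_congr rfl fun t _ => ?_
  have h2 : (Finset.univ.filter fun r : L → R => ∀ o, P (r o) ∧ Φ o (r o) = t o) =
      Fintype.piFinset fun o => Finset.univ.filter fun x => P x ∧ Φ o x = t o := by
    ext r
    simp only [Finset.mem_filter, Finset.mem_univ, true_and, Fintype.mem_piFinset]
  rw [← Finset.sum_filter, Finset.sum_const, h2, Fintype.card_piFinset, nsmul_eq_mul, Nat.cast_prod,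
    Finset.prod_congr rfl fun o _ => hc' o (t o)]

theorem mn_ff {m : ℕ} {ζ : K} (hζ : IsPrimitiveRoot ζ m) (hA : Nat.card A ∣ m) (L : Set A)
    (hL : ∀ o ∈ L, (orderOf o).Prime) (φ₀ : Gal(QBar/K) →* A) (Q : DP K QBar) (H : Subgroup A)
    (v : Pl K) (hv : ((m : ℕ) : 𝓞 K) ∉ v.asIdeal) :
    Mn v.asIdeal (ff m ζ L φ₀ Q H v) = (1 - 1 / (nm v : ℝ)) ^ Fintype.card L *
      (H51.K1.fxp (H ⊔ Subgroup.closure L) (φ₀ (fr Q v)) : ℝ) := by
  have hm := kqu_ne hv
  have : Finite (𝓞 K ⧸ v.asIdeal) := Ideal.finiteQuotientOfFreeOfNeBot _ v.ne_bot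
  letI : Fintype (𝓞 K ⧸ v.asIdeal) := Fintype.ofFinite _
  have hne : ∀ o : L, NeZero (orderOf (o : A)) := fun o => ⟨(hL o o.2).ne_zero⟩
  have : Finite ((o : L) → ZMod (orderOf (o : A))) := inferInstance
  have hN : nm v = Fintype.card (𝓞 K ⧸ v.asIdeal) := by
    rw [← Nat.card_eq_fintype_card]
    rfl
  have hN1 : 1 ≤ nm v := by
    rw [hN]
    exact Fintype.card_pos
  have hN0 : (nm v : ℝ) ≠ 0 := by
    have : 0 < nm v := hN1
    positivity
  have hun : ∀ r : L → 𝓞 K ⧸ v.asIdeal, (Un (fun o => Quotient.out (r o)) v ↔ ∀ o, r o ≠ 0) := by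
    intro r
    refine forall_congr' fun o => ?_
    refine not_congr ?_
    have h5 : (Ideal.Quotient.mk v.asIdeal (Quotient.out (r o))) = r o := Quotient.out_eq _
    constructor
    · intro h3
      rw [← h5]
      exact Ideal.Quotient.eq_zero_iff_mem.2 h3
    · intro h3
      exact Ideal.Quotient.eq_zero_iff_mem.1 (h5.trans h3)
  have hsum := fib_sum (L := L) (R := 𝓞 K ⧸ v.asIdeal) (T := fun o : L => ZMod (orderOf (o : A)))
    (fun x => x ≠ 0)
    (fun o x => kq (orderOf (o : A)) (ζ ^ (m / orderOf (o : A)))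
      (((Quotient.out x : 𝓞 K) : K) : QBar) (fr Q v))
    (fun t => (H51.K1.fxp H (φ₀ (fr Q v) * ∏ o : L, (o : A) ^ (t o).val) : ℝ))
    (fun o => ((nm v : ℝ) - 1) / (orderOf (o : A) : ℝ))
    (fun r => ff m ζ L φ₀ Q H v (fun o => Quotient.out (r o)))
    (by
      intro r h
      show ff m ζ L φ₀ Q H v (fun o => Quotient.out (r o)) = _
      unfold ff
      rw [if_pos ((hun r).2 h)]
      rfl)
    (by
      intro r h
      show ff m ζ L φ₀ Q H v (fun o => Quotient.out (r o)) = _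
      unfold ff
      rw [if_neg fun h2 => h ((hun r).1 h2)])
    (by
      intro o t
      have hd : orderOf (o : A) ∣ m := (orderOf_dvd_natCard (o : A)).trans hA
      have h1 := kqs (hL o o.2) (kqu_prim hζ hm hd) Q v (kqu_nin hv hd) t
      have h2 : (0 : ℝ) < (orderOf (o : A) : ℝ) := by
        exact_mod_cast (hL o o.2).pos
      rw [eq_div_iff h2.ne', ← Nat.cast_one, ← Nat.cast_sub hN1, ← h1, Nat.cast_mul])
  have havg := fxp_avg L hL H (φ₀ (fr Q v))
  unfold Mn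
  rw [hsum, havg, Finset.prod_div_distrib, Finset.prod_const,
    Finset.card_univ]
  have h6 : (∏ o : L, (orderOf (o : A) : ℝ)) ≠ 0 :=
    Finset.prod_ne_zero_iff.2 fun o _ => by exact_mod_cast (hL o o.2).ne_zero
  have h7 : (1 - 1 / (nm v : ℝ)) = ((nm v : ℝ) - 1) / (nm v : ℝ) := by
    rw [sub_div, div_self hN0]
  have h8 : ((Ideal.absNorm v.asIdeal : ℕ) : ℝ) = (nm v : ℝ) := rfl
  rw [h7, h8, div_pow, ← mul_assoc, div_mul_cancel₀ _ h6, mul_div_right_comm]

end Pool.Agent.H36.FA
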