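import Pool.Agent.H36.FA.Beb
import Pool.Agent.H38.TD.MertB

/-!
# [H36 FA MPI] Convergence: `∑ nm^(-3/2)`, and the product of `1 - be` is bounded below

* `sum_32`: at most `n = [K : ℚ]` places over every rational prime `p`, and `nm v ≥ p` (`nv_pow`, `fibre_card` as in `ml_nonprime`, H36/QA/Ml.lean), `∑ p^(-3/2)` converges.
* `prod_be`: `1 - be ≥ 2^(-k)` (`one_sub_be`, `nm ≥ 2`), `be ≤ k²/nm²` (`be_le`): `log (1 - be) ≥ - 2^k be` (`1 - x ≥ exp (-2^k x)` for `0 ≤ x ≤ 1 - 2^(-k)`: e.g. `Real.one_sub_inv_le_log_of_pos`),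
  so the product is `≥ exp (- 2^k k² ∑ 1/nm²) ≥ exp (- 2^k k² S)`, `1/nm² ≤ nm^(-3/2)`.
-/

set_option autoImplicit false

open scoped NumberField Classical
open IsDedekindDomain NumberField

noncomputable section

namespace Pool.Agent.H36.FA

open H63.MA H38.BB H38.BG H77.PC3 H51.SN H57.SL H36.QA H1.LS4 H38.ML

private theorem mpi_two {K : Type} [Field K] [NumberField K] (v : Pl K) : 2 ≤ nm v := by
  have h0 : nm v ≠ 0 := by
    unfold nm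
    rw [Ne, Ideal.absNorm_eq_zero_iff]
    exact v.ne_bot
  have h1 : nm v ≠ 1 := by
    unfold nm
    rw [Ne, Ideal.absNorm_eq_one_iff]
    exact v.isPrime.ne_top
  omega

theorem sum_32 (K : Type) [Field K] [NumberField K] : ∃ S : ℝ, 0 ≤ S ∧ ∀ R : Finset (Pl K),
    ∑ v ∈ R, (nm v : ℝ) ^ (-(3 / 2) : ℝ) ≤ S := by
  have hsum : Summable (fun n : ℕ => (n : ℝ) ^ (-(3 / 2) : ℝ)) :=
    Real.summable_nat_rpow.2 (by norm_num)
  have hn : ∀ n : ℕ, (0 : ℝ) ≤ (n : ℝ) ^ (-(3 / 2) : ℝ) := fun n =>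
    Real.rpow_nonneg (Nat.cast_nonneg n) _
  refine ⟨(Module.finrank ℤ (𝓞 K) : ℝ) * ∑' n : ℕ, (n : ℝ) ^ (-(3 / 2) : ℝ),
    mul_nonneg (Nat.cast_nonneg _) (tsum_nonneg hn), fun R => ?_⟩
  have h1 : ∀ v ∈ R, (nm v : ℝ) ^ (-(3 / 2) : ℝ) ≤ ((nm v).minFac : ℝ) ^ (-(3 / 2) : ℝ) := by
    intro v _
    have hp : 0 < (nm v).minFac := Nat.minFac_pos _
    have h3 : (nm v).minFac ≤ nm v := Nat.minFac_le (by have := mpi_two v; omega)
    apply Real.rpow_le_rpow_of_nonpos (by exact_mod_cast hp) (by exact_mod_cast h3) (by norm_num)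
  calc ∑ v ∈ R, (nm v : ℝ) ^ (-(3 / 2) : ℝ) ≤ ∑ v ∈ R, ((nm v).minFac : ℝ) ^ (-(3 / 2) : ℝ) :=
        Finset.sum_le_sum h1
    _ = ∑ p ∈ R.image (fun v => (nm v).minFac), ∑ v ∈ R with (nm v).minFac = p,
          ((nm v).minFac : ℝ) ^ (-(3 / 2) : ℝ) :=
        (Finset.sum_fiberwise_of_maps_to (fun v hv => Finset.mem_image_of_mem _ hv) _).symm
    _ ≤ ∑ p ∈ R.image (fun v => (nm v).minFac),
          (Module.finrank ℤ (𝓞 K) : ℝ) * (p : ℝ) ^ (-(3 / 2) : ℝ) := by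
        refine Finset.sum_le_sum fun p hp => ?_
        obtain ⟨v, hv, rfl⟩ := Finset.mem_image.1 hp
        have hpr : (nm v).minFac.Prime := (H38.TD.nv_pow K v).1
        have hc := H38.TD.fibre_card K (nm v).minFac hpr
          (R.filter fun u => (nm u).minFac = (nm v).minFac)
          (fun u hu => (Finset.mem_filter.1 hu).2)
        have hc' : ((R.filter fun u => (nm u).minFac = (nm v).minFac).card : ℝ) ≤
            (Module.finrank ℤ (𝓞 K) : ℝ) := by exact_mod_cast hc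
        have h2 : ∑ u ∈ R with (nm u).minFac = (nm v).minFac,
            ((nm u).minFac : ℝ) ^ (-(3 / 2) : ℝ) =
            ((R.filter fun u => (nm u).minFac = (nm v).minFac).card : ℝ) *
              ((nm v).minFac : ℝ) ^ (-(3 / 2) : ℝ) := by
          rw [← nsmul_eq_mul, ← Finset.sum_const]
          refine Finset.sum_congr rfl fun u hu => ?_
          rw [(Finset.mem_filter.1 hu).2]
        rw [h2]
        exact mul_le_mul_of_nonneg_right hc' (hn _)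
    _ = (Module.finrank ℤ (𝓞 K) : ℝ) * ∑ p ∈ R.image (fun v => (nm v).minFac),
          (p : ℝ) ^ (-(3 / 2) : ℝ) := by rw [Finset.mul_sum]
    _ ≤ (Module.finrank ℤ (𝓞 K) : ℝ) * ∑' n : ℕ, (n : ℝ) ^ (-(3 / 2) : ℝ) :=
        mul_le_mul_of_nonneg_left (hsum.sum_le_tsum _ fun n _ => hn n) (Nat.cast_nonneg _)

/-- one factor -/
private theorem mpi_factor (x k c N : ℝ) (hk : 0 < k) (hx1 : k ≤ 1 - x) (hx : x ≤ c / N ^ 2)
    (hc : 0 ≤ c) (hN : 2 ≤ N) : Real.exp (-(k⁻¹ * c * N ^ (-(3 / 2) : ℝ))) ≤ 1 - x := by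
  have hpos : 0 < 1 - x := lt_of_lt_of_le hk hx1
  have h1 : Real.exp (-(k⁻¹ * c * N ^ (-(3 / 2) : ℝ))) ≤ Real.exp (-((1 - x)⁻¹ - 1)) := by
    apply Real.exp_le_exp.2
    rw [neg_le_neg_iff]
    have h2 : (1 - x)⁻¹ - 1 = (1 - x)⁻¹ * x := by
      field_simp
      ring
    rw [h2]
    have h3 : c / N ^ 2 ≤ c * N ^ (-(3 / 2) : ℝ) := by
      rw [div_eq_mul_inv]
      apply mul_le_mul_of_nonneg_left _ hc
      rw [← Real.rpow_natCast, ← Real.rpow_neg (by linarith)]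
      apply Real.rpow_le_rpow_of_exponent_le (by linarith)
      norm_num
    have h4 : x ≤ c * N ^ (-(3 / 2) : ℝ) := hx.trans h3
    have h5 : 0 ≤ c * N ^ (-(3 / 2) : ℝ) := mul_nonneg hc (Real.rpow_nonneg (by linarith) _)
    have h6 : (1 - x)⁻¹ ≤ k⁻¹ := inv_anti₀ hk hx1
    calc (1 - x)⁻¹ * x ≤ (1 - x)⁻¹ * (c * N ^ (-(3 / 2) : ℝ)) :=
          mul_le_mul_of_nonneg_left h4 (inv_nonneg.2 hpos.le)
      _ ≤ k⁻¹ * (c * N ^ (-(3 / 2) : ℝ)) := mul_le_mul_of_nonneg_right h6 h5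
      _ = k⁻¹ * c * N ^ (-(3 / 2) : ℝ) := by ring
  refine h1.trans ?_
  have h7 := Real.log_le_sub_one_of_pos (inv_pos.2 hpos)
  rw [Real.log_inv] at h7
  calc Real.exp (-((1 - x)⁻¹ - 1)) ≤ Real.exp (Real.log (1 - x)) :=
        Real.exp_le_exp.2 (by linarith)
    _ = 1 - x := Real.exp_log hpos

theorem prod_be (K : Type) [Field K] [NumberField K] (L : Type) [Fintype L] : ∃ c : ℝ, 0 < c ∧
    ∀ R : Finset (Pl K), c ≤ ∏ v ∈ R, (1 - be L v) := by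
  obtain ⟨S, hS0, hS⟩ := sum_32 K
  have hkp : (0 : ℝ) < (1 / 2 : ℝ) ^ Fintype.card L := by positivity
  obtain ⟨c, hc0, hc⟩ : ∃ c : ℝ, 0 ≤ c ∧ c = (Fintype.card L : ℝ) ^ 2 := ⟨_, by positivity, rfl⟩
  have hA : 0 ≤ ((1 / 2 : ℝ) ^ Fintype.card L)⁻¹ * c := mul_nonneg (inv_nonneg.2 hkp.le) hc0
  refine ⟨Real.exp (-(((1 / 2 : ℝ) ^ Fintype.card L)⁻¹ * c * S)), Real.exp_pos _, fun R => ?_⟩
  have key : ∀ v : Pl K, Real.exp (-(((1 / 2 : ℝ) ^ Fintype.card L)⁻¹ * c *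
      (nm v : ℝ) ^ (-(3 / 2) : ℝ))) ≤ 1 - be L v := by
    intro v
    have hN : (2 : ℝ) ≤ (nm v : ℝ) := by exact_mod_cast mpi_two v
    refine mpi_factor _ _ _ _ hkp ?_ (by rw [hc]; exact be_le v) hc0 hN
    refine le_trans ?_ (one_sub_be v)
    apply pow_le_pow_left₀ (by norm_num)
    have h1 : 1 / (nm v : ℝ) ≤ 1 / 2 := one_div_le_one_div_of_le (by norm_num) hN
    linarith
  calc Real.exp (-(((1 / 2 : ℝ) ^ Fintype.card L)⁻¹ * c * S))
      ≤ Real.exp (∑ v ∈ R, -(((1 / 2 : ℝ) ^ Fintype.card L)⁻¹ * c *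
          (nm v : ℝ) ^ (-(3 / 2) : ℝ))) := by
        apply Real.exp_le_exp.2
        rw [Finset.sum_neg_distrib, ← Finset.mul_sum, neg_le_neg_iff]
        exact mul_le_mul_of_nonneg_left (hS R) hA
    _ = ∏ v ∈ R, Real.exp (-(((1 / 2 : ℝ) ^ Fintype.card L)⁻¹ * c *
          (nm v : ℝ) ^ (-(3 / 2) : ℝ))) := Real.exp_sum _ _
    _ ≤ ∏ v ∈ R, (1 - be L v) :=
        Finset.prod_le_prod (fun v _ => (Real.exp_pos _).le) fun v _ => key v

end Pool.Agent.H36.FA
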