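import Pool.Agent.H36.FA.Che
import Pool.Agent.H36.FA.Kqu
import Pool.Agent.H36.FA.Mpi

/-!
# [H36 FA CHG] The hypotheses `che1`, `che2` for the means `gg`

`k = #L`, `H' = H ⊔ closure L`. By `mn_ff`: `gg v = (1 - 1/N)^k fxp H' (φ₀ (fr v)) / (1 - be v)` for `v` not dividing `m` (all such `v` are in `S₀`), and
`(1 - 1/N)^k ≤ 1 - be ≤ 1` (`one_sub_be`, `be_nonneg`): so `(1 - 1/N)^k fxp ≤ gg ≤ fxp ≤ #A`. Windows: `(1 - 1/N)^k ≥ 2^(-k)`, so `∑ gg ≥ 2^(-k) x / (C₀ log x)` by `che_w` with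
`C₀` and the larger constant `C = 2^k C₀` (the window `(x, C x]` contains `(x, C₀ x]`; all `C ≥ 2^k C₀`). Mertens: `(1 - 1/N)^k ≥ 1 - k/N`, `∑ k #A / N²` bounded (`sum_32`), `che_m`.
-/

set_option autoImplicit false

open scoped NumberField Classical
open IsDedekindDomain NumberField

noncomputable section

namespace Pool.Agent.H36.FA

open H63.MA H38.BB H38.BG H77.PC3 H51.SN H57.SL H36.QA H1.LS4 H38.ML

variable {K : IntermediateField ℚ QBar} [NumberField K] {A : Type} [CommGroup A] [Finite A]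

private theorem chg_two_le (v : Pl K) : (2 : ℝ) ≤ nm v := by
  exact_mod_cast one_lt_nm v

private theorem chg_half_le (v : Pl K) : 1 / 2 ≤ 1 - 1 / (nm v : ℝ) := by
  have h := chg_two_le v
  have h1 : 1 / (nm v : ℝ) ≤ 1 / 2 := one_div_le_one_div_of_le two_pos h
  linarith

private theorem chg_fxp_le (H : Subgroup A) (a : A) : (H51.K1.fxp H a : ℝ) ≤ Nat.card A := by
  have h1 : H51.K1.fxp H a ≤ Nat.card (A ⧸ H) :=
    Nat.card_le_card_of_injective Subtype.val Subtype.val_injective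
  have h2 : Nat.card (A ⧸ H) ≤ Nat.card A :=
    Nat.card_le_card_of_surjective (QuotientGroup.mk : A → A ⧸ H) QuotientGroup.mk_surjective
  exact_mod_cast h1.trans h2

/-- `gg` is between `(1 - 1 / N) ^ k` times the number of fixed points and the number of fixed points -/
private theorem chg_both {m : ℕ} {ζ : K} (hζ : IsPrimitiveRoot ζ m) (hA : Nat.card A ∣ m) (L : Set A)
    (hL : ∀ o ∈ L, (orderOf o).Prime) (φ₀ : Gal(QBar/K) →* A) (Q : DP K QBar) (H : Subgroup A)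
    (v : Pl K) (hv : ((m : ℕ) : 𝓞 K) ∉ v.asIdeal) :
    (1 - 1 / (nm v : ℝ)) ^ Fintype.card L * (H51.K1.fxp (H ⊔ Subgroup.closure L) (φ₀ (fr Q v)) : ℝ) ≤
        gg m ζ L φ₀ Q H v ∧
      gg m ζ L φ₀ Q H v ≤ (H51.K1.fxp (H ⊔ Subgroup.closure L) (φ₀ (fr Q v)) : ℝ) := by
  have h0 : 0 < (1 - 1 / (nm v : ℝ)) ^ Fintype.card L :=
    pow_pos (lt_of_lt_of_le (by norm_num) (chg_half_le v)) _
  have h1 := one_sub_be (L := L) v
  have h2 := be_nonneg (L := L) v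
  have h3 : 0 < 1 - be L v := lt_of_lt_of_le h0 h1
  have h4 : (0 : ℝ) ≤ (H51.K1.fxp (H ⊔ Subgroup.closure L) (φ₀ (fr Q v)) : ℝ) := Nat.cast_nonneg _
  unfold gg
  rw [mn_ff hζ hA L hL φ₀ Q H v hv]
  constructor
  · rw [le_div_iff₀ h3]
    have h5 : 0 ≤ (1 - 1 / (nm v : ℝ)) ^ Fintype.card L *
        (H51.K1.fxp (H ⊔ Subgroup.closure L) (φ₀ (fr Q v)) : ℝ) := mul_nonneg h0.le h4
    nlinarith
  · rw [div_le_iff₀ h3, mul_comm]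
    exact mul_le_mul_of_nonneg_left h1 h4

theorem gg_bd {m : ℕ} {ζ : K} (hζ : IsPrimitiveRoot ζ m) (hA : Nat.card A ∣ m) (L : Set A)
    (hL : ∀ o ∈ L, (orderOf o).Prime) (φ₀ : Gal(QBar/K) →* A) (Q : DP K QBar) (H : Subgroup A)
    (v : Pl K) (hv : ((m : ℕ) : 𝓞 K) ∉ v.asIdeal) :
    0 ≤ gg m ζ L φ₀ Q H v ∧ gg m ζ L φ₀ Q H v ≤ Nat.card A := by
  obtain ⟨h1, h2⟩ := chg_both hζ hA L hL φ₀ Q H v hv
  have h0 : 0 < (1 - 1 / (nm v : ℝ)) ^ Fintype.card L :=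
    pow_pos (lt_of_lt_of_le (by norm_num) (chg_half_le v)) _
  exact ⟨(mul_nonneg h0.le (Nat.cast_nonneg _)).trans h1, h2.trans (chg_fxp_le _ _)⟩

private theorem chg_mem_PV {S₀ : Finset (Pl K)} {x : ℝ} {v : H51.K1.Vx S₀} :
    v ∈ H51.K1.PV S₀ x ↔ (nm v.1 : ℝ) ≤ x := by
  unfold H51.K1.PV
  rw [Set.Finite.mem_toFinset]
  rfl

/-- `1 - k y ≤ (1 - y) ^ k` -/
private theorem chg_bern (k : ℕ) {y : ℝ} (hy : y ≤ 1) : 1 - k * y ≤ (1 - y) ^ k := by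
  have h := one_add_mul_le_pow (a := -y) (by linarith) k
  rw [show (1 : ℝ) + k * -y = 1 - k * y by ring, show (1 : ℝ) + -y = 1 - y by ring] at h
  exact h

/-- `1 / N ^ 2 ≤ N ^ (- 3 / 2)` -/
private theorem chg_sq_le_32 {N : ℝ} (hN : 1 ≤ N) : 1 / N ^ 2 ≤ N ^ (-(3 / 2) : ℝ) := by
  have h1 : 1 / N ^ 2 = N ^ (-2 : ℝ) := by
    rw [Real.rpow_neg (by linarith), one_div]
    norm_num
  rw [h1]
  exact Real.rpow_le_rpow_of_exponent_le hN (by norm_num)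

theorem gg_che {m : ℕ} {ζ : K} (hζ : IsPrimitiveRoot ζ m) (hA : Nat.card A ∣ m) (L : Set A)
    (hL : ∀ o ∈ L, (orderOf o).Prime) (φ₀ : Gal(QBar/K) →* A) (h₀ : FT φ₀)
    (hs : Function.Surjective φ₀) (Q : DP K QBar) (H : Subgroup A) (S₀ : Finset (Pl K))
    (hS : ∀ v : Pl K, ((m : ℕ) : 𝓞 K) ∈ v.asIdeal → v ∈ S₀) :
    ∃ C₀ : ℝ, 2 ≤ C₀ ∧ ∀ C : ℝ, C₀ ≤ C →
      (∀ x : ℝ, C ≤ x → x / (C * Real.log x) ≤
        ∑ v ∈ H51.K1.PV S₀ (C * x) \ H51.K1.PV S₀ x, gg m ζ L φ₀ Q H v.1) ∧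
      ∀ x : ℝ, 2 ≤ x → Real.log (Real.log x) - C ≤
        ∑ v ∈ H51.K1.PV S₀ x, gg m ζ L φ₀ Q H v.1 / (nm v.1 : ℝ) := by
  obtain ⟨k, hk⟩ : ∃ k, k = Fintype.card L := ⟨_, rfl⟩
  obtain ⟨H', hH'⟩ : ∃ H', H' = H ⊔ Subgroup.closure L := ⟨_, rfl⟩
  have hv : ∀ v : H51.K1.Vx S₀, ((m : ℕ) : 𝓞 K) ∉ v.1.asIdeal := fun v h => v.2 (hS v.1 h)
  have hlow : ∀ v : H51.K1.Vx S₀, (1 - 1 / (nm v.1 : ℝ)) ^ k *
      (H51.K1.fxp H' (φ₀ (fr Q v.1)) : ℝ) ≤ gg m ζ L φ₀ Q H v.1 := fun v => by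
    rw [hk, hH']
    exact (chg_both hζ hA L hL φ₀ Q H v.1 (hv v)).1
  have hnn : ∀ v : H51.K1.Vx S₀, 0 ≤ gg m ζ L φ₀ Q H v.1 := fun v =>
    (gg_bd hζ hA L hL φ₀ Q H v.1 (hv v)).1
  obtain ⟨C1, hC1, hm⟩ := che_m φ₀ h₀ hs Q H' S₀
  obtain ⟨C2, hC2, hw⟩ := che_w φ₀ h₀ hs Q H' S₀
  obtain ⟨S, hS0, hS32⟩ := sum_32 K
  have h2k : (1 : ℝ) ≤ 2 ^ k := one_le_pow₀ one_le_two
  have h2k0 : (0 : ℝ) < 2 ^ k := by positivity
  obtain ⟨C3, hC3⟩ : ∃ C3 : ℝ, C3 = C1 + k * (Nat.card A * S) := ⟨_, rfl⟩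
  refine ⟨max (2 ^ k * C2) C3, ?_, fun C hC => ⟨fun x hx => ?_, fun x hx => ?_⟩⟩
  · refine le_trans ?_ (le_max_left _ _)
    nlinarith
  · -- windows
    have hCk : 2 ^ k * C2 ≤ C := (le_max_left _ _).trans hC
    have hC0 : 2 ≤ C := by nlinarith
    have hx0 : 2 ≤ x := hC0.trans hx
    have hlog : 0 < Real.log x := Real.log_pos (by linarith)
    have h1 : C2 ≤ C / 2 ^ k := by
      rw [le_div_iff₀ h2k0, mul_comm]
      exact hCk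
    have h2 : C / 2 ^ k ≤ C := div_le_self (by linarith) h2k
    have h3 := hw (C / 2 ^ k) h1 x (h2.trans hx)
    have h4 : H51.K1.PV S₀ (C / 2 ^ k * x) \ H51.K1.PV S₀ x ⊆ H51.K1.PV S₀ (C * x) \ H51.K1.PV S₀ x := by
      refine Finset.sdiff_subset_sdiff (fun v hv => ?_) (Finset.Subset.refl _)
      rw [chg_mem_PV] at hv ⊢
      exact hv.trans (mul_le_mul_of_nonneg_right h2 (by linarith))
    have h5 : ∀ v : H51.K1.Vx S₀, (1 / 2) ^ k * (H51.K1.fxp H' (φ₀ (fr Q v.1)) : ℝ) ≤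
        gg m ζ L φ₀ Q H v.1 := fun v => by
      refine le_trans ?_ (hlow v)
      exact mul_le_mul_of_nonneg_right (pow_le_pow_left₀ (by norm_num) (chg_half_le v.1) k) (Nat.cast_nonneg _)
    calc x / (C * Real.log x) = (1 / 2) ^ k * (x / (C / 2 ^ k * Real.log x)) := by
          rw [one_div_pow]
          field_simp
      _ ≤ (1 / 2) ^ k * ∑ v ∈ H51.K1.PV S₀ (C / 2 ^ k * x) \ H51.K1.PV S₀ x,
          (H51.K1.fxp H' (φ₀ (fr Q v.1)) : ℝ) := mul_le_mul_of_nonneg_left h3 (by positivity)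
      _ = ∑ v ∈ H51.K1.PV S₀ (C / 2 ^ k * x) \ H51.K1.PV S₀ x,
          (1 / 2) ^ k * (H51.K1.fxp H' (φ₀ (fr Q v.1)) : ℝ) := Finset.mul_sum _ _ _
      _ ≤ ∑ v ∈ H51.K1.PV S₀ (C / 2 ^ k * x) \ H51.K1.PV S₀ x, gg m ζ L φ₀ Q H v.1 :=
          Finset.sum_le_sum fun v _ => h5 v
      _ ≤ _ := Finset.sum_le_sum_of_subset_of_nonneg h4 fun v _ _ => hnn v
  · -- Mertens
    have hC3' : C3 ≤ C := (le_max_right _ _).trans hC
    have h1 := hm x hx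
    have h2 : ∀ v : H51.K1.Vx S₀, (H51.K1.fxp H' (φ₀ (fr Q v.1)) : ℝ) / (nm v.1 : ℝ) -
        k * (Nat.card A * (nm v.1 : ℝ) ^ (-(3 / 2) : ℝ)) ≤ gg m ζ L φ₀ Q H v.1 / (nm v.1 : ℝ) := fun v => by
      have hN := chg_two_le v.1
      have hN0 : (0 : ℝ) < nm v.1 := by linarith
      have hf0 : (0 : ℝ) ≤ (H51.K1.fxp H' (φ₀ (fr Q v.1)) : ℝ) := Nat.cast_nonneg _
      have hf1 := chg_fxp_le H' (φ₀ (fr Q v.1))
      have h3 : (1 - k * (1 / (nm v.1 : ℝ))) * (H51.K1.fxp H' (φ₀ (fr Q v.1)) : ℝ) ≤ gg m ζ L φ₀ Q H v.1 := by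
        refine le_trans ?_ (hlow v)
        refine mul_le_mul_of_nonneg_right (chg_bern k ?_) hf0
        rw [div_le_one hN0]
        linarith
      have h4 : (1 - k * (1 / (nm v.1 : ℝ))) * (H51.K1.fxp H' (φ₀ (fr Q v.1)) : ℝ) / (nm v.1 : ℝ) ≤
          gg m ζ L φ₀ Q H v.1 / (nm v.1 : ℝ) := div_le_div_of_nonneg_right h3 hN0.le
      refine le_trans ?_ h4
      have h5 := chg_sq_le_32 (N := (nm v.1 : ℝ)) (by linarith)
      have h6 : (H51.K1.fxp H' (φ₀ (fr Q v.1)) : ℝ) * (1 / (nm v.1 : ℝ) ^ 2) ≤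
          Nat.card A * (nm v.1 : ℝ) ^ (-(3 / 2) : ℝ) :=
        mul_le_mul hf1 h5 (by positivity) (Nat.cast_nonneg _)
      have h7 : (1 - k * (1 / (nm v.1 : ℝ))) * (H51.K1.fxp H' (φ₀ (fr Q v.1)) : ℝ) / (nm v.1 : ℝ) =
          (H51.K1.fxp H' (φ₀ (fr Q v.1)) : ℝ) / (nm v.1 : ℝ) -
            k * ((H51.K1.fxp H' (φ₀ (fr Q v.1)) : ℝ) * (1 / (nm v.1 : ℝ) ^ 2)) := by
        field_simp
      rw [h7]
      have h8 := mul_le_mul_of_nonneg_left h6 (Nat.cast_nonneg k : (0 : ℝ) ≤ k)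
      linarith
    have h3 : ∑ v ∈ H51.K1.PV S₀ x, (nm v.1 : ℝ) ^ (-(3 / 2) : ℝ) ≤ S := by
      have h4 := hS32 ((H51.K1.PV S₀ x).map ⟨Subtype.val, Subtype.val_injective⟩)
      rw [Finset.sum_map] at h4
      exact h4
    have h5 : ∑ v ∈ H51.K1.PV S₀ x, ((H51.K1.fxp H' (φ₀ (fr Q v.1)) : ℝ) / (nm v.1 : ℝ) -
        k * (Nat.card A * (nm v.1 : ℝ) ^ (-(3 / 2) : ℝ))) ≤
        ∑ v ∈ H51.K1.PV S₀ x, gg m ζ L φ₀ Q H v.1 / (nm v.1 : ℝ) := Finset.sum_le_sum fun v _ => h2 v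
    rw [Finset.sum_sub_distrib, ← Finset.mul_sum, ← Finset.mul_sum] at h5
    have h6 : (k : ℝ) * (Nat.card A * ∑ v ∈ H51.K1.PV S₀ x, (nm v.1 : ℝ) ^ (-(3 / 2) : ℝ)) ≤
        k * (Nat.card A * S) := mul_le_mul_of_nonneg_left
      (mul_le_mul_of_nonneg_left h3 (Nat.cast_nonneg _)) (Nat.cast_nonneg _)
    linarith

end Pool.Agent.H36.FA
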