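import Pool.Agent.H36.FA.Def

/-!
# [H36 FA PER] Periodic functions of tuples and their means

* `mn_rep`: `𝓞 K ⧸ 𝔠` is finite with `N𝔠` elements (`𝔠 ≠ ⊥`), `Ideal.Quotient.mk 𝔠 (Quotient.out r) = r`; so for periodic `f` the mean can be computed
  with any representatives.
* `mn_mul`: Chinese remainder theorem `𝓞 K ⧸ 𝔠 𝔡 ≃ 𝓞 K ⧸ 𝔠 × 𝓞 K ⧸ 𝔡` (`Ideal.quotientMulEquivQuotientProd`), tuples of pairs = pairs of tuples,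
  `Finset.sum_mul_sum`; `N(𝔠 𝔡) = N𝔠 N𝔡`.
-/

set_option autoImplicit false

open scoped NumberField Classical
open IsDedekindDomain NumberField

noncomputable section

namespace Pool.Agent.H36.FA

open H63.MA H38.BB H38.BG H77.PC3 H51.SN H57.SL H36.QA H1.LS4 H38.ML

variable {K : Type} [Field K] [NumberField K] {L : Type} [Fintype L]

theorem mn_rep {𝔠 : Ideal (𝓞 K)} (hc : 𝔠 ≠ ⊥) {f : (L → 𝓞 K) → ℝ} (hf : Per 𝔠 f)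
    (rp : 𝓞 K ⧸ 𝔠 → 𝓞 K) (hrp : ∀ r, Ideal.Quotient.mk 𝔠 (rp r) = r) :
    Mn 𝔠 f = (∑ᶠ r : L → 𝓞 K ⧸ 𝔠, f (fun o => rp (r o))) /
      (Ideal.absNorm 𝔠 : ℝ) ^ Fintype.card L := by
  unfold Mn
  have h1 : (fun r : L → 𝓞 K ⧸ 𝔠 => f (fun o => Quotient.out (r o))) =
      fun r : L → 𝓞 K ⧸ 𝔠 => f (fun o => rp (r o)) := by
    funext r
    refine hf _ _ fun o => ?_
    rw [← Ideal.Quotient.eq, hrp]
    exact Quotient.out_eq (r o)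
  rw [h1]

theorem mn_mul {𝔠 𝔡 : Ideal (𝓞 K)} (hc : 𝔠 ≠ ⊥) (hd : 𝔡 ≠ ⊥) (hcd : IsCoprime 𝔠 𝔡)
    {f g : (L → 𝓞 K) → ℝ} (hf : Per 𝔠 f) (hg : Per 𝔡 g) :
    Mn (𝔠 * 𝔡) (fun α => f α * g α) = Mn 𝔠 f * Mn 𝔡 g := by
  have f1 : Finite (𝓞 K ⧸ 𝔠) := Ideal.finiteQuotientOfFreeOfNeBot 𝔠 hc
  have f2 : Finite (𝓞 K ⧸ 𝔡) := Ideal.finiteQuotientOfFreeOfNeBot 𝔡 hd
  obtain ⟨e, he⟩ : ∃ e : (𝓞 K ⧸ 𝔠 * 𝔡) ≃ (𝓞 K ⧸ 𝔠) × (𝓞 K ⧸ 𝔡), ∀ x : 𝓞 K,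
      e (Ideal.Quotient.mk (𝔠 * 𝔡) x) = (Ideal.Quotient.mk 𝔠 x, Ideal.Quotient.mk 𝔡 x) :=
    ⟨(Ideal.quotientMulEquivQuotientProd 𝔠 𝔡 hcd).toEquiv, fun x => rfl⟩
  have hout : ∀ (I : Ideal (𝓞 K)) (r : 𝓞 K ⧸ I), Ideal.Quotient.mk I (Quotient.out r) = r :=
    fun I r => Quotient.out_eq r
  have f3 : Fintype (𝓞 K ⧸ 𝔠) := Fintype.ofFinite _
  have f4 : Fintype (𝓞 K ⧸ 𝔡) := Fintype.ofFinite _
  have h1 : (∑ᶠ r : L → 𝓞 K ⧸ 𝔠 * 𝔡,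
      f (fun o => Quotient.out (r o)) * g (fun o => Quotient.out (r o))) =
      (∑ᶠ r : L → 𝓞 K ⧸ 𝔠, f (fun o => Quotient.out (r o))) *
        ∑ᶠ r : L → 𝓞 K ⧸ 𝔡, g (fun o => Quotient.out (r o)) := by
    have h2 : (∑ᶠ r : L → 𝓞 K ⧸ 𝔠 * 𝔡,
        f (fun o => Quotient.out (r o)) * g (fun o => Quotient.out (r o))) =
        ∑ᶠ r : (L → 𝓞 K ⧸ 𝔠) × (L → 𝓞 K ⧸ 𝔡),
          f (fun o => Quotient.out (r.1 o)) * g (fun o => Quotient.out (r.2 o)) := by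
      rw [← finsum_comp_equiv ((Equiv.arrowCongr (Equiv.refl L) e).trans
        (Equiv.arrowProdEquivProdArrow L (fun _ => 𝓞 K ⧸ 𝔠) (fun _ => 𝓞 K ⧸ 𝔡)))]
      refine finsum_congr fun r => ?_
      have h3 : ∀ o, (e (r o)).1 = Ideal.Quotient.mk 𝔠 (Quotient.out (r o)) ∧
          (e (r o)).2 = Ideal.Quotient.mk 𝔡 (Quotient.out (r o)) := by
        intro o
        have h4 := he (Quotient.out (r o))
        rw [hout] at h4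
        rw [h4]
        exact ⟨rfl, rfl⟩
      have h5 : f (fun o => Quotient.out (r o)) = f (fun o => Quotient.out ((e (r o)).1)) := by
        refine hf _ _ fun o => ?_
        rw [← Ideal.Quotient.eq, hout, (h3 o).1]
      have h6 : g (fun o => Quotient.out (r o)) = g (fun o => Quotient.out ((e (r o)).2)) := by
        refine hg _ _ fun o => ?_
        rw [← Ideal.Quotient.eq, hout, (h3 o).2]
      rw [h5, h6]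
      rfl
    rw [h2, finsum_eq_sum_of_fintype, finsum_eq_sum_of_fintype, finsum_eq_sum_of_fintype,
      Fintype.sum_prod_type, Finset.sum_mul_sum]
  unfold Mn
  rw [h1, map_mul, Nat.cast_mul, mul_pow, mul_div_mul_comm]

theorem per_mul {𝔠 𝔡 : Ideal (𝓞 K)} {f g : (L → 𝓞 K) → ℝ} (hf : Per 𝔠 f) (hg : Per 𝔡 g) :
    Per (𝔠 * 𝔡) (fun α => f α * g α) := by
  intro α α' h
  have h1 : 𝔠 * 𝔡 ≤ 𝔠 := Ideal.mul_le_left
  have h2 : 𝔠 * 𝔡 ≤ 𝔡 := Ideal.mul_le_right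
  have h3 : f α = f α' := hf α α' fun o => h1 (h o)
  have h4 : g α = g α' := hg α α' fun o => h2 (h o)
  change f α * g α = f α' * g α'
  rw [h3, h4]

end Pool.Agent.H36.FA
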