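import Pool.Agent.H36.FA.Ann
import Pool.Agent.H36.FA.Per

/-!
# [H36 FA CNT] Sums of periodic functions over the box of tuples

`κ` from `ann_cnt`, `k = #L`. Group the `α ∈ BX K X` by their classes `r : L → 𝓞 K ⧸ 𝔠`:
`∑_{α ∈ BX} f α = ∑_r f(r) ∏_o #{α ∈ Ax K (X o) : α ≡ r o}` (`Finset.prod_univ_sum` / `Fintype.piFinset`; `f` periodic). Each factor is
`κ X o / N𝔠 + e_o`, `|e_o| ≤ C (X o)^(1 - 1/n) ≤ C X o Z^(-1/n)`, and `κ X o / N𝔠 ≤ κ X o`; so the product differs from `∏_o κ X o / N𝔠` by at most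
`C' (∏ X o) Z^(-1/n)` (`C'` depends on `k`, `κ`, `C`; `Z ≥ 1`). There are `N𝔠^k` classes, `|f| ≤ B`, and
`∑_r f(r) ∏_o κ X o / N𝔠 = (∏_o κ X o) Mn 𝔠 f`.
-/

set_option autoImplicit false

open scoped NumberField Classical
open IsDedekindDomain NumberField

noncomputable section

namespace Pool.Agent.H36.FA

open H63.MA H38.BB H38.BG H77.PC3 H51.SN H57.SL H36.QA H1.LS4 H38.ML

private theorem cnt_prod {ι : Type} (s : Finset ι) (a b M : ι → ℝ) (ε : ℝ) (hε : 0 ≤ ε)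
    (ha : ∀ i ∈ s, |a i| ≤ M i) (hb : ∀ i ∈ s, |b i| ≤ M i) (hab : ∀ i ∈ s, |a i - b i| ≤ ε * M i) :
    |∏ i ∈ s, a i - ∏ i ∈ s, b i| ≤ s.card * ε * ∏ i ∈ s, M i := by
  induction s using Finset.induction_on with
  | empty => simp
  | insert i s hi ih =>
    rw [Finset.prod_insert hi, Finset.prod_insert hi, Finset.prod_insert hi, Finset.card_insert_of_notMem hi]
    have h1 := ih (fun j hj => ha j (Finset.mem_insert_of_mem hj)) (fun j hj => hb j (Finset.mem_insert_of_mem hj))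
      fun j hj => hab j (Finset.mem_insert_of_mem hj)
    have h2 := ha i (Finset.mem_insert_self i s)
    have h3 := hab i (Finset.mem_insert_self i s)
    have hM : 0 ≤ M i := (abs_nonneg _).trans h2
    have hP : 0 ≤ ∏ j ∈ s, M j :=
      Finset.prod_nonneg fun j hj => (abs_nonneg _).trans (ha j (Finset.mem_insert_of_mem hj))
    have h4 : |∏ j ∈ s, b j| ≤ ∏ j ∈ s, M j := by
      rw [Finset.abs_prod]
      exact Finset.prod_le_prod (fun j _ => abs_nonneg _) fun j hj => hb j (Finset.mem_insert_of_mem hj)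
    have h5 : a i * ∏ j ∈ s, a j - b i * ∏ j ∈ s, b j =
        a i * (∏ j ∈ s, a j - ∏ j ∈ s, b j) + (a i - b i) * ∏ j ∈ s, b j := by ring
    rw [h5]
    refine (abs_add_le _ _).trans ?_
    rw [abs_mul, abs_mul]
    have h6 : |a i| * |∏ j ∈ s, a j - ∏ j ∈ s, b j| ≤ M i * (s.card * ε * ∏ j ∈ s, M j) :=
      mul_le_mul h2 h1 (abs_nonneg _) hM
    have h7 : |a i - b i| * |∏ j ∈ s, b j| ≤ ε * M i * ∏ j ∈ s, M j :=
      mul_le_mul h3 h4 (abs_nonneg _) (mul_nonneg hε hM)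
    refine (add_le_add h6 h7).trans (le_of_eq ?_)
    push_cast
    ring

private theorem cnt_sum {K : Type} [Field K] [NumberField K] {L : Type} [Fintype L] {𝔠 : Ideal (𝓞 K)}
    [Fintype (L → 𝓞 K ⧸ 𝔠)] {f : (L → 𝓞 K) → ℝ} (hf : Per 𝔠 f) (X : L → ℝ) :
    ∑ α ∈ BX K X, f α = ∑ r : L → 𝓞 K ⧸ 𝔠, f (fun o => Quotient.out (r o)) *
      ∏ o, (((Ax K (X o)).filter fun α => α - Quotient.out (r o) ∈ 𝔠).card : ℝ) := by
  have hmk : ∀ (x : 𝓞 K) (q : 𝓞 K ⧸ 𝔠), Ideal.Quotient.mk 𝔠 x = q ↔ x - Quotient.out q ∈ 𝔠 := by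
    intro x q
    rw [← Ideal.Quotient.eq, Ideal.Quotient.mk_out]
  rw [← Finset.sum_fiberwise (BX K X) (fun α => fun o => Ideal.Quotient.mk 𝔠 (α o)) f]
  refine Finset.sum_congr rfl fun r _ => ?_
  have h1 : (BX K X).filter (fun α => (fun o => Ideal.Quotient.mk 𝔠 (α o)) = r) =
      Fintype.piFinset fun o => (Ax K (X o)).filter fun α => α - Quotient.out (r o) ∈ 𝔠 := by
    ext α
    rw [Finset.mem_filter, Fintype.mem_piFinset]
    unfold BX
    rw [Fintype.mem_piFinset]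
    constructor
    · rintro ⟨h1, h2⟩ o
      rw [Finset.mem_filter]
      exact ⟨h1 o, (hmk _ _).1 (congrFun h2 o)⟩
    · intro h1
      refine ⟨fun o => (Finset.mem_filter.1 (h1 o)).1, ?_⟩
      funext o
      exact (hmk _ _).2 (Finset.mem_filter.1 (h1 o)).2
  have h2 : ∀ α ∈ (BX K X).filter (fun α => (fun o => Ideal.Quotient.mk 𝔠 (α o)) = r),
      f α = f (fun o => Quotient.out (r o)) := by
    intro α hα
    rw [h1, Fintype.mem_piFinset] at hα
    exact hf _ _ fun o => (Finset.mem_filter.1 (hα o)).2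
  rw [Finset.sum_congr rfl h2, Finset.sum_const, h1, Fintype.card_piFinset, nsmul_eq_mul, mul_comm]
  push_cast
  rfl

theorem mn_cnt (K : Type) [Field K] [NumberField K] (hK : NumberField.IsTotallyComplex K) :
    ∃ κ : ℝ, 0 < κ ∧ ∀ (L : Type) [Fintype L], ∃ C : ℝ, 1 ≤ C ∧
      ∀ 𝔠 : Ideal (𝓞 K), 𝔠 ≠ ⊥ → ∀ f : (L → 𝓞 K) → ℝ, Per 𝔠 f → ∀ B : ℝ, (∀ α, |f α| ≤ B) →
        ∀ (X : L → ℝ) (Z : ℝ), 1 ≤ Z → (∀ o, Z ≤ X o) → (Ideal.absNorm 𝔠 : ℝ) ≤ Z →
          |∑ α ∈ BX K X, f α - (∏ o, κ * X o) * Mn 𝔠 f| ≤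
            C * B * (Ideal.absNorm 𝔠 : ℝ) ^ Fintype.card L * (∏ o, X o) *
              Z ^ (-(1 / (Module.finrank ℚ K : ℝ))) := by
  obtain ⟨κ, C, hκ, hC, hann⟩ := ann_cnt K hK
  refine ⟨κ, hκ, fun L _ => ⟨1 + Fintype.card L * (κ + C) ^ Fintype.card L, ?_, ?_⟩⟩
  · have h1 : 0 ≤ (Fintype.card L : ℝ) * (κ + C) ^ Fintype.card L := by positivity
    linarith
  intro 𝔠 hc f hf B hB X Z hZ hX hN
  have hfin : Finite (𝓞 K ⧸ 𝔠) := Ideal.finiteQuotientOfFreeOfNeBot 𝔠 hc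
  letI : Fintype (𝓞 K ⧸ 𝔠) := Fintype.ofFinite _
  have hcard : Fintype.card (𝓞 K ⧸ 𝔠) = Ideal.absNorm 𝔠 := by
    rw [Ideal.absNorm_apply, Submodule.cardQuot_apply, Nat.card_eq_fintype_card]
  obtain ⟨N, hNd⟩ : ∃ N : ℝ, N = (Ideal.absNorm 𝔠 : ℝ) := ⟨_, rfl⟩
  have hN1 : 1 ≤ N := by
    rw [hNd]
    exact_mod_cast Nat.one_le_iff_ne_zero.2 fun h => hc (Ideal.absNorm_eq_zero_iff.1 h)
  have hN0 : 0 < N := by linarith
  rw [← hNd] at hN ⊢
  obtain ⟨e, he⟩ : ∃ e : ℝ, e = 1 / (Module.finrank ℚ K : ℝ) := ⟨_, rfl⟩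
  have he0 : 0 ≤ e := by
    rw [he]
    positivity
  rw [← he]
  have hZ0 : 0 < Z := by linarith
  have hX0 : ∀ o, 0 < X o := fun o => hZ0.trans_le (hX o)
  have hB0 : 0 ≤ B := (abs_nonneg _).trans (hB fun _ => 0)
  have hZe : 0 < Z ^ (-e) := Real.rpow_pos_of_pos hZ0 _
  have hC0 : 0 < C := by linarith
  have hkC : 0 < κ + C := by linarith
  -- the factors
  have hfac : ∀ (o : L) (r : 𝓞 K),
      |(((Ax K (X o)).filter fun α => α - r ∈ 𝔠).card : ℝ) - κ * X o / N| ≤ C * (X o * Z ^ (-e)) := by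
    intro o r
    have h1 := hann 𝔠 hc r (X o) (hZ.trans (hX o)) (by
      rw [← hNd]
      exact hN.trans (hX o))
    rw [← hNd, ← he] at h1
    refine h1.trans (mul_le_mul_of_nonneg_left ?_ hC0.le)
    have h2 : X o ^ (1 - e) = X o * X o ^ (-e) := by
      rw [sub_eq_add_neg, Real.rpow_add (hX0 o), Real.rpow_one]
    rw [h2]
    exact mul_le_mul_of_nonneg_left (Real.rpow_le_rpow_of_nonpos hZ0 (hX o) (by linarith)) (hX0 o).le
  have hZe1 : Z ^ (-e) ≤ 1 := by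
    rw [Real.rpow_neg hZ0.le]
    exact inv_le_one_of_one_le₀ (Real.one_le_rpow hZ he0)
  have hmain : ∀ o : L, |κ * X o / N| ≤ κ * X o := by
    intro o
    have h1 := hX0 o
    rw [abs_of_nonneg (by positivity)]
    exact div_le_self (by positivity) hN1
  have hdiff : ∀ r : L → 𝓞 K ⧸ 𝔠,
      |∏ o, (((Ax K (X o)).filter fun α => α - Quotient.out (r o) ∈ 𝔠).card : ℝ) - ∏ o, κ * X o / N| ≤
        (Fintype.card L : ℝ) * (κ + C) ^ Fintype.card L * (∏ o, X o) * Z ^ (-e) := by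
    intro r
    have h1 := cnt_prod Finset.univ
      (fun o => (((Ax K (X o)).filter fun α => α - Quotient.out (r o) ∈ 𝔠).card : ℝ))
      (fun o => κ * X o / N) (fun o => (κ + C) * X o) (Z ^ (-e)) hZe.le (by
        intro o _
        have h2 := hfac o (Quotient.out (r o))
        have h3 := hmain o
        have h4 := hX0 o
        have h5 : C * (X o * Z ^ (-e)) ≤ C * X o := by
          refine mul_le_mul_of_nonneg_left ?_ hC0.le
          exact mul_le_of_le_one_right h4.le hZe1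
        have h6 := abs_add_le ((((Ax K (X o)).filter fun α => α - Quotient.out (r o) ∈ 𝔠).card : ℝ) -
          κ * X o / N) (κ * X o / N)
        rw [sub_add_cancel] at h6
        calc _ ≤ _ := h6
          _ ≤ C * X o + κ * X o := add_le_add (h2.trans h5) h3
          _ = (κ + C) * X o := by ring) (by
        intro o _
        have h4 := hX0 o
        have h5 : 0 ≤ C * X o := by positivity
        calc _ ≤ κ * X o := hmain o
          _ ≤ (κ + C) * X o := by linarith) (by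
        intro o _
        refine (hfac o (Quotient.out (r o))).trans ?_
        have h4 := hX0 o
        have h5 : 0 ≤ κ * (X o * Z ^ (-e)) := by positivity
        linarith)
    refine h1.trans (le_of_eq ?_)
    rw [Finset.prod_mul_distrib, Finset.prod_const, Finset.card_univ]
    ring
  -- the sum
  have hMn : (∏ o, κ * X o) * Mn 𝔠 f =
      ∑ r : L → 𝓞 K ⧸ 𝔠, f (fun o => Quotient.out (r o)) * ∏ o, κ * X o / N := by
    unfold Mn
    rw [finsum_eq_sum_of_fintype, ← hNd, Finset.prod_div_distrib, Finset.prod_const, Finset.card_univ, ← Finset.sum_mul]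
    ring
  rw [cnt_sum hf X, hMn, ← Finset.sum_sub_distrib]
  have hone : ∀ r : L → 𝓞 K ⧸ 𝔠, |f (fun o => Quotient.out (r o)) *
      ∏ o, (((Ax K (X o)).filter fun α => α - Quotient.out (r o) ∈ 𝔠).card : ℝ) -
        f (fun o => Quotient.out (r o)) * ∏ o, κ * X o / N| ≤
      B * ((Fintype.card L : ℝ) * (κ + C) ^ Fintype.card L * (∏ o, X o) * Z ^ (-e)) := by
    intro r
    rw [← mul_sub, abs_mul]
    exact mul_le_mul (hB _) (hdiff r) (abs_nonneg _) hB0
  refine (Finset.abs_sum_le_sum_abs _ _).trans ((Finset.sum_le_sum fun r _ => hone r).trans ?_)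
  rw [Finset.sum_const, Finset.card_univ, Fintype.card_fun, hcard, nsmul_eq_mul, Nat.cast_pow, ← hNd]
  have hP : 0 < ∏ o, X o := Finset.prod_pos fun o _ => hX0 o
  have h1 : 0 ≤ B * N ^ Fintype.card L * (∏ o, X o) * Z ^ (-e) := by positivity
  have h2 : (1 + (Fintype.card L : ℝ) * (κ + C) ^ Fintype.card L) * B * N ^ Fintype.card L * (∏ o, X o) * Z ^ (-e) =
      B * N ^ Fintype.card L * (∏ o, X o) * Z ^ (-e) +
      N ^ Fintype.card L * (B * ((Fintype.card L : ℝ) * (κ + C) ^ Fintype.card L * (∏ o, X o) * Z ^ (-e))) := by ring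
  rw [h2]
  linarith


end Pool.Agent.H36.FA
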