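import Pool.Agent.H51.K1.Def
import Pool.Agent.H1.LS4.Sbc

/-!
# FA (MP_b39724_nt, THEOREM K1): the families of homomorphisms to the abelian group; definitions (complete)

* `Ax K X`: the integers `α` of `K` with `X ^ (1/n) < w α ≤ 2 X ^ (1/n)` for all infinite places, `n = [K : ℚ]`. `BX X`: the tuples.
* `Bad α v`: `v²` divides some `α o`, or `v` divides two of them. `Un α v`: all `α o` are units at `v`.
* `Per 𝔠 f`: the function `f` of tuples is periodic modulo `𝔠`. `Mn 𝔠 f`: its mean.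
* `Ph 𝔪 X`: the tuples in the box, `≡ 1` modulo `𝔪`, squarefree and pairwise coprime.
* `be v = Mn (v²) 1_Bad`.
* `pha`: the homomorphism of a tuple. `dv x`: the primes which contain `x`.
-/

set_option autoImplicit false

open scoped NumberField Classical
open IsDedekindDomain NumberField

noncomputable section

namespace Pool.Agent.H36.FA

open H63.MA H38.BB H38.BG H77.PC3 H51.SN H57.SL H36.QA H1.LS4 H38.ML

section nf

variable (K : Type) [Field K] [NumberField K]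

theorem finite_Ax (X : ℝ) : {α : 𝓞 K | ∀ w : InfinitePlace K,
    X ^ (1 / (Module.finrank ℚ K : ℝ)) < w (α : K) ∧
      w (α : K) ≤ 2 * X ^ (1 / (Module.finrank ℚ K : ℝ))}.Finite :=
  (finite_bxF fun _ => 2 * X ^ (1 / (Module.finrank ℚ K : ℝ))).subset fun _ h w => (h w).2

/-- the box -/
def Ax (X : ℝ) : Finset (𝓞 K) := (finite_Ax K X).toFinset

theorem mem_Ax {X : ℝ} {α : 𝓞 K} : α ∈ Ax K X ↔ ∀ w : InfinitePlace K,
    X ^ (1 / (Module.finrank ℚ K : ℝ)) < w (α : K) ∧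
      w (α : K) ≤ 2 * X ^ (1 / (Module.finrank ℚ K : ℝ)) := by
  unfold Ax
  rw [Set.Finite.mem_toFinset]
  rfl

variable {K} {L : Type} [Fintype L]

variable (K) in
/-- the box of tuples -/
def BX (X : L → ℝ) : Finset (L → 𝓞 K) := Fintype.piFinset fun o => Ax K (X o)

/-- not squarefree and coprime at `v` -/
def Bad (α : L → 𝓞 K) (v : Pl K) : Prop :=
  (∃ o, α o ∈ v.asIdeal ^ 2) ∨ ∃ o o', o ≠ o' ∧ α o ∈ v.asIdeal ∧ α o' ∈ v.asIdeal

/-- all components are units at `v` -/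
def Un (α : L → 𝓞 K) (v : Pl K) : Prop := ∀ o, α o ∉ v.asIdeal

/-- periodic modulo `𝔠` -/
def Per (𝔠 : Ideal (𝓞 K)) (f : (L → 𝓞 K) → ℝ) : Prop :=
  ∀ α α' : L → 𝓞 K, (∀ o, α o - α' o ∈ 𝔠) → f α = f α'

/-- the mean modulo `𝔠` -/
def Mn (𝔠 : Ideal (𝓞 K)) (f : (L → 𝓞 K) → ℝ) : ℝ :=
  (∑ᶠ r : L → 𝓞 K ⧸ 𝔠, f (fun o => Quotient.out (r o))) /
    (Ideal.absNorm 𝔠 : ℝ) ^ Fintype.card L

variable (L) in
/-- the density of the bad tuples at `v` -/
def be (v : Pl K) : ℝ := Mn (L := L) (v.asIdeal ^ 2) fun α => if Bad α v then 1 else 0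

/-- the family -/
def Ph (𝔪 : Ideal (𝓞 K)) (X : L → ℝ) : Finset (L → 𝓞 K) :=
  (BX K X).filter fun α => (∀ o, α o - 1 ∈ 𝔪) ∧ ∀ v : Pl K, ¬ Bad α v

/-- the primes which contain `x` -/
def dv (x : 𝓞 K) : Finset (Pl K) :=
  if h : {v : Pl K | x ∈ v.asIdeal}.Finite then h.toFinset else ∅

end nf

section gal

variable {K : IntermediateField ℚ QBar} [NumberField K] {A : Type} [CommGroup A] [Finite A]

/-- the Kummer symbol of `α` of order `orderOf o` -/
def ks (m : ℕ) (ζ : K) (o : A) (α : 𝓞 K) (σ : Gal(QBar/K)) : ZMod (orderOf o) :=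
  kq (orderOf o) (ζ ^ (m / orderOf o)) (((α : K)) : QBar) σ

instance fL (L : Set A) : Fintype L := Fintype.ofFinite _

/-- the homomorphism of a tuple, as a function -/
def phf (m : ℕ) (ζ : K) (L : Set A) (φ₀ : Gal(QBar/K) →* A) (α : L → 𝓞 K) (σ : Gal(QBar/K)) : A :=
  φ₀ σ * ∏ o : L, (o : A) ^ (ks m ζ (o : A) (α o) σ).val

/-- the number of fixed points of the Frobenius, `0` if `v` is not prime to `α` -/
def ff (m : ℕ) (ζ : K) (L : Set A) (φ₀ : Gal(QBar/K) →* A) (Q : DP K QBar) (H : Subgroup A) (v : Pl K)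
    (α : L → 𝓞 K) : ℝ :=
  if Un α v then (H51.K1.fxp H (phf m ζ L φ₀ α (fr Q v)) : ℝ) else 0

/-- the mean of `ff`, relative to the tuples which are not bad -/
def gg (m : ℕ) (ζ : K) (L : Set A) (φ₀ : Gal(QBar/K) →* A) (Q : DP K QBar) (H : Subgroup A) (v : Pl K) :
    ℝ :=
  Mn v.asIdeal (ff m ζ L φ₀ Q H v) / (1 - be L v)

end gal

end Pool.Agent.H36.FA
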