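import Pool.Agent.H36.FA.Def
import Pool.Agent.H63.MA.Pv
import Pool.Agent.H36.QA.Ml

/-!
# [H36 FA MFU] Chebyshev upper bounds, and Mertens from below

* `mf_up`: `∑_{nm w ≤ x} log nm w ≤ C x` (`x ≥ 1`): at most `n` primes over each rational prime `p`, `nm w = p^f` (`nv_pow`, `fibre_card`, H36/QA); rational Chebyshev (Mathlib `Chebyshev`, `primorial_le_4_pow`), `f ≥ 2`: `≤ n √x log x`.
* `che_u`: `#{w : nm w ≤ x} ≤ C x / log x`: from `mf_up` (`nm w > √x` contribute `≥ (1/2) log x` each; those with `nm w ≤ √x`: at most `n √x`... `#{w : nm w ≤ y} ≤ n y`).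
* `mer2`: from `H36.QA.mert_prime` (Ml.lean): logarithm, and for `2 ≤ x < z₀` the left hand side is `≤ log (log z₀) - C ≤ 0`.
-/

set_option autoImplicit false

open scoped NumberField Classical
open IsDedekindDomain NumberField

noncomputable section

namespace Pool.Agent.H36.FA

open H63.MA H38.BB H38.BG H77.PC3 H51.SN H57.SL H36.QA H1.LS4 H38.ML

private theorem mf_pow (F : Type) [Field F] [NumberField F] (v : H63.MA.Pl F) :
    (nm v).minFac.Prime ∧ ∃ f : ℕ, 1 ≤ f ∧ nm v = (nm v).minFac ^ f := H38.TD.nv_pow F v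

private theorem mf_fib (F : Type) [Field F] [NumberField F] (ℓ : ℕ) (hℓ : ℓ.Prime)
    (s : Finset (H63.MA.Pl F)) (hs : ∀ v ∈ s, (nm v).minFac = ℓ) :
    s.card ≤ Module.finrank ℤ (𝓞 F) := H38.TD.fibre_card F ℓ hℓ s hs

private theorem mf_card (F : Type) [Field F] [NumberField F] (y : ℝ) (hy : 0 ≤ y)
    (T : Finset (H63.MA.Pl F)) (hT : ∀ w ∈ T, ((nm w).minFac : ℝ) ≤ y) :
    (T.card : ℝ) ≤ (Module.finrank ℤ (𝓞 F) : ℝ) * y := by
  have h1 : T.card ≤ Module.finrank ℤ (𝓞 F) * (T.image fun w => (nm w).minFac).card := by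
    apply Finset.card_le_mul_card_image
    intro p hp
    obtain ⟨w, hw, rfl⟩ := Finset.mem_image.1 hp
    exact mf_fib F (nm w).minFac (mf_pow F w).1 _ (fun u hu => (Finset.mem_filter.1 hu).2)
  have h2 : (T.image fun w => (nm w).minFac) ⊆ Finset.Icc 1 ⌊y⌋₊ := by
    intro p hp
    obtain ⟨w, hw, rfl⟩ := Finset.mem_image.1 hp
    rw [Finset.mem_Icc]
    exact ⟨(mf_pow F w).1.pos, Nat.le_floor (hT w hw)⟩
  have h3 := Finset.card_le_card h2
  rw [Nat.card_Icc, add_tsub_cancel_right] at h3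
  have h4 : ((T.image fun w => (nm w).minFac).card : ℝ) ≤ y := by
    calc ((T.image fun w => (nm w).minFac).card : ℝ) ≤ (⌊y⌋₊ : ℝ) := by exact_mod_cast h3
      _ ≤ y := Nat.floor_le hy
  calc (T.card : ℝ) ≤ (Module.finrank ℤ (𝓞 F) : ℝ) * ((T.image fun w => (nm w).minFac).card : ℝ) := by
        exact_mod_cast h1
    _ ≤ _ := mul_le_mul_of_nonneg_left h4 (Nat.cast_nonneg _)

private theorem mf_log {x : ℝ} (hx : 1 ≤ x) : Real.log x ≤ 2 * √x := by
  have h1 : Real.log x = 2 * Real.log (√x) := by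
    rw [Real.log_sqrt (by linarith)]
    ring
  have h2 : 0 < √x := Real.sqrt_pos.2 (by linarith)
  have h3 := Real.log_le_sub_one_of_pos h2
  rw [h1]
  linarith

private theorem mf_rank (F : Type) [Field F] [NumberField F] : (1 : ℝ) ≤ (Module.finrank ℤ (𝓞 F) : ℝ) := by
  have : 0 < Module.finrank ℤ (𝓞 F) := Module.finrank_pos
  exact_mod_cast this

private theorem mf_nm1 (F : Type) [Field F] [NumberField F] (w : H63.MA.Pl F) : (1 : ℝ) ≤ nm w := by
  obtain ⟨hp, f, hf, he⟩ := mf_pow F w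
  have : 0 < nm w := by
    rw [he]
    exact Nat.pow_pos hp.pos
  exact_mod_cast this

theorem mf_up (F : Type) [Field F] [NumberField F] : ∃ C : ℝ, 1 ≤ C ∧ ∀ (x : ℝ), 1 ≤ x →
    ∀ T : Finset (Pl F), (∀ w ∈ T, (nm w : ℝ) ≤ x) → ∑ w ∈ T, Real.log (nm w) ≤ C * x := by
  obtain ⟨n, hn⟩ : ∃ n : ℝ, n = (Module.finrank ℤ (𝓞 F) : ℝ) := ⟨_, rfl⟩
  have hn1 : 1 ≤ n := by rw [hn]; exact mf_rank F
  have hl4 : 0 < Real.log 4 := Real.log_pos (by norm_num)
  refine ⟨n * (Real.log 4 + 2), by nlinarith, fun x hx T hT => ?_⟩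
  rw [← Finset.sum_filter_add_sum_filter_not T (fun w => (nm w).Prime)]
  have h1 : ∑ w ∈ T with (nm w).Prime, Real.log (nm w) ≤ n * (Real.log 4 * x) := by
    have e1 : ∑ w ∈ T with (nm w).Prime, Real.log (nm w) ≤
        n * ∑ p ∈ (T.filter fun w => (nm w).Prime).image (fun w => nm w), Real.log (p : ℝ) := by
      rw [← Finset.sum_fiberwise_of_maps_to (g := fun w => nm w)
        (t := (T.filter fun w => (nm w).Prime).image (fun w => nm w))
        (fun v hv => Finset.mem_image_of_mem _ hv), Finset.mul_sum]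
      refine Finset.sum_le_sum fun p hp => ?_
      obtain ⟨w, hw, rfl⟩ := Finset.mem_image.1 hp
      have hpr : (nm w).Prime := (Finset.mem_filter.1 hw).2
      have hc := mf_fib F (nm w) hpr ((T.filter fun w => (nm w).Prime).filter fun u => nm u = nm w)
        (fun u hu => by
          rw [(Finset.mem_filter.1 hu).2]
          exact hpr.minFac_eq)
      have hc' : (((T.filter fun w => (nm w).Prime).filter fun u => nm u = nm w).card : ℝ) ≤ n := by
        rw [hn]
        exact_mod_cast hc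
      have h2 : ∑ u ∈ (T.filter fun w => (nm w).Prime) with nm u = nm w, Real.log (nm u) =
          (((T.filter fun w => (nm w).Prime).filter fun u => nm u = nm w).card : ℝ) *
            Real.log (nm w) := by
        rw [← nsmul_eq_mul, ← Finset.sum_const]
        refine Finset.sum_congr rfl fun u hu => ?_
        rw [(Finset.mem_filter.1 hu).2]
      rw [h2]
      exact mul_le_mul_of_nonneg_right hc' (Real.log_natCast_nonneg _)
    have e2 : ∑ p ∈ (T.filter fun w => (nm w).Prime).image (fun w => nm w), Real.log (p : ℝ) ≤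
        Chebyshev.theta x := by
      rw [Chebyshev.theta_eq_sum_Icc]
      refine Finset.sum_le_sum_of_subset_of_nonneg ?_ fun p _ _ => Real.log_natCast_nonneg p
      intro p hp
      obtain ⟨w, hw, rfl⟩ := Finset.mem_image.1 hp
      obtain ⟨hw1, hw2⟩ := Finset.mem_filter.1 hw
      rw [Finset.mem_filter, Finset.mem_Icc]
      exact ⟨⟨Nat.zero_le _, Nat.le_floor (hT w hw1)⟩, hw2⟩
    have e3 := Chebyshev.theta_le_log4_mul_x (x := x) (by linarith)
    exact e1.trans (mul_le_mul_of_nonneg_left (e2.trans e3) (by linarith))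
  have h2 : ∑ w ∈ T with ¬ (nm w).Prime, Real.log (nm w) ≤ n * (2 * x) := by
    have hs0 : 0 ≤ √x := Real.sqrt_nonneg x
    have hlx : 0 ≤ Real.log x := Real.log_nonneg hx
    have e1 : ((T.filter fun w => ¬ (nm w).Prime).card : ℝ) ≤ n * √x := by
      rw [hn]
      apply mf_card F _ hs0
      intro w hw
      obtain ⟨hw1, hw2⟩ := Finset.mem_filter.1 hw
      obtain ⟨hp, f, hf, he⟩ := mf_pow F w
      have hf2 : 2 ≤ f := by
        rcases Nat.lt_or_ge f 2 with h | h
        · have h2 : f = 1 := by omega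
          rw [h2, pow_one] at he
          exact absurd (he ▸ hp) hw2
        · exact h
      have h3 : (nm w).minFac ^ 2 ≤ nm w := by
        calc (nm w).minFac ^ 2 ≤ (nm w).minFac ^ f := Nat.pow_le_pow_right hp.pos hf2
          _ = nm w := he.symm
      have h4 : (((nm w).minFac : ℝ)) ^ 2 ≤ x := by
        have : (((nm w).minFac : ℝ)) ^ 2 ≤ (nm w : ℝ) := by exact_mod_cast h3
        exact this.trans (hT w hw1)
      exact Real.le_sqrt_of_sq_le h4
    have e2 : ∑ w ∈ T with ¬ (nm w).Prime, Real.log (nm w) ≤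
        ((T.filter fun w => ¬ (nm w).Prime).card : ℝ) * Real.log x := by
      rw [← nsmul_eq_mul]
      apply Finset.sum_le_card_nsmul
      intro w hw
      have := mf_nm1 F w
      exact Real.log_le_log (by linarith) (hT w (Finset.mem_filter.1 hw).1)
    have e3 := mf_log hx
    have e4 : √x * √x = x := Real.mul_self_sqrt (by linarith)
    calc _ ≤ ((T.filter fun w => ¬ (nm w).Prime).card : ℝ) * Real.log x := e2
      _ ≤ (n * √x) * (2 * √x) := mul_le_mul e1 e3 hlx (by positivity)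
      _ = n * (2 * (√x * √x)) := by ring
      _ = n * (2 * x) := by rw [e4]
  calc _ ≤ n * (Real.log 4 * x) + n * (2 * x) := add_le_add h1 h2
    _ = _ := by ring

theorem che_u (F : Type) [Field F] [NumberField F] : ∃ C : ℝ, 2 ≤ C ∧ ∀ x : ℝ, 2 ≤ x →
    ∀ T : Finset (Pl F), (∀ w ∈ T, (nm w : ℝ) ≤ x) → (T.card : ℝ) ≤ C * x / Real.log x := by
  obtain ⟨C, hC, h⟩ := mf_up F
  obtain ⟨n, hn⟩ : ∃ n : ℝ, n = (Module.finrank ℤ (𝓞 F) : ℝ) := ⟨_, rfl⟩
  have hn1 : 1 ≤ n := by rw [hn]; exact mf_rank F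
  refine ⟨2 * C + 2 * n, by linarith, fun x hx T hT => ?_⟩
  have hlx : 0 < Real.log x := Real.log_pos (by linarith)
  have hs0 : 0 ≤ √x := Real.sqrt_nonneg x
  have e4 : √x * √x = x := Real.mul_self_sqrt (by linarith)
  rw [le_div_iff₀ hlx]
  have h1 : ((T.filter fun w => (nm w : ℝ) ≤ √x).card : ℝ) ≤ n * √x := by
    rw [hn]
    apply mf_card F _ hs0
    intro w hw
    refine le_trans ?_ (Finset.mem_filter.1 hw).2
    have := mf_nm1 F w
    have h2 : 0 < nm w := by
      have : (0 : ℝ) < nm w := by linarith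
      exact_mod_cast this
    exact_mod_cast Nat.minFac_le h2
  have h2 : ((T.filter fun w => ¬ (nm w : ℝ) ≤ √x).card : ℝ) * (Real.log x / 2) ≤ C * x := by
    refine le_trans ?_ (h x (by linarith) (T.filter fun w => ¬ (nm w : ℝ) ≤ √x)
      (fun w hw => hT w (Finset.mem_filter.1 hw).1))
    rw [← nsmul_eq_mul]
    apply Finset.card_nsmul_le_sum
    intro w hw
    have h3 := (Finset.mem_filter.1 hw).2
    rw [not_le] at h3
    rw [← Real.log_sqrt (by linarith)]
    exact Real.log_le_log (Real.sqrt_pos.2 (by linarith)) h3.le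
  have h3 : (T.card : ℝ) = ((T.filter fun w => (nm w : ℝ) ≤ √x).card : ℝ) +
      ((T.filter fun w => ¬ (nm w : ℝ) ≤ √x).card : ℝ) := by
    rw [← Nat.cast_add, Finset.card_filter_add_card_filter_not]
  have h4 := mf_log (x := x) (by linarith)
  have h5 : ((T.filter fun w => (nm w : ℝ) ≤ √x).card : ℝ) * Real.log x ≤ (n * √x) * (2 * √x) :=
    mul_le_mul h1 h4 hlx.le (by positivity)
  have h6 : (n * √x) * (2 * √x) = 2 * n * x := by
    calc (n * √x) * (2 * √x) = 2 * n * (√x * √x) := by ring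
      _ = 2 * n * x := by rw [e4]
  rw [h3]
  nlinarith

theorem mer2 (F : Type) [Field F] [NumberField F] (S : Set (Pl F)) (hS : S.Finite) :
    ∃ C : ℝ, 1 ≤ C ∧ ∀ x : ℝ, 2 ≤ x → ∀ T : Finset (Pl F),
      (∀ w, w ∉ S → (nm w).Prime → (nm w : ℝ) ≤ x → w ∈ T) →
        Real.log (Real.log x) - C ≤ ∑ w ∈ T, 1 / (nm w : ℝ) := by
  obtain ⟨c, z₀, hc, hz0, h⟩ := H36.QA.mert_prime F S hS
  refine ⟨max 1 (max (-Real.log c) (Real.log (Real.log z₀))), le_max_left _ _, fun x hx T hT => ?_⟩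
  have hlx : 0 < Real.log x := Real.log_pos (by linarith)
  rcases le_or_gt z₀ x with hxz | hxz
  · have h1 : c * Real.log x ≤ Real.exp (∑ w ∈ T, 1 / (nm w : ℝ)) := h x hxz T hT
    have h2 := Real.log_le_log (by positivity) h1
    rw [Real.log_exp, Real.log_mul hc.ne' hlx.ne'] at h2
    have h3 : -Real.log c ≤ max 1 (max (-Real.log c) (Real.log (Real.log z₀))) :=
      (le_max_left _ _).trans (le_max_right _ _)
    linarith
  · have h1 : Real.log (Real.log x) ≤ Real.log (Real.log z₀) :=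
      Real.log_le_log hlx (Real.log_le_log (by linarith) hxz.le)
    have h2 : Real.log (Real.log z₀) ≤ max 1 (max (-Real.log c) (Real.log (Real.log z₀))) :=
      (le_max_right _ _).trans (le_max_right _ _)
    have h3 : 0 ≤ ∑ w ∈ T, 1 / (nm w : ℝ) := Finset.sum_nonneg fun w _ => by positivity
    linarith

end Pool.Agent.H36.FA
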