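import Pool.Agent.H36.FA.Ctr
import Pool.Agent.H36.QA.Mu
import Pool.Agent.H36.FA.Mfu

/-!
# [H36 FA DGN] The decomposition groups outside a finite set generate

`A` abelian. Let `H` = the subgroup generated by all `φ₀ σ`, `σ ∈ dec (Q.P v)`, `v ∉ S`; it is finite, so finitely many `v` suffice (`V`). To show `H = ⊤`: otherwise `[A : H] ≥ 2`, and `φ₀ (fr Q v) ∈ H` for all
`v ∉ S` (`fr Q v ∈ dec (Q.P v)`). All `v ∉ S` outside a finite set split completely in the fixed field `F` of `φ₀⁻¹(H)`: the embeddings `F.val` and `γ ∘ F.val` (`φ₀ γ ∉ H`) are different and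
fixed by `fr Q v`, so there are two primes `w` of `F` over `v` with `nm w = nm v` (`dic_bij`). Mertens from above for `F` (`mert_up`) and from below for `K` (`mer2`):
`2 (log log x - C) ≤ log log x + C`: contradiction for `x` large.
-/

set_option autoImplicit false

open scoped NumberField Classical
open IsDedekindDomain NumberField

noncomputable section

namespace Pool.Agent.H36.FA

open H63.MA H38.BB H38.BG H77.PC3 H51.SN H57.SL H36.QA H1.LS4 H38.ML

variable {K : IntermediateField ℚ QBar} [NumberField K] {A : Type} [CommGroup A] [Finite A]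

private theorem dgn_fin {k F : Type} [Field k] [NumberField k] [Field F] [NumberField F] [Algebra k F] (l : Pl k) :
    {P : Pl F | Over P l}.Finite := by
  have hm : l.asIdeal.IsMaximal := l.isMaximal
  have hfs : Finite (l.asIdeal.primesOver (𝓞 F)) := IsDedekindDomain.primesOver_finite l.asIdeal (𝓞 F)
  have hinj : Function.Injective (fun P : Pl F => P.asIdeal) := fun _ _ h => HeightOneSpectrum.ext h
  refine Set.Finite.of_finite_image (f := fun P : Pl F => P.asIdeal) ?_ hinj.injOn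
  refine (Set.toFinite (l.asIdeal.primesOver (𝓞 F))).subset ?_
  rintro _ ⟨P, hP, rfl⟩
  exact ⟨P.isPrime, ⟨hP.symm⟩⟩

/-- places of bounded norm -/
private theorem dgn_bd (k : Type) [Field k] [NumberField k] (x : ℝ) : {v : Pl k | (nm v : ℝ) ≤ x}.Finite := by
  have h : {v : Pl k | nm v ≤ ⌊x⌋₊}.Finite := by
    have h1 := (Ideal.finite_setOfPred_absNorm_le (S := 𝓞 k) ⌊x⌋₊).preimage
      (f := fun v : Pl k => v.asIdeal) (fun v _ w _ h => HeightOneSpectrum.ext h)
    exact h1
  exact h.subset fun v hv => Nat.le_floor hv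

private theorem dgn_uni {k F : Type} [Field k] [NumberField k] [Field F] [NumberField F] [Algebra k F] {w : Pl F}
    {v v' : Pl k} (h : Over w v) (h' : Over w v') : v = v' := by
  apply HeightOneSpectrum.ext
  exact h.symm.trans h'

/-- two primes of degree one over almost all primes: impossible -/
private theorem dgn_mert {k F : Type} [Field k] [NumberField k] [Field F] [NumberField F] [Algebra k F]
    (S : Finset (Pl k)) (h : ∀ v, v ∉ S → 2 ≤ {w : Pl F | Over w v ∧ nm w = nm v}.ncard) : False := by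
  obtain ⟨C₁, hC₁, hup⟩ := H36.QA.mert_up F
  obtain ⟨C₂, hC₂, hlow⟩ := mer2 k (S : Set (Pl k)) S.finite_toSet
  have key : ∀ x : ℝ, 3 ≤ x → Real.log (Real.log x) ≤ Real.log C₁ + 2 * C₂ := by
    intro x hx
    have hlx : 1 < Real.log x := by
      rw [Real.lt_log_iff_exp_lt (by linarith)]
      have := Real.exp_one_lt_d9
      linarith
    set V : Finset (Pl k) := (dgn_bd k x).toFinset.filter fun v => v ∉ S with hV
    have hVm : ∀ v, v ∈ V ↔ (nm v : ℝ) ≤ x ∧ v ∉ S := by
      intro v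
      rw [hV, Finset.mem_filter, Set.Finite.mem_toFinset]
      rfl
    have hfin : ∀ v : Pl k, {w : Pl F | Over w v ∧ nm w = nm v}.Finite := fun v =>
      (dgn_fin v).subset fun w hw => hw.1
    set W : Pl k → Finset (Pl F) := fun v => (hfin v).toFinset with hW
    have hWm : ∀ v w, w ∈ W v ↔ Over w v ∧ nm w = nm v := by
      intro v w
      rw [hW]
      exact (hfin v).mem_toFinset
    have hWc : ∀ v ∈ V, 2 ≤ (W v).card := by
      intro v hv
      have h1 := h v ((hVm v).1 hv).2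
      rwa [Set.ncard_eq_toFinset_card _ (hfin v)] at h1
    have hdis : Set.PairwiseDisjoint (V : Set (Pl k)) W := by
      intro v _ v' _ hne
      show Disjoint (W v) (W v')
      rw [Finset.disjoint_left]
      intro w hw hw'
      exact hne (dgn_uni ((hWm v w).1 hw).1 ((hWm v' w).1 hw').1)
    have h1 : 2 * ∑ v ∈ V, 1 / (nm v : ℝ) ≤ ∑ w ∈ V.biUnion W, 1 / (nm w : ℝ) := by
      rw [Finset.sum_biUnion hdis, Finset.mul_sum]
      refine Finset.sum_le_sum fun v hv => ?_
      have e : ∑ w ∈ W v, 1 / (nm w : ℝ) = ((W v).card : ℝ) * (1 / (nm v : ℝ)) := by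
        rw [Finset.sum_congr rfl (g := fun _ => 1 / (nm v : ℝ)) fun w hw => by rw [((hWm v w).1 hw).2],
          Finset.sum_const, nsmul_eq_mul]
      rw [e]
      refine mul_le_mul_of_nonneg_right ?_ (by positivity)
      exact_mod_cast hWc v hv
    have h2 : Real.exp (∑ w ∈ V.biUnion W, 1 / (nm w : ℝ)) ≤ C₁ * Real.log x := by
      refine hup x (by linarith) _ fun w hw => ?_
      obtain ⟨v, hv, hw'⟩ := Finset.mem_biUnion.1 hw
      have h3 := ((hWm v w).1 hw').2
      have h4 := ((hVm v).1 hv).1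
      show (nm w : ℝ) ≤ x
      rw [h3]
      exact h4
    have h3 : ∑ w ∈ V.biUnion W, 1 / (nm w : ℝ) ≤ Real.log C₁ + Real.log (Real.log x) := by
      have h4 := Real.log_le_log (Real.exp_pos _) h2
      rwa [Real.log_exp, Real.log_mul (by linarith) (by linarith)] at h4
    have h4 : Real.log (Real.log x) - C₂ ≤ ∑ v ∈ V, 1 / (nm v : ℝ) :=
      hlow x (by linarith) V fun w hw _ hle => (hVm w).2 ⟨hle, hw⟩
    linarith
  obtain ⟨M, hM⟩ : ∃ M : ℝ, M = Real.log C₁ + 2 * C₂ := ⟨_, rfl⟩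
  have h5 := key (max 3 (Real.exp (Real.exp (M + 1)))) (le_max_left _ _)
  have h6 : M + 1 ≤ Real.log (Real.log (max 3 (Real.exp (Real.exp (M + 1))))) := by
    have h7 : Real.exp (M + 1) ≤ Real.log (max 3 (Real.exp (Real.exp (M + 1)))) := by
      rw [Real.le_log_iff_exp_le (by positivity)]
      exact le_max_right _ _
    rw [Real.le_log_iff_exp_le ((Real.exp_pos _).trans_le h7)]
    exact h7
  rw [← hM] at h5
  linarith

omit [Finite A] in
private theorem dgn_top (φ₀ : Gal(QBar/K) →* A) (h₀ : FT φ₀) (hs : Function.Surjective φ₀) (Q : DP K QBar)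
    (S : Finset (Pl K)) (H : Subgroup A) (hH : ∀ v, v ∉ S → φ₀ (fr Q v) ∈ H) : H = ⊤ := by
  by_contra hne
  obtain ⟨a, ha⟩ : ∃ a : A, a ∉ H := by
    by_contra hcon
    push Not at hcon
    exact hne ((Subgroup.eq_top_iff' H).2 hcon)
  obtain ⟨θ, hθd⟩ : ∃ θ : Gal(QBar/K) →* A ⧸ H, θ = (QuotientGroup.mk' H).comp φ₀ := ⟨_, rfl⟩
  have hθ : FT θ := by
    obtain ⟨E, hE, h1⟩ := h₀
    refine ⟨E, hE, fun σ hσ => ?_⟩
    rw [MonoidHom.mem_ker, hθd]
    show (QuotientGroup.mk' H) (φ₀ σ) = 1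
    rw [h1 hσ, map_one]
  have hsθ : Function.Surjective θ := by
    rw [hθd]
    exact (QuotientGroup.mk'_surjective H).comp hs
  have hker : ∀ σ : Gal(QBar/K), φ₀ σ ∈ H ↔ θ σ = 1 := by
    intro σ
    rw [hθd]
    exact (QuotientGroup.eq_one_iff (φ₀ σ)).symm
  obtain ⟨F, act, hA⟩ := exists_act θ hθ hsθ
  have hfd : FiniteDimensional K F := hA.fin
  have hfQ : FiniteDimensional ℚ F := Module.Finite.trans (R := ℚ) K F
  have hcz : CharZero F := charZero_of_injective_algebraMap (algebraMap K F).injective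
  have hnF : NumberField F := ⟨⟩
  have hfix : ∀ τ : Gal(QBar/K), θ τ = 1 ↔ ∀ y : F, τ (y : QBar) = y := by
    intro τ
    rw [← MonoidHom.mem_ker, ← hA.fix, IntermediateField.mem_fixingSubgroup_iff]
    exact ⟨fun h y => h y y.2, fun h y hy => h ⟨y, hy⟩⟩
  obtain ⟨γ, hγ⟩ := hs a
  have hγ1 : θ γ ≠ 1 := by
    intro h1
    rw [← hker, hγ] at h1
    exact ha h1
  have hne2 : ac γ F.val ≠ F.val := by
    intro h1
    apply hγ1
    rw [hfix]
    intro y
    have h2 : ac γ F.val y = F.val y := by rw [h1]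
    exact h2
  obtain ⟨B, -, hB⟩ := bad K F
  refine dgn_mert (k := K) (F := F) (S ∪ B) fun v hv => ?_
  have hIT : IT QBar F v := (inr_iff F v).2 (hB v fun h => hv (Finset.mem_union_right _ h))
  have hbij := dic_bij F Q v hIT
  have hfr : θ (fr Q v) = 1 := (hker _).1 (hH v fun h => hv (Finset.mem_union_left _ h))
  have hm1 : F.val ∈ fx F (fr Q v) := by
    show ac (fr Q v) F.val = F.val
    ext y
    exact (hfix _).1 hfr y
  have hm2 : ac γ F.val ∈ fx F (fr Q v) := by
    show ac (fr Q v) (ac γ F.val) = ac γ F.val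
    have h1 : θ (γ⁻¹ * fr Q v * γ) = 1 := by
      rw [map_mul, map_mul, hfr, mul_one, map_inv, inv_mul_cancel]
    rw [hfix] at h1
    ext y
    have h2 : γ⁻¹ (fr Q v (γ (y : QBar))) = y := h1 y
    show fr Q v (γ (y : QBar)) = γ (y : QBar)
    conv_rhs => rw [← h2]
    exact (γ.apply_symm_apply _).symm
  have hfin : {w : Pl F | Over w v ∧ nm w = nm v}.Finite := (dgn_fin v).subset fun w hw => hw.1
  have hfxf : (fx F (fr Q v)).Finite := by
    refine Set.Finite.of_finite_image (f := pe F Q v) ?_ hbij.injOn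
    rw [hbij.image_eq]
    exact hfin
  have h1 : (fx F (fr Q v)).ncard = {w : Pl F | Over w v ∧ nm w = nm v}.ncard := by
    rw [← hbij.injOn.ncard_image, hbij.image_eq]
  rw [← h1]
  have h2 : ({ac γ F.val, F.val} : Set (F →ₐ[K] QBar)) ⊆ fx F (fr Q v) := by
    intro ι hι
    rcases hι with rfl | hι
    · exact hm2
    · rw [Set.mem_singleton_iff.1 hι]
      exact hm1
  have h3 := Set.ncard_le_ncard h2 hfxf
  rwa [Set.ncard_pair hne2] at h3

private theorem dgn_frd (Q : DP K QBar) (v : Pl K) : fr Q v ∈ dec (K := K) (Q.P v) := by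
  have hnm : 0 < nm v := lt_trans Nat.zero_lt_one (diu_one v)
  intro x
  have h1 := fr_spec Q v x
  constructor
  · intro h
    have h2 := (Q.P v).sub_mem h h1
    rw [sub_sub_cancel] at h2
    exact (Q.prime v).mem_of_pow_mem _ h2
  · intro h
    have h2 := (Q.P v).add_mem h1 ((Q.P v).pow_mem_of_mem h (nm v) hnm)
    rwa [sub_add_cancel] at h2

/-- the places where the decomposition groups generate -/
theorem dec_gen (φ₀ : Gal(QBar/K) →* A) (h₀ : FT φ₀) (hs : Function.Surjective φ₀) (Q : DP K QBar)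
    (S : Finset (Pl K)) : ∃ V : Finset (Pl K), Disjoint V S ∧
      Subgroup.closure {a : A | ∃ v ∈ V, ∃ σ ∈ dec (K := K) (Q.P v), φ₀ σ = a} = ⊤ := by
  have hfA : Fintype A := Fintype.ofFinite A
  have h1 : ∀ a : A, ∃ V : Finset (Pl K), Disjoint V S ∧
      ((∃ v, v ∉ S ∧ ∃ σ ∈ dec (K := K) (Q.P v), φ₀ σ = a) → ∃ v ∈ V, ∃ σ ∈ dec (K := K) (Q.P v), φ₀ σ = a) := by
    intro a
    by_cases h : ∃ v, v ∉ S ∧ ∃ σ ∈ dec (K := K) (Q.P v), φ₀ σ = a
    · obtain ⟨v, hv, h2⟩ := h
      exact ⟨{v}, Finset.disjoint_singleton_left.2 hv, fun _ => ⟨v, Finset.mem_singleton_self v, h2⟩⟩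
    · exact ⟨∅, Finset.disjoint_empty_left S, fun h' => absurd h' h⟩
  choose V hV1 hV2 using h1
  refine ⟨Finset.univ.biUnion V, ?_, ?_⟩
  · rw [Finset.disjoint_biUnion_left]
    exact fun a _ => hV1 a
  · refine dgn_top φ₀ h₀ hs Q S _ fun v hv => Subgroup.subset_closure ?_
    obtain ⟨v', hv', h2⟩ := hV2 (φ₀ (fr Q v)) ⟨v, hv, fr Q v, dgn_frd Q v, rfl⟩
    exact ⟨v', Finset.mem_biUnion.2 ⟨_, Finset.mem_univ _, hv'⟩, h2⟩

end Pool.Agent.H36.FA
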