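import Pool.Agent.H36.FA.Def

/-!
# [H36 FA NDV] The primes dividing an element; units close to 1

* `dv_mem`: finitely many primes divide `x ≠ 0`. `nN_dv`: for squarefree `x` (`x ∉ v²` for all `v`) `∏_{v ∈ dv x} nm v = N(x)` (unique factorisation of `span {x}`). `assoc`: squarefree elements with the
  same primes generate the same ideal.
* `unit_mod`: the integers with all `w u ≤ 2` are finitely many (`finite_bxF`); `N` exceeds the norms of the nonzero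
  `u - 1` among them.
-/

set_option autoImplicit false

open scoped NumberField Classical
open IsDedekindDomain NumberField

noncomputable section

namespace Pool.Agent.H36.FA

open H63.MA H38.BB H38.BG H77.PC3 H51.SN H57.SL H36.QA H1.LS4 H38.ML

theorem dv_mem {K : Type} [Field K] [NumberField K] {x : 𝓞 K} (hx : x ≠ 0) (v : Pl K) :
    v ∈ dv x ↔ x ∈ v.asIdeal := by
  have hfin : {v : Pl K | x ∈ v.asIdeal}.Finite := by
    have h1 : Ideal.span {x} ≠ 0 := by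
      rw [Ne, Submodule.zero_eq_bot, Ideal.span_singleton_eq_bot]
      exact hx
    refine (Ideal.finite_factors h1).subset fun v hv => ?_
    show v.asIdeal ∣ Ideal.span {x}
    rw [Ideal.dvd_span_singleton]
    exact hv
  unfold dv
  rw [dif_pos hfin, Set.Finite.mem_toFinset]
  rfl

private theorem ndv_prod {K : Type} [Field K] [NumberField K] {x : 𝓞 K} (hx : x ≠ 0)
    (h : ∀ v : Pl K, x ∉ v.asIdeal ^ 2) : Ideal.span {x} = ∏ v ∈ dv x, v.asIdeal := by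
  have h1 : (∏ v ∈ dv x, v.asIdeal) ∣ Ideal.span {x} := by
    refine Finset.prod_dvd_of_isRelPrime ?_ ?_
    · intro v _ w _ hvw
      refine IsCoprime.isRelPrime ?_
      have h2 : v.asIdeal ≠ w.asIdeal := fun h3 => hvw (HeightOneSpectrum.ext h3)
      exact Ideal.isCoprime_iff_sup_eq.2 (Ideal.IsMaximal.coprime_of_ne v.isMaximal w.isMaximal h2)
    · intro v hv
      rw [Ideal.dvd_span_singleton]
      exact (dv_mem hx v).1 hv
  obtain ⟨J, hJ⟩ := h1
  have hx0 : Ideal.span {x} ≠ ⊥ := by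
    rw [Ne, Ideal.span_singleton_eq_bot]
    exact hx
  have hJ1 : J = ⊤ := by
    by_contra hne
    obtain ⟨M, hM, hJM⟩ := Ideal.exists_le_maximal J hne
    have hM0 : M ≠ ⊥ := by
      rintro rfl
      have h4 : J = ⊥ := le_bot_iff.1 hJM
      rw [h4, Ideal.mul_bot] at hJ
      exact hx0 hJ
    obtain ⟨w, hw⟩ : ∃ w : Pl K, w.asIdeal = M := ⟨⟨M, hM.isPrime, hM0⟩, rfl⟩
    have hwJ : w.asIdeal ∣ J := by
      rw [hw]
      exact Ideal.dvd_iff_le.2 hJM
    have hwx : x ∈ w.asIdeal := by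
      rw [← Ideal.dvd_span_singleton, hJ]
      exact Dvd.dvd.mul_left hwJ _
    have hwP : w.asIdeal ∣ ∏ v ∈ dv x, v.asIdeal :=
      Finset.dvd_prod_of_mem _ ((dv_mem hx w).2 hwx)
    refine h w ?_
    rw [← Ideal.dvd_span_singleton, hJ, pow_two]
    exact mul_dvd_mul hwP hwJ
  rw [hJ, hJ1, Ideal.mul_top]

theorem nN_dv {K : IntermediateField ℚ QBar} [NumberField K] {x : 𝓞 K} (hx : x ≠ 0)
    (h : ∀ v : Pl K, x ∉ v.asIdeal ^ 2) :
    H51.K1.nN (dv x) = (Ideal.absNorm (Ideal.span {x}) : ℝ) := by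
  rw [ndv_prod hx h, map_prod]
  push_cast
  rfl

theorem assoc {K : Type} [Field K] [NumberField K] {x y : 𝓞 K} (hx : x ≠ 0) (hy : y ≠ 0)
    (h : ∀ v : Pl K, x ∉ v.asIdeal ^ 2) (h' : ∀ v : Pl K, y ∉ v.asIdeal ^ 2)
    (hxy : ∀ v : Pl K, x ∈ v.asIdeal ↔ y ∈ v.asIdeal) : ∃ u : (𝓞 K)ˣ, x = y * u := by
  have h1 : dv x = dv y := by
    ext v
    rw [dv_mem hx, dv_mem hy]
    exact hxy v
  have h2 : Ideal.span {y} = Ideal.span {x} := by
    rw [ndv_prod hx h, ndv_prod hy h', h1]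
  obtain ⟨u, hu⟩ := Ideal.span_singleton_eq_span_singleton.1 h2
  exact ⟨u, hu.symm⟩

theorem unit_mod (K : Type) [Field K] [NumberField K] : ∃ N : ℕ, 0 < N ∧ ∀ u : (𝓞 K)ˣ,
    (∀ w : InfinitePlace K, w ((u : 𝓞 K) : K) < 2) → ((u : 𝓞 K) - 1) ∈ Ideal.span {(N : 𝓞 K)} →
      u = 1 := by
  obtain ⟨S, hS⟩ : ∃ S : Finset (𝓞 K), ∀ α : 𝓞 K, (∀ w : InfinitePlace K, w (α : K) ≤ 2) → α ∈ S := by
    refine ⟨(finite_bxF (F := K) fun _ => 2).toFinset, fun α hα => ?_⟩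
    rw [Set.Finite.mem_toFinset]
    exact hα
  refine ⟨1 + ∑ s ∈ S, (Algebra.norm ℤ (s - 1)).natAbs, by omega, fun u hu hmem => ?_⟩
  obtain ⟨N, hN⟩ : ∃ N, N = 1 + ∑ s ∈ S, (Algebra.norm ℤ (s - 1)).natAbs := ⟨_, rfl⟩
  rw [← hN] at hmem
  by_contra hne
  have hu0 : (u : 𝓞 K) - 1 ≠ 0 := by
    intro h1
    refine hne (Units.ext ?_)
    rw [Units.val_one]
    exact sub_eq_zero.1 h1
  have huS : (u : 𝓞 K) ∈ S := hS _ fun w => (hu w).le
  have h2 : (Algebra.norm ℤ ((u : 𝓞 K) - 1)).natAbs < N := by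
    have h3 := Finset.single_le_sum (f := fun s : 𝓞 K => (Algebra.norm ℤ (s - 1)).natAbs)
      (fun _ _ => Nat.zero_le _) huS
    omega
  obtain ⟨c, hc⟩ := Ideal.mem_span_singleton.1 hmem
  have hc0 : c ≠ 0 := by
    rintro rfl
    rw [mul_zero] at hc
    exact hu0 hc
  have h4 : Algebra.norm ℤ ((u : 𝓞 K) - 1) = Algebra.norm ℤ (N : 𝓞 K) * Algebra.norm ℤ c := by
    rw [hc, map_mul]
  have h5 : Algebra.norm ℤ (N : 𝓞 K) = (N : ℤ) ^ Module.finrank ℤ (𝓞 K) := by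
    have h6 := Algebra.norm_algebraMap (R := ℤ) (S := 𝓞 K) (N : ℤ)
    have h7 : algebraMap ℤ (𝓞 K) (N : ℤ) = (N : 𝓞 K) := by simp
    rw [h7] at h6
    exact h6
  have h8 : (Algebra.norm ℤ c).natAbs ≠ 0 := by
    rw [Ne, Int.natAbs_eq_zero, Algebra.norm_eq_zero_iff]
    exact hc0
  have h9 : N ≤ (Algebra.norm ℤ ((u : 𝓞 K) - 1)).natAbs := by
    rw [h4, h5, Int.natAbs_mul, Int.natAbs_pow, Int.natAbs_natCast]
    have hN1 : 1 ≤ N := by omega
    have hfr : Module.finrank ℤ (𝓞 K) ≠ 0 := by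
      rw [RingOfIntegers.rank]
      exact Module.finrank_pos.ne'
    calc N ≤ N ^ Module.finrank ℤ (𝓞 K) := Nat.le_self_pow hfr N
      _ ≤ N ^ Module.finrank ℤ (𝓞 K) * (Algebra.norm ℤ c).natAbs :=
        Nat.le_mul_of_pos_right _ (Nat.pos_of_ne_zero h8)
  omega

end Pool.Agent.H36.FA
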