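import Pool.Agent.H36.FA.Def
import Pool.Agent.H51.SN.Kum
import Pool.Agent.H51.SN.Unr

/-!
# [H36 FA PHR] The homomorphism of a tuple on inertia

`τ` in inertia at `v`, `m ∉ v`, `l = orderOf o` (divides `m`, so `l ∉ v`; `ζ ^ (m / l)` primitive of order `l`).
`pha_unr`: all symbols are `0` (`unr` with `F = ⊥` / `F = K`, `ord v (α o) = 0` as `α o ∉ v`), `φ₀ τ = 1`.
`pha_ram`: for `o' ≠ o` the symbol is `0` (`α o' ∉ v` by `¬ Bad`); `kq (α o) τ = kq (uf v) τ` since `α o / uf v` has order `0` at `v` (`α o ∈ v`, `∉ v²`: `ord v = 1`; multiplicativity of `kq` in the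
argument: `kq_arg` or similar in H51/SN/Kum.lean; `unr`).
-/

set_option autoImplicit false

open scoped NumberField Classical
open IsDedekindDomain NumberField

noncomputable section

namespace Pool.Agent.H36.FA

open H63.MA H38.BB H38.BG H77.PC3 H51.SN H57.SL H36.QA H1.LS4 H38.ML

variable {K : IntermediateField ℚ QBar} [NumberField K] {A : Type} [CommGroup A] [Finite A]

private theorem phr_unr {l : ℕ} (hl : l.Prime) {ζ : K} (hζ : IsPrimitiveRoot ζ l) (Q : DP K QBar)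
    (v : Pl K) (hlv : ((l : ℕ) : 𝓞 K) ∉ v.asIdeal) (x : Kˣ) (hx : ord v x = 0) (τ : Gal(QBar/K))
    (hτ : τ ∈ (Q.P v).inertia Gal(QBar/K)) : kq l ζ ((x : K) : QBar) τ = 0 := by
  have hP := Q.prime v
  have hw := Q.under v
  have hℓP : ((l : ℕ) : 𝓞 QBar) ∉ Q.P v := by
    intro h
    apply hlv
    rw [← hw, Ideal.mem_under, map_natCast]
    exact h
  have hx0 : ((x : K) : QBar) ≠ 0 := by
    intro h
    exact x.ne_zero (Subtype.ext h)
  have hfix : ∀ y : K, τ (y : QBar) = (y : QBar) := fun y => τ.commutes y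
  have hod : H38.TD.od v x = 0 := by
    rw [← ord_eq_od]
    exact hx
  obtain ⟨a, c, ha, hc, hac⟩ := H38.TD.exists_int_div v x hod
  obtain ⟨B, hB⟩ := IsAlgClosed.exists_pow_nat_eq ((x : K) : QBar) hl.pos
  have hk := kq_is hl hζ hx0 (hfix x) B hB
  obtain ⟨k, hkd⟩ : ∃ k, k = (kq l ζ ((x : K) : QBar) τ).val := ⟨_, rfl⟩
  rw [← hkd] at hk
  have hacQ : ((x : K) : QBar) * (((c : K)) : QBar) = (((a : K)) : QBar) := by
    have h1 := congrArg (fun y : K => (y : QBar)) hac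
    simpa using h1
  obtain ⟨C, hC⟩ : ∃ C : QBar, C = (((c : K)) : QBar) * B := ⟨_, rfl⟩
  have hCp : C ^ l = ((((c ^ (l - 1) * a : 𝓞 K) : K)) : QBar) := by
    have e1 : (((c ^ (l - 1) * a : 𝓞 K) : K)) = (c : K) ^ (l - 1) * (a : K) := by
      push_cast
      rfl
    have e2 : ((((c : K) ^ (l - 1) * (a : K) : K)) : QBar) =
        (((c : K)) : QBar) ^ (l - 1) * (((a : K)) : QBar) := by
      push_cast
      rfl
    rw [hC, mul_pow, hB, e1, e2, ← hacQ]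
    obtain ⟨r, hr⟩ : ∃ r, l = r + 1 := ⟨l - 1, by have := hl.pos; omega⟩
    rw [hr, Nat.add_sub_cancel, pow_succ]
    ring
  have hint : IsIntegral ℤ C := by
    refine IsIntegral.of_pow hl.pos ?_
    rw [hCp]
    exact (NumberField.RingOfIntegers.isIntegral_coe (c ^ (l - 1) * a)).algebraMap
  obtain ⟨C', hC'⟩ : ∃ C' : 𝓞 QBar, (C' : QBar) = C := ⟨⟨C, hint⟩, rfl⟩
  have hC'n : C' ∉ Q.P v := by
    intro hmem
    have h1 : C' ^ l ∈ Q.P v := Ideal.pow_mem_of_mem (Q.P v) hmem l hl.pos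
    have h2 : C' ^ l = algebraMap (𝓞 K) (𝓞 QBar) (c ^ (l - 1) * a) := by
      apply NumberField.RingOfIntegers.ext
      have h3 : ((C' ^ l : 𝓞 QBar) : QBar) = (C' : QBar) ^ l := by
        push_cast
        rfl
      rw [h3, hC', hCp]
      rfl
    rw [h2, ← Ideal.mem_under, hw] at h1
    rcases v.isPrime.mem_or_mem h1 with h3 | h3
    · exact hc (v.isPrime.mem_of_pow_mem _ h3)
    · exact ha h3
  have hτC : τ (C' : QBar) = algebraMap K QBar ζ ^ k * (C' : QBar) := by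
    rw [hC', hC, map_mul, hfix, hk]
    ring
  have hd : l ∣ k := H38.ML.pow_eq_one_of_inertia (Q.P v) l hl.pos hℓP ζ hζ τ hτ C' hC'n k hτC
  have : NeZero l := ⟨hl.ne_zero⟩
  have hlt : k < l := by
    rw [hkd]
    exact ZMod.val_lt _
  have hk0 : k = 0 := Nat.eq_zero_of_dvd_of_lt hd hlt
  rw [hk0] at hkd
  exact (ZMod.val_eq_zero _).1 hkd.symm

omit [Finite A] in
private theorem phr_prim {m : ℕ} {ζ : K} (hζ : IsPrimitiveRoot ζ m) (hA : Nat.card A ∣ m) (v : Pl K)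
    (hv : ((m : ℕ) : 𝓞 K) ∉ v.asIdeal) (o : A) :
    IsPrimitiveRoot (ζ ^ (m / orderOf o)) (orderOf o) ∧ ((orderOf o : ℕ) : 𝓞 K) ∉ v.asIdeal := by
  have hd : orderOf o ∣ m := (orderOf_dvd_natCard o).trans hA
  have hm : 0 < m := by
    refine Nat.pos_of_ne_zero fun h => hv ?_
    rw [h, Nat.cast_zero]
    exact v.asIdeal.zero_mem
  refine ⟨hζ.pow hm (Nat.div_mul_cancel hd).symm, fun h => hv ?_⟩
  obtain ⟨c, hc⟩ := hd
  rw [hc, Nat.cast_mul]
  exact v.asIdeal.mul_mem_right _ h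

private theorem phr_ord0 (v : Pl K) (a : 𝓞 K) (x : Kˣ) (hx : (x : K) = algebraMap (𝓞 K) K a)
    (ha : a ∉ v.asIdeal) : ord v x = 0 := by
  rw [ord_eq_zero_iff, hx, HeightOneSpectrum.valuation_of_algebraMap,
    HeightOneSpectrum.intValuation_eq_one_iff]
  exact ha

private theorem phr_ord1 (v : Pl K) (a : 𝓞 K) (x : Kˣ) (hx : (x : K) = algebraMap (𝓞 K) K a)
    (ha : a ∈ v.asIdeal) (ha2 : a ∉ v.asIdeal ^ 2) : ord v x = 1 := by
  have h1 : 0 < ord v x := by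
    rw [ord_pos_iff, hx, HeightOneSpectrum.valuation_of_algebraMap,
      HeightOneSpectrum.intValuation_lt_one_iff_mem]
    exact ha
  have h2 : ord v x < 2 := by
    by_contra hc
    push Not at hc
    apply ha2
    rw [← HeightOneSpectrum.intValuation_le_pow_iff_mem, ← HeightOneSpectrum.valuation_of_algebraMap (K := K)]
    have h3 : v.valuation K (x : K) ≤ WithZero.exp (-(((2 : ℕ) : ℤ))) := by
      rw [val_eq, WithZero.exp_le_exp]
      push_cast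
      omega
    rw [hx] at h3
    exact h3
  omega

theorem pha_unr {m : ℕ} {ζ : K} (hζ : IsPrimitiveRoot ζ m) (hA : Nat.card A ∣ m) (L : Set A)
    (hL : ∀ o ∈ L, (orderOf o).Prime) (φ₀ : Gal(QBar/K) →* A) (α : L → 𝓞 K) (hα : ∀ o, α o ≠ 0)
    (Q : DP K QBar) (v : Pl K) (hv : ((m : ℕ) : 𝓞 K) ∉ v.asIdeal)
    (h₀ : ∀ τ ∈ (Q.P v).inertia Gal(QBar/K), φ₀ τ = 1) (hu : Un α v) (τ : Gal(QBar/K))
    (hτ : τ ∈ (Q.P v).inertia Gal(QBar/K)) : phf m ζ L φ₀ α τ = 1 := by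
  unfold phf
  rw [h₀ τ hτ, one_mul]
  refine Finset.prod_eq_one fun o _ => ?_
  obtain ⟨h1, h2⟩ := phr_prim hζ hA v hv (o : A)
  have h3 : ((α o : K)) ≠ 0 := fun h => hα o (NumberField.RingOfIntegers.ext (by rw [h]; rfl))
  have h4 : ks m ζ (o : A) (α o) τ = 0 :=
    phr_unr (hL o o.2) h1 Q v h2 (Units.mk0 ((α o : K)) h3) (phr_ord0 v (α o) _ rfl (hu o)) τ hτ
  rw [h4, ZMod.val_zero, pow_zero]

theorem pha_ram {m : ℕ} {ζ : K} (hζ : IsPrimitiveRoot ζ m) (hA : Nat.card A ∣ m) (L : Set A)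
    (hL : ∀ o ∈ L, (orderOf o).Prime) (φ₀ : Gal(QBar/K) →* A) (α : L → 𝓞 K) (hα : ∀ o, α o ≠ 0)
    (Q : DP K QBar) (v : Pl K) (hv : ((m : ℕ) : 𝓞 K) ∉ v.asIdeal)
    (h₀ : ∀ τ ∈ (Q.P v).inertia Gal(QBar/K), φ₀ τ = 1) (o : L) (h1 : α o ∈ v.asIdeal)
    (hb : ¬ Bad α v) (τ : Gal(QBar/K)) (hτ : τ ∈ (Q.P v).inertia Gal(QBar/K)) :
    phf m ζ L φ₀ α τ = H51.K1.tx m ζ v (o : A) τ := by
  unfold Bad at hb
  push Not at hb
  obtain ⟨hb1, hb2⟩ := hb
  have hne : ∀ o' : L, ((α o' : K)) ≠ 0 :=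
    fun o' h => hα o' (NumberField.RingOfIntegers.ext (by rw [h]; rfl))
  unfold phf
  rw [h₀ τ hτ, one_mul, Finset.prod_eq_single o]
  · obtain ⟨h2, h3⟩ := phr_prim hζ hA v hv (o : A)
    have hl := hL o o.2
    obtain ⟨y, hy⟩ : ∃ y : Kˣ, y = Units.mk0 ((α o : K)) (hne o) * (H51.K1.uf v)⁻¹ := ⟨_, rfl⟩
    have hy1 : ord v y = 0 := by
      rw [hy, ord_mul, ord_inv, H51.K1.ord_uf, phr_ord1 v (α o) _ rfl h1 (hb1 o)]
      rfl
    have hy2 : (y : K) * (H51.K1.uf v : K) = ((α o : K)) := by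
      rw [hy, Units.val_mul, Units.val_inv_eq_inv_val, inv_mul_cancel_right₀ (Units.ne_zero _)]
      rfl
    have hy0 : (((y : K)) : QBar) ≠ 0 := fun h => y.ne_zero (Subtype.ext h)
    have hu0 : ((H51.K1.uf v : K) : QBar) ≠ 0 := fun h => (H51.K1.uf v).ne_zero (Subtype.ext h)
    have hfix : ∀ y : K, τ (y : QBar) = (y : QBar) := fun y => τ.commutes y
    have h4 := phr_unr hl h2 Q v h3 y hy1 τ hτ
    have h5 : ks m ζ (o : A) (α o) τ =
        kq (orderOf (o : A)) (ζ ^ (m / orderOf (o : A))) ((H51.K1.uf v : K) : QBar) τ := by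
      unfold ks
      rw [← hy2]
      have h6 : (((y : K) * (H51.K1.uf v : K) : K) : QBar) =
          ((y : K) : QBar) * ((H51.K1.uf v : K) : QBar) := rfl
      rw [h6, kq_arg hl h2 hy0 hu0 (hfix _) (hfix _), h4, zero_add]
    unfold H51.K1.tx
    rw [h5]
  · intro o' _ ho'
    obtain ⟨h2, h3⟩ := phr_prim hζ hA v hv (o' : A)
    have h4 : ks m ζ (o' : A) (α o') τ = 0 :=
      phr_unr (hL o' o'.2) h2 Q v h3 (Units.mk0 ((α o' : K)) (hne o'))
        (phr_ord0 v (α o') _ rfl (hb2 o o' (Ne.symm ho') h1)) τ hτ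
    rw [h4, ZMod.val_zero, pow_zero]
  · intro h
    exact absurd (Finset.mem_univ o) h

end Pool.Agent.H36.FA
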