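import Pool.Agent.H36.FA.Pha
import Pool.Agent.H36.FA.Phr
import Pool.Agent.H36.FA.Ndv
import Pool.Agent.H36.FA.Anu

/-!
# [H36 FA FTY] The homomorphism of a tuple is typed

`α o ≠ 0` (`mem_Ax`). `srj`: `φ σ = φ₀ σ` for `σ ∈ dec (Q.P v)`, `v ∈ V` (`pha_dec`), closure. `out`: `v ∈ D o` means `α o ∈ v` (`dv_mem`); if `v ∈ S₀` then `α o ≡ 1` modulo `v` (`v ∣ 𝔪`): contradiction. `dis`: `¬ Bad`.
`ram`, `unr`, `dec`: `pha_ram`, `pha_unr`, `pha_dec`. `nrm`: `nN_dv`, `ann_norm` (`α o ∉ v²` by `¬ Bad`).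
-/

set_option autoImplicit false

open scoped NumberField Classical
open IsDedekindDomain NumberField

noncomputable section

namespace Pool.Agent.H36.FA

open H63.MA H38.BB H38.BG H77.PC3 H51.SN H57.SL H36.QA H1.LS4 H38.ML

variable {K : IntermediateField ℚ QBar} [NumberField K] {A : Type} [CommGroup A] [Finite A]

/-- the sets of primes of a tuple -/
def Dd (L : Set A) (α : L → 𝓞 K) (o : A) : Finset (Pl K) := if h : o ∈ L then dv (α ⟨o, h⟩) else ∅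

omit [Finite A] in
private theorem BX_mem {L : Type} [Fintype L] {X : L → ℝ} {α : L → 𝓞 K} (h : α ∈ BX K X) (o : L) :
    α o ∈ Ax K (X o) := by
  unfold BX at h
  exact Fintype.mem_piFinset.1 h o

private theorem fty_ne {L : Set A} {𝔪 : Ideal (𝓞 K)} {X : L → ℝ} (hX : ∀ o, 1 ≤ X o) {α : L → 𝓞 K}
    (hα : α ∈ Ph 𝔪 X) (o : L) : α o ≠ 0 := by
  intro h0
  have h1 : α ∈ BX K X := (Finset.mem_filter.1 hα).1
  have h2 : α o ∈ Ax K (X o) := BX_mem h1 o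
  rw [mem_Ax] at h2
  obtain ⟨w⟩ : Nonempty (InfinitePlace K) := inferInstance
  have h3 := (h2 w).1
  rw [h0] at h3
  have h4 : w (((0 : 𝓞 K) : K)) = 0 := by
    rw [NumberField.RingOfIntegers.coe_eq_algebraMap, map_zero, map_zero]
  rw [h4] at h3
  have h5 : 0 ≤ X o ^ (1 / (Module.finrank ℚ K : ℝ)) := Real.rpow_nonneg (by linarith [hX o]) _
  linarith

omit [Finite A] in
private theorem Dd_mem (L : Set A) {α : L → 𝓞 K} (hα : ∀ o, α o ≠ 0) (o : A) (v : Pl K) :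
    v ∈ Dd L α o ↔ ∃ h : o ∈ L, α ⟨o, h⟩ ∈ v.asIdeal := by
  unfold Dd
  by_cases h : o ∈ L
  · rw [dif_pos h, dv_mem (hα _)]
    exact ⟨fun h1 => ⟨h, h1⟩, fun ⟨_, h1⟩ => h1⟩
  · rw [dif_neg h]
    exact ⟨fun h1 => absurd h1 (Finset.notMem_empty v), fun ⟨h1, _⟩ => absurd h1 h⟩

theorem fty {m : ℕ} {ζ : K} (hζ : IsPrimitiveRoot ζ m) (hA : Nat.card A ∣ m) (L : Set A)
    (hL : ∀ o ∈ L, (orderOf o).Prime) (φ₀ : Gal(QBar/K) →* A) (Q : DP K QBar)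
    (S₀ S' V : Finset (Pl K)) (𝔪 : Ideal (𝓞 K)) (h𝔪 : ∀ v : Pl K, v.asIdeal ∣ 𝔪 ↔ v ∈ S₀)
    (hm : ∀ v : Pl K, ((m : ℕ) : 𝓞 K) ∈ v.asIdeal → v ∈ S₀)
    (hun : ∀ v, v ∉ S₀ → ∀ τ ∈ (Q.P v).inertia Gal(QBar/K), φ₀ τ = 1)
    (hS' : S' ⊆ S₀) (hmS' : ∀ v ∈ S', ((m : ℕ) : 𝓞 K) ∉ v.asIdeal)
    (hd : ∀ v ∈ S', ∀ σ ∈ dec (K := K) (Q.P v), φ₀ σ = 1)
    (hV : V ⊆ S₀) (hmV : ∀ v ∈ V, ((m : ℕ) : 𝓞 K) ∉ v.asIdeal)
    (hgen : Subgroup.closure {a : A | ∃ v ∈ V, ∃ σ ∈ dec (K := K) (Q.P v), φ₀ σ = a} = ⊤)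
    (X : L → ℝ) (hX : ∀ o, 1 ≤ X o) (α : L → 𝓞 K) (hα : α ∈ Ph 𝔪 X) (φ : Gal(QBar/K) →* A)
    (hφ : ∀ σ, φ σ = phf m ζ L φ₀ α σ) (hft : FT φ) :
    H51.K1.TyA Q m ζ S₀ S' L (Dd L α) φ := by
  have hne : ∀ o, α o ≠ 0 := fty_ne hX hα
  have h1m : ∀ o, α o - 1 ∈ 𝔪 := (Finset.mem_filter.1 hα).2.1
  have hbad : ∀ v : Pl K, ¬ Bad α v := (Finset.mem_filter.1 hα).2.2
  have hcong : ∀ v ∈ S₀, ∀ o, α o - 1 ∈ v.asIdeal := fun v hv o =>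
    (Ideal.dvd_iff_le.1 ((h𝔪 v).2 hv)) (h1m o)
  have hout : ∀ o, ∀ v ∈ Dd L α o, v ∉ S₀ := by
    intro o v hv hvS
    obtain ⟨h, h1⟩ := (Dd_mem L hne o v).1 hv
    have h2 := hcong v hvS ⟨o, h⟩
    have h3 : (1 : 𝓞 K) ∈ v.asIdeal := by
      have h4 := v.asIdeal.sub_mem h1 h2
      rwa [sub_sub_cancel] at h4
    exact v.isPrime.ne_top ((Ideal.eq_top_iff_one _).2 h3)
  refine ⟨hft, ?_, hout, ?_, ?_, ?_, ?_, ?_⟩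
  · rw [← MonoidHom.range_eq_top, ← top_le_iff, ← hgen, Subgroup.closure_le]
    rintro a ⟨v, hv, σ, hσ, rfl⟩
    refine ⟨σ, ?_⟩
    rw [hφ, pha_dec hζ hA L hL φ₀ α Q v (hmV v hv) (hcong v (hV hv)) σ hσ]
  · intro o ho
    unfold Dd
    rw [dif_neg ho]
  · intro o o' hoo
    rw [Finset.disjoint_left]
    intro v hv hv'
    obtain ⟨h, h1⟩ := (Dd_mem L hne o v).1 hv
    obtain ⟨h', h1'⟩ := (Dd_mem L hne o' v).1 hv'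
    exact hbad v (Or.inr ⟨⟨o, h⟩, ⟨o', h'⟩, fun he => hoo (congrArg Subtype.val he), h1, h1'⟩)
  · intro o v hv τ hτ
    have hvS := hout o v hv
    obtain ⟨h, h1⟩ := (Dd_mem L hne o v).1 hv
    rw [hφ]
    exact pha_ram hζ hA L hL φ₀ α hne Q v (fun h2 => hvS (hm v h2)) (hun v hvS) ⟨o, h⟩ h1 (hbad v) τ hτ
  · intro v hvS hv τ hτ
    rw [hφ]
    refine pha_unr hζ hA L hL φ₀ α hne Q v (fun h2 => hvS (hm v h2)) (hun v hvS) (fun o ho => ?_) τ hτ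
    exact hv o ((Dd_mem L hne o v).2 ⟨o.2, ho⟩)
  · intro v hv σ hσ
    rw [hφ, pha_dec hζ hA L hL φ₀ α Q v (hmS' v hv) (hcong v (hS' hv)) σ hσ]
    exact hd v hv σ hσ

theorem dd_mem (L : Set A) {α : L → 𝓞 K} (hα : ∀ o, α o ≠ 0) (v : Pl K) :
    v ∈ H51.K1.UD (Dd L α) ↔ ¬ Un α v := by
  unfold H51.K1.UD
  rw [Finset.mem_biUnion]
  constructor
  · rintro ⟨o, -, ho⟩ hu
    obtain ⟨h, h1⟩ := (Dd_mem L hα o v).1 ho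
    exact hu ⟨o, h⟩ h1
  · intro hu
    unfold Un at hu
    push Not at hu
    obtain ⟨o, ho⟩ := hu
    exact ⟨o, (Set.Finite.mem_toFinset _).2 (Set.mem_univ _), (Dd_mem L hα o v).2 ⟨o.2, ho⟩⟩

theorem dd_norm (hK : NumberField.IsTotallyComplex K) (L : Set A) (𝔪 : Ideal (𝓞 K)) (X : L → ℝ)
    (hX : ∀ o, 1 ≤ X o) (α : L → 𝓞 K) (hα : α ∈ Ph 𝔪 X) (o : L) :
    X o < H51.K1.nN (Dd L α o) ∧ H51.K1.nN (Dd L α o) ≤ 2 ^ Module.finrank ℚ K * X o := by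
  have hne : ∀ o, α o ≠ 0 := fty_ne hX hα
  have hbad : ∀ v : Pl K, ¬ Bad α v := (Finset.mem_filter.1 hα).2.2
  have h1 : α ∈ BX K X := (Finset.mem_filter.1 hα).1
  have h2 : α o ∈ Ax K (X o) := BX_mem h1 o
  have h3 : Dd L α o = dv (α o) := by
    unfold Dd
    rw [dif_pos o.2]
  rw [h3, nN_dv (hne o) fun v hv => hbad v (Or.inl ⟨o, hv⟩)]
  exact ann_norm K hK (X o) (by linarith [hX o]) (α o) h2

end Pool.Agent.H36.FA
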