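import Pool.Agent.H36.FA.Mea
import Pool.Agent.H36.FA.Chg
import Pool.Agent.H36.FA.Fty

/-!
# [H36 FA FHY] The hypotheses `Hyp` for the family

`H51.K1.dat`, `dat0`: `nm v = nm v.1`, `P = PV S₀`, `r i j v = rr Q S₀ H (φ i) (UD (D i)) j v`, `w = 1`, `κ = T / Z`, `W = card ι` (`ι` = the subtype of `Ph 𝔪 X`).
`mem_P` (`fin_Vx`), `two` (`nm v ≥ 2`), `card_P`: `hp`; `rr = ff (H j) v.1 α` (`dd_mem`, `φ (fr Q v) = phf .. (fr Q v)`), bounds `ff_bd`, `gg_bd`; `che1`, `che2`: hypotheses; `cnt`: `κ = T / Z^1`, `C ≥ 1`, `T ≥ 0`;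
`κ_nonneg`: `T ≥ 0`. `mean`: for pairwise disjoint `q : J → Finset (Vx S₀)` let `q' : Finset (Pl K)` be the union of the images; `f v = ff (H j) v` if `v` is in the image of `q j`
(`0` if there is no such `j`); `∏ j, ∏ v ∈ q j, r i j v = ∏ v ∈ q', f v α`, the same for `gg` and for `nm` (`Finset.prod_biUnion`, injectivity of `Subtype.val`); then `hmean` (`per_ff`, `ff_bd`; `v ∉ S₀` implies `m ∉ v`,
`¬ v ∣ 𝔪`).
-/

set_option autoImplicit false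

open scoped NumberField Classical
open IsDedekindDomain NumberField

noncomputable section

namespace Pool.Agent.H36.FA

open H63.MA H38.BB H38.BG H77.PC3 H51.SN H57.SL H36.QA H1.LS4 H38.ML

variable {K : IntermediateField ℚ QBar} [NumberField K] {A : Type} [CommGroup A] [Finite A]
  {J : Type} [Fintype J]

omit [Finite A] in
private theorem fhy_BX {L : Type} [Fintype L] {X : L → ℝ} {α : L → 𝓞 K} (h : α ∈ BX K X) (o : L) :
    α o ∈ Ax K (X o) := by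
  unfold BX at h
  exact Fintype.mem_piFinset.1 h o

private theorem fhy_ne {L : Set A} {𝔪 : Ideal (𝓞 K)} {X : L → ℝ} (hX : ∀ o, 1 ≤ X o) {α : L → 𝓞 K}
    (hα : α ∈ Ph 𝔪 X) (o : L) : α o ≠ 0 := by
  intro h0
  have h1 : α ∈ BX K X := (Finset.mem_filter.1 hα).1
  have h2 : α o ∈ Ax K (X o) := fhy_BX h1 o
  rw [mem_Ax] at h2
  obtain ⟨w⟩ : Nonempty (InfinitePlace K) := inferInstance
  have h3 := (h2 w).1
  rw [h0] at h3
  have h4 : w (((0 : 𝓞 K) : K)) = 0 := by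
    rw [NumberField.RingOfIntegers.coe_eq_algebraMap, map_zero, map_zero]
  rw [h4] at h3
  have h5 : 0 ≤ X o ^ (1 / (Module.finrank ℚ K : ℝ)) := Real.rpow_nonneg (by linarith [hX o]) _
  linarith

private theorem fhy_PV {S₀ : Finset (Pl K)} {x : ℝ} {v : H51.K1.Vx S₀} :
    v ∈ H51.K1.PV S₀ x ↔ (nm v.1 : ℝ) ≤ x := by
  unfold H51.K1.PV
  rw [Set.Finite.mem_toFinset]
  rfl

/-- the number of fixed points of the data is `ff` -/
private theorem fhy_r {m : ℕ} {ζ : K} (L : Set A) (H : J → Subgroup A) (φ₀ : Gal(QBar/K) →* A)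
    (Q : DP K QBar) (S₀ : Finset (Pl K)) {α : L → 𝓞 K} (hα : ∀ o, α o ≠ 0) (φ : Gal(QBar/K) →* A)
    (hφ : ∀ σ, φ σ = phf m ζ L φ₀ α σ) (j : J) (v : H51.K1.Vx S₀) :
    H51.K1.rr Q S₀ H φ (H51.K1.UD (Dd L α)) j v = ff m ζ L φ₀ Q (H j) v.1 α := by
  unfold H51.K1.rr ff
  by_cases h : Un α v.1
  · rw [if_neg (fun h1 => (dd_mem L hα v.1).1 h1 h), if_pos h, hφ]
  · rw [if_pos ((dd_mem L hα v.1).2 h), if_neg h]

/-- products over pairwise disjoint sets of primes -/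
private theorem fhy_prod {S₀ : Finset (Pl K)} (q : J → Finset (H51.K1.Vx S₀))
    (hd : ∀ i j, i ≠ j → Disjoint (q i) (q j)) (h : Pl K → ℝ) :
    ∏ v ∈ Finset.univ.biUnion (fun j => (q j).map (Function.Embedding.subtype _)), h v =
      ∏ j, ∏ v ∈ q j, h v.1 := by
  rw [Finset.prod_biUnion]
  · exact Finset.prod_congr rfl fun j _ => Finset.prod_map _ _ _
  · intro i _ j _ hij
    exact (Finset.disjoint_map _).2 (hd i j hij)

theorem fhy {m : ℕ} {ζ : K} (hζ : IsPrimitiveRoot ζ m) (hA : Nat.card A ∣ m) (L : Set A)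
    (hL : ∀ o ∈ L, (orderOf o).Prime) (H : J → Subgroup A) (φ₀ : Gal(QBar/K) →* A) (Q : DP K QBar)
    (S₀ : Finset (Pl K)) (𝔪 : Ideal (𝓞 K)) (h𝔪 : ∀ v : Pl K, v.asIdeal ∣ 𝔪 ↔ v ∈ S₀)
    (hm : ∀ v : Pl K, ((m : ℕ) : 𝓞 K) ∈ v.asIdeal → v ∈ S₀) (C θ η Z : ℝ) (hC : 2 ≤ C)
    (hCA : (Nat.card A : ℝ) ≤ C) (hZ : 2 ≤ Z)
    (hp : ∀ x : ℝ, 2 ≤ x → ((H51.K1.PV S₀ x).card : ℝ) ≤ C * x / Real.log x)
    (hche : ∀ j, (∀ x : ℝ, C ≤ x → x / (C * Real.log x) ≤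
        ∑ v ∈ H51.K1.PV S₀ (C * x) \ H51.K1.PV S₀ x, gg m ζ L φ₀ Q (H j) v.1) ∧
      ∀ x : ℝ, 2 ≤ x → Real.log (Real.log x) - C ≤
        ∑ v ∈ H51.K1.PV S₀ x, gg m ζ L φ₀ Q (H j) v.1 / (nm v.1 : ℝ))
    (X : L → ℝ) (hX : ∀ o, 1 ≤ X o)
    (hmean : ∀ f : Pl K → (L → 𝓞 K) → ℝ, (∀ v, Per v.asIdeal (f v)) → (∀ v α, 0 ≤ f v α) →
      (∀ v α, f v α ≤ Nat.card A) → (∀ v α, ¬ Un α v → f v α = 0) → ∀ q : Finset (Pl K),
        (∀ v ∈ q, ¬ v.asIdeal ∣ 𝔪) → ∏ v ∈ q, (nm v : ℝ) ≤ Z ^ θ →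
          |∑ α ∈ Ph 𝔪 X, ∏ v ∈ q, f v α -
            ((Ph 𝔪 X).card : ℝ) * ∏ v ∈ q, (Mn v.asIdeal (f v) / (1 - be L v))| ≤
              ((Ph 𝔪 X).card : ℝ) * Z ^ (-η))
    (φ : {α : L → 𝓞 K // α ∈ Ph 𝔪 X} → Gal(QBar/K) →* A)
    (hφ : ∀ i σ, φ i σ = phf m ζ L φ₀ i.1 σ) :
    RS.Hyp C θ η 1 Z (H51.K1.dat Q S₀ H φ (fun i => H51.K1.UD (Dd L i.1))
      (fun j v => gg m ζ L φ₀ Q (H j) v.1) Z) := by
  have hv : ∀ v : H51.K1.Vx S₀, ((m : ℕ) : 𝓞 K) ∉ v.1.asIdeal := fun v h => v.2 (hm v.1 h)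
  have hne : ∀ i : {α : L → 𝓞 K // α ∈ Ph 𝔪 X}, ∀ o, i.1 o ≠ 0 := fun i => fhy_ne hX i.2
  obtain ⟨D, hD⟩ : ∃ D, D = H51.K1.dat Q S₀ H φ (fun i => H51.K1.UD (Dd L i.1))
    (fun j v => gg m ζ L φ₀ Q (H j) v.1) Z := ⟨_, rfl⟩
  have hr : ∀ i j v, D.r i j v = ff m ζ L φ₀ Q (H j) v.1 i.1 := by
    intro i j v
    rw [hD]
    exact fhy_r L H φ₀ Q S₀ (hne i) (φ i) (hφ i) j v
  have hg : ∀ j v, D.g j v = gg m ζ L φ₀ Q (H j) v.1 := by
    intro j v
    rw [hD]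
    rfl
  have hw : ∀ i, D.w i = 1 := by
    intro i
    rw [hD]
    rfl
  have hn : ∀ v, D.nm v = nm v.1 := by
    intro v
    rw [hD]
    rfl
  have hP : D.P = H51.K1.PV S₀ := by
    rw [hD]
    rfl
  have hr0 : ∀ i j v, 0 ≤ D.r i j v := by
    intro i j v
    rw [hr]
    exact (ff_bd L φ₀ Q (H j) v.1 i.1).1
  have hT0 : ∀ i j x y, 0 ≤ D.T i j x y := by
    intro i j x y
    exact Finset.sum_nonneg fun q _ => Finset.prod_nonneg fun v _ => hr0 i j v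
  have hκ : ∀ i j, D.κ i j = D.T i j (Z ^ (1 : ℝ)) (Z ^ (1 : ℝ)) / Z ^ (1 : ℝ) := by
    intro i j
    rw [hD]
    rfl
  have hZ0 : 0 < Z ^ (1 : ℝ) := Real.rpow_pos_of_pos (by linarith) _
  rw [← hD]
  refine ⟨?_, ?_, ?_, hr0, ?_, ?_, ?_, ?_, ?_, ?_, ?_, ?_, ?_⟩
  · intro x v
    rw [hP, hn]
    exact fhy_PV
  · intro v
    rw [hn]
    exact one_lt_nm v.1
  · intro x hx
    rw [hP]
    exact hp x hx
  · intro i j v
    rw [hr]
    exact (ff_bd L φ₀ Q (H j) v.1 i.1).2.1.trans hCA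
  · intro j v
    rw [hg]
    exact (gg_bd hζ hA L hL φ₀ Q (H j) v.1 (hv v)).1
  · intro j v
    rw [hg]
    exact (gg_bd hζ hA L hL φ₀ Q (H j) v.1 (hv v)).2.trans hCA
  · intro i
    rw [hw]
    exact zero_le_one
  · intro i j
    rw [hκ]
    exact div_nonneg (hT0 i j _ _) hZ0.le
  · intro j x hx
    rw [hP]
    refine ((hche j).1 x hx).trans (le_of_eq ?_)
    exact Finset.sum_congr rfl fun v _ => (hg j v).symm
  · intro j x hx
    rw [hP]
    refine ((hche j).2 x hx).trans (le_of_eq ?_)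
    refine Finset.sum_congr rfl fun v _ => ?_
    rw [hg, hn]
  · intro q hd hq
    -- the union of the sets of primes
    obtain ⟨e, he⟩ : ∃ e : H51.K1.Vx S₀ ↪ Pl K, e = Function.Embedding.subtype _ := ⟨_, rfl⟩
    obtain ⟨q', hq'⟩ : ∃ q' : Finset (Pl K), q' = Finset.univ.biUnion
      (fun j => (q j).map (Function.Embedding.subtype _)) := ⟨_, rfl⟩
    have hprod : ∀ h : Pl K → ℝ, ∏ v ∈ q', h v = ∏ j, ∏ v ∈ q j, h v.1 := by
      intro h
      rw [hq']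
      exact fhy_prod q hd h
    have hout : ∀ v ∈ q', v ∉ S₀ := by
      intro v h1
      rw [hq', Finset.mem_biUnion] at h1
      obtain ⟨j, -, h2⟩ := h1
      obtain ⟨w, -, h3⟩ := Finset.mem_map.1 h2
      rw [← h3]
      exact w.2
    -- the function
    obtain ⟨f, hf⟩ : ∃ f : Pl K → (L → 𝓞 K) → ℝ, f = fun v => if h : ∃ j, ∃ w ∈ q j, w.1 = v then
      ff m ζ L φ₀ Q (H h.choose) v else fun _ => 0 := ⟨_, rfl⟩
    have hfj : ∀ j, ∀ w ∈ q j, f w.1 = ff m ζ L φ₀ Q (H j) w.1 := by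
      intro j w hw1
      have h1 : ∃ j, ∃ w' ∈ q j, w'.1 = w.1 := ⟨j, w, hw1, rfl⟩
      have h2 : h1.choose = j := by
        obtain ⟨w', h3, h4⟩ := h1.choose_spec
        by_contra h5
        have h6 : w' = w := Subtype.ext h4
        rw [h6] at h3
        exact Finset.disjoint_left.1 (hd _ _ h5) h3 hw1
      rw [hf]
      dsimp only
      rw [dif_pos h1, h2]
    have hf0 : ∀ v, (¬ ∃ j, ∃ w ∈ q j, w.1 = v) → f v = fun _ => 0 := by
      intro v h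
      rw [hf]
      dsimp only
      rw [dif_neg h]
    have hcase : ∀ v, (∃ j, ∃ w : H51.K1.Vx S₀, w.1 = v ∧ f v = ff m ζ L φ₀ Q (H j) v) ∨
        f v = fun _ => 0 := by
      intro v
      by_cases h : ∃ j, ∃ w ∈ q j, w.1 = v
      · obtain ⟨j, w, h1, h2⟩ := h
        refine Or.inl ⟨j, w, h2, ?_⟩
        rw [← h2]
        exact hfj j w h1
      · exact Or.inr (hf0 v h)
    have key := hmean f
      (fun v => by
        rcases hcase v with ⟨j, w, h1, h2⟩ | h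
        · rw [h2, ← h1]
          exact per_ff hζ hA L hL φ₀ Q (H j) w.1 (hv w)
        · rw [h]
          exact fun _ _ _ => rfl)
      (fun v α => by
        rcases hcase v with ⟨j, w, h1, h2⟩ | h
        · rw [h2]
          exact (ff_bd L φ₀ Q (H j) v α).1
        · rw [h])
      (fun v α => by
        rcases hcase v with ⟨j, w, h1, h2⟩ | h
        · rw [h2]
          exact (ff_bd L φ₀ Q (H j) v α).2.1
        · rw [h]
          exact Nat.cast_nonneg _)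
      (fun v α hu => by
        rcases hcase v with ⟨j, w, h1, h2⟩ | h
        · rw [h2]
          exact (ff_bd L φ₀ Q (H j) v α).2.2 hu
        · rw [h])
      q' (fun v h1 h2 => hout v h1 ((h𝔪 v).1 h2)) (by
        rw [hprod]
        refine le_trans (le_of_eq ?_) hq
        refine Finset.prod_congr rfl fun j _ => ?_
        unfold RS.Dat.NP
        refine Finset.prod_congr rfl fun v _ => ?_
        rw [hn])
    have e1 : ∑ i, D.w i * ∏ j, D.R i j (q j) = ∑ α ∈ Ph 𝔪 X, ∏ v ∈ q', f v α := by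
      rw [Finset.sum_subtype (Ph 𝔪 X) (p := fun α => α ∈ Ph 𝔪 X) (fun _ => Iff.rfl)]
      refine Finset.sum_congr rfl fun i _ => ?_
      rw [hw, one_mul, hprod]
      refine Finset.prod_congr rfl fun j _ => ?_
      unfold RS.Dat.R
      refine Finset.prod_congr rfl fun v hv1 => ?_
      rw [hr, hfj j v hv1]
    have e2 : D.W = ((Ph 𝔪 X).card : ℝ) := by
      have h1 := Finset.sum_subtype (Ph 𝔪 X) (p := fun α => α ∈ Ph 𝔪 X) (fun _ => Iff.rfl)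
        (fun _ => (1 : ℝ)) (F := inferInstance)
      rw [Finset.sum_const, nsmul_eq_mul, mul_one] at h1
      rw [h1]
      unfold RS.Dat.W
      exact Finset.sum_congr rfl fun i _ => hw i
    have e3 : ∏ j, D.G j (q j) = ∏ v ∈ q', (Mn v.asIdeal (f v) / (1 - be L v)) := by
      rw [hprod]
      refine Finset.prod_congr rfl fun j _ => ?_
      unfold RS.Dat.G
      refine Finset.prod_congr rfl fun v hv1 => ?_
      rw [hg, hfj j v hv1]
      rfl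
    rw [e1, e2, e3]
    exact key
  · intro i j
    rw [hκ]
    have h1 := hT0 i j (Z ^ (1 : ℝ)) (Z ^ (1 : ℝ))
    have h2 : C * (D.T i j (Z ^ (1 : ℝ)) (Z ^ (1 : ℝ)) / Z ^ (1 : ℝ)) * Z ^ (1 : ℝ) =
        C * D.T i j (Z ^ (1 : ℝ)) (Z ^ (1 : ℝ)) := by
      field_simp
    rw [h2]
    nlinarith

end Pool.Agent.H36.FA
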