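import Pool.Agent.H36.FA.Def
import Pool.Agent.H12.KF.Tam

/-!
# [H36 FA TAU] The symbol of a uniformiser is not trivial on inertia

`v` tame, `p` prime, `π` with `ord v π = 1`, `B^p = π`. If `kq π τ = 0` for all `τ` in inertia, then `B` is fixed by inertia at `P = Q.P v`; `K(B)/K` is then
unramified at `P ∩ K(B) = w` (see `unr`-type lemmas, or `H38.TD`, `H57.SL` `IT` / `Inr`), but `ord_w (B)^p = e ord_v π = e` with `e = 1`: `p ∣ 1`. (helper12's module
H12/KF/Tam proves the same statement: it is used here.)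
-/

set_option autoImplicit false

open scoped NumberField Classical
open IsDedekindDomain NumberField

noncomputable section

namespace Pool.Agent.H36.FA

open H63.MA H38.BB H38.BG H77.PC3 H51.SN H57.SL H36.QA H1.LS4 H38.ML

variable {K : IntermediateField ℚ QBar} [NumberField K]

theorem tau_ex {p : ℕ} {ζ : K} (hp : p.Prime) (hζ : IsPrimitiveRoot ζ p) (Q : DP K QBar) (v : Pl K)
    (hv : ((p : ℕ) : 𝓞 K) ∉ v.asIdeal) (π : Kˣ) (hπ : ord v π = 1) :
    ∃ τ ∈ (Q.P v).inertia Gal(QBar/K), kq p ζ ((π : K) : QBar) τ ≠ 0 := by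
  obtain ⟨τ, hτ, h1⟩ := H12.KF.tam hp hζ Q v hv (π := π) hπ
  refine ⟨τ, hτ, fun h0 => ?_⟩
  haveI : Fact p.Prime := ⟨hp⟩
  have h2 : kq p ζ (algebraMap K QBar (π : K)) τ = 0 := h0
  rw [h2] at h1
  exact zero_ne_one h1

end Pool.Agent.H36.FA
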