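import Pool.Agent.H36.FA.Phr
import Pool.Agent.H36.FA.Tau
import Pool.Agent.H36.FA.Ndv
import Pool.Agent.H36.FA.Anu
import Pool.Agent.H51.K1.Tam

/-!
# [H36 FA INJ] Different tuples give different homomorphisms

Let `v` contain `α o` (so `v ∤ 𝔪` as `α o ≡ 1`; `v` tame and `φ₀` trivial on inertia by `h1`): `φ = tx o` on inertia (`pha_ram`), nontrivial by `tau_ex` (`orderOf o` prime, `ord v (uf v) = 1`:
`H51.K1.ord_uf`). So by `pha_unr` `v` contains some `α' o'`, and `o^(kq_o τ) = o'^(kq_o' τ)` on inertia by `pha_ram` for `α'`, with `kq_o τ ≠ 0` for some `τ`: the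
orders are equal (an element of order `p` and of order `p'`) and then `o = o'` (the same symbol `kq p (uf v) τ`, invertible modulo `p`). So `α o` and `α' o` have the same
primes (for every `o`, by symmetry), both are squarefree (`¬ Bad`): `α o = α' o u`, `u` a unit (`assoc`), `1/2 < w u < 2` for all `w` (`mem_Ax`), `u ≡ 1` modulo `𝔪` (`α o ≡ 1`, `α' o ≡ 1`: `u - 1 ≡ α' o (u - 1) = α o - α' o ≡ 0`): `u = 1` by
`hu`.
-/

set_option autoImplicit false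

open scoped NumberField Classical
open IsDedekindDomain NumberField

noncomputable section

namespace Pool.Agent.H36.FA

open H63.MA H38.BB H38.BG H77.PC3 H51.SN H57.SL H36.QA H1.LS4 H38.ML

variable {K : IntermediateField ℚ QBar} [NumberField K] {A : Type} [CommGroup A] [Finite A]

private theorem not_dvd {K : Type} [Field K] [NumberField K] {L : Type} [Fintype L] {𝔪 : Ideal (𝓞 K)}
    {X : L → ℝ} {α : L → 𝓞 K} (hα : α ∈ Ph 𝔪 X) (o : L) (v : Pl K) (hv : α o ∈ v.asIdeal) :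
    ¬ v.asIdeal ∣ 𝔪 := by
  intro hd
  have h1 : α o - 1 ∈ 𝔪 := (Finset.mem_filter.1 hα).2.1 o
  have h2 : α o - 1 ∈ v.asIdeal := Ideal.dvd_iff_le.1 hd h1
  have h3 : (1 : 𝓞 K) ∈ v.asIdeal := by
    have h4 := v.asIdeal.sub_mem hv h2
    rwa [sub_sub_cancel] at h4
  exact v.isPrime.ne_top ((Ideal.eq_top_iff_one _).2 h3)

private theorem box {K : Type} [Field K] [NumberField K] {L : Type} [Fintype L] {𝔪 : Ideal (𝓞 K)}
    {X : L → ℝ} {α : L → 𝓞 K} (hα : α ∈ Ph 𝔪 X) (o : L) : ∀ w : InfinitePlace K,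
    X o ^ (1 / (Module.finrank ℚ K : ℝ)) < w (α o : K) ∧
      w (α o : K) ≤ 2 * X o ^ (1 / (Module.finrank ℚ K : ℝ)) := by
  have h1 : α ∈ BX K X := (Finset.mem_filter.1 hα).1
  unfold BX at h1
  rw [Fintype.mem_piFinset] at h1
  exact (mem_Ax K).1 (h1 o)

private theorem ne0 {K : Type} [Field K] [NumberField K] {L : Type} [Fintype L] {𝔪 : Ideal (𝓞 K)}
    {X : L → ℝ} (hX : ∀ o, 0 < X o) {α : L → 𝓞 K} (hα : α ∈ Ph 𝔪 X) (o : L) : α o ≠ 0 := by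
  intro h0
  obtain ⟨w⟩ : Nonempty (InfinitePlace K) := inferInstance
  have h1 := (box hα o w).1
  have h2 : w ((α o : 𝓞 K) : K) = 0 := by
    rw [h0]
    simp
  rw [h2] at h1
  exact absurd h1 (not_lt.2 (Real.rpow_nonneg (hX o).le _))

private theorem nbad {K : Type} [Field K] [NumberField K] {L : Type} [Fintype L] {𝔪 : Ideal (𝓞 K)}
    {X : L → ℝ} {α : L → 𝓞 K} (hα : α ∈ Ph 𝔪 X) (v : Pl K) : ¬ Bad α v :=
  (Finset.mem_filter.1 hα).2.2 v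

private theorem sub {m : ℕ} {ζ : K} (hζ : IsPrimitiveRoot ζ m) (hA : Nat.card A ∣ m) (L : Set A)
    (hL : ∀ o ∈ L, (orderOf o).Prime) (φ₀ : Gal(QBar/K) →* A) (Q : DP K QBar) (𝔪 : Ideal (𝓞 K))
    (h1 : ∀ v : Pl K, ¬ v.asIdeal ∣ 𝔪 → ((m : ℕ) : 𝓞 K) ∉ v.asIdeal ∧
      ∀ τ ∈ (Q.P v).inertia Gal(QBar/K), φ₀ τ = 1)
    (X : L → ℝ) (hX : ∀ o, 0 < X o) (α α' : L → 𝓞 K) (hα : α ∈ Ph 𝔪 X) (hα' : α' ∈ Ph 𝔪 X)
    (h : ∀ σ, phf m ζ L φ₀ α σ = phf m ζ L φ₀ α' σ) (o : L) (v : Pl K) (hv : α o ∈ v.asIdeal) :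
    α' o ∈ v.asIdeal := by
  obtain ⟨hm, h₀⟩ := h1 v (not_dvd hα o v hv)
  have hr := pha_ram hζ hA L hL φ₀ α (ne0 hX hα) Q v hm h₀ o hv (nbad hα v)
  by_cases hu : Un α' v
  · exfalso
    obtain ⟨τ, hτ, h2⟩ := H51.K1.tx_ex Q hζ hA v hm (o : A) (hL o o.2)
    have h3 := pha_unr hζ hA L hL φ₀ α' (ne0 hX hα') Q v hm h₀ hu τ hτ
    rw [← h τ, hr τ hτ, h2] at h3
    have h4 := hL o o.2
    rw [h3, orderOf_one] at h4
    exact Nat.not_prime_one h4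
  · unfold Un at hu
    push Not at hu
    obtain ⟨o', ho'⟩ := hu
    have hr' := pha_ram hζ hA L hL φ₀ α' (ne0 hX hα') Q v hm h₀ o' ho' (nbad hα' v)
    have h5 : (o : A) = o' := H51.K1.tx_inj Q hζ hA v hm o o' (hL o o.2) (hL o' o'.2) fun τ hτ => by
      rw [← hr τ hτ, ← hr' τ hτ, h τ]
    have h6 : o = o' := Subtype.ext h5
    rw [h6]
    exact ho'

theorem inj {m : ℕ} {ζ : K} (hζ : IsPrimitiveRoot ζ m) (hA : Nat.card A ∣ m) (L : Set A)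
    (hL : ∀ o ∈ L, (orderOf o).Prime) (φ₀ : Gal(QBar/K) →* A) (Q : DP K QBar) (𝔪 : Ideal (𝓞 K))
    (h1 : ∀ v : Pl K, ¬ v.asIdeal ∣ 𝔪 → ((m : ℕ) : 𝓞 K) ∉ v.asIdeal ∧
      ∀ τ ∈ (Q.P v).inertia Gal(QBar/K), φ₀ τ = 1)
    (hu : ∀ u : (𝓞 K)ˣ, (∀ w : InfinitePlace K, w ((u : 𝓞 K) : K) < 2) →
      ((u : 𝓞 K) - 1) ∈ 𝔪 → u = 1)
    (X : L → ℝ) (hX : ∀ o, 0 < X o) (α α' : L → 𝓞 K) (hα : α ∈ Ph 𝔪 X) (hα' : α' ∈ Ph 𝔪 X)
    (h : ∀ σ, phf m ζ L φ₀ α σ = phf m ζ L φ₀ α' σ) : α = α' := by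
  funext o
  have h2 : ∀ v : Pl K, α o ∈ v.asIdeal ↔ α' o ∈ v.asIdeal := fun v =>
    ⟨sub hζ hA L hL φ₀ Q 𝔪 h1 X hX α α' hα hα' h o v,
      sub hζ hA L hL φ₀ Q 𝔪 h1 X hX α' α hα' hα (fun σ => (h σ).symm) o v⟩
  obtain ⟨u, hu1⟩ := assoc (ne0 hX hα o) (ne0 hX hα' o)
    (fun v hv => nbad hα v (Or.inl ⟨o, hv⟩)) (fun v hv => nbad hα' v (Or.inl ⟨o, hv⟩)) h2
  have h3 : ∀ w : InfinitePlace K, w ((u : 𝓞 K) : K) < 2 := by
    intro w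
    have h4 := (box hα o w).2
    have h5 := (box hα' o w).1
    have h6 : w (α o : K) = w (α' o : K) * w ((u : 𝓞 K) : K) := by
      rw [hu1, ← map_mul]
      rfl
    have h7 : 0 < X o ^ (1 / (Module.finrank ℚ K : ℝ)) := Real.rpow_pos_of_pos (hX o) _
    rw [h6] at h4
    nlinarith
  have h8 : ((u : 𝓞 K) - 1) ∈ 𝔪 := by
    have h9 : α o - 1 ∈ 𝔪 := (Finset.mem_filter.1 hα).2.1 o
    have h10 : α' o - 1 ∈ 𝔪 := (Finset.mem_filter.1 hα').2.1 o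
    have h11 : ((u : 𝓞 K) - 1) = (α o - 1) - (α' o - 1) - ((u : 𝓞 K) - 1) * (α' o - 1) := by
      rw [hu1]
      ring
    rw [h11]
    exact 𝔪.sub_mem (𝔪.sub_mem h9 h10) (𝔪.mul_mem_left _ h10)
  rw [hu1, hu u h3 h8, Units.val_one, mul_one]

end Pool.Agent.H36.FA
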