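import Pool.Agent.H36.FA.Def
import Pool.Agent.H38.ML.UnrFin
import Pool.Agent.H38.ML.RootInert
import Pool.Agent.H38.ML.Factor

/-!
# [H36 FA URF] A homomorphism of finite type is unramified outside a finite set

`FT φ₀`: `φ₀` is trivial on the elements fixing a finite extension `F/K` (`H51.SN.exists_act` (Plc.lean) or the definition of `FT`); `F/K` is unramified outside a finite set of places; at such places inertia at
`Q.P v` acts trivially on `F` (`inr_iff`-type lemma in H57/SL, `IT`), so `φ₀ τ = 1`. Several chapters have such a statement (search for `FT` and `inertia`, e.g. H51/SN, H12/KF, H63): use it.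
-/

set_option autoImplicit false

open scoped NumberField Classical
open IsDedekindDomain NumberField

noncomputable section

namespace Pool.Agent.H36.FA

open H63.MA H38.BB H38.BG H77.PC3 H51.SN H57.SL H36.QA H1.LS4 H38.ML

variable {K : IntermediateField ℚ QBar} [NumberField K] {A : Type} [CommGroup A] [Finite A]

theorem unr_fin (φ₀ : Gal(QBar/K) →* A) (h₀ : FT φ₀) (Q : DP K QBar) : ∃ S : Finset (Pl K),
    ∀ v, v ∉ S → ∀ τ ∈ (Q.P v).inertia Gal(QBar/K), φ₀ τ = 1 := by
  haveI : IsAlgClosure K QBar := inferInstance
  obtain ⟨M, hfd, hgal, e, he, h⟩ := H38.ML.factor φ₀ h₀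
  haveI : NumberField M := NumberField.of_module_finite K M
  have hfin := H38.ML.finite_not_unr K M
  have hinj : Function.Injective (fun v : Pl K => v.asIdeal) := by
    intro v w hvw
    exact HeightOneSpectrum.ext hvw
  refine ⟨(hfin.preimage hinj.injOn).toFinset, fun v hv τ hτ => ?_⟩
  haveI := Q.prime v
  have hun' : H38.ML.Unr K M ((Q.P v).under (𝓞 K)) := by
    by_contra hne
    refine hv ((Set.Finite.mem_toFinset _).2 ⟨v.isPrime, v.ne_bot, fun hun => hne ?_⟩)
    rw [Q.under]
    exact hun
  have h1 := H38.ML.res_eq_one M (Q.P v) hun' τ hτ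
  rw [← h, h1, map_one]

end Pool.Agent.H36.FA
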