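import Pool.Agent.H36.FA.Fhy
import Pool.Agent.H36.FA.Inj
import Pool.Agent.H36.FA.Dgn
import Pool.Agent.H36.FA.Urf

/-!
# [H36 FA FIN] The output `FAM` of the chapter

Given the data of `FAM` (H51/K1/Def.lean): make `A` a `CommGroup`. `S₂` = `S₁ ∪ S' ∪` places over `m` `∪` `unr_fin`; `V` from `dec_gen` (disjoint from `S₂`); `N` from `unit_mod`;
`S₀ = S₂ ∪ V ∪` places over `N`; `𝔪 = span {N} * ∏_{v ∈ S₀} v` (so `v ∣ 𝔪` iff `v ∈ S₀`). `θ, η, c, Z0` from `mea` with `B = card A`; `C` = the sum of `che_p`, `gg_che` (for all `j`), `card A`, `2^n`, `2`.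
Family: `ι = {α // α ∈ Ph 𝔪 X'}`, `X' = X` on `L`; `φ` from `pha` (choice), `D α = Dd L α`; `g j v = gg (H j) v`. Injective: `inj`; `c ∏ᶠ_{o ∈ L} X o ≤ card`: `mea`,
`finprod` = product over `L`; norms: `dd_norm` (`C ≥ 2^n`); `TyA`: `fty`; `Hyp`: `fhy` (the group structure of `FAM` is `[Group A]` with commutativity: `CommGroup.mk`).
-/

set_option autoImplicit false

open scoped NumberField Classical
open IsDedekindDomain NumberField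

noncomputable section

namespace Pool.Agent.H36.FA

open H63.MA H38.BB H38.BG H77.PC3 H51.SN H57.SL H36.QA H1.LS4 H38.ML

private theorem dvd_mod {K : Type} [Field K] [NumberField K] {N : 𝓞 K} (S : Finset (Pl K))
    (hN : ∀ v : Pl K, N ∈ v.asIdeal → v ∈ S) (v : Pl K) :
    v.asIdeal ∣ Ideal.span {N} * ∏ w ∈ S, w.asIdeal ↔ v ∈ S := by
  constructor
  · intro h
    rcases v.prime.dvd_or_dvd h with h1 | h1
    · rw [Ideal.dvd_span_singleton] at h1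
      exact hN v h1
    · obtain ⟨w, hw, h2⟩ := (v.prime.dvd_finsetProd_iff _).1 h1
      have h3 : w.asIdeal ≤ v.asIdeal := Ideal.dvd_iff_le.1 h2
      have h4 : w.asIdeal = v.asIdeal := w.isMaximal.eq_of_le v.isPrime.ne_top h3
      have h5 : w = v := HeightOneSpectrum.ext h4
      rw [← h5]
      exact hw
  · intro h
    exact (Finset.dvd_prod_of_mem (fun w : Pl K => w.asIdeal) h).mul_left _

private theorem mod_ne {K : Type} [Field K] [NumberField K] {N : 𝓞 K} (S : Finset (Pl K)) (hN : N ≠ 0) :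
    Ideal.span {N} * ∏ w ∈ S, w.asIdeal ≠ ⊥ := by
  have h1 : Ideal.span {N} ≠ (⊥ : Ideal (𝓞 K)) := by
    rw [Ne, Ideal.span_singleton_eq_bot]
    exact hN
  have h2 : ∏ w ∈ S, w.asIdeal ≠ (0 : Ideal (𝓞 K)) := Finset.prod_ne_zero_iff.2 fun w _ => w.ne_bot
  exact mul_ne_zero h1 h2

private theorem ax_ne {K : Type} [Field K] [NumberField K] {X : ℝ} (hX : 1 ≤ X) {α : 𝓞 K}
    (h : α ∈ Ax K X) : α ≠ 0 := by
  rintro rfl
  rw [mem_Ax] at h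
  obtain ⟨w⟩ : Nonempty (InfinitePlace K) := inferInstance
  have h1 := (h w).1
  have h2 : 0 < X ^ (1 / (Module.finrank ℚ K : ℝ)) := Real.rpow_pos_of_pos (by linarith) _
  have h3 : w (((0 : 𝓞 K) : K)) = 0 := by
    have h4 : ((0 : 𝓞 K) : K) = 0 := map_zero (algebraMap (𝓞 K) K)
    rw [h4, map_zero]
  rw [h3] at h1
  linarith

private theorem ph_ax {K : Type} [Field K] [NumberField K] {L : Type} [Fintype L] {𝔪 : Ideal (𝓞 K)}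
    {X : L → ℝ} {α : L → 𝓞 K} (h : α ∈ Ph 𝔪 X) (o : L) : α o ∈ Ax K (X o) := by
  unfold Ph at h
  rw [Finset.mem_filter] at h
  have h2 := h.1
  unfold BX at h2
  rw [Fintype.mem_piFinset] at h2
  exact h2 o

private theorem famC (K : IntermediateField ℚ QBar) [NumberField K] (hK : NumberField.IsTotallyComplex K)
    (m : ℕ) (ζ : K) (hζ : IsPrimitiveRoot ζ m) (A : Type) [CommGroup A] [Finite A] (hA : Nat.card A ∣ m)
    (hm : 0 < m) (L : Set A) (hL : ∀ o ∈ L, (orderOf o).Prime) (J : Type) [Fintype J]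
    (H : J → Subgroup A) (Q : DP K QBar) (φ₀ : Gal(QBar/K) →* A) (h₀ : FT φ₀)
    (hs : Function.Surjective φ₀) (S₁ S' : Finset (Pl K))
    (hmS : ∀ v ∈ S', ((m : ℕ) : 𝓞 K) ∉ v.asIdeal)
    (hd : ∀ v ∈ S', ∀ σ ∈ dec (K := K) (Q.P v), φ₀ σ = 1) :
    ∃ (S₀ : Finset (Pl K)) (C θ η c Z0 : ℝ), S₁ ⊆ S₀ ∧ 2 ≤ C ∧ 0 < θ ∧ 0 < η ∧ 0 < c ∧
      ∀ Z : ℝ, Z0 ≤ Z → ∀ X : A → ℝ, (∀ o, Z ≤ X o) → (∀ o, X o ≤ Z ^ 2) →
        ∃ (ι : Type) (_ : Fintype ι) (φ : ι → Gal(QBar/K) →* A) (D : ι → A → Finset (Pl K))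
          (g : J → H51.K1.Vx S₀ → ℝ),
          Function.Injective φ ∧ c * ∏ᶠ o ∈ L, X o ≤ (Fintype.card ι : ℝ) ∧
          (∀ i, H51.K1.TyA Q m ζ S₀ S' L (D i) (φ i)) ∧
          (∀ i, ∀ o ∈ L, X o < H51.K1.nN (D i o) ∧ H51.K1.nN (D i o) ≤ C * X o) ∧
          RS.Hyp C θ η 1 Z (H51.K1.dat Q S₀ H φ (fun i => H51.K1.UD (D i)) g Z) := by
  have hm0 : ((m : ℕ) : 𝓞 K) ≠ 0 := Nat.cast_ne_zero.2 hm.ne'
  obtain ⟨S3, hS3⟩ := unr_fin φ₀ h₀ Q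
  obtain ⟨V, hVd, hVg⟩ := dec_gen φ₀ h₀ hs Q (S₁ ∪ S' ∪ dv ((m : ℕ) : 𝓞 K) ∪ S3)
  obtain ⟨N, hN, hu⟩ := unit_mod K
  have hN0 : ((N : ℕ) : 𝓞 K) ≠ 0 := Nat.cast_ne_zero.2 hN.ne'
  obtain ⟨S₀, hS₀⟩ : ∃ S₀ : Finset (Pl K), S₀ = S₁ ∪ S' ∪ dv ((m : ℕ) : 𝓞 K) ∪ S3 ∪ V ∪ dv ((N : ℕ) : 𝓞 K) :=
    ⟨_, rfl⟩
  have hS₁ : S₁ ⊆ S₀ := by
    intro v hv
    rw [hS₀]
    simp only [Finset.mem_union]
    tauto
  have hS'0 : S' ⊆ S₀ := by
    intro v hv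
    rw [hS₀]
    simp only [Finset.mem_union]
    tauto
  have hS30 : S3 ⊆ S₀ := by
    intro v hv
    rw [hS₀]
    simp only [Finset.mem_union]
    tauto
  have hV0 : V ⊆ S₀ := by
    intro v hv
    rw [hS₀]
    simp only [Finset.mem_union]
    tauto
  have hmv : ∀ v : Pl K, ((m : ℕ) : 𝓞 K) ∈ v.asIdeal → v ∈ S₀ := by
    intro v hv
    have h1 := (dv_mem hm0 v).2 hv
    rw [hS₀]
    simp only [Finset.mem_union]
    tauto
  have hNv : ∀ v : Pl K, ((N : ℕ) : 𝓞 K) ∈ v.asIdeal → v ∈ S₀ := by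
    intro v hv
    have h1 := (dv_mem hN0 v).2 hv
    rw [hS₀]
    simp only [Finset.mem_union]
    tauto
  have hmV : ∀ v ∈ V, ((m : ℕ) : 𝓞 K) ∉ v.asIdeal := by
    intro v hv h1
    refine Finset.disjoint_left.1 hVd hv ?_
    have h2 := (dv_mem hm0 v).2 h1
    simp only [Finset.mem_union]
    tauto
  have hun : ∀ v, v ∉ S₀ → ∀ τ ∈ (Q.P v).inertia Gal(QBar/K), φ₀ τ = 1 := fun v hv =>
    hS3 v fun h => hv (hS30 h)
  obtain ⟨𝔪, h𝔪⟩ : ∃ 𝔪 : Ideal (𝓞 K), 𝔪 = Ideal.span {((N : ℕ) : 𝓞 K)} * ∏ w ∈ S₀, w.asIdeal := ⟨_, rfl⟩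
  have hdiv : ∀ v : Pl K, v.asIdeal ∣ 𝔪 ↔ v ∈ S₀ := by
    intro v
    rw [h𝔪]
    exact dvd_mod S₀ hNv v
  have hne : 𝔪 ≠ ⊥ := by
    rw [h𝔪]
    exact mod_ne S₀ hN0
  have hle : ∀ x ∈ 𝔪, x ∈ Ideal.span {((N : ℕ) : 𝓞 K)} := by
    intro x hx
    rw [h𝔪] at hx
    exact Ideal.mul_le_left hx
  have hcA : (1 : ℝ) ≤ (Nat.card A : ℝ) := by
    exact_mod_cast Nat.card_pos
  obtain ⟨θ, η, c, Z0, hθ, hη, hc, hZ0, hmea⟩ := mea K hK L 𝔪 hne (Nat.card A) hcA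
  obtain ⟨Cp, hCp2, hCp⟩ := che_p K S₀
  have hgg := fun j => gg_che hζ hA L hL φ₀ h₀ hs Q (H j) S₀ hmv
  choose Cg hCg2 hCg using hgg
  obtain ⟨C, hC⟩ : ∃ C : ℝ, C = Cp + Nat.card A + 2 ^ Module.finrank ℚ K + ∑ j, Cg j := ⟨_, rfl⟩
  have hs0 : 0 ≤ ∑ j, Cg j := Finset.sum_nonneg fun j _ => by linarith [hCg2 j]
  have hp0 : (0 : ℝ) ≤ 2 ^ Module.finrank ℚ K := by positivity
  have hC2 : 2 ≤ C := by linarith
  have hCA : (Nat.card A : ℝ) ≤ C := by linarith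
  have hCn : (2 : ℝ) ^ Module.finrank ℚ K ≤ C := by linarith
  have hCCp : Cp ≤ C := by linarith
  have hCCg : ∀ j, Cg j ≤ C := by
    intro j
    have h1 : Cg j ≤ ∑ j, Cg j :=
      Finset.single_le_sum (f := Cg) (fun i _ => by linarith [hCg2 i]) (Finset.mem_univ j)
    linarith
  have hp : ∀ x : ℝ, 2 ≤ x → ((H51.K1.PV S₀ x).card : ℝ) ≤ C * x / Real.log x := by
    intro x hx
    refine (hCp x hx).trans ?_
    have h1 : 0 < Real.log x := Real.log_pos (by linarith)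
    exact div_le_div_of_nonneg_right (mul_le_mul_of_nonneg_right hCCp (by linarith)) h1.le
  have hche := fun j => hCg j C (hCCg j)
  refine ⟨S₀, C, θ, η, c, Z0, hS₁, hC2, hθ, hη, hc, fun Z hZ X hX1 hX2 => ?_⟩
  have hZ2 : 2 ≤ Z := hZ0.trans hZ
  obtain ⟨X', hX'⟩ : ∃ X' : L → ℝ, X' = fun o : L => X (o : A) := ⟨_, rfl⟩
  have hXo : ∀ o : L, X' o = X o := fun o => by rw [hX']
  have hX'1 : ∀ o, 1 ≤ X' o := by
    intro o
    rw [hXo]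
    linarith [hX1 o]
  obtain ⟨hcard, hmean⟩ := hmea Z hZ X' (fun o => by rw [hXo]; exact hX1 o)
    (fun o => by rw [hXo]; exact hX2 o)
  have hne0 : ∀ i : {α : L → 𝓞 K // α ∈ Ph 𝔪 X'}, ∀ o, i.1 o ≠ 0 := by
    intro i o
    exact ax_ne (hX'1 o) (ph_ax i.2 o)
  choose φ hφ hft using fun i : {α : L → 𝓞 K // α ∈ Ph 𝔪 X'} =>
    pha hζ hA hm L hL φ₀ h₀ i.1 (hne0 i)
  refine ⟨{α : L → 𝓞 K // α ∈ Ph 𝔪 X'}, inferInstance, φ, fun i => Dd L i.1,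
    fun j v => gg m ζ L φ₀ Q (H j) v.1, ?_, ?_, ?_, ?_, ?_⟩
  · intro i j hij
    refine Subtype.ext (inj hζ hA L hL φ₀ Q 𝔪 ?_ ?_ X' (fun o => by linarith [hX'1 o]) i.1 j.1 i.2 j.2
      fun σ => ?_)
    · intro v hv
      have h1 : v ∉ S₀ := fun h => hv ((hdiv v).2 h)
      exact ⟨fun h => h1 (hmv v h), hun v h1⟩
    · intro u hu1 hu2
      exact hu u hu1 (hle _ hu2)
    · rw [← hφ, ← hφ, hij]
  · rw [Fintype.card_coe]
    have h7 : ∏ᶠ o ∈ L, X o = ∏ o : L, X' o := by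
      rw [← finprod_set_coe_eq_finprod_mem, finprod_eq_prod_of_fintype]
      exact Finset.prod_congr rfl fun o _ => (hXo o).symm
    rw [h7]
    exact hcard
  · intro i
    exact fty hζ hA L hL φ₀ Q S₀ S' V 𝔪 hdiv hmv hun hS'0 hmS hd hV0 hmV hVg X' hX'1 i.1 i.2 (φ i)
      (hφ i) (hft i)
  · intro i o ho
    have h1 := dd_norm hK L 𝔪 X' hX'1 i.1 i.2 ⟨o, ho⟩
    rw [hXo] at h1
    refine ⟨h1.1, h1.2.trans ?_⟩
    have h2 : 0 ≤ X o := by linarith [hX1 o]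
    exact mul_le_mul_of_nonneg_right hCn h2
  · exact fhy hζ hA L hL H φ₀ Q S₀ 𝔪 hdiv hmv C θ η Z hC2 hCA hZ2 hp hche X' hX'1 hmean φ hφ

theorem fam : H51.K1.FAM := by
  intro K _ hK m ζ hζ A _ _ hcomm hA hm L hL J _ H Q φ₀ h₀ hs S₁ S' hmS hd
  exact @famC K _ hK m ζ hζ A (CommGroup.mk hcomm) _ hA hm L hL J _ H Q φ₀ h₀ hs S₁ S' hmS hd

end Pool.Agent.H36.FA
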