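import Pool.Agent.H36.FA.Def
import Pool.Agent.H51.SN.Unr

/-!
# [H36 FA KQF] The Kummer symbol at tame places

`P = Q.P v`, `q = nm v`, `p ∉ v`, `ζ ∈ K` of order `p`. The powers `ζ^i`, `0 ≤ i < p`, are different modulo `P` (`∏_{i ≥ 1} (1 - ζ^i) = p ∉ P`; lemma
`H38.ML.pow_eq_one_of_inertia` or its proof), and `p ∣ q - 1`.
* `kqe`: `B^p = α`, `B : 𝓞 QBar`, `fr B ≡ B^q` (`fr_spec`), `B^q = B α^((q-1)/p)`, `B ∉ P`, `fr B = ζ^k B` (`kq_is`): `ζ^k ≡ α^((q-1)/p)` modulo `P`.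
* `kqt`: `B^p = α ≡ 1`, so `B ≡ ζ^i` modulo `P` for some `i` (`X^p - 1 = ∏ (X - ζ^i)`); `σ B = ζ^k B` (`kq_is`), and `σ B ≡ σ ζ^i = ζ^i` (`σ ∈ dec`): `ζ^k ≡ 1`, `k = 0`.
* `kqf`: from `kqe` for `α` and `α'`.
-/

set_option autoImplicit false

open scoped NumberField Classical
open IsDedekindDomain NumberField

noncomputable section

namespace Pool.Agent.H36.FA

open H63.MA H38.BB H38.BG H77.PC3 H51.SN H57.SL H36.QA H1.LS4 H38.ML

variable {K : IntermediateField ℚ QBar} [NumberField K] {p : ℕ} {ζ : K}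

private theorem z_prim0 (hζ : IsPrimitiveRoot ζ p) (z : 𝓞 K) (hz : (z : K) = ζ) :
    IsPrimitiveRoot z p := by
  apply IsPrimitiveRoot.of_map_of_injective (f := algebraMap (𝓞 K) K)
  · change IsPrimitiveRoot (z : K) p
    rw [hz]
    exact hζ
  · exact RingOfIntegers.coe_injective

/-- a primitive root stays primitive modulo a prime which does not contain `p` -/
private theorem prim_mod (R : Type) [CommRing R] [IsDomain R] (f : 𝓞 K →+* R) {z : 𝓞 K}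
    (hz : IsPrimitiveRoot z p) (hp : p.Prime) (hpR : f ((p : ℕ) : 𝓞 K) ≠ 0) :
    IsPrimitiveRoot (f z) p := by
  have : NeZero (p : R) := ⟨by rwa [map_natCast] at hpR⟩
  rw [← Polynomial.isRoot_cyclotomic_iff]
  have h1 : (Polynomial.cyclotomic p (𝓞 K)).IsRoot z := hz.isRoot_cyclotomic hp.pos
  have h2 := h1.map (f := f)
  rwa [Polynomial.map_cyclotomic] at h2

private theorem ex_z (hp : p.Prime) (hζ : IsPrimitiveRoot ζ p) : ∃ z : 𝓞 K, (z : K) = ζ :=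
  ⟨⟨ζ, (IsIntegral.of_pow hp.pos (by rw [hζ.pow_eq_one]; exact isIntegral_one) : IsIntegral ℤ ζ)⟩, rfl⟩

private theorem alg_P (Q : DP K QBar) (v : Pl K) (x : 𝓞 K) :
    algebraMap (𝓞 K) (𝓞 QBar) x ∈ Q.P v ↔ x ∈ v.asIdeal := by
  rw [← Q.under v]
  exact Iff.rfl

private theorem int_root (hp : p.Prime) (α : 𝓞 K) {B : QBar} (hB : B ^ p = ((α : K) : QBar)) :
    ∃ C : 𝓞 QBar, (C : QBar) = B ∧ C ^ p = algebraMap (𝓞 K) (𝓞 QBar) α := by
  have h1 : IsIntegral ℤ (((α : K)) : QBar) := by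
    have h2 : IsIntegral ℤ (α : K) := RingOfIntegers.isIntegral_coe α
    exact h2.map (algebraMap K QBar).toIntAlgHom
  have h3 : IsIntegral ℤ B := IsIntegral.of_pow hp.pos (by rw [hB]; exact h1)
  refine ⟨⟨B, h3⟩, rfl, ?_⟩
  apply RingOfIntegers.coe_injective
  change B ^ p = (((α : K)) : QBar)
  exact hB

/-- the symbol for an integral root -/
private theorem kq_int (hp : p.Prime) (hζ : IsPrimitiveRoot ζ p) (α : 𝓞 K) (hα : α ≠ 0)
    (z : 𝓞 K) (hz : (z : K) = ζ) (σ : Gal(QBar/K)) :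
    ∃ C : 𝓞 QBar, C ^ p = algebraMap (𝓞 K) (𝓞 QBar) α ∧
      σ • C = algebraMap (𝓞 K) (𝓞 QBar) (z ^ (kq p ζ (((α : K)) : QBar) σ).val) * C := by
  have hx : (((α : K)) : QBar) ≠ 0 := by
    intro h
    apply hα
    apply RingOfIntegers.coe_injective
    exact (algebraMap K QBar).injective (by rw [map_zero]; exact h)
  have hfix : σ (((α : K)) : QBar) = (((α : K)) : QBar) := σ.commutes (α : K)
  obtain ⟨B, hB⟩ := IsAlgClosed.exists_pow_nat_eq (((α : K)) : QBar) hp.pos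
  obtain ⟨C, hC, hCp⟩ := int_root hp α hB
  refine ⟨C, hCp, ?_⟩
  have h1 := kq_is hp hζ hx hfix B hB
  apply RingOfIntegers.coe_injective
  change σ (C : QBar) = _
  rw [hC, h1]
  change _ = ((((z ^ (kq p ζ (((α : K)) : QBar) σ).val : 𝓞 K) : K)) : QBar) * (C : QBar)
  rw [hC]
  have h5 : ((z ^ (kq p ζ (((α : K)) : QBar) σ).val : 𝓞 K) : K) =
      ζ ^ (kq p ζ (((α : K)) : QBar) σ).val := by
    rw [← hz]
    exact map_pow (algebraMap (𝓞 K) K) z _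
  rw [h5]
  have h6 : (((ζ ^ (kq p ζ (((α : K)) : QBar) σ).val : K)) : QBar) =
      algebraMap K QBar ζ ^ (kq p ζ (((α : K)) : QBar) σ).val := map_pow (algebraMap K QBar) ζ _
  rw [h6]

theorem kqe (hp : p.Prime) (hζ : IsPrimitiveRoot ζ p) (Q : DP K QBar) (v : Pl K)
    (hv : ((p : ℕ) : 𝓞 K) ∉ v.asIdeal) (α : 𝓞 K) (hα : α ∉ v.asIdeal) (z : 𝓞 K) (hz : (z : K) = ζ) :
    p ∣ nm v - 1 ∧
      z ^ (kq p ζ (((α : K)) : QBar) (fr Q v)).val - α ^ ((nm v - 1) / p) ∈ v.asIdeal := by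
  have := v.isPrime
  have : v.asIdeal.IsMaximal := v.isPrime.isMaximal v.ne_bot
  let _ : Field (𝓞 K ⧸ v.asIdeal) := Ideal.Quotient.field _
  have : Finite (𝓞 K ⧸ v.asIdeal) := v.asIdeal.finiteQuotientOfFreeOfNeBot v.ne_bot
  let _ : Fintype (𝓞 K ⧸ v.asIdeal) := Fintype.ofFinite _
  have hcard : Fintype.card (𝓞 K ⧸ v.asIdeal) = nm v := by
    unfold nm
    rw [Ideal.absNorm_apply, Submodule.cardQuot_apply, Nat.card_eq_fintype_card]
  have hzp := z_prim0 hζ z hz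
  have hdvd : p ∣ nm v - 1 := by
    have h1 := prim_mod (𝓞 K ⧸ v.asIdeal) (Ideal.Quotient.mk v.asIdeal) hzp hp
      (by rw [Ne, Ideal.Quotient.eq_zero_iff_mem]; exact hv)
    apply h1.dvd_of_pow_eq_one
    rw [← hcard]
    exact FiniteField.pow_card_sub_one_eq_one _ (h1.ne_zero hp.ne_zero)
  refine ⟨hdvd, ?_⟩
  have hα0 : α ≠ 0 := by
    rintro rfl
    exact hα v.asIdeal.zero_mem
  obtain ⟨C, hCp, hC⟩ := kq_int hp hζ α hα0 z hz (fr Q v)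
  have := Q.prime v
  have hCP : C ∉ Q.P v := by
    intro h
    apply hα
    rw [← alg_P Q v, ← hCp]
    exact Ideal.pow_mem_of_mem _ h _ hp.pos
  have h1 := fr_spec Q v C
  rw [hC] at h1
  have h2 : 1 ≤ nm v := by
    rw [← hcard]
    exact Fintype.card_pos
  have h3 : C ^ nm v = algebraMap (𝓞 K) (𝓞 QBar) (α ^ ((nm v - 1) / p)) * C := by
    rw [map_pow, ← hCp, ← pow_mul, Nat.mul_div_cancel' hdvd, ← pow_succ, Nat.sub_add_cancel h2]
  rw [h3, ← sub_mul, ← map_sub] at h1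
  rcases (Q.prime v).mem_or_mem h1 with h4 | h4
  · exact (alg_P Q v _).1 h4
  · exact absurd h4 hCP

theorem kqt (hp : p.Prime) (hζ : IsPrimitiveRoot ζ p) (Q : DP K QBar) (v : Pl K)
    (hv : ((p : ℕ) : 𝓞 K) ∉ v.asIdeal) (α : 𝓞 K) (hα : α - 1 ∈ v.asIdeal) (σ : Gal(QBar/K))
    (hσ : σ ∈ dec (K := K) (Q.P v)) : kq p ζ (((α : K)) : QBar) σ = 0 := by
  have : NeZero p := ⟨hp.ne_zero⟩
  have := v.isPrime
  have := Q.prime v
  obtain ⟨z, hz⟩ := ex_z hp hζ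
  have hzp := z_prim0 hζ z hz
  have hα0 : α ≠ 0 := by
    rintro rfl
    apply v.isPrime.ne_top
    rw [Ideal.eq_top_iff_one]
    have h := v.asIdeal.neg_mem hα
    rwa [zero_sub, neg_neg] at h
  obtain ⟨C, hCp, hC⟩ := kq_int hp hζ α hα0 z hz σ
  have h1 := prim_mod (𝓞 QBar ⧸ Q.P v) ((Ideal.Quotient.mk (Q.P v)).comp (algebraMap (𝓞 K) (𝓞 QBar))) hzp hp
    (by
      rw [RingHom.comp_apply, Ne, Ideal.Quotient.eq_zero_iff_mem, alg_P]
      exact hv)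
  have h2 : (Ideal.Quotient.mk (Q.P v) C) ^ p = 1 := by
    rw [← map_pow, hCp, ← sub_eq_zero, ← map_one (Ideal.Quotient.mk (Q.P v)), ← map_sub,
      Ideal.Quotient.eq_zero_iff_mem, ← map_one (algebraMap (𝓞 K) (𝓞 QBar)), ← map_sub, alg_P]
    exact hα
  obtain ⟨i, hi, h3⟩ := h1.eq_pow_of_pow_eq_one h2
  have h4 : C - algebraMap (𝓞 K) (𝓞 QBar) (z ^ i) ∈ Q.P v := by
    rw [← Ideal.Quotient.eq_zero_iff_mem, map_sub, sub_eq_zero, ← h3, RingHom.comp_apply, map_pow, map_pow]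
  have h5 := (hσ _).2 h4
  have h6 : σ • (algebraMap (𝓞 K) (𝓞 QBar) (z ^ i)) = algebraMap (𝓞 K) (𝓞 QBar) (z ^ i) := by
    apply RingOfIntegers.coe_injective
    exact σ.commutes ((z ^ i : 𝓞 K) : K)
  rw [smul_sub, h6, hC] at h5
  set k := (kq p ζ (((α : K)) : QBar) σ).val with hk
  have h7 : algebraMap (𝓞 K) (𝓞 QBar) (z ^ k) * algebraMap (𝓞 K) (𝓞 QBar) (z ^ i) -
      algebraMap (𝓞 K) (𝓞 QBar) (z ^ i) ∈ Q.P v := by
    have h8 := (Q.P v).mul_mem_left (algebraMap (𝓞 K) (𝓞 QBar) (z ^ k)) h4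
    have h9 := (Q.P v).sub_mem h5 h8
    have h10 : algebraMap (𝓞 K) (𝓞 QBar) (z ^ k) * C - algebraMap (𝓞 K) (𝓞 QBar) (z ^ i) -
        algebraMap (𝓞 K) (𝓞 QBar) (z ^ k) * (C - algebraMap (𝓞 K) (𝓞 QBar) (z ^ i)) =
        algebraMap (𝓞 K) (𝓞 QBar) (z ^ k) * algebraMap (𝓞 K) (𝓞 QBar) (z ^ i) -
          algebraMap (𝓞 K) (𝓞 QBar) (z ^ i) := by ring
    rwa [h10] at h9
  have h8 : (((Ideal.Quotient.mk (Q.P v)).comp (algebraMap (𝓞 K) (𝓞 QBar))) z) ^ k = 1 := by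
    have h9 : ((Ideal.Quotient.mk (Q.P v)).comp (algebraMap (𝓞 K) (𝓞 QBar)) z) ^ k *
        ((Ideal.Quotient.mk (Q.P v)).comp (algebraMap (𝓞 K) (𝓞 QBar)) z) ^ i =
        ((Ideal.Quotient.mk (Q.P v)).comp (algebraMap (𝓞 K) (𝓞 QBar)) z) ^ i := by
      rw [← sub_eq_zero, ← map_pow, ← map_pow, ← map_mul, ← map_sub, RingHom.comp_apply, Ideal.Quotient.eq_zero_iff_mem,
        map_sub, map_mul]
      exact h7
    have h10 : ((Ideal.Quotient.mk (Q.P v)).comp (algebraMap (𝓞 K) (𝓞 QBar)) z) ^ i ≠ 0 :=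
      pow_ne_zero _ (h1.ne_zero hp.ne_zero)
    exact mul_right_cancel₀ h10 (by rw [h9, one_mul])
  have h9 := h1.dvd_of_pow_eq_one _ h8
  have h10 : k < p := ZMod.val_lt _
  have h11 : k = 0 := Nat.eq_zero_of_dvd_of_lt h9 h10
  rwa [hk, ZMod.val_eq_zero] at h11

theorem kqf (hp : p.Prime) (hζ : IsPrimitiveRoot ζ p) (Q : DP K QBar) (v : Pl K)
    (hv : ((p : ℕ) : 𝓞 K) ∉ v.asIdeal) (α α' : 𝓞 K) (hα : α ∉ v.asIdeal)
    (h : α - α' ∈ v.asIdeal) :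
    kq p ζ (((α : K)) : QBar) (fr Q v) = kq p ζ (((α' : K)) : QBar) (fr Q v) := by
  have : NeZero p := ⟨hp.ne_zero⟩
  have := v.isPrime
  obtain ⟨z, hz⟩ := ex_z hp hζ
  have hzp := z_prim0 hζ z hz
  have hα' : α' ∉ v.asIdeal := by
    intro h'
    apply hα
    have h1 := v.asIdeal.add_mem h h'
    rwa [sub_add_cancel] at h1
  have h1 := (kqe hp hζ Q v hv α hα z hz).2
  have h2 := (kqe hp hζ Q v hv α' hα' z hz).2
  have h3 : α ^ ((nm v - 1) / p) - α' ^ ((nm v - 1) / p) ∈ v.asIdeal :=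
    Ideal.mem_of_dvd _ (sub_dvd_pow_sub_pow α α' _) h
  have h4 := prim_mod (𝓞 K ⧸ v.asIdeal) (Ideal.Quotient.mk v.asIdeal) hzp hp
    (by rw [Ne, Ideal.Quotient.eq_zero_iff_mem]; exact hv)
  apply ZMod.val_injective
  apply h4.pow_inj (ZMod.val_lt _) (ZMod.val_lt _)
  rw [← map_pow, ← map_pow, ← sub_eq_zero, ← map_sub, Ideal.Quotient.eq_zero_iff_mem]
  have h5 := v.asIdeal.sub_mem (v.asIdeal.add_mem h1 h3) h2
  have h6 : z ^ (kq p ζ (((α : K)) : QBar) (fr Q v)).val - α ^ ((nm v - 1) / p) +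
      (α ^ ((nm v - 1) / p) - α' ^ ((nm v - 1) / p)) -
      (z ^ (kq p ζ (((α' : K)) : QBar) (fr Q v)).val - α' ^ ((nm v - 1) / p)) =
      z ^ (kq p ζ (((α : K)) : QBar) (fr Q v)).val -
        z ^ (kq p ζ (((α' : K)) : QBar) (fr Q v)).val := by ring
  rwa [h6] at h5

end Pool.Agent.H36.FA
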