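import Pool.Agent.H36.FA.Kqf

/-!
# [H36 FA KQS] The Kummer symbol takes all values equally often

By `kqe`: `ζ^kq(r) ≡ r^((q-1)/p)`, `q = nm v`; so `{r ≠ 0 : kq r = t}` is contained in the set of the roots of `X^((q-1)/p) = ζ^t` in the field `𝓞 K ⧸ v` with `q` elements:
at most `(q-1)/p` elements. The `p` fibres have together `q - 1` elements, so all of them have `(q-1)/p` elements.
-/

set_option autoImplicit false

open scoped NumberField Classical
open IsDedekindDomain NumberField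

noncomputable section

namespace Pool.Agent.H36.FA

open H63.MA H38.BB H38.BG H77.PC3 H51.SN H57.SL H36.QA H1.LS4 H38.ML

variable {K : IntermediateField ℚ QBar} [NumberField K] {p : ℕ} {ζ : K}

private theorem fib_count {F : Type} [Field F] [Fintype F] {p m : ℕ} [Fact p.Prime]
    (hm : Fintype.card F = m * p + 1) (Φ : F → ZMod p) (w : ZMod p → F)
    (h : ∀ r, r ≠ 0 → r ^ m = w (Φ r)) (t : ZMod p) :
    (Finset.univ.filter fun r : F => r ≠ 0 ∧ Φ r = t).card = m := by
  have hp0 : 0 < p := (Fact.out : p.Prime).pos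
  have hm0 : 0 < m := by
    rcases Nat.eq_zero_or_pos m with h0 | h0
    · have h1 : 1 < Fintype.card F := Fintype.one_lt_card
      rw [h0, Nat.zero_mul] at hm
      omega
    · exact h0
  have hle : ∀ i ∈ (Finset.univ : Finset (ZMod p)),
      (Finset.univ.filter fun r : F => r ≠ 0 ∧ Φ r = i).card ≤ m := by
    intro i _
    refine le_trans (Finset.card_le_card (t := (Polynomial.nthRoots m (w i)).toFinset) ?_)
      (le_trans (Multiset.toFinset_card_le _) (Polynomial.card_nthRoots m (w i)))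
    intro r hr
    obtain ⟨-, hr0, hr1⟩ := Finset.mem_filter.1 hr
    rw [Multiset.mem_toFinset, Polynomial.mem_nthRoots hm0, h r hr0, hr1]
  have hsum : ∑ i : ZMod p, (Finset.univ.filter fun r : F => r ≠ 0 ∧ Φ r = i).card = ∑ _i : ZMod p, m := by
    have h1 := Finset.card_eq_sum_card_fiberwise (f := Φ) (s := Finset.univ.filter fun r : F => r ≠ 0)
      (t := (Finset.univ : Finset (ZMod p))) (fun r _ => Finset.mem_coe.2 (Finset.mem_univ _))
    have h2 : (Finset.univ.filter fun r : F => r ≠ 0).card = m * p := by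
      rw [Finset.filter_ne', Finset.card_erase_of_mem (Finset.mem_univ _), Finset.card_univ, hm]
      rfl
    rw [h2] at h1
    rw [Finset.sum_const, Finset.card_univ, ZMod.card, smul_eq_mul, mul_comm p m, h1]
    refine Finset.sum_congr rfl fun i _ => ?_
    rw [Finset.filter_filter]
  exact (Finset.sum_eq_sum_iff_of_le hle).1 hsum t (Finset.mem_univ t)

theorem kqs (hp : p.Prime) (hζ : IsPrimitiveRoot ζ p) (Q : DP K QBar) (v : Pl K)
    (hv : ((p : ℕ) : 𝓞 K) ∉ v.asIdeal) (t : ZMod p) :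
    {r : 𝓞 K ⧸ v.asIdeal | r ≠ 0 ∧
      kq p ζ (((Quotient.out r : 𝓞 K) : K) : QBar) (fr Q v) = t}.ncard * p = nm v - 1 := by
  haveI : Fact p.Prime := ⟨hp⟩
  haveI hmax : v.asIdeal.IsMaximal := v.isMaximal
  letI : Field (𝓞 K ⧸ v.asIdeal) := Ideal.Quotient.field v.asIdeal
  haveI : Finite (𝓞 K ⧸ v.asIdeal) := Ideal.finiteQuotientOfFreeOfNeBot v.asIdeal v.ne_bot
  letI : Fintype (𝓞 K ⧸ v.asIdeal) := Fintype.ofFinite _
  have hcard : Fintype.card (𝓞 K ⧸ v.asIdeal) = nm v := by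
    rw [← Nat.card_eq_fintype_card]
    rfl
  have hq : 1 < nm v := by
    rw [← hcard]
    exact Fintype.one_lt_card
  obtain ⟨z, hz⟩ : ∃ z : 𝓞 K, (z : K) = ζ := ⟨⟨ζ, hζ.isIntegral hp.pos⟩, rfl⟩
  have hout : ∀ r : 𝓞 K ⧸ v.asIdeal, Ideal.Quotient.mk v.asIdeal (Quotient.out r) = r := fun r => Quotient.out_eq r
  have hα : ∀ r : 𝓞 K ⧸ v.asIdeal, r ≠ 0 → (Quotient.out r : 𝓞 K) ∉ v.asIdeal := by
    intro r hr h1
    apply hr
    rw [← hout r]
    exact Ideal.Quotient.eq_zero_iff_mem.2 h1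
  have hdvd : p ∣ nm v - 1 := (kqe hp hζ Q v hv (1 : 𝓞 K) (fun h => v.isPrime.ne_top ((Ideal.eq_top_iff_one _).2 h)) z hz).1
  have hm : Fintype.card (𝓞 K ⧸ v.asIdeal) = (nm v - 1) / p * p + 1 := by
    rw [hcard, Nat.div_mul_cancel hdvd]
    omega
  have h := fib_count hm (fun r => kq p ζ (((Quotient.out r : 𝓞 K) : K) : QBar) (fr Q v))
    (fun i => (Ideal.Quotient.mk v.asIdeal z) ^ i.val) (by
      intro r hr
      have h1 := (kqe hp hζ Q v hv (Quotient.out r) (hα r hr) z hz).2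
      have h2 := Ideal.Quotient.eq.2 h1
      rw [map_pow, map_pow, hout r] at h2
      exact h2.symm) t
  rw [← Nat.div_mul_cancel hdvd, ← h]
  congr 1
  rw [← Set.ncard_coe_finset]
  congr 1
  ext r
  simp

end Pool.Agent.H36.FA
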