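import Pool.Agent.H36.FA.Msv

/-!
# [H36 FA MEA] The means over the family, with power saving

`k = #L`, `n = [K : ℚ]`, constants from `msv`, `Y = ∏ κ X o / N𝔪^k`, `R₀` = the primes not dividing `𝔪` of norm `≤ 2^n Z²` (a finite set: `fin_Vx`-type, `Ideal.finite_setOfPred_absNorm_le`); for `q` as in
the claim `q ⊆ R₀` as `nm v ≤ ∏_q nm ≤ Z^θ ≤ Z ≤ 2^n Z²`. For `q = ∅` `msv` is `#Ph = Y Π + O(∏ X Z^(-η))`, `Π = ∏_{R₀} (1 - be) ≥ c₀ > 0` (`prod_be`): so `#Ph ≥ c ∏ X` for `Z ≥ Z0`.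
`∏_{R₀ \ q} (1 - be) = Π / ∏_q (1 - be)` (`1 - be ≥ 2^(-k) > 0`). So
`∑ ∏ f - #Ph ∏_q Mn/(1 - be) = err - err₀ ∏_q Mn/(1-be)`, `0 ≤ Mn/(1-be) ≤ B 2^k`, and `(B 2^k)^#q ≤ (∏_q nm)^(log₂ B + k) ≤ Z^(θ' (log₂ B + k))` for a smaller `θ' ≤ θ`: choose
`θ'` with `θ' (log₂ B + k) ≤ η/2`. Total error `≤ 2 C (∏ X) Z^(-η/2) ≤ #Ph Z^(-η/4)` for `Z ≥ Z0`.
-/

set_option autoImplicit false

open scoped NumberField Classical
open IsDedekindDomain NumberField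

noncomputable section

namespace Pool.Agent.H36.FA

open H63.MA H38.BB H38.BG H77.PC3 H51.SN H57.SL H36.QA H1.LS4 H38.ML

private theorem nm2 {K : Type} [Field K] [NumberField K] (v : Pl K) : (2 : ℝ) ≤ nm v := by
  have h0 : nm v ≠ 0 := fun h => v.ne_bot (Ideal.absNorm_eq_zero_iff.1 h)
  have h1 : nm v ≠ 1 := fun h => v.isPrime.ne_top (Ideal.absNorm_eq_one_iff.1 h)
  have h2 : 2 ≤ nm v := by omega
  exact_mod_cast h2

private theorem one_le_prodR {ι : Type} (s : Finset ι) (g : ι → ℝ) (h : ∀ i ∈ s, 1 ≤ g i) :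
    1 ≤ ∏ i ∈ s, g i := by
  calc (1 : ℝ) = ∏ _i ∈ s, (1 : ℝ) := by rw [Finset.prod_const_one]
    _ ≤ ∏ i ∈ s, g i := Finset.prod_le_prod (fun _ _ => zero_le_one) h

private theorem finR (K : Type) [Field K] [NumberField K] (x : ℝ) :
    {v : Pl K | (nm v : ℝ) ≤ x}.Finite := by
  have h : {v : Pl K | nm v ≤ ⌊x⌋₊}.Finite := by
    have h1 := (Ideal.finite_setOfPred_absNorm_le (S := 𝓞 K) ⌊x⌋₊).preimage
      (f := fun v : Pl K => v.asIdeal) (fun v _ w _ h => HeightOneSpectrum.ext h)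
    exact h1
  exact h.subset fun v hv => Nat.le_floor hv

private theorem exR {K : Type} [Field K] [NumberField K] (𝔪 : Ideal (𝓞 K)) (x : ℝ) :
    ∃ R : Finset (Pl K), ∀ v, v ∈ R ↔ ¬ v.asIdeal ∣ 𝔪 ∧ (nm v : ℝ) ≤ x := by
  have h : {v : Pl K | ¬ v.asIdeal ∣ 𝔪 ∧ (nm v : ℝ) ≤ x}.Finite :=
    (finR K x).subset fun v hv => hv.2
  exact ⟨h.toFinset, fun v => by rw [Set.Finite.mem_toFinset]; rfl⟩

private theorem be_pos {K : Type} [Field K] [NumberField K] (L : Type) [Fintype L] (v : Pl K) :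
    ((1 : ℝ) / 2) ^ Fintype.card L ≤ 1 - be L v := by
  refine le_trans (pow_le_pow_left₀ (by norm_num) ?_ _) (one_sub_be (L := L) v)
  have h := nm2 v
  have h1 : 1 / (nm v : ℝ) ≤ 1 / 2 := one_div_le_one_div_of_le (by norm_num) h
  linarith

private theorem mn_bd {K : Type} [Field K] [NumberField K] {L : Type} [Fintype L] (v : Pl K)
    {B : ℝ} (f : (L → 𝓞 K) → ℝ) (h0 : ∀ α, 0 ≤ f α) (h1 : ∀ α, f α ≤ B) (hB : 1 ≤ B) :
    0 ≤ Mn v.asIdeal f / (1 - be L v) ∧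
      Mn v.asIdeal f / (1 - be L v) ≤ B * 2 ^ Fintype.card L := by
  have hb := be_pos L v
  have hp : (0 : ℝ) < (1 / 2) ^ Fintype.card L := by positivity
  have hb0 : 0 < 1 - be L v := lt_of_lt_of_le hp hb
  refine ⟨div_nonneg (mn_nonneg h0) hb0.le, ?_⟩
  have h2 : Mn v.asIdeal f ≤ B := by
    have h3 := mn_mono (𝔠 := v.asIdeal) v.ne_bot (f := f) (g := fun _ => B) h1
    rwa [mn_const v.ne_bot] at h3
  rw [div_le_iff₀ hb0]
  have h4 : (2 : ℝ) ^ Fintype.card L * (1 / 2) ^ Fintype.card L = 1 := by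
    rw [← mul_pow]
    norm_num
  calc Mn v.asIdeal f ≤ B := h2
    _ = B * ((2 : ℝ) ^ Fintype.card L * (1 / 2) ^ Fintype.card L) := by rw [h4, mul_one]
    _ ≤ B * ((2 : ℝ) ^ Fintype.card L * (1 - be L v)) := by gcongr
    _ = B * 2 ^ Fintype.card L * (1 - be L v) := by ring

/-- a product of numbers `≤ M` over `q` -/
private theorem prod_bd {K : Type} [Field K] [NumberField K] (q : Finset (Pl K)) (g : Pl K → ℝ)
    {M Z θ ε : ℝ} (hM : 1 ≤ M) (hZ : 1 ≤ Z) (hε : θ * (Real.log M / Real.log 2) ≤ ε)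
    (h0 : ∀ v ∈ q, 0 ≤ g v) (h1 : ∀ v ∈ q, g v ≤ M)
    (hq : ∏ v ∈ q, (nm v : ℝ) ≤ Z ^ θ) : 0 ≤ ∏ v ∈ q, g v ∧ ∏ v ∈ q, g v ≤ Z ^ ε := by
  refine ⟨Finset.prod_nonneg h0, ?_⟩
  have h2 : (2 : ℝ) ^ q.card ≤ Z ^ θ := by
    refine le_trans ?_ hq
    rw [← Finset.prod_const]
    exact Finset.prod_le_prod (fun v _ => by norm_num) fun v _ => nm2 v
  have hl2 : 0 < Real.log 2 := Real.log_pos (by norm_num)
  have hlM : 0 ≤ Real.log M := Real.log_nonneg hM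
  have hM2 : M = (2 : ℝ) ^ (Real.log M / Real.log 2) := by
    rw [Real.rpow_def_of_pos (by norm_num : (0 : ℝ) < 2), mul_div_cancel₀ _ hl2.ne',
      Real.exp_log (by linarith)]
  have h3 : ∏ v ∈ q, g v ≤ M ^ q.card := by
    rw [← Finset.prod_const]
    exact Finset.prod_le_prod h0 h1
  have hr : 0 ≤ Real.log M / Real.log 2 := by positivity
  have h4 : M ^ q.card = ((2 : ℝ) ^ q.card) ^ (Real.log M / Real.log 2) := by
    conv_lhs => rw [hM2]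
    rw [← Real.rpow_natCast, ← Real.rpow_natCast, ← Real.rpow_mul (by norm_num),
      ← Real.rpow_mul (by norm_num), mul_comm]
  refine h3.trans ?_
  rw [h4]
  calc ((2 : ℝ) ^ q.card) ^ (Real.log M / Real.log 2)
      ≤ (Z ^ θ) ^ (Real.log M / Real.log 2) := Real.rpow_le_rpow (by positivity) h2 hr
    _ = Z ^ (θ * (Real.log M / Real.log 2)) := (Real.rpow_mul (by linarith) _ _).symm
    _ ≤ Z ^ ε := Real.rpow_le_rpow_of_exponent_le hZ hε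

/-- `Z ^ η` is large -/
private theorem big {η D : ℝ} (hη : 0 < η) (hD : 0 < D) :
    ∀ Z : ℝ, max 1 (D ^ (1 / η)) ≤ Z → D ≤ Z ^ η := by
  intro Z hZ
  have h1 : D ^ (1 / η) ≤ Z := (le_max_right _ _).trans hZ
  calc D = (D ^ (1 / η)) ^ η := by
        rw [← Real.rpow_mul hD.le, one_div, inv_mul_cancel₀ hη.ne', Real.rpow_one]
    _ ≤ Z ^ η := Real.rpow_le_rpow (by positivity) h1 hη.le

theorem mea (K : Type) [Field K] [NumberField K] (hK : NumberField.IsTotallyComplex K) (L : Type)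
    [Fintype L] (𝔪 : Ideal (𝓞 K)) (h𝔪 : 𝔪 ≠ ⊥) (B : ℝ) (hB : 1 ≤ B) :
    ∃ θ η c Z0 : ℝ, 0 < θ ∧ 0 < η ∧ 0 < c ∧ 2 ≤ Z0 ∧ ∀ Z : ℝ, Z0 ≤ Z → ∀ X : L → ℝ,
      (∀ o, Z ≤ X o) → (∀ o, X o ≤ Z ^ 2) → c * ∏ o, X o ≤ ((Ph 𝔪 X).card : ℝ) ∧
        ∀ f : Pl K → (L → 𝓞 K) → ℝ, (∀ v, Per v.asIdeal (f v)) → (∀ v α, 0 ≤ f v α) →
          (∀ v α, f v α ≤ B) → (∀ v α, ¬ Un α v → f v α = 0) → ∀ q : Finset (Pl K),
            (∀ v ∈ q, ¬ v.asIdeal ∣ 𝔪) → ∏ v ∈ q, (nm v : ℝ) ≤ Z ^ θ →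
              |∑ α ∈ Ph 𝔪 X, ∏ v ∈ q, f v α -
                ((Ph 𝔪 X).card : ℝ) * ∏ v ∈ q, (Mn v.asIdeal (f v) / (1 - be L v))| ≤
                  ((Ph 𝔪 X).card : ℝ) * Z ^ (-η) := by
  obtain ⟨κ, θ₁, η₁, C, Z1, hκ, hθ₁, hθ1, hη₁, hC, hZ1, hmsv⟩ := msv K hK L 𝔪 h𝔪 B hB
  obtain ⟨c₀, hc₀, hprod⟩ := prod_be K L
  have hN : (0 : ℝ) < (Ideal.absNorm 𝔪 : ℝ) := by
    have h1 : Ideal.absNorm 𝔪 ≠ 0 := fun h => h𝔪 (Ideal.absNorm_eq_zero_iff.1 h)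
    exact_mod_cast Nat.pos_of_ne_zero h1
  set N : ℝ := (Ideal.absNorm 𝔪 : ℝ) ^ Fintype.card L with hNdef
  have hNp : 0 < N := by positivity
  set a : ℝ := κ ^ Fintype.card L / N with ha
  have hap : 0 < a := by positivity
  set M : ℝ := B * 2 ^ Fintype.card L with hM
  have hM1 : 1 ≤ M := by
    have : (1 : ℝ) ≤ 2 ^ Fintype.card L := one_le_pow₀ (by norm_num)
    rw [hM]
    nlinarith
  have hl2 : 0 < Real.log 2 := Real.log_pos (by norm_num)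
  have hlM : 0 ≤ Real.log M := Real.log_nonneg hM1
  set r : ℝ := Real.log M / Real.log 2 with hr
  have hr0 : 0 ≤ r := by positivity
  set c : ℝ := a * c₀ / 2 with hc
  have hcp : 0 < c := by positivity
  set θ : ℝ := min θ₁ (η₁ / (2 * (r + 1))) with hθ
  have hθp : 0 < θ := lt_min hθ₁ (by positivity)
  have hθr : θ * r ≤ η₁ / 2 := by
    calc θ * r ≤ η₁ / (2 * (r + 1)) * r := by gcongr; exact min_le_right _ _
      _ ≤ η₁ / (2 * (r + 1)) * (r + 1) := by gcongr; linarith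
      _ = η₁ / 2 := by field_simp
  have hD1 : 0 < C / c := by positivity
  have hD2 : 0 < 2 * C / c := by positivity
  refine ⟨θ, η₁ / 4, c, max (max Z1 (max 1 ((C / c) ^ (1 / η₁))))
    (max 1 ((2 * C / c) ^ (1 / (η₁ / 4)))), hθp, by positivity, hcp,
    le_max_of_le_left (le_max_of_le_left hZ1), ?_⟩
  intro Z hZ X hX1 hX2
  have hZ1' : Z1 ≤ Z := (le_max_left _ _).trans ((le_max_left _ _).trans hZ)
  have hbig1 : C / c ≤ Z ^ η₁ := big hη₁ hD1 Z ((le_max_right _ _).trans ((le_max_left _ _).trans hZ))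
  have hbig2 : 2 * C / c ≤ Z ^ (η₁ / 4) := big (by positivity) hD2 Z ((le_max_right _ _).trans hZ)
  have hZ2 : 2 ≤ Z := hZ1.trans hZ1'
  have hZp : 0 < Z := by linarith
  have hXp : ∀ o, 0 < X o := fun o => lt_of_lt_of_le hZp (hX1 o)
  have hPX : 0 < ∏ o, X o := Finset.prod_pos fun o _ => hXp o
  obtain ⟨R₀, hR₀⟩ := exR 𝔪 (2 ^ Module.finrank ℚ K * Z ^ 2)
  have hY : (∏ o, κ * X o) / (Ideal.absNorm 𝔪 : ℝ) ^ Fintype.card L = a * ∏ o, X o := by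
    rw [Finset.prod_mul_distrib, Finset.prod_const, Finset.card_univ, ha]
    ring
  set P₀ : ℝ := ∏ v ∈ R₀, (1 - be L v) with hP₀
  have hP₀0 : c₀ ≤ P₀ := hprod R₀
  -- the case of the empty set
  have he0 : |((Ph 𝔪 X).card : ℝ) - a * (∏ o, X o) * P₀| ≤ C * (∏ o, X o) * Z ^ (-η₁) := by
    have h := hmsv Z hZ1' X hX1 hX2 R₀ hR₀ (fun _ _ => 0) (fun v α α' _ => rfl)
      (fun v α => le_refl 0) (fun v α => by linarith) (fun v α _ => rfl) ∅ (Finset.empty_subset _)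
      (by
        rw [Finset.prod_empty]
        exact Real.one_le_rpow (by linarith) hθ₁.le)
    rw [hY] at h
    simpa using h
  have hZη : Z ^ (-η₁) * Z ^ η₁ = 1 := by
    rw [← Real.rpow_add hZp]
    simp
  have hZη0 : 0 < Z ^ (-η₁) := Real.rpow_pos_of_pos hZp _
  have hlow : c * ∏ o, X o ≤ ((Ph 𝔪 X).card : ℝ) := by
    have h1 : C * Z ^ (-η₁) ≤ c := by
      rw [div_le_iff₀ hcp] at hbig1
      calc C * Z ^ (-η₁) ≤ (Z ^ η₁ * c) * Z ^ (-η₁) := by gcongr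
        _ = c * (Z ^ (-η₁) * Z ^ η₁) := by ring
        _ = c := by rw [hZη, mul_one]
    have h2 := (abs_le.1 he0).1
    have h3 : a * c₀ * ∏ o, X o ≤ a * (∏ o, X o) * P₀ := by
      calc a * c₀ * ∏ o, X o = a * (∏ o, X o) * c₀ := by ring
        _ ≤ a * (∏ o, X o) * P₀ := by gcongr
    have h4 : C * (∏ o, X o) * Z ^ (-η₁) ≤ c * ∏ o, X o := by
      calc C * (∏ o, X o) * Z ^ (-η₁) = (C * Z ^ (-η₁)) * ∏ o, X o := by ring
        _ ≤ c * ∏ o, X o := by gcongr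
    have h5 : a * c₀ * ∏ o, X o = 2 * (c * ∏ o, X o) := by rw [hc]; ring
    linarith
  refine ⟨hlow, ?_⟩
  intro f hf1 hf2 hf3 hf4 q hq1 hq2
  have hqR : q ⊆ R₀ := by
    intro v hv
    rw [hR₀]
    refine ⟨hq1 v hv, ?_⟩
    have h1 : (nm v : ℝ) ≤ ∏ w ∈ q, (nm w : ℝ) := by
      rw [← Finset.mul_prod_erase q _ hv]
      have h2 : (1 : ℝ) ≤ ∏ w ∈ q.erase v, (nm w : ℝ) :=
        one_le_prodR _ _ fun w _ => by linarith [nm2 w]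
      nlinarith [nm2 v]
    have h3 : Z ^ θ ≤ Z := by
      calc Z ^ θ ≤ Z ^ (1 : ℝ) :=
            Real.rpow_le_rpow_of_exponent_le (by linarith) ((min_le_left _ _).trans hθ1)
        _ = Z := Real.rpow_one Z
    have h4 : (1 : ℝ) ≤ 2 ^ Module.finrank ℚ K := one_le_pow₀ (by norm_num)
    nlinarith
  have hmain := hmsv Z hZ1' X hX1 hX2 R₀ hR₀ f hf1 hf2 hf3 hf4 q hqR
    (hq2.trans (Real.rpow_le_rpow_of_exponent_le (by linarith) (min_le_left _ _)))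
  rw [hY] at hmain
  have hbpos : ∀ v : Pl K, 0 < 1 - be L v := fun v =>
    lt_of_lt_of_le (by positivity) (be_pos L v)
  have hsplit : ∏ v ∈ R₀ \ q, (1 - be L v) = P₀ / ∏ v ∈ q, (1 - be L v) := by
    rw [eq_div_iff (Finset.prod_pos fun v _ => hbpos v).ne', hP₀]
    exact Finset.prod_sdiff hqR
  have hG : ∏ v ∈ q, (Mn v.asIdeal (f v) / (1 - be L v)) =
      (∏ v ∈ q, Mn v.asIdeal (f v)) / ∏ v ∈ q, (1 - be L v) := Finset.prod_div_distrib _ _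
  obtain ⟨hG0, hG1⟩ := prod_bd q (fun v => Mn v.asIdeal (f v) / (1 - be L v)) hM1
    (by linarith) hθr (fun v _ => (mn_bd v (f v) (hf2 v) (hf3 v) hB).1)
    (fun v _ => (mn_bd v (f v) (hf2 v) (hf3 v) hB).2) hq2
  set G : ℝ := ∏ v ∈ q, (Mn v.asIdeal (f v) / (1 - be L v)) with hGdef
  have hmain' : |∑ α ∈ Ph 𝔪 X, ∏ v ∈ q, f v α - a * (∏ o, X o) * P₀ * G| ≤
      C * (∏ o, X o) * Z ^ (-η₁) := by
    have h1 : a * (∏ o, X o) * P₀ * G = a * (∏ o, X o) * (∏ v ∈ q, Mn v.asIdeal (f v)) *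
        ∏ v ∈ R₀ \ q, (1 - be L v) := by
      rw [hG, hsplit]
      ring
    rw [h1]
    exact hmain
  have hid : ∑ α ∈ Ph 𝔪 X, ∏ v ∈ q, f v α - ((Ph 𝔪 X).card : ℝ) * G =
      (∑ α ∈ Ph 𝔪 X, ∏ v ∈ q, f v α - a * (∏ o, X o) * P₀ * G) -
        (((Ph 𝔪 X).card : ℝ) - a * (∏ o, X o) * P₀) * G := by ring
  have hZh : 1 ≤ Z ^ (η₁ / 2) := Real.one_le_rpow (by linarith) (by positivity)
  have hZ3 : Z ^ (-η₁) * Z ^ (η₁ / 2) = Z ^ (-(η₁ / 4)) * Z ^ (-(η₁ / 4)) := by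
    rw [← Real.rpow_add hZp, ← Real.rpow_add hZp]
    congr 1
    ring
  have hZ4 : Z ^ (η₁ / 4) * Z ^ (-(η₁ / 4)) = 1 := by
    rw [← Real.rpow_add hZp]
    simp
  have hZ40 : 0 < Z ^ (-(η₁ / 4)) := Real.rpow_pos_of_pos hZp _
  rw [hid]
  calc |(∑ α ∈ Ph 𝔪 X, ∏ v ∈ q, f v α - a * (∏ o, X o) * P₀ * G) -
        (((Ph 𝔪 X).card : ℝ) - a * (∏ o, X o) * P₀) * G|
      ≤ |∑ α ∈ Ph 𝔪 X, ∏ v ∈ q, f v α - a * (∏ o, X o) * P₀ * G| +
        |(((Ph 𝔪 X).card : ℝ) - a * (∏ o, X o) * P₀) * G| := abs_sub _ _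
    _ ≤ C * (∏ o, X o) * Z ^ (-η₁) + C * (∏ o, X o) * Z ^ (-η₁) * Z ^ (η₁ / 2) := by
        rw [abs_mul, abs_of_nonneg hG0]
        gcongr
    _ ≤ C * (∏ o, X o) * Z ^ (-η₁) * Z ^ (η₁ / 2) +
        C * (∏ o, X o) * Z ^ (-η₁) * Z ^ (η₁ / 2) := by
        exact add_le_add (le_mul_of_one_le_right (by positivity) hZh) le_rfl
    _ = 2 * C * (∏ o, X o) * (Z ^ (-η₁) * Z ^ (η₁ / 2)) := by ring
    _ = 2 * C * (∏ o, X o) * (Z ^ (-(η₁ / 4)) * Z ^ (-(η₁ / 4))) := by rw [hZ3]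
    _ ≤ (Z ^ (η₁ / 4) * c) * (∏ o, X o) * (Z ^ (-(η₁ / 4)) * Z ^ (-(η₁ / 4))) := by
        rw [div_le_iff₀ hcp] at hbig2
        gcongr
    _ = (c * ∏ o, X o) * (Z ^ (η₁ / 4) * Z ^ (-(η₁ / 4))) * Z ^ (-(η₁ / 4)) := by ring
    _ = (c * ∏ o, X o) * Z ^ (-(η₁ / 4)) := by rw [hZ4, mul_one]
    _ ≤ ((Ph 𝔪 X).card : ℝ) * Z ^ (-(η₁ / 4)) := by gcongr

end Pool.Agent.H36.FA
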