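import Pool.Agent.H36.FA.Mfu

/-!
# [H36 FA MF1] The first theorem of Mertens for a number field

`F` a number field, `cnt F` (H63/MA/Pv.lean): `#{I : N I ≤ y} = κ y + O(y^(1-δ))`, `y ≥ 1`.
`∑_{N I ≤ x} log N I = ∑_{w} log nm w ∑_{j ≥ 1} #{I : N I ≤ x / nm w^j}` (`log N I = ∑_w ord_w(I) log nm w`). LEFT `= κ x log x + O(x)` (partial summation, or
`∑_{N I ≤ x} log (x / N I) = O(x)` (dyadic) and `#{N I ≤ x} log x`; `x^(1-δ) log x = O(x)`). RIGHT `= κ x ∑_w log nm w / nm w + O(x)`: the terms `j ≥ 2` are `O(x) ∑ log nm / nm² = O(x)`, and the error terms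
`∑_{nm w ≤ x} log nm w (x / nm w)^(1-δ) = O(x)` from `mf_up` (dyadic: `nm w ∈ (2^(-i-1) x, 2^(-i) x]`: `≤ C 2^(-i) x 2^((i+1)(1-δ))`). Divide by `κ x`.
-/

set_option autoImplicit false

open scoped NumberField Classical
open IsDedekindDomain NumberField

noncomputable section

namespace Pool.Agent.H36.FA

open H63.MA H38.BB H38.BG H77.PC3 H51.SN H57.SL H36.QA H1.LS4 H38.ML

private theorem m1_npos {F : Type} [Field F] [NumberField F] {I : Ideal (𝓞 F)} (hI : I ≠ ⊥) :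
    (1 : ℝ) ≤ (Ideal.absNorm I : ℝ) := by
  have h1 : Ideal.absNorm I ≠ 0 := by
    intro h
    exact hI (Ideal.absNorm_eq_zero_iff.1 h)
  exact_mod_cast Nat.one_le_iff_ne_zero.2 h1

private theorem m1_nm2 {F : Type} [Field F] [NumberField F] (w : Pl F) : (2 : ℝ) ≤ (nm w : ℝ) := by
  exact_mod_cast one_lt_nm w

/-- multiples of an ideal -/
private theorem m1_mul {F : Type} [Field F] [NumberField F] {𝔞 : Ideal (𝓞 F)} (h𝔞 : 𝔞 ≠ ⊥) {x : ℝ}
    (hx : 0 ≤ x) : ((IN F x).filter fun I => 𝔞 ∣ I).card = (IN F (x / Ideal.absNorm 𝔞)).card := by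
  have hn : (0 : ℝ) < (Ideal.absNorm 𝔞 : ℝ) := by linarith [m1_npos h𝔞]
  have hx' : 0 ≤ x / (Ideal.absNorm 𝔞 : ℝ) := by positivity
  symm
  apply Finset.card_bij (fun J _ => 𝔞 * J)
  · intro J hJ
    rw [mem_IN hx'] at hJ
    rw [Finset.mem_filter, mem_IN hx]
    refine ⟨⟨?_, ?_⟩, dvd_mul_right _ _⟩
    · rw [map_mul, Nat.cast_mul]
      have := (le_div_iff₀ hn).1 hJ.1
      linarith
    · rw [Ne, Ideal.mul_eq_bot, not_or]
      exact ⟨h𝔞, hJ.2⟩
  · intro J _ J' _ h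
    exact mul_left_cancel₀ (by rw [Ne, Ideal.zero_eq_bot]; exact h𝔞) h
  · intro I hI
    rw [Finset.mem_filter, mem_IN hx] at hI
    obtain ⟨⟨h1, h2⟩, J, hJ⟩ := hI
    refine ⟨J, ?_, hJ.symm⟩
    rw [mem_IN hx']
    refine ⟨?_, ?_⟩
    · rw [le_div_iff₀ hn]
      rw [hJ, map_mul, Nat.cast_mul] at h1
      linarith
    · rintro rfl
      rw [Ideal.mul_bot] at hJ
      exact h2 hJ

private theorem m1_cnt {F : Type} [Field F] [NumberField F] (w : Pl F) (j : ℕ) (I : Ideal (𝓞 F))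
    (hI : I ≠ 0) : w.asIdeal ^ j ∣ I ↔
      j ≤ (UniqueFactorizationMonoid.normalizedFactors I).count w.asIdeal := by
  have hirr : Irreducible w.asIdeal := w.prime.irreducible
  rw [pow_dvd_iff_le_emultiplicity,
    UniqueFactorizationMonoid.le_emultiplicity_iff_replicate_le_normalizedFactors hirr hI,
    normalize_eq, Multiset.le_count_iff_replicate_le]

private theorem m1_lmul {F : Type} [Field F] [NumberField F] (s : Multiset (Ideal (𝓞 F)))
    (hs : ∀ P ∈ s, P ≠ ⊥) : Real.log (Ideal.absNorm s.prod : ℝ) =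
      (s.map fun P => Real.log (Ideal.absNorm P : ℝ)).sum := by
  induction s using Multiset.induction_on with
  | empty => simp
  | cons P s ih =>
    have h1 : ∀ Q ∈ s, Q ≠ ⊥ := fun Q hQ => hs Q (Multiset.mem_cons_of_mem hQ)
    have h2 : s.prod ≠ ⊥ := by
      intro h
      have h3 : (0 : Ideal (𝓞 F)) ∈ s := Multiset.prod_eq_zero_iff.1 h
      exact h1 _ h3 rfl
    have h3 := m1_npos (hs P (Multiset.mem_cons_self P s))
    have h4 := m1_npos h2
    rw [Multiset.prod_cons, map_mul, Nat.cast_mul, Real.log_mul (by linarith) (by linarith), ih h1,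
      Multiset.map_cons, Multiset.sum_cons]

/-- the logarithm of the norm -/
private theorem m1_log {F : Type} [Field F] [NumberField F] {x : ℝ} {T : Finset (Pl F)}
    (hT : ∀ w, w ∈ T ↔ (nm w : ℝ) ≤ x) {I : Ideal (𝓞 F)} (hI : I ≠ ⊥)
    (hIx : (Ideal.absNorm I : ℝ) ≤ x) : Real.log (Ideal.absNorm I : ℝ) =
      ∑ w ∈ T, ∑ j ∈ Finset.Icc 1 ⌊x⌋₊, if w.asIdeal ^ j ∣ I then Real.log (nm w) else 0 := by
  have hI0 : I ≠ 0 := hI
  have hdvd : ∀ P : Ideal (𝓞 F), P ∣ I → (Ideal.absNorm P : ℝ) ≤ x := by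
    intro P hP
    refine le_trans ?_ hIx
    have h1 : Ideal.absNorm P ∣ Ideal.absNorm I := map_dvd Ideal.absNorm hP
    have h2 : 0 < Ideal.absNorm I := by
      have := m1_npos hI
      have : (0 : ℝ) < (Ideal.absNorm I : ℝ) := by linarith
      exact_mod_cast this
    exact_mod_cast Nat.le_of_dvd h2 h1
  have hj : ∀ (w : Pl F), ∑ j ∈ Finset.Icc 1 ⌊x⌋₊, (if w.asIdeal ^ j ∣ I then Real.log (nm w) else 0) =
      ((UniqueFactorizationMonoid.normalizedFactors I).count w.asIdeal : ℝ) * Real.log (nm w) := by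
    intro w
    obtain ⟨c, hc⟩ : ∃ c, c = (UniqueFactorizationMonoid.normalizedFactors I).count w.asIdeal :=
      ⟨_, rfl⟩
    have h1 : w.asIdeal ^ c ∣ I := (m1_cnt w c I hI0).2 hc.le
    have h2 : c ≤ ⌊x⌋₊ := by
      apply Nat.le_floor
      have h3 := hdvd _ h1
      rw [map_pow, Nat.cast_pow] at h3
      refine le_trans ?_ h3
      have h4 : (c : ℝ) ≤ 2 ^ c := by
        exact_mod_cast Nat.lt_two_pow_self.le
      exact h4.trans (pow_le_pow_left₀ (by norm_num) (m1_nm2 w) c)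
    have h3 : (Finset.Icc 1 ⌊x⌋₊).filter (fun j => w.asIdeal ^ j ∣ I) = Finset.Icc 1 c := by
      ext j
      rw [Finset.mem_filter, Finset.mem_Icc, Finset.mem_Icc, m1_cnt w j I hI0, ← hc]
      constructor
      · rintro ⟨⟨h5, _⟩, h6⟩
        exact ⟨h5, h6⟩
      · rintro ⟨h5, h6⟩
        exact ⟨⟨h5, h6.trans h2⟩, h6⟩
    rw [← Finset.sum_filter, h3, Finset.sum_const, Nat.card_Icc, add_tsub_cancel_right,
      nsmul_eq_mul, ← hc]
  rw [Finset.sum_congr rfl fun w _ => hj w]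
  have hne : ∀ P ∈ UniqueFactorizationMonoid.normalizedFactors I, P ≠ ⊥ := by
    intro P hP
    exact (UniqueFactorizationMonoid.prime_of_normalized_factor P hP).ne_zero
  have h1 := m1_lmul (UniqueFactorizationMonoid.normalizedFactors I) hne
  rw [Ideal.prod_normalizedFactors_eq_self hI, Finset.sum_multiset_map_count] at h1
  rw [h1]
  have hinj : Set.InjOn (fun w : Pl F => w.asIdeal) (T : Set (Pl F)) := by
    intro a _ b _ hab
    exact HeightOneSpectrum.ext hab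
  have h2 : ∑ w ∈ T, ((UniqueFactorizationMonoid.normalizedFactors I).count w.asIdeal : ℝ) *
      Real.log (nm w) = ∑ P ∈ T.image fun w : Pl F => w.asIdeal,
        (UniqueFactorizationMonoid.normalizedFactors I).count P • Real.log (Ideal.absNorm P : ℝ) := by
    rw [Finset.sum_image hinj]
    refine Finset.sum_congr rfl fun w _ => ?_
    rw [nsmul_eq_mul]
    rfl
  rw [h2]
  refine Finset.sum_subset ?_ ?_
  · intro P hP
    rw [Multiset.mem_toFinset] at hP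
    have h3 := UniqueFactorizationMonoid.prime_of_normalized_factor P hP
    rw [Finset.mem_image]
    refine ⟨⟨P, Ideal.isPrime_of_prime h3, h3.ne_zero⟩, ?_, rfl⟩
    rw [hT]
    exact hdvd P (UniqueFactorizationMonoid.dvd_of_mem_normalizedFactors hP)
  · intro P _ hP
    rw [Multiset.mem_toFinset] at hP
    rw [Multiset.count_eq_zero_of_notMem hP, zero_smul]

/-- dyadic summation -/
private theorem m1_dya {F : Type} [Field F] [NumberField F] {C : ℝ}
    (hC : ∀ (x : ℝ), 1 ≤ x → ∀ T : Finset (Pl F), (∀ w ∈ T, (nm w : ℝ) ≤ x) →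
      ∑ w ∈ T, Real.log (nm w) ≤ C * x) {x : ℝ} (_hx : 1 ≤ x) (T : Finset (Pl F))
    (hT : ∀ w ∈ T, (nm w : ℝ) ≤ x) (ψ : Pl F → ℝ) (g : ℕ → ℝ) (hg : ∀ i, 0 ≤ g i)
    (hψ : ∀ w ∈ T, ψ w ≤ g (Nat.log 2 (nm w))) :
    ∑ w ∈ T, Real.log (nm w) * ψ w ≤
      ∑ i ∈ Finset.range (Nat.log 2 ⌊x⌋₊ + 1), C * 2 ^ (i + 1) * g i := by
  have hmaps : ∀ w ∈ T, Nat.log 2 (nm w) ∈ Finset.range (Nat.log 2 ⌊x⌋₊ + 1) := by
    intro w hw
    rw [Finset.mem_range, Nat.lt_succ_iff]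
    exact Nat.log_mono_right (Nat.le_floor (hT w hw))
  rw [← Finset.sum_fiberwise_of_maps_to hmaps]
  refine Finset.sum_le_sum fun i _ => ?_
  have h1 : ∑ w ∈ T with Nat.log 2 (nm w) = i, Real.log (nm w) * ψ w ≤
      ∑ w ∈ T with Nat.log 2 (nm w) = i, Real.log (nm w) * g i := by
    refine Finset.sum_le_sum fun w hw => ?_
    rw [Finset.mem_filter] at hw
    refine mul_le_mul_of_nonneg_left ?_ (Real.log_natCast_nonneg _)
    have := hψ w hw.1
    rwa [hw.2] at this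
  refine h1.trans ?_
  rw [← Finset.sum_mul]
  refine mul_le_mul_of_nonneg_right ?_ (hg i)
  refine hC (2 ^ (i + 1)) (one_le_pow₀ (by norm_num)) _ ?_
  intro w hw
  rw [Finset.mem_filter] at hw
  have h2 : nm w < 2 ^ (Nat.log 2 (nm w) + 1) := Nat.lt_pow_succ_log_self (by norm_num) _
  rw [hw.2] at h2
  exact_mod_cast h2.le

private theorem m1_two (w : ℕ) (hw : w ≠ 0) : (2 : ℝ) ^ (Nat.log 2 w) ≤ w := by
  exact_mod_cast Nat.pow_log_le_self 2 hw

private theorem m1_geo (n : ℕ) : ∑ i ∈ Finset.range n, (1 / 2 : ℝ) ^ i ≤ 2 := by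
  have h1 := sum_geometric_two_le n
  exact h1

/-- the sum of `log nm / nm²` -/
private theorem m1_sq {F : Type} [Field F] [NumberField F] {C : ℝ} (hC1 : 1 ≤ C)
    (hC : ∀ (x : ℝ), 1 ≤ x → ∀ T : Finset (Pl F), (∀ w ∈ T, (nm w : ℝ) ≤ x) →
      ∑ w ∈ T, Real.log (nm w) ≤ C * x) {x : ℝ} (hx : 1 ≤ x) (T : Finset (Pl F))
    (hT : ∀ w ∈ T, (nm w : ℝ) ≤ x) :
    ∑ w ∈ T, Real.log (nm w) * (1 / (nm w : ℝ) ^ 2) ≤ 4 * C := by
  have h1 := m1_dya hC hx T hT (fun w => 1 / (nm w : ℝ) ^ 2) (fun i => 1 / ((2 : ℝ) ^ i) ^ 2)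
    (fun i => by positivity) (fun w _ => by
      have h2 := m1_two (nm w) (by have := one_lt_nm w; omega)
      have h3 : (0 : ℝ) < 2 ^ Nat.log 2 (nm w) := by positivity
      exact one_div_le_one_div_of_le (by positivity) (pow_le_pow_left₀ h3.le h2 2))
  refine h1.trans ?_
  have h2 : ∀ i : ℕ, C * 2 ^ (i + 1) * (1 / ((2 : ℝ) ^ i) ^ 2) = 2 * C * (1 / 2 : ℝ) ^ i := by
    intro i
    have h3 : (0 : ℝ) < 2 ^ i := by positivity
    rw [one_div_pow, pow_succ]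
    field_simp
  rw [Finset.sum_congr rfl fun i _ => h2 i, ← Finset.mul_sum]
  have h3 := m1_geo (Nat.log 2 ⌊x⌋₊ + 1)
  nlinarith

/-- the error term -/
private theorem m1_err {F : Type} [Field F] [NumberField F] {C : ℝ} (hC1 : 1 ≤ C)
    (hC : ∀ (x : ℝ), 1 ≤ x → ∀ T : Finset (Pl F), (∀ w ∈ T, (nm w : ℝ) ≤ x) →
      ∑ w ∈ T, Real.log (nm w) ≤ C * x) {δ : ℝ} (hδ : 0 < δ) (hδ1 : δ < 1) {x : ℝ} (hx : 1 ≤ x)
    (T : Finset (Pl F)) (hT : ∀ w ∈ T, (nm w : ℝ) ≤ x) :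
    ∑ w ∈ T, Real.log (nm w) * (x / (nm w : ℝ)) ^ (1 - δ) ≤
      (2 * C * ((2 : ℝ) ^ δ / ((2 : ℝ) ^ δ - 1))) * x := by
  have hx0 : 0 < x := by linarith
  have hq : 1 < (2 : ℝ) ^ δ := Real.one_lt_rpow (by norm_num) hδ
  have h1 := m1_dya hC hx T hT (fun w => (x / (nm w : ℝ)) ^ (1 - δ))
    (fun i => (x / (2 : ℝ) ^ i) ^ (1 - δ))
    (fun i => by positivity) (fun w _ => by
      have h2 := m1_two (nm w) (by have := one_lt_nm w; omega)
      have h3 : (0 : ℝ) < 2 ^ Nat.log 2 (nm w) := by positivity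
      have h4 := m1_nm2 w
      refine Real.rpow_le_rpow (by positivity) ?_ (by linarith)
      exact div_le_div_of_nonneg_left hx0.le h3 h2)
  refine h1.trans ?_
  obtain ⟨n, hn⟩ : ∃ n, n = Nat.log 2 ⌊x⌋₊ := ⟨_, rfl⟩
  rw [← hn]
  have hn2 : (2 : ℝ) ^ n ≤ x := by
    have h2 : 2 ^ n ≤ ⌊x⌋₊ := by
      rw [hn]
      exact Nat.pow_log_le_self 2 (by
        have : 1 ≤ ⌊x⌋₊ := Nat.le_floor (by exact_mod_cast hx)
        omega)
    calc (2 : ℝ) ^ n ≤ (⌊x⌋₊ : ℝ) := by exact_mod_cast h2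
      _ ≤ x := Nat.floor_le hx0.le
  have h2 : ∀ i : ℕ, C * 2 ^ (i + 1) * (x / (2 : ℝ) ^ i) ^ (1 - δ) =
      2 * C * x ^ (1 - δ) * ((2 : ℝ) ^ δ) ^ i := by
    intro i
    have h3 : (0 : ℝ) < 2 ^ i := by positivity
    have h4 : ((2 : ℝ) ^ i) ^ (1 - δ) = 2 ^ i / ((2 : ℝ) ^ δ) ^ i := by
      rw [Real.rpow_sub h3, Real.rpow_one, ← Real.rpow_natCast, ← Real.rpow_natCast,
        ← Real.rpow_mul (by norm_num), ← Real.rpow_mul (by norm_num), mul_comm (i : ℝ) δ]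
    have h5 : (0 : ℝ) < ((2 : ℝ) ^ δ) ^ i := by positivity
    rw [Real.div_rpow hx0.le h3.le, h4, pow_succ]
    field_simp
  rw [Finset.sum_congr rfl fun i _ => h2 i, ← Finset.mul_sum, geom_sum_eq hq.ne']
  have hq0 : 0 < (2 : ℝ) ^ δ - 1 := by linarith
  have h3 : ((2 : ℝ) ^ δ) ^ (n + 1) ≤ (2 : ℝ) ^ δ * x ^ δ := by
    rw [pow_succ, mul_comm]
    refine mul_le_mul_of_nonneg_left ?_ (by positivity)
    have h4 : ((2 : ℝ) ^ δ) ^ n = ((2 : ℝ) ^ n) ^ δ := by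
      rw [← Real.rpow_natCast, ← Real.rpow_natCast, ← Real.rpow_mul (by norm_num),
        ← Real.rpow_mul (by norm_num), mul_comm]
    rw [h4]
    exact Real.rpow_le_rpow (by positivity) hn2 hδ.le
  have h4 : x ^ (1 - δ) * x ^ δ = x := by
    rw [← Real.rpow_add hx0, sub_add_cancel, Real.rpow_one]
  have h5 : (0 : ℝ) < x ^ (1 - δ) := by positivity
  calc 2 * C * x ^ (1 - δ) * ((((2 : ℝ) ^ δ) ^ (n + 1) - 1) / ((2 : ℝ) ^ δ - 1))
      ≤ 2 * C * x ^ (1 - δ) * (((2 : ℝ) ^ δ * x ^ δ) / ((2 : ℝ) ^ δ - 1)) := by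
        refine mul_le_mul_of_nonneg_left ?_ (by positivity)
        refine div_le_div_of_nonneg_right ?_ hq0.le
        linarith
    _ = (2 * C * ((2 : ℝ) ^ δ / ((2 : ℝ) ^ δ - 1))) * (x ^ (1 - δ) * x ^ δ) := by ring
    _ = _ := by rw [h4]

/-- an upper bound for the number of ideals -/
private theorem m1_ub {F : Type} [Field F] [NumberField F] {κ C₀ δ : ℝ} (hκ : 0 < κ) (hC₀ : 0 < C₀)
    (hδ : 0 < δ) (hc : ∀ y : ℝ, 1 ≤ y → |((IN F y).card : ℝ) - κ * y| ≤ C₀ * y ^ (1 - δ)) (y : ℝ)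
    (hy : 0 ≤ y) : ((IN F y).card : ℝ) ≤ (κ + C₀) * y := by
  rcases lt_or_ge y 1 with h | h
  · have h1 : IN F y = ∅ := by
      rw [Finset.eq_empty_iff_forall_notMem]
      intro J hJ
      rw [mem_IN hy] at hJ
      have := m1_npos hJ.2
      linarith [hJ.1]
    rw [h1, Finset.card_empty, Nat.cast_zero]
    positivity
  · have h1 := (abs_le.1 (hc y h)).2
    have h2 : y ^ (1 - δ) ≤ y := by
      calc y ^ (1 - δ) ≤ y ^ (1 : ℝ) := Real.rpow_le_rpow_of_exponent_le h (by linarith)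
        _ = y := Real.rpow_one y
    nlinarith

/-- the sum of the `log (x / N I)` -/
private theorem m1_low {F : Type} [Field F] [NumberField F] {C₁ : ℝ} (hC₁ : 0 < C₁)
    (hc : ∀ y : ℝ, 0 ≤ y → ((IN F y).card : ℝ) ≤ C₁ * y) {x : ℝ} (hx : 1 ≤ x) :
    ∑ I ∈ IN F x, (Real.log x - Real.log (Ideal.absNorm I : ℝ)) ≤ 2 * Real.log 2 * C₁ * x := by
  have hx0 : 0 < x := by linarith
  have hl2 : 0 < Real.log 2 := Real.log_pos (by norm_num)
  obtain ⟨n, hn⟩ : ∃ n, n = Nat.log 2 ⌊x⌋₊ + 1 := ⟨_, rfl⟩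
  have h1 : ∀ I ∈ IN F x, Real.log x - Real.log (Ideal.absNorm I : ℝ) ≤
      ∑ i ∈ Finset.range n, if I ∈ IN F (x / 2 ^ i) then Real.log 2 else 0 := by
    intro I hI
    rw [mem_IN hx0.le] at hI
    have hN := m1_npos hI.2
    have hN0 : (0 : ℝ) < (Ideal.absNorm I : ℝ) := by linarith
    rw [← Real.log_div hx0.ne' hN0.ne']
    obtain ⟨t, ht⟩ : ∃ t, t = x / (Ideal.absNorm I : ℝ) := ⟨_, rfl⟩
    have ht1 : 1 ≤ t := by
      rw [ht, le_div_iff₀ hN0]
      linarith [hI.1]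
    have htx : t ≤ x := by
      rw [ht]
      exact div_le_self hx0.le hN
    rw [← ht]
    obtain ⟨m, hm⟩ : ∃ m, m = Nat.log 2 ⌊t⌋₊ := ⟨_, rfl⟩
    have hft : 1 ≤ ⌊t⌋₊ := Nat.le_floor (by exact_mod_cast ht1)
    have hm1 : (2 : ℝ) ^ m ≤ t := by
      have h2 : 2 ^ m ≤ ⌊t⌋₊ := by
        rw [hm]
        exact Nat.pow_log_le_self 2 (by omega)
      calc (2 : ℝ) ^ m ≤ (⌊t⌋₊ : ℝ) := by exact_mod_cast h2
        _ ≤ t := Nat.floor_le (by linarith)
    have hm2 : t ≤ (2 : ℝ) ^ (m + 1) := by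
      have h2 : ⌊t⌋₊ < 2 ^ (m + 1) := by
        rw [hm]
        exact Nat.lt_pow_succ_log_self (by norm_num) _
      have h3 := Nat.lt_floor_add_one t
      have h4 : (⌊t⌋₊ : ℝ) + 1 ≤ (2 : ℝ) ^ (m + 1) := by exact_mod_cast h2
      linarith
    have hmn : m + 1 ≤ n := by
      rw [hm, hn]
      have h2 : Nat.log 2 ⌊t⌋₊ ≤ Nat.log 2 ⌊x⌋₊ := Nat.log_mono_right (Nat.floor_mono htx)
      omega
    have h2 : Finset.range (m + 1) ⊆ (Finset.range n).filter fun i => I ∈ IN F (x / 2 ^ i) := by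
      intro i hi
      rw [Finset.mem_range] at hi
      rw [Finset.mem_filter, Finset.mem_range, mem_IN (by positivity)]
      refine ⟨by omega, ?_, hI.2⟩
      rw [le_div_iff₀ (by positivity)]
      have h3 : (2 : ℝ) ^ i ≤ 2 ^ m := pow_le_pow_right₀ (by norm_num) (by omega)
      have h4 : (2 : ℝ) ^ i ≤ t := h3.trans hm1
      rw [ht, le_div_iff₀ hN0] at h4
      linarith
    rw [← Finset.sum_filter, Finset.sum_const, nsmul_eq_mul]
    have h3 := Finset.card_le_card h2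
    rw [Finset.card_range] at h3
    have h4 : Real.log t ≤ ((m + 1 : ℕ) : ℝ) * Real.log 2 := by
      rw [← Real.log_pow]
      exact Real.log_le_log (by linarith) hm2
    refine h4.trans (mul_le_mul_of_nonneg_right ?_ hl2.le)
    exact_mod_cast h3
  refine (Finset.sum_le_sum h1).trans ?_
  rw [Finset.sum_comm]
  have h2 : ∀ i ∈ Finset.range n, ∑ I ∈ IN F x, (if I ∈ IN F (x / 2 ^ i) then Real.log 2 else 0) ≤
      Real.log 2 * C₁ * x * (1 / 2 : ℝ) ^ i := by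
    intro i _
    rw [← Finset.sum_filter, Finset.sum_const, nsmul_eq_mul]
    have h3 : ((IN F x).filter fun I => I ∈ IN F (x / 2 ^ i)).card ≤ (IN F (x / 2 ^ i)).card := by
      refine Finset.card_le_card ?_
      intro I hI
      exact (Finset.mem_filter.1 hI).2
    have h4 : (((IN F x).filter fun I => I ∈ IN F (x / 2 ^ i)).card : ℝ) ≤ C₁ * (x / 2 ^ i) := by
      refine le_trans ?_ (hc (x / 2 ^ i) (by positivity))
      exact_mod_cast h3
    calc (((IN F x).filter fun I => I ∈ IN F (x / 2 ^ i)).card : ℝ) * Real.log 2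
        ≤ (C₁ * (x / 2 ^ i)) * Real.log 2 := mul_le_mul_of_nonneg_right h4 hl2.le
      _ = Real.log 2 * C₁ * x * (1 / 2 : ℝ) ^ i := by
        rw [one_div_pow]
        ring
  refine (Finset.sum_le_sum h2).trans ?_
  rw [← Finset.mul_sum]
  have h3 := m1_geo n
  have h4 : 0 ≤ Real.log 2 * C₁ * x := by positivity
  nlinarith

/-- the double counting -/
private theorem m1_sum {F : Type} [Field F] [NumberField F] {x : ℝ} (hx : 0 ≤ x) {T : Finset (Pl F)}
    (hT : ∀ w, w ∈ T ↔ (nm w : ℝ) ≤ x) : ∑ I ∈ IN F x, Real.log (Ideal.absNorm I : ℝ) =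
      ∑ w ∈ T, Real.log (nm w) *
        ∑ j ∈ Finset.Icc 1 ⌊x⌋₊, ((IN F (x / (nm w : ℝ) ^ j)).card : ℝ) := by
  have h1 : ∀ I ∈ IN F x, Real.log (Ideal.absNorm I : ℝ) =
      ∑ w ∈ T, ∑ j ∈ Finset.Icc 1 ⌊x⌋₊, if w.asIdeal ^ j ∣ I then Real.log (nm w) else 0 := by
    intro I hI
    rw [mem_IN hx] at hI
    exact m1_log hT hI.2 hI.1
  rw [Finset.sum_congr rfl h1, Finset.sum_comm]
  refine Finset.sum_congr rfl fun w _ => ?_
  rw [Finset.sum_comm, Finset.mul_sum]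
  refine Finset.sum_congr rfl fun j _ => ?_
  rw [← Finset.sum_filter, Finset.sum_const, nsmul_eq_mul, mul_comm]
  congr 1
  have h2 := m1_mul (F := F) (𝔞 := w.asIdeal ^ j) (by
    rw [← Ideal.zero_eq_bot]
    exact pow_ne_zero _ w.ne_bot) hx
  rw [h2, map_pow, Nat.cast_pow]
  rfl

theorem mf1 (F : Type) [Field F] [NumberField F] : ∃ C : ℝ, 1 ≤ C ∧ ∀ (x : ℝ), 1 ≤ x →
    ∀ T : Finset (Pl F), (∀ w, w ∈ T ↔ (nm w : ℝ) ≤ x) →
      |∑ w ∈ T, Real.log (nm w) / (nm w : ℝ) - Real.log x| ≤ C := by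
  obtain ⟨κ, C₀, δ, hκ, hC₀, hδ, hδ1, hc⟩ := cnt F
  obtain ⟨C, hC1, hC⟩ := mf_up F
  have hub := m1_ub hκ hC₀ hδ hc
  have hl2 : 0 < Real.log 2 := Real.log_pos (by norm_num)
  have hq : 1 < (2 : ℝ) ^ δ := Real.one_lt_rpow (by norm_num) hδ
  have hq0 : 0 < (2 : ℝ) ^ δ - 1 := by linarith
  obtain ⟨E, hE⟩ : ∃ E, E = 2 * C * ((2 : ℝ) ^ δ / ((2 : ℝ) ^ δ - 1)) := ⟨_, rfl⟩
  have hE0 : 0 ≤ E := by
    rw [hE]
    positivity
  obtain ⟨B, hB⟩ : ∃ B, B = C₀ / δ + C₀ * E + 2 * Real.log 2 * (κ + C₀) +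
      8 * C * (κ + C₀) := ⟨_, rfl⟩
  have hB0 : 0 ≤ B := by
    rw [hB]
    positivity
  refine ⟨1 + B / κ, by have := div_nonneg hB0 hκ.le; linarith, fun x hx T hT => ?_⟩
  have hx0 : 0 < x := by linarith
  have hlx : 0 ≤ Real.log x := Real.log_nonneg hx
  have hT' : ∀ w ∈ T, (nm w : ℝ) ≤ x := fun w hw => (hT w).1 hw
  obtain ⟨A, hA⟩ : ∃ A, A = ∑ w ∈ T, Real.log (nm w) / (nm w : ℝ) := ⟨_, rfl⟩
  rw [← hA]
  obtain ⟨S, hS⟩ : ∃ S, S = ∑ I ∈ IN F x, Real.log (Ideal.absNorm I : ℝ) := ⟨_, rfl⟩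
  have hS1 := m1_sum hx0.le hT
  rw [← hS] at hS1
  have herr := m1_err hC1 hC hδ hδ1 hx T hT'
  rw [← hE] at herr
  have hsq := m1_sq hC1 hC hx T hT'
  have hxl : x ^ (1 - δ) * Real.log x ≤ x / δ := by
    have h1 := Real.log_le_rpow_div hx0.le hδ
    have h2 : (0 : ℝ) < x ^ (1 - δ) := by positivity
    calc x ^ (1 - δ) * Real.log x ≤ x ^ (1 - δ) * (x ^ δ / δ) :=
          mul_le_mul_of_nonneg_left h1 h2.le
      _ = (x ^ (1 - δ) * x ^ δ) / δ := by ring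
      _ = x / δ := by rw [← Real.rpow_add hx0, sub_add_cancel, Real.rpow_one]
  have hNx := abs_le.1 (hc x hx)
  have hfl : 1 ≤ ⌊x⌋₊ := Nat.le_floor (by exact_mod_cast hx)
  -- the main term
  have hmain : κ * x * A = ∑ w ∈ T, Real.log (nm w) * (κ * (x / (nm w : ℝ))) := by
    rw [hA, Finset.mul_sum]
    refine Finset.sum_congr rfl fun w _ => ?_
    ring
  have hw1 : ∀ w ∈ T, 1 ≤ x / (nm w : ℝ) := by
    intro w hw
    have := m1_nm2 w
    rw [le_div_iff₀ (by linarith)]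
    linarith [hT' w hw]
  have hcw : ∀ w ∈ T, |((IN F (x / (nm w : ℝ))).card : ℝ) - κ * (x / (nm w : ℝ))| ≤
      C₀ * (x / (nm w : ℝ)) ^ (1 - δ) := fun w hw => hc _ (hw1 w hw)
  -- upper bound for `A`
  have hup : κ * x * A ≤ S + C₀ * (E * x) := by
    rw [hmain, hS1]
    have h1 : ∑ w ∈ T, Real.log (nm w) * (κ * (x / (nm w : ℝ))) ≤
        ∑ w ∈ T, (Real.log (nm w) *
          ∑ j ∈ Finset.Icc 1 ⌊x⌋₊, ((IN F (x / (nm w : ℝ) ^ j)).card : ℝ) +
            C₀ * (Real.log (nm w) * (x / (nm w : ℝ)) ^ (1 - δ))) := by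
      refine Finset.sum_le_sum fun w hw => ?_
      have h2 := (abs_le.1 (hcw w hw)).1
      have h3 : ((IN F (x / (nm w : ℝ))).card : ℝ) ≤
          ∑ j ∈ Finset.Icc 1 ⌊x⌋₊, ((IN F (x / (nm w : ℝ) ^ j)).card : ℝ) := by
        have h4 := Finset.single_le_sum (f := fun j => ((IN F (x / (nm w : ℝ) ^ j)).card : ℝ))
          (s := Finset.Icc 1 ⌊x⌋₊) (fun i _ => Nat.cast_nonneg _) (Finset.mem_Icc.2 ⟨le_refl 1, hfl⟩)
        simp only [pow_one] at h4
        exact h4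
      have h4 : 0 ≤ Real.log (nm w : ℝ) := Real.log_natCast_nonneg _
      nlinarith [mul_le_mul_of_nonneg_left (by linarith : κ * (x / (nm w : ℝ)) ≤
        ∑ j ∈ Finset.Icc 1 ⌊x⌋₊, ((IN F (x / (nm w : ℝ) ^ j)).card : ℝ) +
          C₀ * (x / (nm w : ℝ)) ^ (1 - δ)) h4]
    rw [Finset.sum_add_distrib, ← Finset.mul_sum] at h1
    have h2 := mul_le_mul_of_nonneg_left herr hC₀.le
    linarith
  have hSup : S ≤ κ * x * Real.log x + C₀ * (x / δ) := by
    have h1 : S ≤ ((IN F x).card : ℝ) * Real.log x := by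
      rw [hS, ← nsmul_eq_mul]
      refine Finset.sum_le_card_nsmul _ _ _ fun I hI => ?_
      rw [mem_IN hx0.le] at hI
      have := m1_npos hI.2
      exact Real.log_le_log (by linarith) hI.1
    have h2 : ((IN F x).card : ℝ) * Real.log x ≤ (κ * x + C₀ * x ^ (1 - δ)) * Real.log x :=
      mul_le_mul_of_nonneg_right (by linarith [hNx.2]) hlx
    have h3 := mul_le_mul_of_nonneg_left hxl hC₀.le
    nlinarith
  -- lower bound for `S`
  have hSlo : κ * x * Real.log x - C₀ * (x / δ) - 2 * Real.log 2 * (κ + C₀) * x ≤ S := by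
    have h1 := m1_low (F := F) (C₁ := κ + C₀) (by linarith) hub hx
    rw [Finset.sum_sub_distrib, Finset.sum_const, nsmul_eq_mul, ← hS] at h1
    have h2 : (κ * x - C₀ * x ^ (1 - δ)) * Real.log x ≤ ((IN F x).card : ℝ) * Real.log x :=
      mul_le_mul_of_nonneg_right (by linarith [hNx.1]) hlx
    have h3 := mul_le_mul_of_nonneg_left hxl hC₀.le
    nlinarith
  -- upper bound for `S`
  have hSA : S ≤ κ * x * A + C₀ * (E * x) + 8 * C * (κ + C₀) * x := by
    rw [hmain, hS1]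
    have h1 : ∑ w ∈ T, Real.log (nm w) *
          ∑ j ∈ Finset.Icc 1 ⌊x⌋₊, ((IN F (x / (nm w : ℝ) ^ j)).card : ℝ) ≤
        ∑ w ∈ T, (Real.log (nm w) * (κ * (x / (nm w : ℝ))) +
          C₀ * (Real.log (nm w) * (x / (nm w : ℝ)) ^ (1 - δ)) +
            2 * (κ + C₀) * x * (Real.log (nm w) * (1 / (nm w : ℝ) ^ 2))) := by
      refine Finset.sum_le_sum fun w hw => ?_
      have h2 := (abs_le.1 (hcw w hw)).2
      have h4 : 0 ≤ Real.log (nm w : ℝ) := Real.log_natCast_nonneg _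
      have hn2 := m1_nm2 w
      have hn0 : (0 : ℝ) < nm w := by linarith
      have h3 : ∑ j ∈ Finset.Icc 1 ⌊x⌋₊, ((IN F (x / (nm w : ℝ) ^ j)).card : ℝ) ≤
          ((IN F (x / (nm w : ℝ))).card : ℝ) + 2 * (κ + C₀) * x * (1 / (nm w : ℝ) ^ 2) := by
        have e1 : Finset.Icc 1 ⌊x⌋₊ = insert 1 (Finset.Icc 2 ⌊x⌋₊) := by
          ext j
          rw [Finset.mem_insert, Finset.mem_Icc, Finset.mem_Icc]
          omega
        rw [e1, Finset.sum_insert (by rw [Finset.mem_Icc]; omega), pow_one]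
        have e2 : ∑ j ∈ Finset.Icc 2 ⌊x⌋₊, ((IN F (x / (nm w : ℝ) ^ j)).card : ℝ) ≤
            ∑ j ∈ Finset.Icc 2 ⌊x⌋₊,
              ((κ + C₀) * x * (1 / (nm w : ℝ) ^ 2)) * (1 / 2 : ℝ) ^ (j - 2) := by
          refine Finset.sum_le_sum fun j hj => ?_
          rw [Finset.mem_Icc] at hj
          refine (hub _ (by positivity)).trans ?_
          obtain ⟨i, rfl⟩ : ∃ i, j = i + 2 := ⟨j - 2, by omega⟩
          rw [Nat.add_sub_cancel, pow_add]
          have e3 : 1 / (nm w : ℝ) ^ i ≤ (1 / 2 : ℝ) ^ i := by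
            rw [one_div_pow]
            exact one_div_le_one_div_of_le (by positivity) (pow_le_pow_left₀ (by norm_num) hn2 i)
          have e4 : 0 ≤ (κ + C₀) * x * (1 / (nm w : ℝ) ^ 2) := by positivity
          calc (κ + C₀) * (x / ((nm w : ℝ) ^ i * (nm w : ℝ) ^ 2))
              = ((κ + C₀) * x * (1 / (nm w : ℝ) ^ 2)) * (1 / (nm w : ℝ) ^ i) := by
                field_simp
            _ ≤ _ := mul_le_mul_of_nonneg_left e3 e4
        have e5 : ∑ j ∈ Finset.Icc 2 ⌊x⌋₊, (1 / 2 : ℝ) ^ (j - 2) ≤ 2 := by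
          have e6 : ∑ j ∈ Finset.Icc 2 ⌊x⌋₊, (1 / 2 : ℝ) ^ (j - 2) ≤
              ∑ i ∈ Finset.range ⌊x⌋₊, (1 / 2 : ℝ) ^ i := by
            rw [← Finset.sum_image (s := Finset.Icc 2 ⌊x⌋₊) (g := fun j => j - 2)
              (f := fun i => (1 / 2 : ℝ) ^ i)]
            · refine Finset.sum_le_sum_of_subset_of_nonneg ?_ fun i _ _ => by positivity
              intro i hi
              rw [Finset.mem_image] at hi
              obtain ⟨j, hj, rfl⟩ := hi
              rw [Finset.mem_Icc] at hj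
              rw [Finset.mem_range]
              omega
            · intro a ha b hb hab
              have ha' := Finset.mem_Icc.1 (Finset.mem_coe.1 ha)
              have hb' := Finset.mem_Icc.1 (Finset.mem_coe.1 hb)
              simp only at hab
              omega
          exact e6.trans (m1_geo _)
        rw [← Finset.mul_sum] at e2
        have e6 : 0 ≤ (κ + C₀) * x * (1 / (nm w : ℝ) ^ 2) := by positivity
        nlinarith
      have h5 := mul_le_mul_of_nonneg_left (h3.trans (add_le_add_left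
        (by linarith : ((IN F (x / (nm w : ℝ))).card : ℝ) ≤ κ * (x / (nm w : ℝ)) +
          C₀ * (x / (nm w : ℝ)) ^ (1 - δ)) _)) h4
      nlinarith
    rw [Finset.sum_add_distrib, Finset.sum_add_distrib, ← Finset.mul_sum, ← Finset.mul_sum] at h1
    have h2 := mul_le_mul_of_nonneg_left herr hC₀.le
    have h3 := mul_le_mul_of_nonneg_left hsq (by positivity : 0 ≤ 2 * (κ + C₀) * x)
    nlinarith
  have hκx : 0 < κ * x := by positivity
  have hBx : B * x = C₀ * (x / δ) + C₀ * (E * x) + 2 * Real.log 2 * (κ + C₀) * x +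
      8 * C * (κ + C₀) * x := by
    rw [hB]
    ring
  have hfin : ∀ u : ℝ, κ * x * u ≤ B * x → u ≤ 1 + B / κ := by
    intro u hu
    have h1 : κ * u ≤ B := by
      have h2 : (κ * u) * x ≤ B * x := by linarith
      exact le_of_mul_le_mul_right h2 hx0
    have h2 : u ≤ B / κ := by
      rw [le_div_iff₀ hκ]
      linarith
    linarith
  have hp1 : 0 ≤ C₀ * (x / δ) := by positivity
  have hp2 : 0 ≤ C₀ * (E * x) := by positivity
  have hp3 : 0 ≤ 2 * Real.log 2 * (κ + C₀) * x := by positivity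
  have hp4 : 0 ≤ 8 * C * (κ + C₀) * x := by positivity
  rw [abs_le]
  constructor
  · have h1 := hfin (Real.log x - A) (by
      rw [mul_sub, hBx]
      linarith)
    linarith
  · exact hfin (A - Real.log x) (by
      rw [mul_sub, hBx]
      linarith)

end Pool.Agent.H36.FA
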