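import Pool.Agent.H36.FA.Per

/-!
# [H36 FA PEP] Products of periodic functions

`mn_prod`: induction on `s` with `mn_mul`, `per_prod`; different primes are coprime (`Ideal.IsMaximal`, powers: `IsCoprime.pow`, products: `IsCoprime.prod_right`). The
empty product is the ideal `⊤` (`Ideal.one_eq_top`): `𝓞 K ⧸ ⊤` has one element, `absNorm ⊤ = 1`. (`mn_prod` needs `v.asIdeal ^ e v ≠ ⊥`.)
-/

set_option autoImplicit false

open scoped NumberField Classical
open IsDedekindDomain NumberField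

noncomputable section

namespace Pool.Agent.H36.FA

open H63.MA H38.BB H38.BG H77.PC3 H51.SN H57.SL H36.QA H1.LS4 H38.ML

variable {K : Type} [Field K] [NumberField K] {L : Type} [Fintype L]

theorem per_prod (s : Finset (Pl K)) (e : Pl K → ℕ) (f : Pl K → (L → 𝓞 K) → ℝ)
    (hf : ∀ v ∈ s, Per (v.asIdeal ^ e v) (f v)) :
    Per (∏ v ∈ s, v.asIdeal ^ e v) (fun α => ∏ v ∈ s, f v α) := by
  intro α α' h
  refine Finset.prod_congr rfl fun v hv => hf v hv α α' fun o => ?_
  exact Ideal.le_of_dvd (Finset.dvd_prod_of_mem (fun v : Pl K => v.asIdeal ^ e v) hv) (h o)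

theorem mn_prod (s : Finset (Pl K)) (e : Pl K → ℕ) (f : Pl K → (L → 𝓞 K) → ℝ)
    (hf : ∀ v ∈ s, Per (v.asIdeal ^ e v) (f v)) :
    Mn (∏ v ∈ s, v.asIdeal ^ e v) (fun α => ∏ v ∈ s, f v α) =
      ∏ v ∈ s, Mn (v.asIdeal ^ e v) (f v) := by
  induction s using Finset.induction_on with
  | empty =>
    simp only [Finset.prod_empty]
    rw [Ideal.one_eq_top]
    unfold Mn
    have hs : Subsingleton (𝓞 K ⧸ (⊤ : Ideal (𝓞 K))) := Ideal.Quotient.subsingleton_iff.2 rfl
    letI : Unique (L → 𝓞 K ⧸ (⊤ : Ideal (𝓞 K))) := ⟨⟨fun _ => 0⟩, fun _ => Subsingleton.elim _ _⟩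
    rw [finsum_unique, Ideal.absNorm_top]
    simp
  | insert a s ha ih =>
    have hne : ∀ v : Pl K, v.asIdeal ^ e v ≠ ⊥ := fun v => pow_ne_zero _ v.ne_bot
    have hs : ∀ v ∈ s, Per (v.asIdeal ^ e v) (f v) := fun v hv => hf v (Finset.mem_insert_of_mem hv)
    have hc : IsCoprime (a.asIdeal ^ e a) (∏ v ∈ s, v.asIdeal ^ e v) := by
      refine IsCoprime.prod_right fun v hv => ?_
      refine IsCoprime.pow ?_
      have h1 : a.asIdeal ≠ v.asIdeal := by
        intro h
        exact ha ((HeightOneSpectrum.ext h : a = v) ▸ hv)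
      haveI := a.isMaximal
      haveI := v.isMaximal
      exact Ideal.isCoprime_of_isMaximal h1
    have hd : (∏ v ∈ s, v.asIdeal ^ e v) ≠ ⊥ := by
      have h2 : (∏ v ∈ s, v.asIdeal ^ e v) ≠ 0 := Finset.prod_ne_zero_iff.2 fun v _ => hne v
      exact h2
    have h3 := mn_mul (hne a) hd hc (hf a (Finset.mem_insert_self a s)) (per_prod s e f hs)
    rw [Finset.prod_insert ha, Finset.prod_insert ha, ← ih hs, ← h3]
    refine congrArg _ (funext fun α => ?_)
    rw [Finset.prod_insert ha]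

end Pool.Agent.H36.FA
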