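import Mathlib

/-!
# [H36 FA SV] An elementary sieve (only finite sums; no number theory)

`∑_{ω, no b} f = ∑_{d ⊆ R} (-1)^#d ∑_{ω : b ω v for all v ∈ d} f ω` (`∏_{v ∈ R} (1 - 1_b)`, `Finset.prod_one_sub`-type identity or
`Finset.prod_sub` / `Finset.prod_add`). The `d` with `∏ nm ≤ y`: replace by `Y m ∏ β` with error `E` each, their number is at most
`y² ∑_d ∏ nm^(-2) ≤ y² ∏_R (1 + nm^(-2)) ≤ y² exp S`. The `d` with `∏ nm > y`: at most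
`B U ∑ κ^#d / (∏ nm)^2 ≤ B U y^(-1/2) ∑_d κ^#d (∏ nm)^(-3/2) ≤ B U y^(-1/2) exp (κ S)`, and the same for `Y m ∑ ∏ β`, `β ≤ κ / nm²`. Finally
`∑_{d ⊆ R} (-1)^#d ∏ β = ∏_R (1 - β)`. `C₁ = 2 exp ((κ + 1) S)`.
-/

set_option autoImplicit false

open scoped Classical

noncomputable section

namespace Pool.Agent.H36.FA

private lemma sv_ident {V Ω : Type} [DecidableEq V] (R : Finset V) (Ω0 : Finset Ω) (b : Ω → V → Prop)
    (f : Ω → ℝ) :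
    ∑ ω ∈ Ω0.filter (fun ω => ∀ v ∈ R, ¬ b ω v), f ω =
      ∑ d ∈ R.powerset, (-1 : ℝ) ^ d.card * ∑ ω ∈ Ω0.filter (fun ω => ∀ v ∈ d, b ω v), f ω := by
  have h1 : ∀ ω : Ω, (if ∀ v ∈ R, ¬ b ω v then f ω else 0) =
      ∑ d ∈ R.powerset, (-1 : ℝ) ^ d.card * (if ∀ v ∈ d, b ω v then f ω else 0) := by
    intro ω
    have h2 : (if ∀ v ∈ R, ¬ b ω v then f ω else 0) =
        (∏ v ∈ R, (1 + (if b ω v then (-1 : ℝ) else 0))) * f ω := by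
      by_cases hh : ∀ v ∈ R, ¬ b ω v
      · rw [if_pos hh, Finset.prod_eq_one, one_mul]
        intro v hv
        rw [if_neg (hh v hv), add_zero]
      · rw [if_neg hh]
        push Not at hh
        obtain ⟨v, hv, hbv⟩ := hh
        rw [Finset.prod_eq_zero hv, zero_mul]
        rw [if_pos hbv]; norm_num
    rw [h2, Finset.prod_one_add, Finset.sum_mul]
    refine Finset.sum_congr rfl fun d _ => ?_
    rw [Finset.prod_ite_zero, Finset.prod_const]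
    split_ifs with h3
    · rfl
    · simp
  rw [Finset.sum_filter, Finset.sum_congr rfl fun ω _ => h1 ω, Finset.sum_comm]
  refine Finset.sum_congr rfl fun d _ => ?_
  rw [← Finset.mul_sum, Finset.sum_filter]

private lemma sv_prod {V : Type} [DecidableEq V] (R : Finset V) (β : V → ℝ) :
    ∏ v ∈ R, (1 - β v) = ∑ d ∈ R.powerset, (-1 : ℝ) ^ d.card * ∏ v ∈ d, β v := by
  have h1 : ∏ v ∈ R, (1 - β v) = ∏ v ∈ R, (1 + (-1) * β v) :=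
    Finset.prod_congr rfl fun v _ => by ring
  rw [h1, Finset.prod_one_add]
  refine Finset.sum_congr rfl fun d _ => ?_
  rw [Finset.prod_mul_distrib, Finset.prod_const]

private lemma sv_exp {V : Type} [DecidableEq V] (R : Finset V) (g : V → ℝ) (hg : ∀ v ∈ R, 0 ≤ g v)
    (T : ℝ) (hT : ∑ v ∈ R, g v ≤ T) : ∑ d ∈ R.powerset, ∏ v ∈ d, g v ≤ Real.exp T := by
  rw [← Finset.prod_one_add]
  calc ∏ v ∈ R, (1 + g v) ≤ ∏ v ∈ R, Real.exp (g v) := by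
        refine Finset.prod_le_prod (fun v hv => by linarith [hg v hv]) fun v hv => ?_
        linarith [Real.add_one_le_exp (g v)]
    _ = Real.exp (∑ v ∈ R, g v) := (Real.exp_sum R g).symm
    _ ≤ Real.exp T := Real.exp_le_exp.mpr hT

private lemma sv_term {V Ω : Type} [DecidableEq V] (κ : ℝ) (hκ : 0 ≤ κ) (nm : V → ℕ) (R : Finset V)
    (Ω0 : Finset Ω) (b : Ω → V → Prop)
    (f : Ω → ℝ) (β : V → ℝ) (m Y U E B y : ℝ) (hnm : ∀ v, 2 ≤ nm v)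
    (hβ0 : ∀ v, 0 ≤ β v) (hβ : ∀ v, β v ≤ κ / (nm v : ℝ) ^ 2)
    (hf : ∀ ω, |f ω| ≤ B) (hm : |m| ≤ B) (hY : 0 ≤ Y) (hU : 0 ≤ U) (hE : 0 ≤ E) (hy : 1 ≤ y)
    (h1 : ∀ d ⊆ R, ∏ v ∈ d, (nm v : ℝ) ≤ y →
        |∑ ω ∈ Ω0.filter (fun ω => ∀ v ∈ d, b ω v), f ω - Y * m * ∏ v ∈ d, β v| ≤ E)
    (h2 : ∀ d ⊆ R, ((Ω0.filter fun ω => ∀ v ∈ d, b ω v).card : ℝ) ≤
        U * κ ^ d.card / (∏ v ∈ d, (nm v : ℝ)) ^ 2) (d : Finset V) (hd : d ⊆ R) :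
    |∑ ω ∈ Ω0.filter (fun ω => ∀ v ∈ d, b ω v), f ω - Y * m * ∏ v ∈ d, β v| ≤
      y ^ 2 * E * (∏ v ∈ d, (nm v : ℝ) ^ (-(3 / 2) : ℝ)) +
      B * (U + Y) * y ^ (-(1 / 2) : ℝ) * (∏ v ∈ d, (κ * (nm v : ℝ) ^ (-(3 / 2) : ℝ))) := by
  have hB : 0 ≤ B := le_trans (abs_nonneg _) hm
  have hnm1 : ∀ v, (1 : ℝ) ≤ (nm v : ℝ) := fun v => by
    have h := hnm v
    exact_mod_cast (show 1 ≤ nm v by omega)
  set P : ℝ := ∏ v ∈ d, (nm v : ℝ) with hP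
  have hP1 : 1 ≤ P := by
    rw [hP]
    have h := Finset.prod_le_prod (s := d) (f := fun _ => (1 : ℝ)) (g := fun v => (nm v : ℝ))
      (fun _ _ => zero_le_one) (fun v _ => hnm1 v)
    simpa using h
  have hP0 : 0 < P := by linarith
  have hy0 : 0 < y := by linarith
  have hPr : ∏ v ∈ d, (nm v : ℝ) ^ (-(3 / 2) : ℝ) = P ^ (-(3 / 2) : ℝ) := by
    rw [hP, ← Real.finsetProd_rpow]
    intro v _
    exact le_trans zero_le_one (hnm1 v)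
  have hPk : ∏ v ∈ d, (κ * (nm v : ℝ) ^ (-(3 / 2) : ℝ)) = κ ^ d.card * P ^ (-(3 / 2) : ℝ) := by
    rw [Finset.prod_mul_distrib, Finset.prod_const, hPr]
  rw [hPr, hPk]
  have hPpos : 0 < P ^ (-(3 / 2) : ℝ) := Real.rpow_pos_of_pos hP0 _
  have hκd : 0 ≤ κ ^ d.card := pow_nonneg hκ _
  have hypos : 0 < y ^ (-(1 / 2) : ℝ) := Real.rpow_pos_of_pos hy0 _
  by_cases hPy : P ≤ y
  · have h3 := h1 d hd hPy
    have h4 : 1 ≤ y ^ 2 * P ^ (-(3 / 2) : ℝ) := by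
      have h5 : P ^ (-2 : ℝ) ≤ P ^ (-(3 / 2) : ℝ) :=
        Real.rpow_le_rpow_of_exponent_le hP1 (by norm_num)
      have h6 : y ^ 2 * P ^ (-2 : ℝ) = (y / P) ^ 2 := by
        rw [Real.rpow_neg hP0.le, Real.rpow_two]; field_simp
      have h7 : 1 ≤ y / P := by rw [le_div_iff₀ hP0]; linarith
      have h8 : 1 ≤ (y / P) ^ 2 := one_le_pow₀ h7
      calc (1 : ℝ) ≤ (y / P) ^ 2 := h8
        _ = y ^ 2 * P ^ (-2 : ℝ) := h6.symm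
        _ ≤ y ^ 2 * P ^ (-(3 / 2) : ℝ) := by
          exact mul_le_mul_of_nonneg_left h5 (by positivity)
    have h9 : E ≤ y ^ 2 * E * P ^ (-(3 / 2) : ℝ) := by
      have := mul_le_mul_of_nonneg_left h4 hE
      calc E = E * 1 := by ring
        _ ≤ E * (y ^ 2 * P ^ (-(3 / 2) : ℝ)) := this
        _ = y ^ 2 * E * P ^ (-(3 / 2) : ℝ) := by ring
    have h10 : 0 ≤ B * (U + Y) * y ^ (-(1 / 2) : ℝ) * (κ ^ d.card * P ^ (-(3 / 2) : ℝ)) := by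
      have : 0 ≤ U + Y := by linarith
      positivity
    linarith
  · push Not at hPy
    have h3 : |∑ ω ∈ Ω0.filter (fun ω => ∀ v ∈ d, b ω v), f ω| ≤ B * (U * κ ^ d.card / P ^ 2) := by
      calc |∑ ω ∈ Ω0.filter (fun ω => ∀ v ∈ d, b ω v), f ω|
          ≤ ∑ ω ∈ Ω0.filter (fun ω => ∀ v ∈ d, b ω v), |f ω| := Finset.abs_sum_le_sum_abs _ _
        _ ≤ ∑ ω ∈ Ω0.filter (fun ω => ∀ v ∈ d, b ω v), B := Finset.sum_le_sum fun ω _ => hf ω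
        _ = B * ((Ω0.filter fun ω => ∀ v ∈ d, b ω v).card : ℝ) := by
          rw [Finset.sum_const, nsmul_eq_mul]; ring
        _ ≤ B * (U * κ ^ d.card / P ^ 2) := mul_le_mul_of_nonneg_left (h2 d hd) hB
    have h4 : ∏ v ∈ d, β v ≤ κ ^ d.card / P ^ 2 := by
      calc ∏ v ∈ d, β v ≤ ∏ v ∈ d, (κ / (nm v : ℝ) ^ 2) :=
            Finset.prod_le_prod (fun v _ => hβ0 v) fun v _ => hβ v
        _ = κ ^ d.card / P ^ 2 := by
          rw [Finset.prod_div_distrib, Finset.prod_const, Finset.prod_pow]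
    have h40 : 0 ≤ ∏ v ∈ d, β v := Finset.prod_nonneg fun v _ => hβ0 v
    have h5 : |Y * m * ∏ v ∈ d, β v| ≤ B * (Y * κ ^ d.card / P ^ 2) := by
      rw [abs_mul, abs_mul, abs_of_nonneg hY, abs_of_nonneg h40]
      calc Y * |m| * ∏ v ∈ d, β v ≤ Y * B * (κ ^ d.card / P ^ 2) := by
            apply mul_le_mul _ h4 h40 (by positivity)
            exact mul_le_mul_of_nonneg_left hm hY
        _ = B * (Y * κ ^ d.card / P ^ 2) := by ring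
    have h6 : |∑ ω ∈ Ω0.filter (fun ω => ∀ v ∈ d, b ω v), f ω - Y * m * ∏ v ∈ d, β v| ≤
        B * (U + Y) * κ ^ d.card * (1 / P ^ 2) := by
      calc _ ≤ |∑ ω ∈ Ω0.filter (fun ω => ∀ v ∈ d, b ω v), f ω| + |Y * m * ∏ v ∈ d, β v| :=
            abs_sub _ _
        _ ≤ B * (U * κ ^ d.card / P ^ 2) + B * (Y * κ ^ d.card / P ^ 2) := add_le_add h3 h5
        _ = B * (U + Y) * κ ^ d.card * (1 / P ^ 2) := by ring
    have h7 : 1 / P ^ 2 ≤ y ^ (-(1 / 2) : ℝ) * P ^ (-(3 / 2) : ℝ) := by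
      have h8 : 1 / P ^ 2 = P ^ (-(1 / 2) : ℝ) * P ^ (-(3 / 2) : ℝ) := by
        rw [← Real.rpow_add hP0]
        have h9 : (-(1 / 2) + -(3 / 2) : ℝ) = -2 := by norm_num
        rw [h9, Real.rpow_neg hP0.le, Real.rpow_two, one_div]
      rw [h8]
      apply mul_le_mul_of_nonneg_right _ hPpos.le
      exact Real.rpow_le_rpow_of_nonpos hy0 hPy.le (by norm_num)
    have hUY : 0 ≤ U + Y := by linarith
    have h10 : B * (U + Y) * κ ^ d.card * (1 / P ^ 2) ≤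
        B * (U + Y) * κ ^ d.card * (y ^ (-(1 / 2) : ℝ) * P ^ (-(3 / 2) : ℝ)) :=
      mul_le_mul_of_nonneg_left h7 (by positivity)
    have h11 : 0 ≤ y ^ 2 * E * P ^ (-(3 / 2) : ℝ) := by positivity
    calc _ ≤ B * (U + Y) * κ ^ d.card * (y ^ (-(1 / 2) : ℝ) * P ^ (-(3 / 2) : ℝ)) := le_trans h6 h10
      _ = B * (U + Y) * y ^ (-(1 / 2) : ℝ) * (κ ^ d.card * P ^ (-(3 / 2) : ℝ)) := by ring
      _ ≤ _ := by linarith

theorem sv (S κ : ℝ) (hS : 0 ≤ S) (hκ : 0 ≤ κ) : ∃ C₁ : ℝ, 1 ≤ C₁ ∧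
    ∀ (V Ω : Type) [DecidableEq V] (nm : V → ℕ) (R : Finset V) (Ω0 : Finset Ω) (b : Ω → V → Prop)
      (f : Ω → ℝ) (β : V → ℝ) (m Y U E B y : ℝ), (∀ v, 2 ≤ nm v) →
      ∑ v ∈ R, (nm v : ℝ) ^ (-(3 / 2) : ℝ) ≤ S → (∀ v, 0 ≤ β v) → (∀ v, β v ≤ κ / (nm v : ℝ) ^ 2) →
      (∀ ω, |f ω| ≤ B) → |m| ≤ B → 0 ≤ Y → 0 ≤ U → 0 ≤ E → 1 ≤ y →
      (∀ d ⊆ R, ∏ v ∈ d, (nm v : ℝ) ≤ y →
        |∑ ω ∈ Ω0.filter (fun ω => ∀ v ∈ d, b ω v), f ω - Y * m * ∏ v ∈ d, β v| ≤ E) →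
      (∀ d ⊆ R, ((Ω0.filter fun ω => ∀ v ∈ d, b ω v).card : ℝ) ≤
        U * κ ^ d.card / (∏ v ∈ d, (nm v : ℝ)) ^ 2) →
      |∑ ω ∈ Ω0.filter (fun ω => ∀ v ∈ R, ¬ b ω v), f ω - Y * m * ∏ v ∈ R, (1 - β v)| ≤
        C₁ * (y ^ 2 * E + B * (U + Y) * y ^ (-(1 / 2) : ℝ)) := by
  refine ⟨Real.exp ((κ + 1) * S), Real.one_le_exp (by positivity), ?_⟩
  intro V Ω _ nm R Ω0 b f β m Y U E B y hnm hS1 hβ0 hβ hf hm hY hU hE hy h1 h2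
  have hB : 0 ≤ B := le_trans (abs_nonneg _) hm
  have hy0 : 0 < y := by linarith
  have hypos : 0 < y ^ (-(1 / 2) : ℝ) := Real.rpow_pos_of_pos hy0 _
  have hUY : 0 ≤ U + Y := by linarith
  have hid : ∑ ω ∈ Ω0.filter (fun ω => ∀ v ∈ R, ¬ b ω v), f ω - Y * m * ∏ v ∈ R, (1 - β v) =
      ∑ d ∈ R.powerset, (-1 : ℝ) ^ d.card *
        (∑ ω ∈ Ω0.filter (fun ω => ∀ v ∈ d, b ω v), f ω - Y * m * ∏ v ∈ d, β v) := by
    rw [sv_ident, sv_prod, Finset.mul_sum, ← Finset.sum_sub_distrib]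
    refine Finset.sum_congr rfl fun d _ => ?_
    ring
  rw [hid]
  have hg0 : ∀ v ∈ R, 0 ≤ (nm v : ℝ) ^ (-(3 / 2) : ℝ) := fun v _ =>
    Real.rpow_nonneg (Nat.cast_nonneg _) _
  have e1 : ∑ d ∈ R.powerset, ∏ v ∈ d, (nm v : ℝ) ^ (-(3 / 2) : ℝ) ≤ Real.exp ((κ + 1) * S) := by
    refine sv_exp R _ hg0 _ (le_trans hS1 ?_)
    nlinarith
  have e2 : ∑ d ∈ R.powerset, ∏ v ∈ d, (κ * (nm v : ℝ) ^ (-(3 / 2) : ℝ)) ≤
      Real.exp ((κ + 1) * S) := by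
    refine sv_exp R _ (fun v hv => mul_nonneg hκ (hg0 v hv)) _ ?_
    rw [← Finset.mul_sum]
    have := mul_le_mul_of_nonneg_left hS1 hκ
    nlinarith
  calc |∑ d ∈ R.powerset, (-1 : ℝ) ^ d.card *
        (∑ ω ∈ Ω0.filter (fun ω => ∀ v ∈ d, b ω v), f ω - Y * m * ∏ v ∈ d, β v)|
      ≤ ∑ d ∈ R.powerset, |(-1 : ℝ) ^ d.card *
        (∑ ω ∈ Ω0.filter (fun ω => ∀ v ∈ d, b ω v), f ω - Y * m * ∏ v ∈ d, β v)| :=
        Finset.abs_sum_le_sum_abs _ _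
    _ ≤ ∑ d ∈ R.powerset, (y ^ 2 * E * (∏ v ∈ d, (nm v : ℝ) ^ (-(3 / 2) : ℝ)) +
      B * (U + Y) * y ^ (-(1 / 2) : ℝ) * (∏ v ∈ d, (κ * (nm v : ℝ) ^ (-(3 / 2) : ℝ)))) := by
        refine Finset.sum_le_sum fun d hd => ?_
        rw [abs_mul, abs_pow, abs_neg, abs_one, one_pow, one_mul]
        exact sv_term κ hκ nm R Ω0 b f β m Y U E B y hnm hβ0 hβ hf hm hY hU hE hy h1 h2 d
          (Finset.mem_powerset.mp hd)
    _ = y ^ 2 * E * (∑ d ∈ R.powerset, ∏ v ∈ d, (nm v : ℝ) ^ (-(3 / 2) : ℝ)) +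
      B * (U + Y) * y ^ (-(1 / 2) : ℝ) *
        (∑ d ∈ R.powerset, ∏ v ∈ d, (κ * (nm v : ℝ) ^ (-(3 / 2) : ℝ))) := by
        rw [Finset.sum_add_distrib, Finset.mul_sum, Finset.mul_sum]
    _ ≤ y ^ 2 * E * Real.exp ((κ + 1) * S) +
      B * (U + Y) * y ^ (-(1 / 2) : ℝ) * Real.exp ((κ + 1) * S) :=
        add_le_add (mul_le_mul_of_nonneg_left e1 (by positivity))
          (mul_le_mul_of_nonneg_left e2 (by positivity))
    _ = Real.exp ((κ + 1) * S) * (y ^ 2 * E + B * (U + Y) * y ^ (-(1 / 2) : ℝ)) := by ring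


end Pool.Agent.H36.FA
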