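import Pool.Agent.H36.FA.Anu

/-!
# [H36 FA UPP] Upper bound for the tuples which are bad at all primes of a set

`k = #L`. If `α` is bad at all `v ∈ d`, there is `τ : d → L × L` with: `τ v = (o, o)` and `α o ∈ v²`, or `τ v = (o, o')`, `o ≠ o'`, and `α o, α o' ∈ v`. For
fixed `τ` the component `α o` is in the ideal `𝔞_o(τ) = ∏_{τ v = (o,o)} v² ∏_{o ∈ τ v, τ v ≠ (o,o)} v` (different primes, so the intersection is the
product), `∏_o N𝔞_o = (∏_d nm)^2`, so the number of `α` is at most `∏_o C X o / N𝔞_o = C^k (∏ X o) / (∏_d nm)^2` (`ann_up`). There are `(k²)^#d` maps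
`τ` (`Fintype.card` of functions, or `Finset.pi` / `Fintype.piFinset`; union bound `Finset.card_biUnion_le`).
-/

set_option autoImplicit false

open scoped NumberField Classical
open IsDedekindDomain NumberField

noncomputable section

namespace Pool.Agent.H36.FA

open H63.MA H38.BB H38.BG H77.PC3 H51.SN H57.SL H36.QA H1.LS4 H38.ML

/-- the exponent of the prime at the component `o` -/
private def ex {L : Type} (q : L × L) (o : L) : ℕ := (if q.1 = o then 1 else 0) + (if q.2 = o then 1 else 0)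

private theorem ex_sum {L : Type} [Fintype L] (q : L × L) : ∑ o, ex q o = 2 := by
  unfold ex
  rw [Finset.sum_add_distrib, Finset.sum_ite_eq, Finset.sum_ite_eq, if_pos (Finset.mem_univ _), if_pos (Finset.mem_univ _)]

private theorem exists_ex {K : Type} [Field K] [NumberField K] {L : Type} [Fintype L] {α : L → 𝓞 K} {v : Pl K}
    (h : Bad α v) : ∃ q : L × L, ∀ o, α o ∈ v.asIdeal ^ ex q o := by
  rcases h with ⟨a, ha⟩ | ⟨a, b, hab, ha, hb⟩
  · refine ⟨(a, a), fun o => ?_⟩
    unfold ex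
    by_cases h1 : a = o
    · subst h1
      rw [if_pos rfl]
      exact ha
    · rw [if_neg h1, add_zero, pow_zero, Ideal.one_eq_top]
      exact Submodule.mem_top
  · refine ⟨(a, b), fun o => ?_⟩
    unfold ex
    by_cases h1 : a = o
    · subst h1
      have h2 : ¬ b = a := fun h => hab h.symm
      rw [if_pos rfl, if_neg h2, add_zero, pow_one]
      exact ha
    · by_cases h2 : b = o
      · subst h2
        rw [if_neg h1, if_pos rfl, zero_add, pow_one]
        exact hb
      · rw [if_neg h1, if_neg h2, add_zero, pow_zero, Ideal.one_eq_top]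
        exact Submodule.mem_top

/-- the ideal of the component `o` -/
private def ida {K : Type} [Field K] [NumberField K] {L : Type} {d : Finset (Pl K)} (τ : d → L × L) (o : L) : Ideal (𝓞 K) :=
  ∏ v : d, (v : Pl K).asIdeal ^ ex (τ v) o

private theorem mem_ida {K : Type} [Field K] [NumberField K] {L : Type} {d : Finset (Pl K)} {τ : d → L × L} {o : L} {x : 𝓞 K}
    (h : ∀ v : d, x ∈ (v : Pl K).asIdeal ^ ex (τ v) o) : x ∈ ida τ o := by
  unfold ida
  rw [← IsDedekindDomain.inf_pow_eq_prod_of_prime Finset.univ (fun v : d => (v : Pl K).asIdeal) (fun v => ex (τ v) o)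
    (fun v _ => (v : Pl K).prime) (fun v _ w _ hvw h1 => hvw (Subtype.ext (HeightOneSpectrum.ext h1)))]
  rw [Submodule.mem_finsetInf]
  exact fun v _ => h v

private theorem ida_ne {K : Type} [Field K] [NumberField K] {L : Type} {d : Finset (Pl K)} (τ : d → L × L) (o : L) :
    ida τ o ≠ ⊥ := by
  unfold ida
  rw [Ne, ← Ideal.zero_eq_bot, Finset.prod_eq_zero_iff]
  rintro ⟨v, -, hv⟩
  exact (v : Pl K).ne_bot (eq_zero_of_pow_eq_zero hv)

private theorem ida_norm {K : Type} [Field K] [NumberField K] {L : Type} [Fintype L] {d : Finset (Pl K)} (τ : d → L × L) :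
    ∏ o, (Ideal.absNorm (ida τ o) : ℝ) = (∏ v ∈ d, (nm v : ℝ)) ^ 2 := by
  have h1 : ∀ o, (Ideal.absNorm (ida τ o) : ℝ) = ∏ v : d, (nm (v : Pl K) : ℝ) ^ ex (τ v) o := by
    intro o
    unfold ida
    rw [map_prod]
    push_cast
    refine Finset.prod_congr rfl fun v _ => ?_
    rw [map_pow]
    push_cast
    rfl
  rw [Finset.prod_congr rfl fun o _ => h1 o, Finset.prod_comm]
  have h2 : ∀ v : d, ∏ o, (nm (v : Pl K) : ℝ) ^ ex (τ v) o = (nm (v : Pl K) : ℝ) ^ 2 := by
    intro v
    rw [Finset.prod_pow_eq_pow_sum, ex_sum]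
  rw [Finset.prod_congr rfl fun v _ => h2 v, Finset.prod_pow]
  congr 1
  exact Finset.prod_coe_sort d fun v => (nm v : ℝ)

theorem upp (K : Type) [Field K] [NumberField K] (hK : NumberField.IsTotallyComplex K) (L : Type)
    [Fintype L] : ∃ C : ℝ, 1 ≤ C ∧ ∀ X : L → ℝ, (∀ o, 1 ≤ X o) → ∀ d : Finset (Pl K),
      (((BX K X).filter fun α => ∀ v ∈ d, Bad α v).card : ℝ) ≤
        C * (∏ o, X o) * ((Fintype.card L : ℝ) ^ 2) ^ d.card / (∏ v ∈ d, (nm v : ℝ)) ^ 2 := by
  obtain ⟨C, hC, h⟩ := ann_up K hK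
  refine ⟨C ^ Fintype.card L, one_le_pow₀ hC, fun X hX d => ?_⟩
  have h1 : ((BX K X).filter fun α => ∀ v ∈ d, Bad α v) ⊆
      (Finset.univ : Finset (d → L × L)).biUnion fun τ =>
        Fintype.piFinset fun o => (Ax K (X o)).filter fun x => x ∈ ida τ o := by
    intro α hα
    obtain ⟨hα1, hα2⟩ := Finset.mem_filter.1 hα
    unfold BX at hα1
    rw [Fintype.mem_piFinset] at hα1
    have hex : ∀ v : d, ∃ q : L × L, ∀ o, α o ∈ (v : Pl K).asIdeal ^ ex q o := fun v => exists_ex (hα2 v v.2)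
    choose τ hτ using hex
    refine Finset.mem_biUnion.2 ⟨τ, Finset.mem_univ _, ?_⟩
    rw [Fintype.mem_piFinset]
    exact fun o => Finset.mem_filter.2 ⟨hα1 o, mem_ida fun v => hτ v o⟩
  have h2 : ∀ τ : d → L × L, ((Fintype.piFinset fun o => (Ax K (X o)).filter fun x => x ∈ ida τ o).card : ℝ) ≤
      C ^ Fintype.card L * (∏ o, X o) / (∏ v ∈ d, (nm v : ℝ)) ^ 2 := by
    intro τ
    rw [Fintype.card_piFinset]
    push_cast
    calc ∏ o, (((Ax K (X o)).filter fun x => x ∈ ida τ o).card : ℝ)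
        ≤ ∏ o, C * X o / Ideal.absNorm (ida τ o) :=
          Finset.prod_le_prod (fun o _ => Nat.cast_nonneg _) fun o _ => h (ida τ o) (ida_ne τ o) (X o) (hX o)
      _ = C ^ Fintype.card L * (∏ o, X o) / (∏ v ∈ d, (nm v : ℝ)) ^ 2 := by
        rw [Finset.prod_div_distrib, Finset.prod_mul_distrib, Finset.prod_const, Finset.card_univ, ida_norm]
  calc (((BX K X).filter fun α => ∀ v ∈ d, Bad α v).card : ℝ)
      ≤ (((Finset.univ : Finset (d → L × L)).biUnion fun τ =>
        Fintype.piFinset fun o => (Ax K (X o)).filter fun x => x ∈ ida τ o).card : ℝ) := by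
        exact_mod_cast Finset.card_le_card h1
    _ ≤ ∑ τ : d → L × L, ((Fintype.piFinset fun o => (Ax K (X o)).filter fun x => x ∈ ida τ o).card : ℝ) := by
        exact_mod_cast Finset.card_biUnion_le
    _ ≤ ∑ _τ : d → L × L, C ^ Fintype.card L * (∏ o, X o) / (∏ v ∈ d, (nm v : ℝ)) ^ 2 :=
        Finset.sum_le_sum fun τ _ => h2 τ
    _ = C ^ Fintype.card L * (∏ o, X o) * ((Fintype.card L : ℝ) ^ 2) ^ d.card / (∏ v ∈ d, (nm v : ℝ)) ^ 2 := by
        rw [Finset.sum_const, Finset.card_univ, Fintype.card_fun, Fintype.card_prod, Fintype.card_coe, nsmul_eq_mul]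
        push_cast
        ring

end Pool.Agent.H36.FA
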