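import Pool.Agent.H36.FA.Per

/-!
# [H36 FA PES] Simple facts on means

`mn_cong`: exactly one class of tuples modulo `𝔪`. `mn_const`: `#(L → 𝓞 K ⧸ 𝔠) = N𝔠^k`. `mn_nonneg`, `mn_mono`, `mn_add`: finite sums (`𝓞 K ⧸ 𝔠` is finite for
`𝔠 ≠ ⊥`, `finsum_eq_sum_of_fintype`). `mn_sub`: the mean modulo `𝔠 ≤ 𝔡` of a function periodic modulo `𝔡` is the mean modulo `𝔡`: every fibre of
`(L → 𝓞 K ⧸ 𝔠) → (L → 𝓞 K ⧸ 𝔡)` (`Ideal.Quotient.factor`) has the same number of elements (surjective homomorphism of finite groups), `mn_rep`.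
-/

set_option autoImplicit false

open scoped NumberField Classical
open IsDedekindDomain NumberField

noncomputable section

namespace Pool.Agent.H36.FA

open H63.MA H38.BB H38.BG H77.PC3 H51.SN H57.SL H36.QA H1.LS4 H38.ML

variable {K : Type} [Field K] [NumberField K] {L : Type} [Fintype L]

private theorem pes_fin {𝔠 : Ideal (𝓞 K)} (hc : 𝔠 ≠ ⊥) : Finite (𝓞 K ⧸ 𝔠) :=
  Ideal.finiteQuotientOfFreeOfNeBot 𝔠 hc

private theorem pes_out {𝔠 : Ideal (𝓞 K)} (r : 𝓞 K ⧸ 𝔠) : Ideal.Quotient.mk 𝔠 (Quotient.out r) = r :=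
  Quotient.out_eq r

private theorem pes_card {𝔠 : Ideal (𝓞 K)} : Nat.card (L → 𝓞 K ⧸ 𝔠) = Ideal.absNorm 𝔠 ^ Fintype.card L := by
  rw [Nat.card_pi, Finset.prod_const, Ideal.absNorm_apply, Submodule.cardQuot_apply]
  rfl

private theorem pes_pos {𝔠 : Ideal (𝓞 K)} (hc : 𝔠 ≠ ⊥) : (0 : ℝ) < (Ideal.absNorm 𝔠 : ℝ) ^ Fintype.card L := by
  have h : Ideal.absNorm 𝔠 ≠ 0 := fun h => hc (Ideal.absNorm_eq_zero_iff.1 h)
  have h1 : (0 : ℝ) < (Ideal.absNorm 𝔠 : ℝ) := by exact_mod_cast Nat.pos_of_ne_zero h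
  positivity

theorem mn_cong {𝔪 : Ideal (𝓞 K)} (hm : 𝔪 ≠ ⊥) :
    Mn (L := L) 𝔪 (fun α => if ∀ o, α o - 1 ∈ 𝔪 then 1 else 0) =
      1 / (Ideal.absNorm 𝔪 : ℝ) ^ Fintype.card L := by
  unfold Mn
  congr 1
  have h1 : ∀ r : L → 𝓞 K ⧸ 𝔪, (∀ o, Quotient.out (r o) - 1 ∈ 𝔪) ↔ r = fun _ => 1 := by
    intro r
    constructor
    · intro h
      funext o
      have h2 := h o
      rw [← Ideal.Quotient.mk_eq_mk_iff_sub_mem, pes_out, map_one] at h2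
      exact h2
    · intro h o
      rw [← Ideal.Quotient.mk_eq_mk_iff_sub_mem, pes_out, map_one, h]
  rw [finsum_eq_single _ (fun _ : L => (1 : 𝓞 K ⧸ 𝔪))]
  · exact if_pos ((h1 _).2 rfl)
  · intro r hr
    exact if_neg fun h => hr ((h1 r).1 h)

theorem per_cong (𝔪 : Ideal (𝓞 K)) :
    Per (L := L) 𝔪 (fun α => if ∀ o, α o - 1 ∈ 𝔪 then 1 else 0) := by
  intro α α' h
  have h1 : (∀ o, α o - 1 ∈ 𝔪) ↔ ∀ o, α' o - 1 ∈ 𝔪 := by
    constructor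
    · intro h2 o
      have h3 : α' o - 1 = (α o - 1) - (α o - α' o) := by ring
      rw [h3]
      exact 𝔪.sub_mem (h2 o) (h o)
    · intro h2 o
      have h3 : α o - 1 = (α' o - 1) + (α o - α' o) := by ring
      rw [h3]
      exact 𝔪.add_mem (h2 o) (h o)
  simp only [h1]

theorem mn_nonneg {𝔠 : Ideal (𝓞 K)} {f : (L → 𝓞 K) → ℝ} (h : ∀ α, 0 ≤ f α) : 0 ≤ Mn 𝔠 f := by
  unfold Mn
  exact div_nonneg (finsum_nonneg fun r => h _) (by positivity)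

theorem mn_mono {𝔠 : Ideal (𝓞 K)} (hc : 𝔠 ≠ ⊥) {f g : (L → 𝓞 K) → ℝ} (h : ∀ α, f α ≤ g α) :
    Mn 𝔠 f ≤ Mn 𝔠 g := by
  haveI := pes_fin hc
  haveI : Fintype (L → 𝓞 K ⧸ 𝔠) := Fintype.ofFinite _
  unfold Mn
  rw [finsum_eq_sum_of_fintype, finsum_eq_sum_of_fintype]
  exact div_le_div_of_nonneg_right (Finset.sum_le_sum fun r _ => h _) (by positivity)

theorem mn_add {𝔠 : Ideal (𝓞 K)} (hc : 𝔠 ≠ ⊥) (f g : (L → 𝓞 K) → ℝ) :
    Mn 𝔠 (fun α => f α + g α) = Mn 𝔠 f + Mn 𝔠 g := by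
  haveI := pes_fin hc
  haveI : Fintype (L → 𝓞 K ⧸ 𝔠) := Fintype.ofFinite _
  unfold Mn
  rw [finsum_eq_sum_of_fintype, finsum_eq_sum_of_fintype, finsum_eq_sum_of_fintype, Finset.sum_add_distrib,
    add_div]

theorem mn_const {𝔠 : Ideal (𝓞 K)} (hc : 𝔠 ≠ ⊥) (B : ℝ) : Mn (L := L) 𝔠 (fun _ => B) = B := by
  haveI := pes_fin hc
  haveI : Fintype (L → 𝓞 K ⧸ 𝔠) := Fintype.ofFinite _
  unfold Mn
  have h1 : (Fintype.card (L → 𝓞 K ⧸ 𝔠) : ℝ) = (Ideal.absNorm 𝔠 : ℝ) ^ Fintype.card L := by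
    rw [← Nat.card_eq_fintype_card, pes_card]
    push_cast
    rfl
  rw [finsum_eq_sum_of_fintype, Finset.sum_const, Finset.card_univ, nsmul_eq_mul, h1]
  field_simp [(pes_pos (L := L) hc).ne']

/-- the projection of tuples -/
private def pes_pr {𝔠 𝔡 : Ideal (𝓞 K)} (hcd : 𝔠 ≤ 𝔡) : (L → 𝓞 K ⧸ 𝔠) →+ (L → 𝓞 K ⧸ 𝔡) where
  toFun r o := Ideal.Quotient.factor hcd (r o)
  map_zero' := by
    funext o
    exact map_zero _
  map_add' r r' := by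
    funext o
    exact map_add _ _ _

theorem mn_sub {𝔠 𝔡 : Ideal (𝓞 K)} (hc : 𝔠 ≠ ⊥) (hcd : 𝔠 ≤ 𝔡) {f : (L → 𝓞 K) → ℝ} (hf : Per 𝔡 f) :
    Mn 𝔠 f = Mn 𝔡 f := by
  have hd : 𝔡 ≠ ⊥ := fun h => hc (le_bot_iff.1 (h ▸ hcd))
  haveI := pes_fin hc
  haveI := pes_fin hd
  haveI : Fintype (L → 𝓞 K ⧸ 𝔠) := Fintype.ofFinite _
  haveI : Fintype (L → 𝓞 K ⧸ 𝔡) := Fintype.ofFinite _
  have hsurj : Function.Surjective (pes_pr (L := L) hcd) := by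
    intro t
    refine ⟨fun o => Ideal.Quotient.mk 𝔠 (Quotient.out (t o)), ?_⟩
    funext o
    show Ideal.Quotient.factor hcd (Ideal.Quotient.mk 𝔠 (Quotient.out (t o))) = t o
    rw [Ideal.Quotient.factor_mk, pes_out]
  obtain ⟨c, hcc⟩ : ∃ c : ℕ, ∀ t : L → 𝓞 K ⧸ 𝔡,
      (Finset.univ.filter fun r : L → 𝓞 K ⧸ 𝔠 => pes_pr hcd r = t).card = c := by
    refine ⟨_, fun t => AddMonoidHom.card_fiber_eq_of_mem_range (pes_pr (L := L) hcd) (x := t) (y := 0) (hsurj t) (hsurj 0)⟩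
  have hsum : ∀ g : (L → 𝓞 K ⧸ 𝔡) → ℝ, ∑ r : L → 𝓞 K ⧸ 𝔠, g (pes_pr hcd r) = c * ∑ t, g t := by
    intro g
    rw [← Finset.sum_fiberwise_of_maps_to (s := Finset.univ) (t := Finset.univ) (g := fun r => pes_pr hcd r)
      (fun _ _ => Finset.mem_univ _), Finset.mul_sum]
    refine Finset.sum_congr rfl fun t _ => ?_
    rw [Finset.sum_congr rfl (g := fun _ => g t) (by
      intro r hr
      rw [(Finset.mem_filter.1 hr).2]), Finset.sum_const, hcc, nsmul_eq_mul]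
  have hcard : ((Ideal.absNorm 𝔠 : ℝ)) ^ Fintype.card L = c * (Ideal.absNorm 𝔡 : ℝ) ^ Fintype.card L := by
    have h1 := hsum fun _ => 1
    rw [Finset.sum_const, Finset.sum_const, Finset.card_univ, Finset.card_univ, nsmul_eq_mul, nsmul_eq_mul,
      mul_one, mul_one, ← Nat.card_eq_fintype_card, ← Nat.card_eq_fintype_card, pes_card, pes_card] at h1
    push_cast at h1
    exact h1
  unfold Mn
  rw [finsum_eq_sum_of_fintype, finsum_eq_sum_of_fintype, hcard]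
  have h2 : ∑ r : L → 𝓞 K ⧸ 𝔠, f (fun o => Quotient.out (r o)) =
      ∑ r : L → 𝓞 K ⧸ 𝔠, (fun t : L → 𝓞 K ⧸ 𝔡 => f fun o => Quotient.out (t o)) (pes_pr hcd r) := by
    refine Finset.sum_congr rfl fun r _ => ?_
    refine hf _ _ fun o => ?_
    rw [← Ideal.Quotient.mk_eq_mk_iff_sub_mem, pes_out]
    show _ = Ideal.Quotient.factor hcd (r o)
    conv_rhs => rw [← pes_out (r o), Ideal.Quotient.factor_mk]
  rw [h2, hsum fun t : L → 𝓞 K ⧸ 𝔡 => f fun o => Quotient.out (t o)]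
  have h3 := pes_pos (L := L) hc
  have h4 := pes_pos (L := L) hd
  have h5 : (c : ℝ) ≠ 0 := by
    intro h
    rw [h, zero_mul] at hcard
    exact h3.ne' hcard
  field_simp

end Pool.Agent.H36.FA
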