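import Pool.Agent.H36.FA.Kqf
import Pool.Agent.H51.SN.Kum
import Pool.Agent.H51.SN.Unr

/-!
# [H36 FA PHA] The homomorphism of a tuple

`pha`: `kq_mul` (`σ`, `τ` fix `K`), `o^(a + b).val = o^a.val o^b.val` (`orderOf o`), `A` commutative. FT: `kq_ft` for every component and `φ₀` (finite compositum; see
`kq_ft`, H51/SN/Kum.lean). `dec`: `kqt` for every component (`l = orderOf o` divides `card A ∣ m`, `ζ ^ (m / l)` primitive of order `l`).
-/

set_option autoImplicit false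

open scoped NumberField Classical
open IsDedekindDomain NumberField

noncomputable section

namespace Pool.Agent.H36.FA

open H63.MA H38.BB H38.BG H77.PC3 H51.SN H57.SL H36.QA H1.LS4 H38.ML

variable {K : IntermediateField ℚ QBar} [NumberField K] {A : Type} [CommGroup A] [Finite A]

omit [NumberField K] in
private theorem rt {m : ℕ} {ζ : K} (hζ : IsPrimitiveRoot ζ m) (hm : 0 < m) {l : ℕ} (hl : l ∣ m) :
    IsPrimitiveRoot (ζ ^ (m / l)) l :=
  hζ.pow hm (Nat.div_mul_cancel hl).symm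

private theorem ov {m : ℕ} (hA : Nat.card A ∣ m) (o : A) : orderOf o ∣ m :=
  (orderOf_dvd_natCard o).trans hA

private theorem pw {B : Type} [Group B] (o : B) (h : (orderOf o).Prime) (a b : ZMod (orderOf o)) :
    o ^ (a + b).val = o ^ a.val * o ^ b.val := by
  haveI : NeZero (orderOf o) := ⟨h.ne_zero⟩
  rw [ZMod.val_add, pow_mod_orderOf, pow_add]

private theorem nz {a : 𝓞 K} (ha : a ≠ 0) : (((a : K)) : QBar) ≠ 0 := by
  intro h
  apply ha
  apply NumberField.RingOfIntegers.ext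
  exact Subtype.ext h

private theorem fx (a : 𝓞 K) (σ : Gal(QBar/K)) : σ (((a : K)) : QBar) = (((a : K)) : QBar) :=
  σ.commutes (a : K)

theorem pha {m : ℕ} {ζ : K} (hζ : IsPrimitiveRoot ζ m) (hA : Nat.card A ∣ m) (hm : 0 < m) (L : Set A)
    (hL : ∀ o ∈ L, (orderOf o).Prime) (φ₀ : Gal(QBar/K) →* A) (h₀ : FT φ₀) (α : L → 𝓞 K)
    (hα : ∀ o, α o ≠ 0) : ∃ φ : Gal(QBar/K) →* A, (∀ σ, φ σ = phf m ζ L φ₀ α σ) ∧ FT φ := by
  have hr : ∀ o : L, IsPrimitiveRoot (ζ ^ (m / orderOf (o : A))) (orderOf (o : A)) :=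
    fun o => rt hζ hm (ov hA (o : A))
  have hks : ∀ (o : L) (σ τ : Gal(QBar/K)),
      ks m ζ (o : A) (α o) (σ * τ) = ks m ζ (o : A) (α o) σ + ks m ζ (o : A) (α o) τ := fun o σ τ =>
    kq_mul (hL o o.2) (hr o) (nz (hα o)) (fx (α o) σ) (fx (α o) τ)
  have hmul : ∀ σ τ : Gal(QBar/K),
      phf m ζ L φ₀ α (σ * τ) = phf m ζ L φ₀ α σ * phf m ζ L φ₀ α τ := by
    intro σ τ
    unfold phf
    rw [map_mul, mul_mul_mul_comm, ← Finset.prod_mul_distrib]
    refine congrArg (fun x => φ₀ σ * φ₀ τ * x) (Finset.prod_congr rfl fun o _ => ?_)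
    rw [hks, pw (o : A) (hL o o.2)]
  refine ⟨MonoidHom.mk' (fun σ => phf m ζ L φ₀ α σ) hmul, fun σ => rfl, ?_⟩
  obtain ⟨E₀, hE₀, h1⟩ := h₀
  have hft : ∀ o : L, ∃ E : IntermediateField K QBar, FiniteDimensional K E ∧
      ∀ γ ∈ E.fixingSubgroup, ks m ζ (o : A) (α o) γ = 0 := by
    intro o
    obtain ⟨E, hE, h2⟩ := kq_ft (K := K) (hL o o.2) (hr o) (nz (hα o))
    exact ⟨E, hE, fun γ hγ => (h2 γ hγ).2⟩
  choose E hE h2 using hft
  haveI := hE₀
  haveI : ∀ o, FiniteDimensional K (E o) := hE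
  haveI : Finite L := inferInstance
  haveI : FiniteDimensional K (⨆ o, E o : IntermediateField K QBar) :=
    IntermediateField.finiteDimensional_iSup_of_finite
  refine ⟨E₀ ⊔ ⨆ o, E o, inferInstance, fun γ hγ => ?_⟩
  have h3 : γ ∈ E₀.fixingSubgroup := IntermediateField.fixingSubgroup_antitone le_sup_left hγ
  have h4 : ∀ o, γ ∈ (E o).fixingSubgroup := fun o =>
    IntermediateField.fixingSubgroup_antitone ((le_iSup E o).trans le_sup_right) hγ
  rw [MonoidHom.mem_ker]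
  change phf m ζ L φ₀ α γ = 1
  unfold phf
  rw [show φ₀ γ = 1 from h1 h3, one_mul]
  refine Finset.prod_eq_one fun o _ => ?_
  rw [h2 o γ (h4 o), ZMod.val_zero, pow_zero]

theorem pha_dec {m : ℕ} {ζ : K} (hζ : IsPrimitiveRoot ζ m) (hA : Nat.card A ∣ m) (L : Set A)
    (hL : ∀ o ∈ L, (orderOf o).Prime) (φ₀ : Gal(QBar/K) →* A) (α : L → 𝓞 K)
    (Q : DP K QBar) (v : Pl K) (hv : ((m : ℕ) : 𝓞 K) ∉ v.asIdeal)
    (h1 : ∀ o, α o - 1 ∈ v.asIdeal) (σ : Gal(QBar/K)) (hσ : σ ∈ dec (K := K) (Q.P v)) :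
    phf m ζ L φ₀ α σ = φ₀ σ := by
  have hm : 0 < m := by
    rcases Nat.eq_zero_or_pos m with h | h
    · exfalso
      apply hv
      rw [h, Nat.cast_zero]
      exact Ideal.zero_mem _
    · exact h
  unfold phf
  have h2 : ∏ o : L, (o : A) ^ (ks m ζ (o : A) (α o) σ).val = 1 := by
    refine Finset.prod_eq_one fun o _ => ?_
    have hd : orderOf (o : A) ∣ m := ov hA (o : A)
    have hvo : ((orderOf (o : A) : ℕ) : 𝓞 K) ∉ v.asIdeal := by
      intro h
      apply hv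
      obtain ⟨c, hc⟩ := hd
      rw [hc, Nat.cast_mul]
      exact Ideal.mul_mem_right _ _ h
    have h3 : ks m ζ (o : A) (α o) σ = 0 :=
      kqt (hL o o.2) (rt hζ hm hd) Q v hvo (α o) (h1 o) σ hσ
    rw [h3, ZMod.val_zero, pow_zero]
  rw [h2, mul_one]

end Pool.Agent.H36.FA
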