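import Pool.Agent.H36.FA.Mf1
import Pool.Agent.H38.TD.MertB

/-!
# [H36 FA WIN] Many primes in windows

By `mf1` at `x` and `C x`: `∑_{x < nm w ≤ C x} log nm w / nm w ≥ log C - 2 C₁`; the primes with `nm w` not prime contribute at most `B` (as in `ml_nonprime`, H36/QA/Ml.lean: `nm w = p^f`, `f ≥ 2`,
`log nm / nm ≤ C p^(-3/2)`, at most `n` over each `p`); so for `C` large the primes of prime norm in `(x, C x]`, `w ∉ S`, contribute at least `1` (the finitely many `w ∈ S` contribute at most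
`#S`), each at most `log (C x) / x` (`log t / t` decreases for `t ≥ 3`; or `log nm / nm ≤ log (C x) / x`): there are at least `x / log (C x)` of them, and
`log (C x) ≤ 2 log x ≤ C log x` (`x ≥ C ≥ 2`).
-/

set_option autoImplicit false

open scoped NumberField Classical
open IsDedekindDomain NumberField

noncomputable section

namespace Pool.Agent.H36.FA

open H63.MA H38.BB H38.BG H77.PC3 H51.SN H57.SL H36.QA H1.LS4 H38.ML

private lemma win_fin (F : Type) [Field F] [NumberField F] (y : ℝ) :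
    {w : H63.MA.Pl F | (nm w : ℝ) ≤ y}.Finite := by
  have h1 : {I : Ideal (𝓞 F) | Ideal.absNorm I ≤ ⌊y⌋₊}.Finite := Ideal.finite_setOfPred_absNorm_le _
  have h2 : Function.Injective (fun w : H63.MA.Pl F => w.asIdeal) := by
    intro a b h
    exact HeightOneSpectrum.ext h
  refine (h1.preimage h2.injOn).subset ?_
  intro w hw
  show Ideal.absNorm w.asIdeal ≤ ⌊y⌋₊
  exact Nat.le_floor hw

private lemma win_log (t : ℝ) (ht : 1 ≤ t) : Real.log t / t ≤ 4 / t ^ (3 / 4 : ℝ) := by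
  have ht0 : 0 < t := by linarith
  have h1 : Real.log t ≤ t ^ (1 / 4 : ℝ) / (1 / 4) := Real.log_le_rpow_div ht0.le (by norm_num)
  rw [div_le_div_iff₀ ht0 (by positivity)]
  calc Real.log t * t ^ (3 / 4 : ℝ) ≤ (t ^ (1 / 4 : ℝ) / (1 / 4)) * t ^ (3 / 4 : ℝ) := by gcongr
    _ = 4 * (t ^ (1 / 4 : ℝ) * t ^ (3 / 4 : ℝ)) := by ring
    _ = 4 * t := by
        rw [← Real.rpow_add ht0]
        norm_num

private lemma win_nonprime (F : Type) [Field F] [NumberField F] : ∃ B : ℝ, 0 ≤ B ∧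
    ∀ s : Finset (H63.MA.Pl F), (∀ v ∈ s, ¬ (nm v).Prime) →
      ∑ v ∈ s, Real.log (nm v) / (nm v : ℝ) ≤ B := by
  have hsum : Summable (fun n : ℕ => 4 / (n : ℝ) ^ (3 / 2 : ℝ)) := by
    have h := (Real.summable_one_div_nat_rpow.2 (by norm_num : (1 : ℝ) < 3 / 2)).mul_left 4
    refine h.congr fun n => ?_
    ring
  refine ⟨(Module.finrank ℤ (𝓞 F) : ℝ) * ∑' n : ℕ, 4 / (n : ℝ) ^ (3 / 2 : ℝ),
    mul_nonneg (Nat.cast_nonneg _) (tsum_nonneg fun n => by positivity), fun s hs => ?_⟩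
  have h1 : ∀ v ∈ s, Real.log (nm v) / (nm v : ℝ) ≤ 4 / (((nm v).minFac : ℕ) : ℝ) ^ (3 / 2 : ℝ) := by
    intro v hv
    obtain ⟨hp, f, hf, he⟩ := H38.TD.nv_pow F v
    have he' : nm v = (nm v).minFac ^ f := he
    have hp' : (nm v).minFac.Prime := hp
    have hf2 : 2 ≤ f := by
      rcases Nat.lt_or_ge f 2 with h | h
      · have h2 : f = 1 := by omega
        rw [h2, pow_one] at he'
        exact absurd (he' ▸ hp') (hs v hv)
      · exact h
    have h3 : (nm v).minFac ^ 2 ≤ nm v := by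
      calc (nm v).minFac ^ 2 ≤ (nm v).minFac ^ f := Nat.pow_le_pow_right hp'.pos hf2
        _ = nm v := he'.symm
    have h4 : ((((nm v).minFac : ℕ)) : ℝ) ^ 2 ≤ (nm v : ℝ) := by exact_mod_cast h3
    have h5 : (1 : ℝ) ≤ (((nm v).minFac : ℕ) : ℝ) := by exact_mod_cast hp'.one_lt.le
    have h6 : (1 : ℝ) ≤ (nm v : ℝ) := by nlinarith
    refine (win_log _ h6).trans ?_
    have h7 : (((nm v).minFac : ℕ) : ℝ) ^ (3 / 2 : ℝ) ≤ (nm v : ℝ) ^ (3 / 4 : ℝ) := by
      calc (((nm v).minFac : ℕ) : ℝ) ^ (3 / 2 : ℝ) = ((((nm v).minFac : ℕ) : ℝ) ^ 2) ^ (3 / 4 : ℝ) := by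
            rw [← Real.rpow_natCast, ← Real.rpow_mul (by linarith)]
            norm_num
        _ ≤ (nm v : ℝ) ^ (3 / 4 : ℝ) := Real.rpow_le_rpow (by positivity) h4 (by norm_num)
    exact div_le_div_of_nonneg_left (by norm_num) (by positivity) h7
  calc ∑ v ∈ s, Real.log (nm v) / (nm v : ℝ) ≤
        ∑ v ∈ s, 4 / (((nm v).minFac : ℕ) : ℝ) ^ (3 / 2 : ℝ) := Finset.sum_le_sum h1
    _ = ∑ p ∈ s.image (fun v => (nm v).minFac), ∑ v ∈ s with (nm v).minFac = p,
          4 / (((nm v).minFac : ℕ) : ℝ) ^ (3 / 2 : ℝ) :=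
        (Finset.sum_fiberwise_of_maps_to (fun v hv => Finset.mem_image_of_mem _ hv) _).symm
    _ ≤ ∑ p ∈ s.image (fun v => (nm v).minFac),
          (Module.finrank ℤ (𝓞 F) : ℝ) * (4 / (p : ℝ) ^ (3 / 2 : ℝ)) := by
        refine Finset.sum_le_sum fun p hp => ?_
        obtain ⟨v, hv, rfl⟩ := Finset.mem_image.1 hp
        have hpr : (nm v).minFac.Prime := (H38.TD.nv_pow F v).1
        have hc : (s.filter fun u => (nm u).minFac = (nm v).minFac).card ≤ Module.finrank ℤ (𝓞 F) :=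
          H38.TD.fibre_card F (nm v).minFac hpr (s.filter fun u => (nm u).minFac = (nm v).minFac)
          (fun u hu => (Finset.mem_filter.1 hu).2)
        have hc' : ((s.filter fun u => (nm u).minFac = (nm v).minFac).card : ℝ) ≤
            (Module.finrank ℤ (𝓞 F) : ℝ) := by exact_mod_cast hc
        have h2 : ∑ u ∈ s with (nm u).minFac = (nm v).minFac, 4 / (((nm u).minFac : ℕ) : ℝ) ^ (3 / 2 : ℝ) =
            ((s.filter fun u => (nm u).minFac = (nm v).minFac).card : ℝ) *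
              (4 / (((nm v).minFac : ℕ) : ℝ) ^ (3 / 2 : ℝ)) := by
          rw [← nsmul_eq_mul, ← Finset.sum_const]
          refine Finset.sum_congr rfl fun u hu => ?_
          rw [(Finset.mem_filter.1 hu).2]
        rw [h2]
        exact mul_le_mul_of_nonneg_right hc' (by positivity)
    _ = (Module.finrank ℤ (𝓞 F) : ℝ) * ∑ p ∈ s.image (fun v => (nm v).minFac),
          4 / (p : ℝ) ^ (3 / 2 : ℝ) := by rw [Finset.mul_sum]
    _ ≤ (Module.finrank ℤ (𝓞 F) : ℝ) * ∑' n : ℕ, 4 / (n : ℝ) ^ (3 / 2 : ℝ) :=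
        mul_le_mul_of_nonneg_left (hsum.sum_le_tsum _ fun n _ => by positivity) (by positivity)

private lemma win_pos (F : Type) [Field F] [NumberField F] (w : H63.MA.Pl F) : 1 ≤ nm w := by
  obtain ⟨hp, f, hf, he⟩ := H38.TD.nv_pow F w
  have he' : nm w = (nm w).minFac ^ f := he
  rw [he']
  exact Nat.one_le_pow _ _ hp.pos

theorem win (F : Type) [Field F] [NumberField F] (S : Set (Pl F)) (hS : S.Finite) :
    ∃ C₀ : ℝ, 2 ≤ C₀ ∧ ∀ C : ℝ, C₀ ≤ C → ∀ x : ℝ, C ≤ x → ∀ T : Finset (Pl F),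
      (∀ w, w ∉ S → (nm w).Prime → x < (nm w : ℝ) → (nm w : ℝ) ≤ C * x → w ∈ T) →
        x / (C * Real.log x) ≤ (T.card : ℝ) := by
  obtain ⟨C₁, hC₁, hm⟩ := mf1 F
  obtain ⟨B, hB0, hB⟩ := win_nonprime F
  set Sf : Finset (H63.MA.Pl F) := hS.toFinset with hSf
  set N : ℝ := (Sf.card : ℝ) with hN
  have hN0 : 0 ≤ N := Nat.cast_nonneg _
  refine ⟨max 2 (Real.exp (2 * C₁ + B + N + 1)), le_max_left _ _, ?_⟩
  intro C hC x hx T hT
  have hC2 : 2 ≤ C := (le_max_left _ _).trans hC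
  have hCe : Real.exp (2 * C₁ + B + N + 1) ≤ C := (le_max_right _ _).trans hC
  have hx2 : 2 ≤ x := hC2.trans hx
  have hx0 : 0 < x := by linarith
  have hC0 : 0 < C := by linarith
  have hCx : x ≤ C * x := by nlinarith
  have hlogC : 2 * C₁ + B + N + 1 ≤ Real.log C := by
    rw [Real.le_log_iff_exp_le hC0]
    exact hCe
  set T1 : Finset (H63.MA.Pl F) := (win_fin F x).toFinset with hT1
  set T2 : Finset (H63.MA.Pl F) := (win_fin F (C * x)).toFinset with hT2
  have m1 : ∀ w, w ∈ T1 ↔ (nm w : ℝ) ≤ x := fun w => by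
    rw [hT1, Set.Finite.mem_toFinset]
    rfl
  have m2 : ∀ w, w ∈ T2 ↔ (nm w : ℝ) ≤ C * x := fun w => by
    rw [hT2, Set.Finite.mem_toFinset]
    rfl
  have a1 := abs_le.1 (hm x (by linarith) T1 m1)
  have a2 := abs_le.1 (hm (C * x) (by linarith) T2 m2)
  have hsub : T1 ⊆ T2 := by
    intro w hw
    rw [m2]
    exact ((m1 w).1 hw).trans hCx
  set f : H63.MA.Pl F → ℝ := fun w => Real.log (nm w) / (nm w : ℝ) with hf
  have hf0 : ∀ w, 0 ≤ f w := fun w => by
    have h1 : (1 : ℝ) ≤ nm w := by exact_mod_cast win_pos F w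
    exact div_nonneg (Real.log_nonneg h1) (by linarith)
  have hf1 : ∀ w, f w ≤ 1 := fun w => by
    have h1 : (1 : ℝ) ≤ nm w := by exact_mod_cast win_pos F w
    rw [hf]
    show Real.log (nm w) / (nm w : ℝ) ≤ 1
    rw [div_le_one (by linarith)]
    have := Real.log_le_sub_one_of_pos (by linarith : (0 : ℝ) < nm w)
    linarith
  have hdiff : Real.log C - 2 * C₁ ≤ ∑ w ∈ T2 \ T1, f w := by
    have h1 := Finset.sum_sdiff (f := f) hsub
    have h2 : Real.log (C * x) = Real.log C + Real.log x := Real.log_mul hC0.ne' hx0.ne'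
    have h3 : ∑ w ∈ T2 \ T1, f w = ∑ w ∈ T2, f w - ∑ w ∈ T1, f w := by linarith
    rw [h3]
    have h4 : ∑ w ∈ T2, f w = ∑ w ∈ T2, Real.log (nm w) / (nm w : ℝ) := rfl
    have h5 : ∑ w ∈ T1, f w = ∑ w ∈ T1, Real.log (nm w) / (nm w : ℝ) := rfl
    rw [h4, h5]
    linarith [a1.2, a2.1]
  -- split
  set P : Finset (H63.MA.Pl F) := (T2 \ T1).filter (fun w => (nm w).Prime ∧ w ∉ S) with hP
  have hsplit : ∑ w ∈ T2 \ T1, f w ≤ ∑ w ∈ P, f w + N + B := by
    have h1 := Finset.sum_filter_add_sum_filter_not (T2 \ T1) (fun w => (nm w).Prime ∧ w ∉ S) f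
    rw [← h1]
    have h2 : ∑ w ∈ (T2 \ T1).filter (fun w => ¬ ((nm w).Prime ∧ w ∉ S)), f w ≤
        ∑ w ∈ (T2 \ T1).filter (fun w => ¬ (nm w).Prime), f w + ∑ w ∈ Sf, f w := by
      have h0 : ∑ w ∈ (T2 \ T1).filter (fun w => ¬ (nm w).Prime) ∪ Sf, f w ≤
          ∑ w ∈ (T2 \ T1).filter (fun w => ¬ (nm w).Prime), f w + ∑ w ∈ Sf, f w := by
        have e1 := Finset.sum_union_inter (s₁ := (T2 \ T1).filter (fun w => ¬ (nm w).Prime)) (s₂ := Sf)
          (f := f)
        have e2 : 0 ≤ ∑ w ∈ (T2 \ T1).filter (fun w => ¬ (nm w).Prime) ∩ Sf, f w :=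
          Finset.sum_nonneg fun w _ => hf0 w
        linarith
      refine le_trans (Finset.sum_le_sum_of_subset_of_nonneg ?_ fun w _ _ => hf0 w) h0
      intro w hw
      rw [Finset.mem_filter] at hw
      rw [Finset.mem_union, Finset.mem_filter, hSf, Set.Finite.mem_toFinset]
      by_cases hp : (nm w).Prime
      · right
        by_contra hwS
        exact hw.2 ⟨hp, hwS⟩
      · exact Or.inl ⟨hw.1, hp⟩
    have h3 : ∑ w ∈ (T2 \ T1).filter (fun w => ¬ (nm w).Prime), f w ≤ B :=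
      hB _ fun v hv => (Finset.mem_filter.1 hv).2
    have h4 : ∑ w ∈ Sf, f w ≤ N := by
      calc ∑ w ∈ Sf, f w ≤ ∑ w ∈ Sf, (1 : ℝ) := Finset.sum_le_sum fun w _ => hf1 w
        _ = N := by rw [hN]; simp
    linarith
  have hPT : P ⊆ T := by
    intro w hw
    rw [hP, Finset.mem_filter, Finset.mem_sdiff, m1, m2] at hw
    exact hT w hw.2.2 hw.2.1 (not_le.1 hw.1.2) hw.1.1
  have hlCx : 0 < Real.log (C * x) := Real.log_pos (by nlinarith)
  have hPf : ∑ w ∈ P, f w ≤ (P.card : ℝ) * (Real.log (C * x) / x) := by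
    rw [← nsmul_eq_mul]
    refine Finset.sum_le_card_nsmul _ _ _ fun w hw => ?_
    rw [hP, Finset.mem_filter, Finset.mem_sdiff, m1, m2] at hw
    have h1 : x < (nm w : ℝ) := not_le.1 hw.1.2
    exact div_le_div₀ hlCx.le (Real.log_le_log (by linarith) hw.1.1) hx0 h1.le
  have hcard : (P.card : ℝ) ≤ T.card := by exact_mod_cast Finset.card_le_card hPT
  have hone : 1 ≤ (T.card : ℝ) * (Real.log (C * x) / x) := by
    have h1 : 1 ≤ ∑ w ∈ P, f w := by linarith
    have h2 : 0 ≤ Real.log (C * x) / x := by positivity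
    exact h1.trans (hPf.trans (mul_le_mul_of_nonneg_right hcard h2))
  have hlx : 0 < Real.log x := Real.log_pos (by linarith)
  have hl2 : Real.log (C * x) ≤ C * Real.log x := by
    rw [Real.log_mul hC0.ne' hx0.ne']
    have h1 : Real.log C ≤ Real.log x := Real.log_le_log hC0 hx
    nlinarith
  rw [div_le_iff₀ (by positivity)]
  rw [mul_div_assoc', le_div_iff₀ hx0, one_mul] at hone
  calc x ≤ (T.card : ℝ) * Real.log (C * x) := hone
    _ ≤ (T.card : ℝ) * (C * Real.log x) := mul_le_mul_of_nonneg_left hl2 (Nat.cast_nonneg _)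

end Pool.Agent.H36.FA
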